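import Mathlib

/-!
# Definitions for the statement: interpretations, sequential theories, `S^1_2`, r.e. theories

All theories are sets of sentences of Mathlib's first-order languages (in universe `0`).
-/

open FirstOrder FirstOrder.Language

namespace Pool.Agent.Lib.MP_d999cd_lc

/-! ## Interpretations -/

/-- A relative translation of the language `L` into the language `L'`, of any finite dimension and
without parameters: a domain formula, a formula for identity, and a formula for every relation
symbol and for the graph of every function symbol.  The variable `(i, j)` is the `j`-th coordinate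
of the `i`-th argument; in the formula for a function symbol the last argument is the value. -/
structure Translation (L L' : FirstOrder.Language.{0, 0}) where
  /-- the dimension -/
  dim : ℕ
  /-- the domain formula -/
  dom : L'.Formula (Fin dim)
  /-- the formula for identity -/
  eqf : L'.Formula (Fin 2 × Fin dim)
  /-- the formula for a relation symbol -/
  rel : ∀ n, L.Relations n → L'.Formula (Fin n × Fin dim)
  /-- the formula for the graph of a function symbol -/
  fn : ∀ n, L.Functions n → L'.Formula (Fin (n + 1) × Fin dim)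

/-- `K.Presents π`: the map `π`, from the tuples of `M` that satisfy the domain formula of `K` onto
`N`, shows that `N` is the structure that the translation `K` defines in `M`: identity and the
symbols of `L` hold in `N` exactly when their translations hold in `M`. -/
structure Translation.Presents {L L' : FirstOrder.Language.{0, 0}} (K : Translation L L') {M N : Type}
    [L'.Structure M] [L.Structure N] (π : {a : Fin K.dim → M // K.dom.Realize a} → N) : Prop where
  surj : Function.Surjective π
  eq_iff : ∀ a : Fin 2 → {a : Fin K.dim → M // K.dom.Realize a},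
    π (a 0) = π (a 1) ↔ K.eqf.Realize fun p => (a p.1).1 p.2
  rel_iff : ∀ (n : ℕ) (R : L.Relations n) (a : Fin n → {a : Fin K.dim → M // K.dom.Realize a}),
    (Structure.RelMap R fun i => π (a i)) ↔ (K.rel n R).Realize fun p => (a p.1).1 p.2
  fn_iff : ∀ (n : ℕ) (f : L.Functions n)
    (a : Fin (n + 1) → {a : Fin K.dim → M // K.dom.Realize a}),
    (Structure.funMap f fun i : Fin n => π (a i.castSucc)) = π (a (Fin.last n)) ↔
      (K.fn n f).Realize fun p => (a p.1).1 p.2

/-- The theory `V` is interpretable in the theory `U`: there is a translation `K` such that in every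
model `M` of `U` it defines a model `N` of `V`.  (By the completeness theorem this says that `U`
proves the `K`-translation of every theorem of `V`.) -/
def Interpretable {L L' : FirstOrder.Language.{0, 0}} (V : L.Theory) (U : L'.Theory) : Prop :=
  ∃ K : Translation L L', ∀ (M : Type) [L'.Structure M] [Nonempty M], M ⊨ U →
    ∃ (N : Type) (_ : L.Structure N) (π : {a : Fin K.dim → M // K.dom.Realize a} → N),
      Nonempty N ∧ K.Presents π ∧ N ⊨ V

/-- Mutual interpretability. -/
def MutuallyInterpretable {L L' : FirstOrder.Language.{0, 0}} (V : L.Theory) (U : L'.Theory) : Prop :=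
  Interpretable V U ∧ Interpretable U V

/-- A theory `U` is sequential: it interprets adjunctive set theory `AS` directly, that is, some
formula `E(x, y)` satisfies in all models of `U` (so provably in `U`) the two axioms of `AS`: there
is an empty set, and for all `x`, `y` there is `z` such that `w ∈ z ↔ (w ∈ x ∨ w = y)`. -/
def Sequential {L : FirstOrder.Language.{0, 0}} (U : L.Theory) : Prop :=
  ∃ E : L.Formula (Fin 2), ∀ (M : Type) [L.Structure M] [Nonempty M], M ⊨ U →
    (∃ x : M, ∀ y : M, ¬ E.Realize ![y, x]) ∧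
      ∀ x y : M, ∃ z : M, ∀ w : M, E.Realize ![w, z] ↔ (E.Realize ![w, x] ∨ w = y)

/-! ## Recursively enumerable theories -/

/-- A numbering of the symbols of a language. -/
structure Numbering (L : FirstOrder.Language.{0, 0}) where
  /-- numbers of the function symbols -/
  fn : ∀ n, L.Functions n → ℕ
  /-- numbers of the relation symbols -/
  rel : ∀ n, L.Relations n → ℕ
  fn_inj : ∀ n, Function.Injective (fn n)
  rel_inj : ∀ n, Function.Injective (rel n)

/-- The code of a term, in Polish notation.  The variable `&k` in a context of `n` variables is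
coded by its de Bruijn index `n - 1 - k`. -/
def Numbering.termCode {L : FirstOrder.Language.{0, 0}} (ν : Numbering L) {n : ℕ} :
    L.Term (Empty ⊕ Fin n) → List ℕ
  | .var (.inl e) => e.elim
  | .var (.inr k) => [0, n - 1 - k]
  | @Term.func _ _ l f ts => [1, l, ν.fn l f] ++ (List.ofFn fun i => ν.termCode (ts i)).flatten

/-- The code of a formula, in Polish notation. -/
def Numbering.code {L : FirstOrder.Language.{0, 0}} (ν : Numbering L) :
    ∀ {n : ℕ}, L.BoundedFormula Empty n → List ℕ
  | _, .falsum => [2]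
  | _, .equal s t => [3] ++ ν.termCode s ++ ν.termCode t
  | _, @BoundedFormula.rel _ _ _ l R ts =>
      [4, l, ν.rel l R] ++ (List.ofFn fun i => ν.termCode (ts i)).flatten
  | _, .imp φ ψ => [5] ++ ν.code φ ++ ν.code ψ
  | _, .all φ => [6] ++ ν.code φ

/-- The theory `U` is recursively enumerable: the set of codes of its axioms is.  (For a language
with finitely many symbols this does not depend on the numbering of the symbols.) -/
def RecEnum {L : FirstOrder.Language.{0, 0}} (U : L.Theory) : Prop :=
  ∃ ν : Numbering L, REPred fun c : List ℕ => ∃ φ : L.Sentence, φ ∈ U ∧ ν.code φ = c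

/-! ## Buss's theory `S^1_2` -/

/-- The function symbols of bounded arithmetic. -/
inductive BFun : ℕ → Type
  | zero : BFun 0
  | succ : BFun 1
  | half : BFun 1
  | len : BFun 1
  | add : BFun 2
  | mul : BFun 2
  | smash : BFun 2

/-- The relation symbol of bounded arithmetic. -/
inductive BRel : ℕ → Type
  | le : BRel 2

/-- The language `0, S, ⌊x/2⌋, |x|, +, ×, #, ≤` of `S^1_2`. -/
def buss : FirstOrder.Language.{0, 0} := ⟨BFun, BRel⟩

namespace BA

section

variable {α : Type}

/-- the term `0` -/
def tO : buss.Term α := .func (BFun.zero : buss.Functions 0) Fin.elim0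
/-- the term `S t` -/
def tS (t : buss.Term α) : buss.Term α := .func (BFun.succ : buss.Functions 1) ![t]
/-- the term `⌊t/2⌋` -/
def tH (t : buss.Term α) : buss.Term α := .func (BFun.half : buss.Functions 1) ![t]
/-- the term `|t|` -/
def tL (t : buss.Term α) : buss.Term α := .func (BFun.len : buss.Functions 1) ![t]
/-- the term `s + t` -/
def tA (s t : buss.Term α) : buss.Term α := .func (BFun.add : buss.Functions 2) ![s, t]
/-- the term `s · t` -/
def tM (s t : buss.Term α) : buss.Term α := .func (BFun.mul : buss.Functions 2) ![s, t]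
/-- the term `s # t` -/
def tP (s t : buss.Term α) : buss.Term α := .func (BFun.smash : buss.Functions 2) ![s, t]
/-- the term `2 · t`, where `2 = S (S 0)` -/
def tD (t : buss.Term α) : buss.Term α := tM (tS (tS tO)) t

variable {n : ℕ}

/-- the formula `s ≤ t` -/
def fLe (s t : buss.Term (α ⊕ Fin n)) : buss.BoundedFormula α n :=
  .rel (BRel.le : buss.Relations 2) ![s, t]
/-- the formula `s = t` -/
def fEq (s t : buss.Term (α ⊕ Fin n)) : buss.BoundedFormula α n := .equal s t
/-- the formula `s ≠ t` -/
def fNe (s t : buss.Term (α ⊕ Fin n)) : buss.BoundedFormula α n := (fEq s t).not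
/-- conjunction -/
def fAnd (φ ψ : buss.BoundedFormula α n) : buss.BoundedFormula α n := φ ⊓ ψ
/-- disjunction -/
def fOr (φ ψ : buss.BoundedFormula α n) : buss.BoundedFormula α n := φ ⊔ ψ
/-- implication -/
def fImp (φ ψ : buss.BoundedFormula α n) : buss.BoundedFormula α n := φ.imp ψ
/-- equivalence -/
def fIff (φ ψ : buss.BoundedFormula α n) : buss.BoundedFormula α n := φ.iff ψ

/-- A term in a context with one more bound variable. -/
def up (t : buss.Term (α ⊕ Fin n)) : buss.Term (α ⊕ Fin (n + 1)) :=
  t.relabel (Sum.map id Fin.castSucc)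

/-- The bounded quantifier `∀ x ≤ t, φ(x)`. -/
def fAllLe (t : buss.Term (α ⊕ Fin n)) (φ : buss.BoundedFormula α (n + 1)) :
    buss.BoundedFormula α n :=
  .all (fImp (fLe (.var (.inr (Fin.last n))) (up t)) φ)

/-- The bounded quantifier `∃ x ≤ t, φ(x)`. -/
def fExLe (t : buss.Term (α ⊕ Fin n)) (φ : buss.BoundedFormula α (n + 1)) :
    buss.BoundedFormula α n :=
  .ex (fAnd (fLe (.var (.inr (Fin.last n))) (up t)) φ)

end

/-- The classes `Σ^b_1` (`SigPi true`) and `Π^b_1` (`SigPi false`) of formulas: the smallest pair of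
classes that contain the atomic formulas and are closed under the propositional connectives (the
premise of an implication is taken from the other class), under sharply bounded quantification
`∀ x ≤ |t|`, `∃ x ≤ |t|`, and under `∃ x ≤ t` for `Σ^b_1` and `∀ x ≤ t` for `Π^b_1`. -/
inductive SigPi {α : Type} : Bool → ∀ {n : ℕ}, buss.BoundedFormula α n → Prop
  | falsum (b : Bool) {n : ℕ} : SigPi b (.falsum : buss.BoundedFormula α n)
  | equal (b : Bool) {n : ℕ} (s t : buss.Term (α ⊕ Fin n)) : SigPi b (.equal s t)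
  | rel (b : Bool) {n l : ℕ} (R : buss.Relations l) (ts : Fin l → buss.Term (α ⊕ Fin n)) :
      SigPi b (.rel R ts)
  | imp (b : Bool) {n : ℕ} {φ ψ : buss.BoundedFormula α n} :
      SigPi (!b) φ → SigPi b ψ → SigPi b (φ.imp ψ)
  | sharpAll (b : Bool) {n : ℕ} (t : buss.Term (α ⊕ Fin n)) {φ : buss.BoundedFormula α (n + 1)} :
      SigPi b φ → SigPi b (fAllLe (tL t) φ)
  | sharpEx (b : Bool) {n : ℕ} (t : buss.Term (α ⊕ Fin n)) {φ : buss.BoundedFormula α (n + 1)} :
      SigPi b φ → SigPi b (fExLe (tL t) φ)
  | ex {n : ℕ} (t : buss.Term (α ⊕ Fin n)) {φ : buss.BoundedFormula α (n + 1)} :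
      SigPi true φ → SigPi true (fExLe t φ)
  | all {n : ℕ} (t : buss.Term (α ⊕ Fin n)) {φ : buss.BoundedFormula α (n + 1)} :
      SigPi false φ → SigPi false (fAllLe t φ)

/-- Substitution of the term `t` for the last variable of `φ`. -/
def substLast {n : ℕ} (φ : buss.Formula (Fin (n + 1))) (t : buss.Term (Fin (n + 1))) :
    buss.Formula (Fin (n + 1)) :=
  BoundedFormula.subst φ fun i => if i = Fin.last n then t else .var i

/-- The formula `φ(x_0, …, x_n)` as a formula in the context of `n + 1` bound variables. -/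
def bd {n : ℕ} (φ : buss.Formula (Fin (n + 1))) : buss.BoundedFormula Empty (n + 1) :=
  BoundedFormula.relabel (Sum.inr : Fin (n + 1) → Empty ⊕ Fin (n + 1)) φ

/-- Polynomial induction for the formula `φ(p, x)`, where `x` is the last variable and `p` are
the others: for all `p`, if `φ(p, 0)` and `∀ x (φ(p, ⌊x/2⌋) → φ(p, x))`, then `∀ x φ(p, x)`. -/
def pind {n : ℕ} (φ : buss.Formula (Fin (n + 1))) : buss.Sentence :=
  (BoundedFormula.imp (BoundedFormula.all (bd (substLast φ tO)))
    (BoundedFormula.imp
      (BoundedFormula.all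
        (BoundedFormula.imp (bd (substLast φ (tH (.var (Fin.last n))))) (bd φ)))
      (BoundedFormula.all (bd φ)))).alls

/-- The variables `x, y, z, u, v` of the axioms `BASIC`. -/
def vr (k : Fin 5) : buss.Term (Empty ⊕ Fin 5) := .var (.inr k)

/-- the variable `x` -/
def vx : buss.Term (Empty ⊕ Fin 5) := vr 0
/-- the variable `y` -/
def vy : buss.Term (Empty ⊕ Fin 5) := vr 1
/-- the variable `z` -/
def vz : buss.Term (Empty ⊕ Fin 5) := vr 2
/-- the variable `u` -/
def vu : buss.Term (Empty ⊕ Fin 5) := vr 3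
/-- the variable `v` -/
def vv : buss.Term (Empty ⊕ Fin 5) := vr 4

/-- Buss's 32 axioms `BASIC` (without the universal quantifiers). -/
def basic1 : buss.BoundedFormula Empty 5 := fImp (fLe vy vx) (fLe vy (tS vx))
/-- `x ≠ S x` -/
def basic2 : buss.BoundedFormula Empty 5 := fNe vx (tS vx)
/-- `0 ≤ x` -/
def basic3 : buss.BoundedFormula Empty 5 := fLe tO vx
/-- `x ≤ y ∧ x ≠ y ↔ S x ≤ y` -/
def basic4 : buss.BoundedFormula Empty 5 := fIff (fAnd (fLe vx vy) (fNe vx vy)) (fLe (tS vx) vy)
/-- `x ≠ 0 → 2 x ≠ 0` -/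
def basic5 : buss.BoundedFormula Empty 5 := fImp (fNe vx tO) (fNe (tD vx) tO)
/-- `y ≤ x ∨ x ≤ y` -/
def basic6 : buss.BoundedFormula Empty 5 := fOr (fLe vy vx) (fLe vx vy)
/-- `x ≤ y ∧ y ≤ x → x = y` -/
def basic7 : buss.BoundedFormula Empty 5 := fImp (fAnd (fLe vx vy) (fLe vy vx)) (fEq vx vy)
/-- `x ≤ y ∧ y ≤ z → x ≤ z` -/
def basic8 : buss.BoundedFormula Empty 5 := fImp (fAnd (fLe vx vy) (fLe vy vz)) (fLe vx vz)
/-- `|0| = 0` -/
def basic9 : buss.BoundedFormula Empty 5 := fEq (tL tO) tO
/-- `x ≠ 0 → |2 x| = S |x| ∧ |S (2 x)| = S |x|` -/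
def basic10 : buss.BoundedFormula Empty 5 :=
  fImp (fNe vx tO) (fAnd (fEq (tL (tD vx)) (tS (tL vx))) (fEq (tL (tS (tD vx))) (tS (tL vx))))
/-- `|S 0| = S 0` -/
def basic11 : buss.BoundedFormula Empty 5 := fEq (tL (tS tO)) (tS tO)
/-- `x ≤ y → |x| ≤ |y|` -/
def basic12 : buss.BoundedFormula Empty 5 := fImp (fLe vx vy) (fLe (tL vx) (tL vy))
/-- `|x # y| = S (|x| |y|)` -/
def basic13 : buss.BoundedFormula Empty 5 := fEq (tL (tP vx vy)) (tS (tM (tL vx) (tL vy)))
/-- `0 # y = S 0` -/
def basic14 : buss.BoundedFormula Empty 5 := fEq (tP tO vy) (tS tO)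
/-- `x ≠ 0 → 1 # (2 x) = 2 (1 # x) ∧ 1 # (S (2 x)) = 2 (1 # x)` -/
def basic15 : buss.BoundedFormula Empty 5 :=
  fImp (fNe vx tO) (fAnd (fEq (tP (tS tO) (tD vx)) (tD (tP (tS tO) vx)))
    (fEq (tP (tS tO) (tS (tD vx))) (tD (tP (tS tO) vx))))
/-- `x # y = y # x` -/
def basic16 : buss.BoundedFormula Empty 5 := fEq (tP vx vy) (tP vy vx)
/-- `|x| = |y| → x # z = y # z` -/
def basic17 : buss.BoundedFormula Empty 5 :=
  fImp (fEq (tL vx) (tL vy)) (fEq (tP vx vz) (tP vy vz))
/-- `|x| = |u| + |v| → x # y = (u # y) (v # y)` -/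
def basic18 : buss.BoundedFormula Empty 5 :=
  fImp (fEq (tL vx) (tA (tL vu) (tL vv))) (fEq (tP vx vy) (tM (tP vu vy) (tP vv vy)))
/-- `x ≤ x + y` -/
def basic19 : buss.BoundedFormula Empty 5 := fLe vx (tA vx vy)
/-- `x ≤ y ∧ x ≠ y → S (2 x) ≤ 2 y ∧ S (2 x) ≠ 2 y` -/
def basic20 : buss.BoundedFormula Empty 5 :=
  fImp (fAnd (fLe vx vy) (fNe vx vy)) (fAnd (fLe (tS (tD vx)) (tD vy)) (fNe (tS (tD vx)) (tD vy)))
/-- `x + y = y + x` -/
def basic21 : buss.BoundedFormula Empty 5 := fEq (tA vx vy) (tA vy vx)
/-- `x + 0 = x` -/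
def basic22 : buss.BoundedFormula Empty 5 := fEq (tA vx tO) vx
/-- `x + S y = S (x + y)` -/
def basic23 : buss.BoundedFormula Empty 5 := fEq (tA vx (tS vy)) (tS (tA vx vy))
/-- `(x + y) + z = x + (y + z)` -/
def basic24 : buss.BoundedFormula Empty 5 := fEq (tA (tA vx vy) vz) (tA vx (tA vy vz))
/-- `x + y ≤ x + z ↔ y ≤ z` -/
def basic25 : buss.BoundedFormula Empty 5 := fIff (fLe (tA vx vy) (tA vx vz)) (fLe vy vz)
/-- `x 0 = 0` -/
def basic26 : buss.BoundedFormula Empty 5 := fEq (tM vx tO) tO
/-- `x (S y) = x y + x` -/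
def basic27 : buss.BoundedFormula Empty 5 := fEq (tM vx (tS vy)) (tA (tM vx vy) vx)
/-- `x y = y x` -/
def basic28 : buss.BoundedFormula Empty 5 := fEq (tM vx vy) (tM vy vx)
/-- `x (y + z) = x y + x z` -/
def basic29 : buss.BoundedFormula Empty 5 :=
  fEq (tM vx (tA vy vz)) (tA (tM vx vy) (tM vx vz))
/-- `S 0 ≤ x → (x y ≤ x z ↔ y ≤ z)` -/
def basic30 : buss.BoundedFormula Empty 5 :=
  fImp (fLe (tS tO) vx) (fIff (fLe (tM vx vy) (tM vx vz)) (fLe vy vz))
/-- `x ≠ 0 → |x| = S |⌊x/2⌋|` -/
def basic31 : buss.BoundedFormula Empty 5 := fImp (fNe vx tO) (fEq (tL vx) (tS (tL (tH vx))))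
/-- `x = ⌊y/2⌋ ↔ (2 x = y ∨ S (2 x) = y)` -/
def basic32 : buss.BoundedFormula Empty 5 :=
  fIff (fEq vx (tH vy)) (fOr (fEq (tD vx) vy) (fEq (tS (tD vx)) vy))

/-- The list of Buss's 32 axioms `BASIC`. -/
def basicList : List (buss.BoundedFormula Empty 5) :=
  [basic1, basic2, basic3, basic4, basic5, basic6, basic7, basic8, basic9, basic10, basic11,
    basic12, basic13, basic14, basic15, basic16, basic17, basic18, basic19, basic20, basic21,
    basic22, basic23, basic24, basic25, basic26, basic27, basic28, basic29, basic30, basic31,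
    basic32]

end BA

/-- Buss's theory `S^1_2`: `BASIC` and polynomial induction for all `Σ^b_1`-formulas (with
parameters). -/
def S12 : buss.Theory :=
  {σ | ∃ φ ∈ BA.basicList, σ = φ.alls} ∪
    {σ | ∃ (n : ℕ) (φ : buss.Formula (Fin (n + 1))), BA.SigPi true φ ∧ σ = BA.pind φ}

/-- `T` is an extension of `S^1_2` in the same language: it proves all axioms of `S^1_2`. -/
def ExtendsS12 (T : buss.Theory) : Prop := ∀ σ ∈ S12, T ⊨ᵇ σ

/-- The negative answer to Q1: there is a sequential theory `U` (in a language with finitely many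
symbols, recursively enumerable) that is not mutually interpretable with any extension `T` of
`S^1_2` in the language of `S^1_2`. -/
def NegativeAnswer : Prop :=
  ∃ (L : FirstOrder.Language.{0, 0}) (U : L.Theory),
    (Finite (Σ n, L.Functions n) ∧ Finite (Σ n, L.Relations n)) ∧ RecEnum U ∧ Sequential U ∧
      ∀ T : buss.Theory, ExtendsS12 T → ¬ MutuallyInterpretable T U

end Pool.Agent.Lib.MP_d999cd_lc
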