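import Mathlib

/-!
# Syntax: binary trees, formulas with ternary relations and explicit substitution

* `Tr`: binary trees, the universal data type (numerals `num k`, lists).
* `Fm`: formulas; de Bruijn indices (index `0` = innermost variable); all relation symbols are
  ternary and named by natural numbers; `sb a u v w` is the explicit substitution `a` at the
  variables `u, v, w` which closes the environment.
* `cod : Fm → Tr`, `dec : Tr → Fm` (total, garbage is decoded as `bot`).
* `tr s` : translation of formulas in the language `0, 1, 2` of Horn structures.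
-/

namespace Pool.Agent.Lib.MP_d999cd_lc

/-- Binary trees. -/
inductive Tr : Type
  | nil : Tr
  | node : Tr → Tr → Tr
  deriving DecidableEq

/-- Numerals. -/
def num : ℕ → Tr
  | 0 => .nil
  | k + 1 => .node .nil (num k)

/-- Length of the right spine. -/
def len : Tr → ℕ
  | .nil => 0
  | .node _ b => len b + 1

/-- The list coded by a tree. -/
def toL : Tr → List Tr
  | .nil => []
  | .node a b => a :: toL b

@[simp] theorem len_nil : len .nil = 0 := rfl

@[simp] theorem len_node (a b : Tr) : len (.node a b) = len b + 1 := rfl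

@[simp] theorem toL_nil : toL .nil = [] := rfl

@[simp] theorem toL_node (a b : Tr) : toL (.node a b) = a :: toL b := rfl

@[simp] theorem len_num (k : ℕ) : len (num k) = k := by
  induction k with
  | zero => rfl
  | succ k ih => simp [num, ih]

theorem num_inj {j k : ℕ} : num j = num k ↔ j = k :=
  ⟨fun h => by rw [← len_num j, h, len_num], fun h => by rw [h]⟩

/-- Formulas. -/
inductive Fm : Type
  | bot : Fm
  | imp : Fm → Fm → Fm
  | all : Fm → Fm
  | rl : ℕ → ℕ → ℕ → ℕ → Fm
  | sb : Fm → ℕ → ℕ → ℕ → Fm

/-! ## Codes -/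

/-- Code of an implication. -/
@[reducible] def impT (a b : Tr) : Tr := .node .nil (.node a b)
/-- Code of a universal quantifier. -/
@[reducible] def allT (a : Tr) : Tr := .node (.node .nil .nil) a
/-- Code of an atomic formula. -/
@[reducible] def rlT (i u v w : Tr) : Tr :=
  .node (.node .nil (.node .nil .nil)) (.node i (.node u (.node v w)))
/-- Code of an explicit substitution. -/
@[reducible] def sbT (a u v w : Tr) : Tr :=
  .node (.node (.node .nil .nil) .nil) (.node a (.node u (.node v w)))

/-- The code of a formula. -/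
def cod : Fm → Tr
  | .bot => .nil
  | .imp a b => impT (cod a) (cod b)
  | .all a => allT (cod a)
  | .rl i u v w => rlT (num i) (num u) (num v) (num w)
  | .sb a u v w => sbT (cod a) (num u) (num v) (num w)

/-- Total decoding; garbage is decoded as `bot`. -/
def dec : Tr → Fm
  | .node .nil (.node a b) => .imp (dec a) (dec b)
  | .node (.node .nil .nil) a => .all (dec a)
  | .node (.node .nil (.node .nil .nil)) (.node i (.node u (.node v w))) =>
      .rl (len i) (len u) (len v) (len w)
  | .node (.node (.node .nil .nil) .nil) (.node a (.node u (.node v w))) =>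
      .sb (dec a) (len u) (len v) (len w)
  | _ => .bot

theorem dec_nil : dec .nil = .bot := rfl

theorem dec_imp (a b : Tr) : dec (impT a b) = .imp (dec a) (dec b) := rfl

theorem dec_all (a : Tr) : dec (allT a) = .all (dec a) := rfl

theorem dec_rl (i u v w : Tr) : dec (rlT i u v w) = .rl (len i) (len u) (len v) (len w) := rfl

theorem dec_sb (a u v w : Tr) : dec (sbT a u v w) = .sb (dec a) (len u) (len v) (len w) := rfl

@[simp] theorem dec_cod (a : Fm) : dec (cod a) = a := by
  induction a with
  | bot => rfl
  | imp a b iha ihb => rw [cod, dec_imp, iha, ihb]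
  | all a ih => rw [cod, dec_all, ih]
  | rl i u v w => rw [cod, dec_rl]; simp
  | sb a u v w ih => rw [cod, dec_sb, ih]; simp

/-! ## Semantics -/

/-- A structure with ternary relations indexed by natural numbers. -/
structure Str (A : Type) where
  /-- The relations. -/
  rel : ℕ → A → A → A → Prop

/-- Add a new innermost variable. -/
def cons {A : Type} (x : A) (e : ℕ → A) : ℕ → A
  | 0 => x
  | i + 1 => e i

/-- The environment with three values. -/
def tri {A : Type} (x y z : A) : ℕ → A
  | 0 => x
  | 1 => y
  | _ => z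

@[simp] theorem cons_zero {A : Type} (x : A) (e : ℕ → A) : cons x e 0 = x := rfl

@[simp] theorem cons_succ {A : Type} (x : A) (e : ℕ → A) (i : ℕ) : cons x e (i + 1) = e i := rfl

@[simp] theorem cons_one {A : Type} (x : A) (e : ℕ → A) : cons x e 1 = e 0 := rfl

@[simp] theorem tri_zero {A : Type} (x y z : A) : tri x y z 0 = x := rfl

@[simp] theorem tri_one {A : Type} (x y z : A) : tri x y z 1 = y := rfl

@[simp] theorem tri_two {A : Type} (x y z : A) : tri x y z 2 = z := rfl

/-- Truth of a formula in an environment. -/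
def sat {A : Type} (S : Str A) : Fm → (ℕ → A) → Prop
  | .bot, _ => False
  | .imp a b, e => sat S a e → sat S b e
  | .all a, e => ∀ x, sat S a (cons x e)
  | .rl i u v w, e => S.rel i (e u) (e v) (e w)
  | .sb a u v w, e => sat S a (tri (e u) (e v) (e w))

/-- Negation. -/
@[reducible] def Fm.neg (a : Fm) : Fm := .imp a .bot
/-- Existential quantifier. -/
@[reducible] def Fm.ex (a : Fm) : Fm := .neg (.all (.neg a))
/-- Conjunction. -/
@[reducible] def Fm.conj (a b : Fm) : Fm := .neg (.imp a (.neg b))
/-- Disjunction. -/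
@[reducible] def Fm.disj (a b : Fm) : Fm := .imp (.neg a) b
/-- Equivalence. -/
@[reducible] def Fm.equ (a b : Fm) : Fm := .conj (.imp a b) (.imp b a)
/-- Truth. -/
@[reducible] def Fm.top : Fm := .neg .bot

section

variable {A : Type} (S : Str A)

theorem sat_bot (e : ℕ → A) : sat S .bot e ↔ False := Iff.rfl

theorem sat_imp (a b : Fm) (e : ℕ → A) : sat S (.imp a b) e ↔ (sat S a e → sat S b e) := Iff.rfl

theorem sat_all (a : Fm) (e : ℕ → A) : sat S (.all a) e ↔ ∀ x, sat S a (cons x e) := Iff.rfl

theorem sat_rl (i u v w : ℕ) (e : ℕ → A) :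
    sat S (.rl i u v w) e ↔ S.rel i (e u) (e v) (e w) := Iff.rfl

theorem sat_sb (a : Fm) (u v w : ℕ) (e : ℕ → A) :
    sat S (.sb a u v w) e ↔ sat S a (tri (e u) (e v) (e w)) := Iff.rfl

theorem sat_neg (a : Fm) (e : ℕ → A) : sat S a.neg e ↔ ¬ sat S a e := Iff.rfl

theorem sat_top (e : ℕ → A) : sat S .top e ↔ True := by
  rw [Fm.top, sat_neg, sat_bot]
  exact not_false_iff

theorem sat_ex (a : Fm) (e : ℕ → A) : sat S a.ex e ↔ ∃ x, sat S a (cons x e) := by
  rw [Fm.ex, sat_neg, sat_all]
  simp only [sat_neg]
  push Not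
  rfl

theorem sat_conj (a b : Fm) (e : ℕ → A) : sat S (a.conj b) e ↔ (sat S a e ∧ sat S b e) := by
  rw [Fm.conj, sat_neg, sat_imp, sat_neg]
  tauto

theorem sat_disj (a b : Fm) (e : ℕ → A) : sat S (a.disj b) e ↔ (sat S a e ∨ sat S b e) := by
  rw [Fm.disj, sat_imp, sat_neg]
  tauto

theorem sat_equ (a b : Fm) (e : ℕ → A) : sat S (a.equ b) e ↔ (sat S a e ↔ sat S b e) := by
  rw [Fm.equ, sat_conj, sat_imp, sat_imp]
  tauto

end

/-- Conjunction of a list. -/
def Fm.conjL : List Fm → Fm
  | [] => .top
  | a :: l => .conj a (Fm.conjL l)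

theorem sat_conjL {A : Type} (S : Str A) (l : List Fm) (e : ℕ → A) :
    sat S (Fm.conjL l) e ↔ ∀ a ∈ l, sat S a e := by
  induction l with
  | nil => simp [Fm.conjL, sat_top]
  | cons a l ih => rw [Fm.conjL, sat_conj, ih]; simp

/-! ## Translations of the language `0 = Nil, 1 = Node, 2 = Der` -/

/-- A one-dimensional translation of the language `0, 1, 2`. -/
structure Tln where
  /-- the domain formula (variable `0`) -/
  dom : Fm
  /-- the formula for the relation symbol `0` (variables `0, 1, 2`) -/
  q0 : Fm
  /-- the formula for the relation symbol `1` -/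
  q1 : Fm
  /-- the formula for the relation symbols `≥ 2` -/
  q2 : Fm

/-- The formula for the relation symbol `i`. -/
def Tln.q (s : Tln) : ℕ → Fm
  | 0 => s.q0
  | 1 => s.q1
  | _ => s.q2

/-- The translation of formulas. -/
def tr (s : Tln) : Fm → Fm
  | .bot => .bot
  | .imp a b => .imp (tr s a) (tr s b)
  | .all a => .all (.imp (.sb s.dom 0 0 0) (tr s a))
  | .rl i u v w => .sb (s.q i) u v w
  | .sb a u v w => .sb (tr s a) u v w

/-- Formulas in the relation symbols `0, 1, 2` only. -/
def Fm.H : Fm → Prop
  | .bot => True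
  | .imp a b => a.H ∧ b.H
  | .all a => a.H
  | .rl i _ _ _ => i ≤ 2
  | .sb a _ _ _ => a.H

/-- **Relative surjections.**  If `F x b` (read: `x` represents `b`) relates the domain of `s` in
`A` with all of `B` and the formulas of `s` with the relations of `B`, then the translation of a
formula is true in `A` iff the formula is true in `B`. -/
theorem sat_tr {A B : Type} {S : Str A} {T : Str B} {s : Tln} (F : A → B → Prop)
    (hdom : ∀ x, sat S s.dom (tri x x x) ↔ ∃ b, F x b) (hsurj : ∀ b, ∃ x, F x b)
    (hrel : ∀ i ≤ 2, ∀ x y z a b c, F x a → F y b → F z c →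
      (sat S (s.q i) (tri x y z) ↔ T.rel i a b c)) {φ : Fm} (hφ : φ.H) :
    ∀ (e : ℕ → A) (e' : ℕ → B), (∀ i, F (e i) (e' i)) → (sat S (tr s φ) e ↔ sat T φ e') := by
  have htri : ∀ {x y z : A} {a b c : B}, F x a → F y b → F z c → ∀ i, F (tri x y z i) (tri a b c i) := by
    intro x y z a b c hx hy hz i
    rcases i with _ | _ | i
    · exact hx
    · exact hy
    · exact hz
  induction φ with
  | bot => exact fun _ _ _ => Iff.rfl
  | imp a b iha ihb => exact fun e e' h => imp_congr (iha hφ.1 e e' h) (ihb hφ.2 e e' h)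
  | all a ih =>
    intro e e' h
    rw [tr, sat_all, sat_all]
    simp only [sat_imp, sat_sb, cons_zero, hdom]
    constructor
    · intro H b
      obtain ⟨x, hx⟩ := hsurj b
      refine (ih hφ _ _ fun i => ?_).1 (H x ⟨b, hx⟩)
      rcases i with _ | i
      · exact hx
      · exact h i
    · rintro H x ⟨b, hx⟩
      refine (ih hφ _ _ fun i => ?_).2 (H b)
      rcases i with _ | i
      · exact hx
      · exact h i
  | rl i u v w =>
    intro e e' h
    rw [tr, sat_sb, sat_rl]
    exact hrel i hφ _ _ _ _ _ _ (h u) (h v) (h w)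
  | sb a u v w ih =>
    intro e e' h
    rw [tr, sat_sb, sat_sb]
    exact ih hφ _ _ (htri (h u) (h v) (h w))

/-- The structure defined by a translation. -/
def Tln.str {A : Type} (S : Str A) (s : Tln) : Str {x : A // sat S s.dom (tri x x x)} where
  rel i x y z := sat S (s.q i) (tri x y z)

theorem sat_tr_str {A : Type} {S : Str A} {s : Tln} {φ : Fm} (hφ : φ.H)
    (e : ℕ → {x : A // sat S s.dom (tri x x x)}) :
    sat S (tr s φ) (fun i => e i) ↔ sat (s.str S) φ e := by
  refine sat_tr (fun x b => x = b.1) (fun x => ?_) (fun b => ⟨b.1, rfl⟩) ?_ hφ _ _ fun i => rfl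
  · constructor
    · intro h
      exact ⟨⟨x, h⟩, rfl⟩
    · rintro ⟨b, rfl⟩
      exact b.2
  · rintro i _ x y z a b c rfl rfl rfl
    exact Iff.rfl

end Pool.Agent.Lib.MP_d999cd_lc
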