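import Mathlib
import Pool.Agent.Lib.MP_d999cd_lc.Syn
import Pool.Agent.Lib.MP_d999cd_lc.Stmt

/-!
# The language of `U`

* `LU`: a language with six ternary relation symbols `nil, cons, pure, mem, par, top`, which have
  the numbers `0, 1, 3, 5, 9, 10` in `Fm`; the number `2` is equality.
* `toStr M`, `ofStr S`: Mathlib structures versus `Str`.
* `toML`, `sent`: formulas `Fm` as Mathlib formulas and sentences.
* `fromML`: Mathlib formulas as `Fm`.
* `tok`: codes.
-/

open FirstOrder FirstOrder.Language

namespace Pool.Agent.Lib.MP_d999cd_lc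

/-- The six relation symbols of `U`. -/
inductive USym : Type
  | nil | cons | pure | mem | par | top
  deriving DecidableEq, Fintype

/-- The relation symbols of `U`; all are ternary. -/
inductive URel : ℕ → Type
  | mk : USym → URel 3

/-- The language of `U`. -/
def LU : FirstOrder.Language.{0, 0} := ⟨fun _ => Empty, URel⟩

/-- The relation symbol of `LU` for a symbol. -/
def USym.rel (s : USym) : LU.Relations 3 := URel.mk s

theorem finite_LU : Finite (Σ n, LU.Functions n) ∧ Finite (Σ n, LU.Relations n) := by
  constructor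
  · have : IsEmpty (Σ n, LU.Functions n) := ⟨fun x => (x.2 : Empty).elim⟩
    infer_instance
  · have h : Function.Surjective (fun s : USym => (⟨3, s.rel⟩ : Σ n, LU.Relations n)) := by
      rintro ⟨_, ⟨s⟩⟩
      exact ⟨s, rfl⟩
    exact Finite.of_surjective _ h

/-- The number of a symbol. -/
def USym.num : USym → ℕ
  | .nil => 0
  | .cons => 1
  | .pure => 3
  | .mem => 5
  | .par => 9
  | .top => 10

/-- The symbol with a given number. -/
def USym.of : ℕ → Option USym
  | 0 => some .nil
  | 1 => some .cons
  | 3 => some .pure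
  | 5 => some .mem
  | 9 => some .par
  | 10 => some .top
  | _ => none

theorem USym.of_num (s : USym) : USym.of s.num = some s := by
  cases s <;> rfl

theorem USym.num_ne_two (s : USym) : s.num ≠ 2 := by
  cases s <;> decide

theorem USym.num_inj : Function.Injective USym.num := by
  intro s t h
  have := congrArg USym.of h
  rw [USym.of_num, USym.of_num] at this
  exact Option.some.inj this

theorem USym.of_eq_some {i : ℕ} {s : USym} (h : USym.of i = some s) : s.num = i := by
  unfold USym.of at h
  split at h <;> first | (cases h; rfl) | cases h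

/-- A Mathlib structure as a `Str`. -/
def toStr (M : Type) [LU.Structure M] : Str M where
  rel i x y z := if i = 2 then x = y else
    match USym.of i with
    | none => False
    | some s => Structure.RelMap s.rel ![x, y, z]

/-- A `Str` as a Mathlib structure. -/
@[reducible] def ofStr {A : Type} (S : Str A) : LU.Structure A where
  funMap f _ := (f : Empty).elim
  RelMap {n} R := match n, (R : URel n) with
    | _, .mk s => fun v : Fin 3 → A => S.rel s.num (v 0) (v 1) (v 2)

section

variable {M : Type} [LU.Structure M]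

theorem toStr_eq (x y z : M) : (toStr M).rel 2 x y z ↔ x = y := Iff.rfl

theorem toStr_sym (s : USym) (x y z : M) :
    (toStr M).rel s.num x y z ↔ Structure.RelMap s.rel ![x, y, z] := by
  unfold toStr
  simp only [s.num_ne_two, if_false, USym.of_num]

theorem toStr_none {i : ℕ} (h2 : i ≠ 2) (h : USym.of i = none) (x y z : M) :
    ¬ (toStr M).rel i x y z := by
  unfold toStr
  simp [h2, h]

end

/-- The formula uses only the symbols of `U` and equality. -/
def Fm.U : Fm → Prop
  | .bot => True
  | .imp a b => a.U ∧ b.U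
  | .all a => a.U
  | .rl i _ _ _ => i = 2 ∨ (USym.of i).isSome
  | .sb a _ _ _ => a.U

theorem toStr_ofStr_rel {A : Type} (S : Str A) (hS : ∀ x y z, S.rel 2 x y z ↔ x = y) (i : ℕ)
    (hi : i = 2 ∨ (USym.of i).isSome) (x y z : A) :
    (@toStr A (ofStr S)).rel i x y z ↔ S.rel i x y z := by
  let _ := ofStr S
  by_cases h2 : i = 2
  · subst h2
    exact (hS x y z).symm
  · obtain ⟨s, hs⟩ := Option.isSome_iff_exists.1 (hi.resolve_left h2)
    obtain rfl := USym.of_eq_some hs
    exact toStr_sym s x y z

theorem sat_toStr_ofStr {A : Type} (S : Str A) (hS : ∀ x y z, S.rel 2 x y z ↔ x = y) {φ : Fm}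
    (hφ : φ.U) : ∀ e : ℕ → A, sat (@toStr A (ofStr S)) φ e ↔ sat S φ e := by
  induction φ with
  | bot => exact fun _ => Iff.rfl
  | imp a b iha ihb => exact fun e => imp_congr (iha hφ.1 e) (ihb hφ.2 e)
  | all a ih => exact fun e => forall_congr' fun x => ih hφ _
  | rl i u v w => exact fun e => toStr_ofStr_rel S hS i hφ _ _ _
  | sb a u v w ih => exact fun e => ih hφ _

/-! ## From `Fm` to Mathlib formulas -/

/-- The Mathlib formula of `φ`, where `ρ` gives the variables. -/
def toML : Fm → (n : ℕ) → (ℕ → Fin n) → LU.BoundedFormula Empty n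
  | .bot, _, _ => .falsum
  | .imp a b, n, ρ => .imp (toML a n ρ) (toML b n ρ)
  | .all a, n, ρ => .all (toML a (n + 1) (cons (Fin.last n) fun i => (ρ i).castSucc))
  | .rl i u v w, _, ρ =>
    if i = 2 then .equal (.var (.inr (ρ u))) (.var (.inr (ρ v))) else
      match USym.of i with
      | none => .falsum
      | some s => .rel s.rel
          ![.var (.inr (ρ u)), .var (.inr (ρ v)), .var (.inr (ρ w))]
  | .sb a u v w, n, ρ => toML a n (tri (ρ u) (ρ v) (ρ w))

theorem map_tri {A B : Type} (f : A → B) (x y z : A) (i : ℕ) :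
    f (tri x y z i) = tri (f x) (f y) (f z) i := by
  rcases i with _ | _ | i <;> rfl

theorem realize_toML {M : Type} [LU.Structure M] (φ : Fm) : ∀ (n : ℕ) (ρ : ℕ → Fin n)
    (v : Empty → M) (xs : Fin n → M),
    (toML φ n ρ).Realize v xs ↔ sat (toStr M) φ fun i => xs (ρ i) := by
  induction φ with
  | bot => exact fun _ _ _ _ => Iff.rfl
  | imp a b iha ihb => exact fun n ρ v xs => imp_congr (iha n ρ v xs) (ihb n ρ v xs)
  | all a ih =>
    intro n ρ v xs
    refine forall_congr' fun x => ?_
    rw [ih]
    have : (fun i => (Fin.snoc xs x : Fin (n + 1) → M)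
        (cons (Fin.last n) (fun i => (ρ i).castSucc) i)) = cons x fun i => xs (ρ i) := by
      funext i
      rcases i with _ | i
      · simp
      · simp
    rw [this]
  | rl i u v w =>
    intro n ρ v' xs
    by_cases h2 : i = 2
    · subst h2
      exact Iff.rfl
    · cases h : USym.of i with
      | none =>
        rw [sat_rl, iff_false_intro (toStr_none h2 h _ _ _)]
        simp only [toML, h2, if_false, h]
        exact Iff.rfl
      | some s =>
        obtain rfl := USym.of_eq_some h
        rw [sat_rl, toStr_sym]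
        simp only [toML, h2, if_false, h]
        have : (fun j => (![.var (.inr (ρ u)), .var (.inr (ρ v)), .var (.inr (ρ w))] j :
            LU.Term (Empty ⊕ Fin n)).realize (Sum.elim v' xs)) =
            ![xs (ρ u), xs (ρ v), xs (ρ w)] := by
          funext j
          fin_cases j <;> rfl
        rw [← this]
        exact Iff.rfl
  | sb a u v w ih =>
    intro n ρ v' xs
    rw [sat_sb]
    refine (ih n _ v' xs).trans ?_
    rw [iff_eq_eq]
    congr 1
    funext i
    exact map_tri xs _ _ _ i

/-- The sentence of `φ`: true iff `φ` holds in all constant environments. -/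
def sent (φ : Fm) : LU.Sentence := (toML φ 1 fun _ => 0).all

theorem realize_sent {M : Type} [LU.Structure M] (φ : Fm) :
    M ⊨ sent φ ↔ ∀ x : M, sat (toStr M) φ fun _ => x := by
  show BoundedFormula.Realize (sent φ) default default ↔ _
  refine forall_congr' fun x => ?_
  rw [realize_toML]
  rfl

/-! ## From Mathlib formulas to `Fm` -/

/-- The variable of a term. -/
def vidx {α : Type} (ρ : α → ℕ) : LU.Term α → ℕ
  | .var x => ρ x
  | .func f _ => (f : Empty).elim

/-- The `Fm` of an atomic formula. -/
def relML {α : Type} (ρ : α → ℕ) : ∀ {l : ℕ}, URel l → (Fin l → LU.Term α) → Fm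
  | _, .mk s, ts => .rl s.num (vidx ρ (ts 0)) (vidx ρ (ts 1)) (vidx ρ (ts 2))

/-- The `Fm` of a Mathlib formula, where `ρ` gives the variables. -/
def fromML {α : Type} : ∀ {n : ℕ}, LU.BoundedFormula α n → (α ⊕ Fin n → ℕ) → Fm
  | _, .falsum, _ => .bot
  | _, .equal s t, ρ => .rl 2 (vidx ρ s) (vidx ρ t) (vidx ρ s)
  | _, .rel R ts, ρ => relML ρ R ts
  | _, .imp φ ψ, ρ => .imp (fromML φ ρ) (fromML ψ ρ)
  | n, .all φ, ρ => .all (fromML φ (Sum.elim (fun a => ρ (.inl a) + 1)
      (Fin.lastCases (motive := fun _ => ℕ) 0 fun i : Fin n => ρ (.inr i) + 1)))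

theorem realize_vidx {M α : Type} [LU.Structure M] (ρ : α → ℕ) (e : ℕ → M) (t : LU.Term α) :
    t.realize (fun x => e (ρ x)) = e (vidx ρ t) := by
  cases t with
  | var x => rfl
  | func f ts => exact (f : Empty).elim

theorem sat_fromML {M α : Type} [LU.Structure M] {n : ℕ} (φ : LU.BoundedFormula α n) :
    ∀ (ρ : α ⊕ Fin n → ℕ) (e : ℕ → M), sat (toStr M) (fromML φ ρ) e ↔
      φ.Realize (fun a => e (ρ (.inl a))) fun i => e (ρ (.inr i)) := by
  induction φ with
  | falsum => exact fun _ _ => Iff.rfl
  | equal s t =>
    intro ρ e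
    rw [fromML, sat_rl, toStr_eq, ← realize_vidx ρ e s, ← realize_vidx ρ e t]
    have : (Sum.elim (fun a => e (ρ (.inl a))) fun i => e (ρ (.inr i))) = fun x => e (ρ x) := by
      funext x
      rcases x with x | x <;> rfl
    show _ ↔ s.realize _ = t.realize _
    rw [this]
  | @rel n l R ts =>
    intro ρ e
    have : (Sum.elim (fun a => e (ρ (.inl a))) fun i => e (ρ (.inr i))) = fun x => e (ρ x) := by
      funext x
      rcases x with x | x <;> rfl
    show _ ↔ Structure.RelMap R fun j => (ts j).realize _
    rw [this]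
    rcases (R : URel l) with ⟨s⟩
    rw [fromML, relML, sat_rl, toStr_sym, ← realize_vidx ρ e (ts 0), ← realize_vidx ρ e (ts 1),
      ← realize_vidx ρ e (ts 2), iff_eq_eq]
    show Structure.RelMap s.rel _ = Structure.RelMap s.rel _
    congr 1
    funext j
    fin_cases j <;> rfl
  | imp φ ψ ihφ ihψ => exact fun ρ e => imp_congr (ihφ ρ e) (ihψ ρ e)
  | @all n φ ih =>
    intro ρ e
    refine forall_congr' fun x => ?_
    rw [ih, iff_eq_eq]
    congr 1
    funext i
    refine Fin.lastCases ?_ (fun i => ?_) i
    · simp
    · simp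

/-! ## Codes -/

/-- The number of a relation symbol. -/
def relNum : ∀ {n : ℕ}, URel n → ℕ
  | _, .mk s => s.num

theorem relNum_inj : ∀ {n : ℕ} (R S : URel n), relNum R = relNum S → R = S
  | _, .mk _, .mk _, h => congrArg URel.mk (USym.num_inj h)

/-- The numbering of the symbols of `LU`. -/
def numLU : Numbering LU where
  fn _ f := (f : Empty).elim
  rel _ R := relNum R
  fn_inj _ f := (f : Empty).elim
  rel_inj _ R S h := relNum_inj R S h

/-- The code of the Mathlib formula of `φ`, where `ρ` gives the de Bruijn indices. -/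
def tok : Fm → (ℕ → ℕ) → List ℕ
  | .bot, _ => [2]
  | .imp a b, ρ => [5] ++ tok a ρ ++ tok b ρ
  | .all a, ρ => [6] ++ tok a (cons 0 fun i => ρ i + 1)
  | .rl i u v w, ρ =>
    if i = 2 then [3, 0, ρ u, 0, ρ v] else
      if (USym.of i).isSome then [4, 3, i, 0, ρ u, 0, ρ v, 0, ρ w] else [2]
  | .sb a u v w, ρ => tok a (tri (ρ u) (ρ v) (ρ w))

theorem code_toML (φ : Fm) : ∀ (n : ℕ) (ρ : ℕ → Fin n),
    numLU.code (toML φ n ρ) = tok φ fun i => n - 1 - ρ i := by
  induction φ with
  | bot => exact fun _ _ => rfl
  | imp a b iha ihb =>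
    intro n ρ
    rw [toML, Numbering.code, iha, ihb]
    rfl
  | all a ih =>
    intro n ρ
    rw [toML, Numbering.code, ih, tok]
    congr 2
    funext i
    rcases i with _ | i
    · simp
    · have := (ρ i).isLt
      simp only [cons_succ, Fin.val_castSucc]
      omega
  | rl i u v w =>
    intro n ρ
    by_cases h2 : i = 2
    · subst h2
      rfl
    · cases h : USym.of i with
      | none =>
        simp only [toML, h2, if_false, h, tok, Option.isSome_none]
        rfl
      | some s =>
        obtain rfl := USym.of_eq_some h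
        simp only [toML, h2, if_false, h, tok, Option.isSome_some, if_true]
        rfl
  | sb a u v w ih =>
    intro n ρ
    rw [toML, ih, tok]
    congr 1
    funext i
    exact map_tri (fun k : Fin n => n - 1 - (k : ℕ)) _ _ _ i

theorem code_sent (φ : Fm) : numLU.code (sent φ) = [6] ++ tok φ fun _ => 0 := by
  rw [sent, Numbering.code, code_toML]
  rfl

theorem rePred_range {f : ℕ → List ℕ} (hf : Computable f) : REPred fun c => ∃ i, f i = c := by
  let g : List ℕ → ℕ → Option Unit := fun c i => bif decide (f i = c) then some () else none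
  have hg : Computable₂ g := by
    refine Computable.cond ?_ (Computable.const _) (Computable.const _)
    exact (PrimrecRel.comp Primrec.eq Primrec.fst Primrec.snd).decide.to_comp.comp
      ((hf.comp Computable.snd).pair Computable.fst)
  have h1 : Partrec fun c => Nat.rfindOpt (g c) := Partrec.rfindOpt hg
  refine (Partrec.dom_re h1).of_eq fun c => ?_
  rw [Nat.rfindOpt_dom]
  constructor
  · rintro ⟨i, u, hu⟩
    refine ⟨i, ?_⟩
    by_contra h
    simp [g, h] at hu
  · rintro ⟨i, hi⟩
    exact ⟨i, (), by simp [g, hi]⟩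

/-- A theory with a computable sequence of axioms is r.e. -/
theorem recEnum_range (B : ℕ → Fm) (h : Computable fun i => tok (B i) fun _ => 0) :
    RecEnum (Set.range fun i => sent (B i)) := by
  refine ⟨numLU, ?_⟩
  have h' : Computable fun i => numLU.code (sent (B i)) := by
    simp only [code_sent]
    exact (Computable.const _ |> fun hc => Computable.list_append.comp hc h)
  have he : (fun c : List ℕ => ∃ φ : LU.Sentence, φ ∈ Set.range (fun i => sent (B i)) ∧
      numLU.code φ = c) = fun c => ∃ i, numLU.code (sent (B i)) = c := by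
    funext c
    apply propext
    constructor
    · rintro ⟨_, ⟨i, rfl⟩, h⟩
      exact ⟨i, h⟩
    · rintro ⟨i, h⟩
      exact ⟨_, ⟨i, rfl⟩, h⟩
  rw [he]
  exact rePred_range h'

end Pool.Agent.Lib.MP_d999cd_lc
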