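import Mathlib
import Pool.Agent.Lib.MP_d999cd_lc.ULang

/-!
# Computability of the codes of families of formulas

`Cmp B`: for every assignment `ρ` of de Bruijn indices, the code of `B i` is computable in `i`.
Closure under the constructors, under translations with a computable family of translations, and
a lemma for formulas defined by recursion on a numeral.
-/

namespace Pool.Agent.Lib.MP_d999cd_lc

/-- The codes of the formulas `B i` are computable in `i`. -/
def Cmp (B : ℕ → Fm) : Prop := ∀ ρ : ℕ → ℕ, Computable fun i => tok (B i) ρ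

theorem computable_append3 {f g h : ℕ → List ℕ} (hf : Computable f) (hg : Computable g)
    (hh : Computable h) : Computable fun i => f i ++ g i ++ h i :=
  Computable.list_append.comp (Computable.list_append.comp hf hg) hh

theorem computable_append2 {f g : ℕ → List ℕ} (hf : Computable f) (hg : Computable g) :
    Computable fun i => f i ++ g i :=
  Computable.list_append.comp hf hg

namespace Cmp

theorem const (φ : Fm) : Cmp fun _ => φ := fun _ => Computable.const _

theorem imp {a b : ℕ → Fm} (ha : Cmp a) (hb : Cmp b) : Cmp fun i => .imp (a i) (b i) :=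
  fun ρ => computable_append3 (Computable.const _) (ha ρ) (hb ρ)

theorem all {a : ℕ → Fm} (ha : Cmp a) : Cmp fun i => .all (a i) :=
  fun _ => computable_append2 (Computable.const _) (ha _)

theorem sb {a : ℕ → Fm} (ha : Cmp a) (u v w : ℕ) : Cmp fun i => .sb (a i) u v w :=
  fun _ => ha _

theorem neg {a : ℕ → Fm} (ha : Cmp a) : Cmp fun i => (a i).neg := imp ha (const _)

theorem ex {a : ℕ → Fm} (ha : Cmp a) : Cmp fun i => (a i).ex := neg (all (neg ha))

theorem conj {a b : ℕ → Fm} (ha : Cmp a) (hb : Cmp b) : Cmp fun i => (a i).conj (b i) :=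
  neg (imp ha (neg hb))

theorem disj {a b : ℕ → Fm} (ha : Cmp a) (hb : Cmp b) : Cmp fun i => (a i).disj (b i) :=
  imp (neg ha) hb

theorem equ {a b : ℕ → Fm} (ha : Cmp a) (hb : Cmp b) : Cmp fun i => (a i).equ (b i) :=
  conj (imp ha hb) (imp hb ha)

theorem comp {a : ℕ → Fm} (ha : Cmp a) {f : ℕ → ℕ} (hf : Computable f) : Cmp fun i => a (f i) :=
  fun ρ => (ha ρ).comp hf

/-- Case distinction. -/
theorem cases {a : Fm} {b : ℕ → Fm} (hb : Cmp b) :
    Cmp fun i => Nat.casesOn i a fun j => b j := by
  intro ρ
  have : (fun i : ℕ => tok (Nat.casesOn i a fun j => b j) ρ) =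
      fun i : ℕ => Nat.casesOn (motive := fun _ => List ℕ) i (tok a ρ) fun j => tok (b j) ρ := by
    funext i
    cases i <;> rfl
  rw [this]
  exact Computable.nat_casesOn Computable.id (Computable.const _)
    ((hb ρ).comp Computable.snd).to₂

/-- The translation of a fixed formula. -/
theorem tr {s : ℕ → Tln} (hd : Cmp fun i => (s i).dom) (h0 : Cmp fun i => (s i).q0)
    (h1 : Cmp fun i => (s i).q1) (h2 : Cmp fun i => (s i).q2) (φ : Fm) :
    Cmp fun i => Pool.Agent.Lib.MP_d999cd_lc.tr (s i) φ := by
  induction φ with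
  | bot => exact const _
  | imp a b iha ihb => exact imp iha ihb
  | all a ih => exact all (imp (sb hd 0 0 0) ih)
  | rl i u v w =>
    have : Cmp fun k => (s k).q i := by
      rcases i with _ | _ | i
      · exact h0
      · exact h1
      · exact h2
    exact sb this u v w
  | sb a u v w ih => exact sb ih u v w

end Cmp

/-- Recursion on the second argument. -/
theorem computable_rec {pre post z : ℕ → List ℕ} (hpre : Computable pre) (hpost : Computable post)
    (hz : Computable z) (N : ℕ → ℕ → List ℕ) (h0 : ∀ i, N i 0 = z i)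
    (h : ∀ i j, N i (j + 1) = pre i ++ N i j ++ post i) :
    Computable fun p : ℕ × ℕ => N p.1 p.2 := by
  have hN : (fun p : ℕ × ℕ => N p.1 p.2) = fun p : ℕ × ℕ =>
      Nat.rec (motive := fun _ => List ℕ) (z p.1) (fun _ l => pre p.1 ++ l ++ post p.1) p.2 := by
    funext ⟨i, j⟩
    induction j with
    | zero => exact h0 i
    | succ j ih =>
      show N i (j + 1) = _
      rw [h, show N i j = _ from ih]
  rw [hN]
  have h₂ : Computable₂ fun (p : ℕ × ℕ) (q : ℕ × List ℕ) => pre p.1 ++ q.2 ++ post p.1 :=
    Computable.list_append.comp (Computable.list_append.comp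
      (hpre.comp (Computable.fst.comp Computable.fst)) (Computable.snd.comp Computable.snd))
      (hpost.comp (Computable.fst.comp Computable.fst))
  exact Computable.nat_rec Computable.snd (hz.comp Computable.fst) h₂

/-- The codes of the formulas `B i j` are computable in `i` and `j`. -/
def Cmp₂ (B : ℕ → ℕ → Fm) : Prop := ∀ ρ : ℕ → ℕ, Computable fun p : ℕ × ℕ => tok (B p.1 p.2) ρ

theorem Cmp₂.diag {B : ℕ → ℕ → Fm} (h : Cmp₂ B) {f g : ℕ → ℕ} (hf : Computable f)
    (hg : Computable g) : Cmp fun i => B (f i) (g i) :=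
  fun ρ => (h ρ).comp (hf.pair hg)

/-- Formulas defined by recursion on `j`, where `B i (j + 1)` is the context `C` around `B i j` at a
fixed assignment `ρ₀` of de Bruijn indices. -/
theorem Cmp₂.rec {B : ℕ → ℕ → Fm} {z : ℕ → Fm} (ρ₀ : ℕ → ℕ) {pre post : (ℕ → ℕ) → ℕ → List ℕ}
    (hpre : ∀ ρ, Computable (pre ρ)) (hpost : ∀ ρ, Computable (post ρ)) (hz : Cmp z)
    (h0 : ∀ i, B i 0 = z i)
    (h : ∀ ρ i j, tok (B i (j + 1)) ρ = pre ρ i ++ tok (B i j) ρ₀ ++ post ρ i) : Cmp₂ B := by
  have key : Computable fun p : ℕ × ℕ => tok (B p.1 p.2) ρ₀ :=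
    computable_rec (hpre ρ₀) (hpost ρ₀) (hz ρ₀) (fun i j => tok (B i j) ρ₀)
      (fun i => by rw [h0]) (h ρ₀)
  intro ρ
  have : (fun p : ℕ × ℕ => tok (B p.1 p.2) ρ) = fun p : ℕ × ℕ =>
      Nat.casesOn (motive := fun _ => List ℕ) p.2 (tok (z p.1) ρ)
        fun j => pre ρ p.1 ++ tok (B p.1 j) ρ₀ ++ post ρ p.1 := by
    funext ⟨i, j⟩
    cases j with
    | zero => simp [h0]
    | succ j => exact h ρ i j
  rw [this]
  refine Computable.nat_casesOn Computable.snd ((hz ρ).comp Computable.fst) ?_
  exact Computable.list_append.comp (Computable.list_append.comp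
    ((hpre ρ).comp (Computable.fst.comp Computable.fst))
    (key.comp ((Computable.fst.comp Computable.fst).pair Computable.snd)))
    ((hpost ρ).comp (Computable.fst.comp Computable.fst))

end Pool.Agent.Lib.MP_d999cd_lc
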