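import Pool.Agent.Lib.MP_d999cd_lc.Syn

/-!
# Definability calculus

`Df S A`: the relations `A i` (of the environment) are uniformly definable over the family of
structures `S i`.
-/

set_option autoImplicit false

namespace Pool.Agent.Lib.MP_d999cd_lc

/-- Lifting of a renaming. -/
def liftR (f : ℕ → ℕ) : ℕ → ℕ
  | 0 => 0
  | k + 1 => f k + 1

/-- Renaming of variables. -/
def Fm.ren : (ℕ → ℕ) → Fm → Fm
  | _, .bot => .bot
  | f, .imp a b => .imp (a.ren f) (b.ren f)
  | f, .all a => .all (a.ren (liftR f))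
  | f, .rl i u v w => .rl i (f u) (f v) (f w)
  | f, .sb a u v w => .sb a (f u) (f v) (f w)

theorem tri_comp {A B : Type} (g : A → B) (x y z : A) (k : ℕ) :
    g (tri x y z k) = tri (g x) (g y) (g z) k := by
  rcases k with _ | _ | k <;> rfl

theorem sat_ren {M : Type} (S : Str M) (φ : Fm) (f : ℕ → ℕ) (v : ℕ → M) :
    sat S (φ.ren f) v ↔ sat S φ (fun k => v (f k)) := by
  induction φ generalizing f v with
  | bot => rfl
  | imp a b iha ihb => exact imp_congr (iha f v) (ihb f v)
  | all a ih =>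
    refine forall_congr' fun x => ?_
    rw [ih]
    have : (fun k => cons x v (liftR f k)) = cons x (fun k => v (f k)) := by
      funext k; cases k <;> rfl
    rw [this]
  | rl i u v w => rfl
  | sb a u v w ih => rfl

/-- All variables are below `n`. -/
def Fm.Vf : ℕ → Fm → Prop
  | _, .bot => True
  | n, .imp a b => a.Vf n ∧ b.Vf n
  | n, .all a => a.Vf (n + 1)
  | n, .rl _ u v w => u < n ∧ v < n ∧ w < n
  | n, .sb _ u v w => u < n ∧ v < n ∧ w < n

theorem sat_congr {M : Type} (S : Str M) {φ : Fm} {n : ℕ} (h : φ.Vf n) {v w : ℕ → M}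
    (e : ∀ k < n, v k = w k) : sat S φ v ↔ sat S φ w := by
  induction φ generalizing n v w with
  | bot => rfl
  | imp a b iha ihb => exact imp_congr (iha h.1 e) (ihb h.2 e)
  | all a ih =>
    refine forall_congr' fun x => ih (n := n + 1) h ?_
    intro k hk
    cases k with
    | zero => rfl
    | succ k => exact e k (by omega)
  | rl i a b c =>
    obtain ⟨h1, h2, h3⟩ := h
    rw [sat_rl, sat_rl, e a h1, e b h2, e c h3]
  | sb φ a b c ih =>
    obtain ⟨h1, h2, h3⟩ := h
    rw [sat_sb, sat_sb, e a h1, e b h2, e c h3]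

/-- Quantifier depth. -/
def Fm.qd : Fm → ℕ
  | .bot => 0
  | .imp a b => max a.qd b.qd
  | .all a => a.qd + 1
  | .rl _ _ _ _ => 0
  | .sb a _ _ _ => a.qd

/-- Uniform definability of relations of the environment, over a family of structures. -/
def Df {I : Type*} {M : I → Type} (S : ∀ i, Str (M i)) (A : ∀ i, (ℕ → M i) → Prop) : Prop :=
  ∃ φ : Fm, ∀ i (v : ℕ → M i), sat (S i) φ v ↔ A i v

namespace Df
variable {I : Type*} {M : I → Type} {S : ∀ i, Str (M i)} {A B : ∀ i, (ℕ → M i) → Prop}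

theorem congr (h : Df S A) (e : ∀ i v, A i v ↔ B i v) : Df S B := by
  obtain ⟨φ, h2⟩ := h
  exact ⟨φ, fun i v => (h2 i v).trans (e i v)⟩

theorem fal : Df S (fun _ _ => False) := ⟨.bot, fun _ _ => Iff.rfl⟩

theorem imp (hA : Df S A) (hB : Df S B) : Df S (fun i v => A i v → B i v) := by
  obtain ⟨φ, h2⟩ := hA
  obtain ⟨ψ, h4⟩ := hB
  exact ⟨.imp φ ψ, fun i v => imp_congr (h2 i v) (h4 i v)⟩

theorem not (hA : Df S A) : Df S (fun i v => ¬ A i v) := imp hA fal

theorem tru : Df S (fun _ _ => True) := (not fal).congr (by simp)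

theorem cst (p : Prop) : Df S (fun _ _ => p) := by
  by_cases h : p
  · exact tru.congr (by simp [h])
  · exact fal.congr (by simp [h])

theorem and (hA : Df S A) (hB : Df S B) : Df S (fun i v => A i v ∧ B i v) :=
  (not (imp hA (not hB))).congr (by intro i v; tauto)

theorem or (hA : Df S A) (hB : Df S B) : Df S (fun i v => A i v ∨ B i v) :=
  (imp (not hA) hB).congr (by intro i v; tauto)

theorem iff (hA : Df S A) (hB : Df S B) : Df S (fun i v => A i v ↔ B i v) :=
  (and (imp hA hB) (imp hB hA)).congr (by intro i v; tauto)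

theorem all {A : ∀ i, (ℕ → M i) → M i → Prop}
    (h : Df S (fun i v => A i (fun k => v (k + 1)) (v 0))) :
    Df S (fun i v => ∀ x, A i v x) := by
  obtain ⟨φ, h2⟩ := h
  exact ⟨.all φ, fun i v => forall_congr' fun x => h2 i (cons x v)⟩

theorem ex {A : ∀ i, (ℕ → M i) → M i → Prop}
    (h : Df S (fun i v => A i (fun k => v (k + 1)) (v 0))) :
    Df S (fun i v => ∃ x, A i v x) :=
  (not (all (A := fun i v x => ¬ A i v x) (not h))).congr (by intro i v; simp)

theorem rel (j a b c : ℕ) : Df S (fun i v => (S i).rel j (v a) (v b) (v c)) :=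
  ⟨.rl j a b c, fun _ _ => Iff.rfl⟩

theorem sub (f : ℕ → ℕ) (h : Df S A) : Df S (fun i v => A i (fun k => v (f k))) := by
  obtain ⟨φ, h2⟩ := h
  exact ⟨φ.ren f, fun i v => by rw [sat_ren]; exact h2 i _⟩

theorem sub1 {A : ∀ i, M i → Prop} (h : Df S (fun i v => A i (v 0))) (a : ℕ) :
    Df S (fun i v => A i (v a)) :=
  sub (A := fun i v => A i (v 0)) (fun _ => a) h

theorem sub2 {A : ∀ i, M i → M i → Prop} (h : Df S (fun i v => A i (v 0) (v 1))) (a b : ℕ) :
    Df S (fun i v => A i (v a) (v b)) :=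
  sub (A := fun i v => A i (v 0) (v 1)) (tri a b b) h

theorem sub3 {A : ∀ i, M i → M i → M i → Prop} (h : Df S (fun i v => A i (v 0) (v 1) (v 2)))
    (a b c : ℕ) : Df S (fun i v => A i (v a) (v b) (v c)) :=
  sub (A := fun i v => A i (v 0) (v 1) (v 2)) (tri a b c) h

theorem sub4 {A : ∀ i, M i → M i → M i → M i → Prop}
    (h : Df S (fun i v => A i (v 0) (v 1) (v 2) (v 3))) (a b c d : ℕ) :
    Df S (fun i v => A i (v a) (v b) (v c) (v d)) :=
  sub (A := fun i v => A i (v 0) (v 1) (v 2) (v 3)) (MP_d999cd_lc.cons a (tri b c d)) h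

theorem sub5 {A : ∀ i, M i → M i → M i → M i → M i → Prop}
    (h : Df S (fun i v => A i (v 0) (v 1) (v 2) (v 3) (v 4))) (a b c d e : ℕ) :
    Df S (fun i v => A i (v a) (v b) (v c) (v d) (v e)) :=
  sub (A := fun i v => A i (v 0) (v 1) (v 2) (v 3) (v 4))
    (MP_d999cd_lc.cons a (MP_d999cd_lc.cons b (tri c d e))) h

theorem allFin (m : ℕ) {A : ℕ → ∀ i, (ℕ → M i) → Prop} (h : ∀ j < m, Df S (A j)) :
    Df S (fun i v => ∀ j < m, A j i v) := by
  induction m with
  | zero => exact tru.congr (by simp)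
  | succ m ih =>
    refine (and (ih fun j hj => h j (by omega)) (h m (by omega))).congr ?_
    intro i v
    constructor
    · rintro ⟨h1, h2⟩ j hj
      rcases Nat.lt_succ_iff_lt_or_eq.1 hj with h' | rfl
      · exact h1 j h'
      · exact h2
    · exact fun h' => ⟨fun j hj => h' j (by omega), h' m (by omega)⟩

theorem allMem {α : Type*} (l : List α) {A : α → ∀ i, (ℕ → M i) → Prop}
    (h : ∀ a ∈ l, Df S (A a)) : Df S (fun i v => ∀ a ∈ l, A a i v) := by
  induction l with
  | nil => exact tru.congr (by simp)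
  | cons a l ih =>
    refine (and (h a (by simp)) (ih fun b hb => h b (by simp [hb]))).congr ?_
    intro i v; simp

/-- Instantiate a variable by a definable function. -/
theorem subst {A : ∀ i, (ℕ → M i) → M i → Prop} {f : ∀ i, (ℕ → M i) → M i}
    (hf : Df S (fun i v => v 0 = f i (fun k => v (k + 1))))
    (hA : Df S (fun i v => A i (fun k => v (k + 1)) (v 0))) :
    Df S (fun i v => A i v (f i v)) :=
  (ex (A := fun i v x => x = f i v ∧ A i v x) (and hf hA)).congr (by intro i v; simp)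

end Df

/-- Iterated quantifier. -/
def allN : ℕ → Fm → Fm
  | 0, φ => φ
  | k + 1, φ => .all (allN k φ)

/-- Block of `k` variables in front. -/
def app {M : Type} (k : ℕ) (ρ v : ℕ → M) : ℕ → M := fun j => if j < k then ρ j else v (j - k)

theorem sat_allN {M : Type} (S : Str M) (k : ℕ) (φ : Fm) (v : ℕ → M) :
    sat S (allN k φ) v ↔ ∀ ρ : ℕ → M, sat S φ (app k ρ v) := by
  induction k generalizing v with
  | zero =>
    have : ∀ ρ : ℕ → M, app 0 ρ v = v := by intro ρ; funext j; simp [app]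
    simp only [this, allN]
    exact ⟨fun h _ => h, fun h => h v⟩
  | succ k ih =>
    simp only [allN, sat_all, ih]
    have key : ∀ (x : M) (ρ ρ' : ℕ → M), (∀ j < k, ρ j = ρ' j) → ρ' k = x →
        app k ρ (cons x v) = app (k + 1) ρ' v := by
      intro x ρ ρ' h h'
      funext j
      rcases lt_trichotomy j k with h1 | rfl | h1
      · simp [app, h1, Nat.lt_succ_of_lt h1, h j h1]
      · simp [app, h']
      · obtain ⟨l, rfl⟩ : ∃ l, j = k + 1 + l := ⟨j - (k + 1), by omega⟩
        have h4 : k + 1 + l - k = l + 1 := by omega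
        have h5 : ¬ (k + 1 + l < k) := by omega
        have h6 : ¬ (k + 1 + l < k + 1) := by omega
        simp [app, h5, h6, h4]
    constructor
    · intro h ρ
      rw [← key (ρ k) ρ ρ (fun _ _ => rfl) rfl]
      exact h _ _
    · intro h x ρ
      rw [key x ρ (fun j => if j < k then ρ j else x) (fun j hj => by simp [hj]) (by simp)]
      exact h _

namespace Df
variable {I : Type*} {M : I → Type} {S : ∀ i, Str (M i)}

/-- Block quantifier: `A i v ρ` may only depend on `ρ 0, ..., ρ (k-1)`. -/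
theorem blockAll (k : ℕ) {A : ∀ i, (ℕ → M i) → (ℕ → M i) → Prop}
    (hA : ∀ i v ρ ρ', (∀ j < k, ρ j = ρ' j) → (A i v ρ ↔ A i v ρ'))
    (h : Df S (fun i w => A i (fun j => w (j + k)) w)) :
    Df S (fun i v => ∀ ρ, A i v ρ) := by
  obtain ⟨φ, h2⟩ := h
  refine ⟨allN k φ, fun i v => ?_⟩
  rw [sat_allN]
  refine forall_congr' fun ρ => ?_
  rw [h2]
  have e : (fun j => app k ρ v (j + k)) = v := by
    funext j; simp [app]
  beta_reduce
  rw [e]
  exact hA i v _ _ (fun j hj => by simp [app, hj])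

theorem blockEx (k : ℕ) {A : ∀ i, (ℕ → M i) → (ℕ → M i) → Prop}
    (hA : ∀ i v ρ ρ', (∀ j < k, ρ j = ρ' j) → (A i v ρ ↔ A i v ρ'))
    (h : Df S (fun i w => A i (fun j => w (j + k)) w)) :
    Df S (fun i v => ∃ ρ, A i v ρ) :=
  (not (blockAll k (A := fun i v ρ => ¬ A i v ρ)
    (fun i v ρ ρ' e => not_congr (hA i v ρ ρ' e)) (not h))).congr (by intro i v; simp)

/-- Substitution of definable functions for the variables of a definable relation with finitely
many variables. -/
theorem substN (m : ℕ) {A : ∀ i, (ℕ → M i) → Prop}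
    (hA : ∀ i v v', (∀ j < m, v j = v' j) → (A i v ↔ A i v')) (h : Df S A)
    {f : ℕ → ∀ i, (ℕ → M i) → M i}
    (hf : ∀ j < m, Df S (fun i v => v 0 = f j i (fun k => v (k + 1)))) :
    Df S (fun i v => A i (fun j => f j i v)) := by
  have h1 : Df S (fun i v => ∃ ρ : ℕ → M i, (∀ j < m, ρ j = f j i v) ∧ A i ρ) := by
    refine blockEx m (A := fun i v ρ => (∀ j < m, ρ j = f j i v) ∧ A i ρ) ?_ ?_
    · intro i v ρ ρ' e
      refine and_congr (forall_congr' fun j => ?_) (hA i _ _ e)
      refine forall_congr' fun hj => ?_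
      rw [e j hj]
    · refine and (allFin m fun j hj => ?_) h
      exact sub (A := fun i v => v 0 = f j i (fun k => v (k + 1)))
        (MP_d999cd_lc.cons j (fun k => k + m)) (hf j hj)
  refine h1.congr fun i v => ?_
  constructor
  · rintro ⟨ρ, h2, h3⟩
    exact (hA i _ _ h2).1 h3
  · intro h2
    exact ⟨_, fun _ _ => rfl, h2⟩

end Df

end Pool.Agent.Lib.MP_d999cd_lc
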