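import Pool.Agent.Lib.MP_d999cd_lc.ZM

/-!
# The Ehrenfeucht–Fraïssé lemma
-/

set_option autoImplicit false

namespace Pool.Agent.Lib.MP_d999cd_lc

namespace ZM
variable {Z : Type} (B : ZM Z)

theorem act_injective (g : Z) : Function.Injective (B.act g) := by
  obtain ⟨h, h1, _⟩ := B.act_inv g
  intro x y e
  rw [← h1 x, e, h1]

theorem good_comp {z g h k : Z} (hg : B.Good z g) (hh : B.Good z h)
    (hk : ∀ x, B.act k x = B.act g (B.act h x)) : B.Good z k := by
  intro w hw hz
  rw [hk, hg _ ((B.act_oc h w w).2 hw) (by rwa [B.act_lev]), hh w hw hz]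

theorem good_inv {z g h : Z} (hg : B.Good z g) (h2 : ∀ x, B.act g (B.act h x) = x) :
    B.Good z h := by
  intro w hw hz
  have := hg (B.act h w) ((B.act_oc h w w).2 hw) (by rwa [B.act_lev])
  rw [h2] at this
  exact this.symm

theorem good_mono {j j' : ℕ} (hj : j ≤ j') {g : Z} (hg : B.Good (B.zl j') g) : B.Good (B.zl j) g := by
  intro w hw hz
  refine hg w hw ?_
  rw [mem_zl] at hz ⊢
  obtain ⟨k, hk, h⟩ := hz
  exact ⟨k, by omega, h⟩

/-- Correction lemma: the extension step of the back-and-forth argument. -/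
theorem ext_aux {P P' : Z → Z → Prop} {j : ℕ} (hP : B.Agr (j + 1) P P') {g a c : Z} (d : Z)
    (hg : B.Good (B.zl (j + 1)) g) (hga : B.InM P' (B.act g a)) (hc : B.InM P c) :
    ∃ g', B.Good (B.zl j) g' ∧ B.act g' a = B.act g a ∧ B.InM P' (B.act g' c) ∧
      ∀ w, B.Oc w (B.act g' c) → ¬ B.Oc w (B.act g a) → ¬ B.Oc w d := by
  obtain ⟨k, hk1, hk2, hk3⟩ := B.ext (B.zl j) (B.act g a) (B.act g c) d
  obtain ⟨g', hg'⟩ := B.act_comp k g
  have hkg : B.Good (B.zl j) k := fun w _ hz => hk1 w hz
  have hG : B.Good (B.zl j) g' := B.good_comp hkg (B.good_mono (Nat.le_succ j) hg) hg'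
  refine ⟨g', hG, by rw [hg', hk2], ?_, ?_⟩
  · intro w hw
    by_cases hwa : B.Oc w (B.act g a)
    · exact hga w hwa
    rw [hg'] at hw
    have hw1 := (hk3 w hw).resolve_left hwa
    obtain ⟨i, hi1, hi2⟩ := B.act_inv g'
    have hgu : B.act g' (B.act i w) = w := hi2 w
    have huc : B.Oc (B.act i w) c := by
      rw [← B.act_oc g', hgu, hg']; exact hw
    have hL := hc _ huc
    have hlev : B.lev (B.act i w) = B.lev w := B.act_lev i w
    have hww : B.Oc w w := B.oc_self w _ hw
    -- the type of `w` and of its preimage agree on low levels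
    have hA : ∀ v, B.Oc v v → B.Mem (B.lev v) (B.zl j) → (B.A v ↔ B.A (B.act i v)) := by
      intro v hv hz
      have := hG (B.act i v) ((B.act_oc i v v).2 hv) (by rwa [B.act_lev])
      rw [hi2] at this
      exact this
    refine ⟨fun hAw => ?_, fun hl => ?_, fun v hv => ?_⟩
    · have hlz : B.Mem (B.lev w) (B.zl j) := hw1.1.resolve_right (fun h => h hAw)
      have hAu : B.A (B.act i w) := (hA w hww hlz).1 hAw
      obtain ⟨k', hk', hlk⟩ := (B.mem_zl j _).1 hlz
      constructor
      · intro v hv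
        have hpar : B.Par (B.act i v) (B.act i w) := (B.act_par i v w).2 hv
        have hnA : ¬ B.A (B.act i v) := (hL.1 hAu).1 _ hpar
        have hvlev : B.lev v = B.el (num (k' + 1)) := by
          have := hL.2.2 _ hpar
          rw [B.act_lev, B.act_lev, hlk] at this
          exact this
        have hvoc : B.Oc v (B.act k (B.act g c)) := B.oc_par v w _ hw hv
        have hvv : B.Oc v v := B.oc_self v _ hvoc
        by_cases hva : B.Oc v (B.act g a)
        · -- `v` is fixed by `k`
          have e1 : B.act k v = v := B.act_fix k _ v hk2 hva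
          have e2 : B.act g (B.act i v) = v := by
            apply B.act_injective k
            rw [← hg', hi2, e1]
          have e3 := hg (B.act i v) ((B.act_oc i v v).2 hvv) (by
            rw [B.act_lev, mem_zl]; exact ⟨k' + 1, by omega, hvlev⟩)
          rw [e2] at e3
          rw [e3]; exact hnA
        · rcases (hk3 v hvoc).resolve_left hva |>.1 with h | h
          · rw [hA v hvv h]; exact hnA
          · exact h
      · intro n x ht
        have ht' : B.Top n x (B.act i w) := (B.act_top i n x w).2 ht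
        have := (hL.1 hAu).2 n x ht'
        have hn : n = B.el (num k') := by rw [← B.top_lev n x w ht, hlk]
        subst hn
        exact (hP k' (by omega) x).1 this
    · have hAu := hL.2.1 (by rw [hlev, hl])
      refine (hA w hww ?_).2 hAu
      rw [hl, mem_zl]
      exact ⟨0, by omega, rfl⟩
    · have := hL.2.2 _ ((B.act_par i v w).2 hv)
      rwa [B.act_lev, B.act_lev] at this
  · intro w hw hwa
    rw [hg'] at hw
    exact ((hk3 w hw).resolve_left hwa).2

/-- `a` controls the environment `e`. -/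
def Cov (a : Z) (e : ℕ → Z) : Prop := ∀ g h, B.act g a = B.act h a → ∀ k, B.act g (e k) = B.act h (e k)

theorem act_lf (g : Z) : B.act g B.lf = B.lf := B.act_pu g _ B.pu_lf

theorem pu_act (g x : Z) : B.Pu (B.act g x) ↔ B.Pu x := by
  constructor
  · intro h
    obtain ⟨k, h1, _⟩ := B.act_inv g
    have h2 := B.act_pu k _ h
    rw [h1] at h2
    rwa [← h2] at h
  · intro h
    rwa [B.act_pu g x h]

theorem rl_act (g : Z) {i : ℕ} (hi : i ∈ LUs) (x y z : Z) :
    B.rl i (B.act g x) (B.act g y) (B.act g z) ↔ B.rl i x y z := by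
  have hinj := B.act_injective g
  simp only [LUs, List.mem_cons, List.not_mem_nil, or_false] at hi
  rcases hi with rfl | rfl | rfl | rfl | rfl | rfl | rfl
  · change B.act g x = B.lf ↔ x = B.lf
    constructor
    · intro h
      apply hinj
      rw [h, B.act_lf]
    · rintro rfl
      exact B.act_lf g
  · change B.act g z = B.nd (B.act g x) (B.act g y) ↔ z = B.nd x y
    rw [← B.act_nd]
    exact hinj.eq_iff
  · exact hinj.eq_iff
  · exact B.pu_act g x
  · exact B.act_mem g x y
  · exact B.act_par g x y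
  · change B.Top (B.act g x) (B.act g y) (B.act g z) ↔ B.Top x y z
    rw [B.act_top]
    constructor
    · intro h
      obtain ⟨h1, h2⟩ := B.top_pu _ _ _ h
      rw [B.pu_act] at h1 h2
      rwa [B.act_pu g x h1, B.act_pu g y h2] at h
    · intro h
      obtain ⟨h1, h2⟩ := B.top_pu _ _ _ h
      rwa [B.act_pu g x h1, B.act_pu g y h2]

theorem Agr.symm {j : ℕ} {P P' : Z → Z → Prop} (h : B.Agr j P P') : B.Agr j P' P :=
  fun k hk x => (h k hk x).symm

theorem Agr.mono {j j' : ℕ} {P P' : Z → Z → Prop} (h : B.Agr j' P P') (hj : j ≤ j') :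
    B.Agr j P P' := fun k hk x => h k (by omega) x

theorem cov_nd {a x : Z} {e : ℕ → Z} (h : B.Cov a e) : B.Cov (B.nd x a) (cons x e) := by
  intro g k hgk i
  rw [B.act_nd, B.act_nd] at hgk
  obtain ⟨h1, h2⟩ := B.nd_inj _ _ _ _ hgk
  rcases i with _ | i
  · exact h1
  · exact h g k h2 i

theorem EF {P P' : Z → Z → Prop} {j : ℕ} (hP : B.Agr j P P') {g a : Z} (hg : B.Good (B.zl j) g)
    (ha : B.InM P a) (hga : B.InM P' (B.act g a)) (φ : Fm) (hφ : φ.qd ≤ j) (e : ℕ → B.MP P)
    (e' : ℕ → B.MP P') (he : ∀ k, (e' k).1 = B.act g (e k).1) (hc : B.Cov a fun k => (e k).1) :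
    sat (B.MStr P) φ e ↔ sat (B.MStr P') φ e' := by
  induction φ generalizing j g a e e' with
  | bot => exact Iff.rfl
  | imp b c ihb ihc =>
    have h1 : max b.qd c.qd ≤ j := hφ
    exact imp_congr (ihb hP hg ha hga (le_trans (le_max_left _ _) h1) e e' he hc)
      (ihc hP hg ha hga (le_trans (le_max_right _ _) h1) e e' he hc)
  | rl i u v w =>
    rw [sat_rl, sat_rl]
    change (i ∈ LUs ∧ B.rl i (e u).1 (e v).1 (e w).1) ↔
      (i ∈ LUs ∧ B.rl i (e' u).1 (e' v).1 (e' w).1)
    rw [he, he, he]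
    constructor
    · rintro ⟨h1, h2⟩
      exact ⟨h1, (B.rl_act g h1 _ _ _).2 h2⟩
    · rintro ⟨h1, h2⟩
      exact ⟨h1, (B.rl_act g h1 _ _ _).1 h2⟩
  | sb b u v w ih =>
    rw [sat_sb, sat_sb]
    refine ih hP hg ha hga hφ _ _ (fun k => ?_) (fun g1 g2 h12 k => ?_)
    · rcases k with _ | _ | k
      · exact he u
      · exact he v
      · exact he w
    · rcases k with _ | _ | k
      · exact hc g1 g2 h12 u
      · exact hc g1 g2 h12 v
      · exact hc g1 g2 h12 w
  | all b ih =>
    have hq : b.qd + 1 ≤ j := hφ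
    obtain ⟨j', rfl⟩ : ∃ j', j = j' + 1 := ⟨j - 1, by omega⟩
    have hP' : B.Agr j' P P' := Agr.mono B hP (Nat.le_succ j')
    rw [sat_all, sat_all]
    -- one instance of the induction hypothesis
    have key : ∀ (g' : Z) (x : B.MP P) (y : B.MP P'), B.Good (B.zl j') g' →
        B.act g' a = B.act g a → y.1 = B.act g' x.1 →
        (sat (B.MStr P) b (cons x e) ↔ sat (B.MStr P') b (cons y e')) := by
      intro g' x y hg' hga' hxy
      refine ih (a := B.nd x.1 a) hP' hg' (B.inM_nd.2 ⟨x.2, ha⟩) ?_ (by omega) _ _ (fun k => ?_) ?_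
      · rw [B.act_nd, ← hxy, hga']
        exact B.inM_nd.2 ⟨y.2, hga⟩
      · rcases k with _ | k
        · exact hxy
        · change (e' k).1 = B.act g' (e k).1
          rw [he k]
          exact hc g g' hga'.symm k
      · have h1 : (fun k => ((cons x e : ℕ → B.MP P) k).1) = cons x.1 (fun k => (e k).1) := by
          funext k
          rcases k with _ | k <;> rfl
        rw [h1]
        exact B.cov_nd hc
    constructor
    · intro H y
      obtain ⟨h, h1, h2⟩ := B.act_inv g
      have hh : B.Good (B.zl (j' + 1)) h := B.good_inv hg h2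
      obtain ⟨g1, G1, e1, i1, _⟩ := B.ext_aux (Agr.symm B hP) (g := h) (a := B.act g a)
        (c := y.1) B.lf hh (by rw [h1]; exact ha) y.2
      rw [h1] at e1
      obtain ⟨g', k1, k2⟩ := B.act_inv g1
      have G' : B.Good (B.zl j') g' := B.good_inv G1 k2
      refine (key g' ⟨B.act g1 y.1, i1⟩ y G' ?_ (k1 _).symm).1 (H _)
      rw [← k1 (B.act g a), e1]
    · intro H x
      obtain ⟨g', G', e1, i1, _⟩ := B.ext_aux hP (g := g) (a := a) (c := x.1) B.lf hg hga x.2
      exact (key g' x ⟨B.act g' x.1, i1⟩ G' e1 rfl).2 (H _)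

theorem inM_mkZ {P : Z → Z → Prop} (l : List (B.MP P)) : B.InM P (B.mkZ (l.map Subtype.val)) := by
  induction l with
  | nil => exact B.inM_lf P
  | cons x l ih => exact B.inM_nd.2 ⟨x.2, ih⟩

theorem act_mkZ (g : Z) (l : List Z) : B.act g (B.mkZ l) = B.mkZ (l.map (B.act g)) := by
  induction l with
  | nil => exact B.act_lf g
  | cons x l ih =>
    change B.act g (B.nd x (B.mkZ l)) = _
    rw [B.act_nd, ih]
    rfl

theorem val_lst {P : Z → Z → Prop} (l : List (B.MP P)) (k : ℕ) :
    (lst (B.lfM P) l k).1 = (l.map Subtype.val).getD k B.lf := by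
  unfold lst
  exact (List.getD_map (f := Subtype.val) (d := B.lfM P) (l := l) (n := k)).symm

theorem cov_mkZ (l : List Z) : B.Cov (B.mkZ l) (fun k => l.getD k B.lf) := by
  induction l with
  | nil =>
    intro g h _ k
    simp only [List.getD_nil]
    rw [B.act_lf, B.act_lf]
  | cons x l ih =>
    have h1 := B.cov_nd (x := x) ih
    have h2 : (fun k => (x :: l).getD k B.lf) = cons x (fun k => l.getD k B.lf) := by
      funext k
      rcases k with _ | k <;> rfl
    rw [h2]
    exact h1

theorem EF_list {P P' : Z → Z → Prop} {j : ℕ} (hP : B.Agr j P P') {g : Z} (hg : B.Good (B.zl j) g)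
    (φ : Fm) (hφ : φ.qd ≤ j) (l : List (B.MP P)) (l' : List (B.MP P'))
    (h : l'.map Subtype.val = l.map (fun x => B.act g x.1)) :
    sat (B.MStr P) φ (lst (B.lfM P) l) ↔ sat (B.MStr P') φ (lst (B.lfM P') l') := by
  have h0 : l'.map Subtype.val = (l.map Subtype.val).map (B.act g) := by
    rw [h, List.map_map]
    rfl
  refine B.EF hP hg (a := B.mkZ (l.map Subtype.val)) (B.inM_mkZ l) ?_ φ hφ _ _ (fun k => ?_) ?_
  · rw [B.act_mkZ, ← h0]
    exact B.inM_mkZ l'
  · rw [B.val_lst, B.val_lst, h0]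
    conv_lhs => rw [← B.act_lf g]
    exact List.getD_map (f := B.act g) (d := B.lf) (l := l.map Subtype.val) (n := k)
  · have h1 : (fun k => (lst (B.lfM P) l k).1) = fun k => (l.map Subtype.val).getD k B.lf := by
      funext k
      exact B.val_lst l k
    rw [h1]
    exact B.cov_mkZ _

end ZM

end Pool.Agent.Lib.MP_d999cd_lc
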