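import Mathlib
import Pool.Agent.Lib.MP_d999cd_lc.Syn

/-!
# Named variables (higher-order abstract terms)

A variable is a map from the current depth to the de Bruijn index; a formula with named variables
is a map from the current depth to formulas.  Use `φ 0` to get the closed formula.
-/

namespace Pool.Agent.Lib.MP_d999cd_lc

/-- Named variables: depth to index. -/
abbrev Var := ℕ → ℕ

/-- Formulas with named variables: depth to formula. -/
abbrev HF := ℕ → Fm

namespace HF

/-- The variable bound at depth `n`. -/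
def bv (n : ℕ) : Var := fun m => m - 1 - n
/-- Universal quantifier. -/
def all (f : Var → HF) : HF := fun n => .all (f (bv n) (n + 1))
/-- Existential quantifier. -/
def ex (f : Var → HF) : HF := fun n => .ex (f (bv n) (n + 1))
/-- Implication. -/
def imp (a b : HF) : HF := fun n => .imp (a n) (b n)
/-- Falsum. -/
def bot : HF := fun _ => .bot
/-- Negation. -/
def neg (a : HF) : HF := fun n => .neg (a n)
/-- Conjunction. -/
def conj (a b : HF) : HF := fun n => .conj (a n) (b n)
/-- Disjunction. -/
def disj (a b : HF) : HF := fun n => .disj (a n) (b n)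
/-- Equivalence. -/
def equ (a b : HF) : HF := fun n => .equ (a n) (b n)
/-- Atomic formula. -/
def rl (i : ℕ) (u v w : Var) : HF := fun n => .rl i (u n) (v n) (w n)
/-- Explicit substitution. -/
def sb (a : Fm) (u v w : Var) : HF := fun n => .sb a (u n) (v n) (w n)


end HF

section

variable {A : Type} (S : Str A)

theorem sat_hall (f : Var → HF) (n : ℕ) (e : ℕ → A) :
    sat S (HF.all f n) e ↔ ∀ x, sat S (f (HF.bv n) (n + 1)) (cons x e) := Iff.rfl

theorem sat_hex (f : Var → HF) (n : ℕ) (e : ℕ → A) :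
    sat S (HF.ex f n) e ↔ ∃ x, sat S (f (HF.bv n) (n + 1)) (cons x e) := sat_ex S _ _

theorem sat_himp (a b : HF) (n : ℕ) (e : ℕ → A) :
    sat S (HF.imp a b n) e ↔ (sat S (a n) e → sat S (b n) e) := Iff.rfl

theorem sat_hbot (n : ℕ) (e : ℕ → A) : sat S (HF.bot n) e ↔ False := Iff.rfl

theorem sat_hneg (a : HF) (n : ℕ) (e : ℕ → A) :
    sat S (HF.neg a n) e ↔ ¬ sat S (a n) e := Iff.rfl

theorem sat_hconj (a b : HF) (n : ℕ) (e : ℕ → A) :
    sat S (HF.conj a b n) e ↔ (sat S (a n) e ∧ sat S (b n) e) := sat_conj S _ _ _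

theorem sat_hdisj (a b : HF) (n : ℕ) (e : ℕ → A) :
    sat S (HF.disj a b n) e ↔ (sat S (a n) e ∨ sat S (b n) e) := sat_disj S _ _ _

theorem sat_hequ (a b : HF) (n : ℕ) (e : ℕ → A) :
    sat S (HF.equ a b n) e ↔ (sat S (a n) e ↔ sat S (b n) e) := sat_equ S _ _ _

theorem sat_hrl (i : ℕ) (u v w : Var) (n : ℕ) (e : ℕ → A) :
    sat S (HF.rl i u v w n) e ↔ S.rel i (e (u n)) (e (v n)) (e (w n)) := Iff.rfl

theorem sat_hsb (a : Fm) (u v w : Var) (n : ℕ) (e : ℕ → A) :
    sat S (HF.sb a u v w n) e ↔ sat S a (tri (e (u n)) (e (v n)) (e (w n))) := Iff.rfl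

end

/-- Usage test: after rewriting the connectives, `Iff.rfl` computes the indices. -/
example {A : Type} (S : Str A) (e : ℕ → A) :
    sat S ((HF.all fun x => HF.all fun y => HF.ex fun z =>
      HF.conj (HF.rl 5 x y z) (HF.imp (HF.rl 7 z z x) (HF.neg (HF.rl 1 y y x)))) 0) e ↔
      ∀ x y, ∃ z, S.rel 5 x y z ∧ (S.rel 7 z z x → ¬ S.rel 1 y y x) := by
  simp only [sat_hall, sat_hex, sat_himp, sat_hneg, sat_hconj, sat_hrl]
  exact Iff.rfl

/-! ## Generic semantics -/

/-- Extend an environment by a list. -/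
def ext {A : Type} : List A → (ℕ → A) → (ℕ → A)
  | [], e => e
  | y :: l, e => cons y (ext l e)

/-- The named variable `v` denotes `x` at depth `n`, environment `e`, and in all extensions. -/
def VarAt {A : Type} (v : Var) (n : ℕ) (e : ℕ → A) (x : A) : Prop :=
  ∀ l : List A, ext l e (v (n + l.length)) = x

theorem ext_append {A : Type} (l l' : List A) (e : ℕ → A) : ext (l ++ l') e = ext l (ext l' e) := by
  induction l with
  | nil => rfl
  | cons a l ih => simp [ext, ih]

theorem VarAt.eq {A : Type} {v : Var} {n : ℕ} {e : ℕ → A} {x : A} (h : VarAt v n e x) :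
    e (v n) = x := h []

theorem VarAt.cons {A : Type} {v : Var} {n : ℕ} {e : ℕ → A} {x : A} (h : VarAt v n e x) (y : A) :
    VarAt v (n + 1) (cons y e) x := by
  intro l
  have := h (l ++ [y])
  rw [ext_append] at this
  simp only [ext, List.length_append, List.length_singleton] at this
  rw [show n + 1 + l.length = n + (l.length + 1) by omega]
  exact this

theorem ext_length {A : Type} (l : List A) (e : ℕ → A) (i : ℕ) : ext l e (l.length + i) = e i := by
  induction l with
  | nil => simp [ext]
  | cons a l ih =>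
    rw [ext, List.length_cons, show l.length + 1 + i = l.length + i + 1 by omega, cons_succ, ih]

theorem VarAt.bv {A : Type} (n : ℕ) (e : ℕ → A) (y : A) :
    VarAt (HF.bv n) (n + 1) (Pool.Agent.Lib.MP_d999cd_lc.cons y e) y := by
  intro l
  rw [HF.bv, show n + 1 + l.length - 1 - n = l.length + 0 by omega, ext_length]
  rfl

theorem sat_hrl' {A : Type} {S : Str A} {i n : ℕ} {u v w : Var} {e : ℕ → A} {x y z : A}
    (hu : VarAt u n e x) (hv : VarAt v n e y) (hw : VarAt w n e z) :
    sat S (HF.rl i u v w n) e ↔ S.rel i x y z := by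
  rw [sat_hrl, hu.eq, hv.eq, hw.eq]

end Pool.Agent.Lib.MP_d999cd_lc
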