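import Mathlib
import Pool.Agent.Lib.MP_d999cd_lc.Hoas

/-!
# Horn programs over binary trees

* `Pat`, `Clause`, `Der P g`: the least set of trees closed under the clauses of the program `P`.
* Horn structures: `Nil x = rel 0 x x x`, `Node a b c = rel 1 a b c` (`c = node a b`),
  `Der x = rel 2 x x x`.
* `piF P : Fm`: the sentence `Nil`, `Node` are total and all clauses of `P` hold.
* `horn_main`: in every model of `piF P`, all representatives of a derivable tree satisfy `Der`
  (the heads of the clauses have to be linear).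
-/

namespace Pool.Agent.Lib.MP_d999cd_lc

/-- Types with a constant and a binary operation. -/
class BT (T : Type) where
  /-- constant -/
  nl : T
  /-- operation -/
  nd : T → T → T

instance : BT Tr := ⟨Tr.nil, Tr.node⟩

/-- Patterns. -/
inductive Pat : Type
  | var : ℕ → Pat
  | nil : Pat
  | node : Pat → Pat → Pat

instance : BT Pat := ⟨Pat.nil, Pat.node⟩

/-- Instantiate a pattern. -/
def Pat.inst (ρ : ℕ → Tr) : Pat → Tr
  | .var k => ρ k
  | .nil => .nil
  | .node p q => .node (p.inst ρ) (q.inst ρ)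

/-- The list of the variables of a pattern (with repetitions). -/
def Pat.vars : Pat → List ℕ
  | .var k => [k]
  | .nil => []
  | .node p q => p.vars ++ q.vars

/-- A Horn clause. -/
structure Clause where
  /-- the premises -/
  body : List Pat
  /-- the conclusion -/
  head : Pat

/-- Derivable trees. -/
inductive Der (P : List Clause) : Tr → Prop
  | mk (c : Clause) (hc : c ∈ P) (ρ : ℕ → Tr) (h : ∀ b ∈ c.body, Der P (b.inst ρ)) :
      Der P (c.head.inst ρ)

/-- For all values `u` of the pattern `p`: `f u`, where `X k` is the variable for `var k`. -/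
def allVal : Pat → (ℕ → Var) → (Var → HF) → HF
  | .var k, X, f => f (X k)
  | .nil, _, f => HF.all fun u => HF.imp (HF.rl 0 u u u) (f u)
  | .node p q, X, f => allVal p X fun a => allVal q X fun b =>
      HF.all fun u => HF.imp (HF.rl 1 a b u) (f u)

/-- Quantify over the variables `0, …, N - 1`. -/
def allVars : ℕ → ((ℕ → Var) → HF) → HF
  | 0, f => f fun _ => HF.bv 0
  | N + 1, f => allVars N fun X => HF.all fun x => f (Function.update X N x)

/-- A bound for the variables of a list of variables. -/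
def bdd (l : List ℕ) : ℕ := l.foldr (fun k m => max (k + 1) m) 0

/-- A bound for the variables of a clause. -/
def Clause.nv (c : Clause) : ℕ := bdd (c.head.vars ++ c.body.flatMap Pat.vars)

/-- The matrix of a clause. -/
def clauseM (X : ℕ → Var) (h : Pat) : List Pat → HF
  | [] => allVal h X fun u => HF.rl 2 u u u
  | b :: l => HF.imp (allVal b X fun u => HF.rl 2 u u u) (clauseM X h l)

/-- The sentence expressing a clause. -/
def clauseF (c : Clause) : Fm := allVars c.nv (fun X => clauseM X c.head c.body) 0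

/-- Totality of `Nil`. -/
def totNil : Fm := .ex (.rl 0 0 0 0)

/-- Totality of `Node`. -/
def totNode : Fm := .all (.all (.ex (.rl 1 2 1 0)))

/-- The sentence expressing a program. -/
def piF (P : List Clause) : Fm := Fm.conjL (totNil :: totNode :: P.map clauseF)

/-- The values of a pattern in a Horn structure. -/
def Val {A : Type} (S : Str A) (ρ : ℕ → A) : Pat → A → Prop
  | .var k, u => u = ρ k
  | .nil, u => S.rel 0 u u u
  | .node p q, u => ∃ a b, Val S ρ p a ∧ Val S ρ q b ∧ S.rel 1 a b u

/-- The clause `c` holds in the Horn structure `S`. -/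
def ClauseHolds {A : Type} (S : Str A) (c : Clause) : Prop :=
  ∀ ρ : ℕ → A, (∀ b ∈ c.body, ∀ u, Val S ρ b u → S.rel 2 u u u) →
    ∀ u, Val S ρ c.head u → S.rel 2 u u u

/-- The element `x` represents the tree `g`. -/
def Rp {A : Type} (S : Str A) : Tr → A → Prop
  | .nil, x => S.rel 0 x x x
  | .node a b, x => ∃ y z, Rp S a y ∧ Rp S b z ∧ S.rel 1 y z x

/-- The formula variable `0` represents the tree `g`. -/
def repF : Tr → Fm
  | .nil => .rl 0 0 0 0
  | .node a b => .ex (.ex (.conj (.sb (repF a) 1 1 1) (.conj (.sb (repF b) 0 0 0) (.rl 1 1 0 2))))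

theorem sat_repF {A : Type} (S : Str A) (g : Tr) (e : ℕ → A) :
    sat S (repF g) e ↔ Rp S g (e 0) := by
  induction g generalizing e with
  | nil => exact Iff.rfl
  | node a b iha ihb =>
    rw [repF, sat_ex, Rp]
    simp only [sat_ex, sat_conj, sat_sb, sat_rl, iha, ihb]
    exact Iff.rfl

theorem repF_H (g : Tr) : (repF g).H := by
  induction g with
  | nil => simp [repF, Fm.H]
  | node a b iha ihb => simp [repF, Fm.H, iha, ihb]

/-- Semantics of `allVal`. -/
theorem sat_allVal {A : Type} {S : Str A} {ρ : ℕ → A} {X : ℕ → Var} (p : Pat) :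
    ∀ {f : Var → HF} {Q : A → Prop} {n : ℕ} {e : ℕ → A}, (∀ k ∈ p.vars, VarAt (X k) n e (ρ k)) →
    (∀ (m : ℕ) (e' : ℕ → A) (u : Var) (x : A),
      (∀ v y, VarAt v n e y → VarAt v m e' y) → VarAt u m e' x → (sat S (f u m) e' ↔ Q x)) →
    (sat S (allVal p X f n) e ↔ ∀ x, Val S ρ p x → Q x) := by
  induction p with
  | var k =>
    intro f Q n e hX hf
    rw [allVal, hf n e (X k) (ρ k) (fun _ _ h => h) (hX k (by simp [Pat.vars]))]
    simp [Val]
  | nil =>
    intro f Q n e hX hf
    rw [allVal, sat_hall]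
    refine forall_congr' fun x => ?_
    rw [sat_himp, sat_hrl' (VarAt.bv n e x) (VarAt.bv n e x) (VarAt.bv n e x),
      hf (n + 1) _ _ x (fun v y h => h.cons x) (VarAt.bv n e x)]
    exact Iff.rfl
  | node p q ihp ihq =>
    intro f Q n e hX hf
    rw [allVal]
    have hp : ∀ k ∈ p.vars, VarAt (X k) n e (ρ k) := fun k hk => hX k (by simp [Pat.vars, hk])
    have hq : ∀ k ∈ q.vars, VarAt (X k) n e (ρ k) := fun k hk => hX k (by simp [Pat.vars, hk])
    rw [ihp (Q := fun a => ∀ b, Val S ρ q b → ∀ u, S.rel 1 a b u → Q u) hp]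
    · constructor
      · rintro H x ⟨a, b, ha, hb, hx⟩
        exact H a ha b hb x hx
      · intro H a ha b hb x hx
        exact H x ⟨a, b, ha, hb, hx⟩
    · intro m e' u a hm hu
      rw [ihq (Q := fun b => ∀ u, S.rel 1 a b u → Q u) (fun k hk => hm _ _ (hq k hk))]
      intro m2 e2 u2 b hm2 hu2
      rw [sat_hall]
      refine forall_congr' fun x => ?_
      rw [sat_himp, sat_hrl' ((hm2 _ _ hu).cons x) (hu2.cons x) (VarAt.bv m2 e2 x),
        hf (m2 + 1) _ _ x (fun v y h => (hm2 _ _ (hm _ _ h)).cons x) (VarAt.bv m2 e2 x)]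

theorem sat_clauseM {A : Type} {S : Str A} {ρ : ℕ → A} {X : ℕ → Var} (h : Pat) :
    ∀ (l : List Pat) {n : ℕ} {e : ℕ → A}, (∀ k ∈ h.vars ++ l.flatMap Pat.vars, VarAt (X k) n e (ρ k)) →
    (sat S (clauseM X h l n) e ↔ ((∀ b ∈ l, ∀ u, Val S ρ b u → S.rel 2 u u u) →
      ∀ u, Val S ρ h u → S.rel 2 u u u)) := by
  intro l
  induction l with
  | nil =>
    intro n e hX
    rw [clauseM, sat_allVal (Q := fun u => S.rel 2 u u u) h (fun k hk => hX k (by simp [hk]))]
    · simp
    · intro m e' u x _ hu
      exact sat_hrl' hu hu hu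
  | cons b l ih =>
    intro n e hX
    rw [clauseM, sat_himp, sat_allVal (Q := fun u => S.rel 2 u u u) b
      (fun k hk => hX k (by simp [hk])), ih]
    · simp only [List.mem_cons, forall_eq_or_imp]
      tauto
    · intro k hk
      refine hX k ?_
      simp only [List.mem_append, List.flatMap_cons] at hk ⊢
      tauto
    · intro m e' u x _ hu
      exact sat_hrl' hu hu hu

theorem sat_allVars {A : Type} {S : Str A} (N : ℕ) :
    ∀ {f : (ℕ → Var) → HF} {Q : (ℕ → A) → Prop} {n : ℕ} {e : ℕ → A},
    (∀ (X : ℕ → Var) (ρ : ℕ → A) (m : ℕ) (e' : ℕ → A),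
      (∀ k < N, VarAt (X k) m e' (ρ k)) → (sat S (f X m) e' ↔ Q ρ)) →
    (sat S (allVars N f n) e ↔ ∀ ρ, Q ρ) := by
  induction N with
  | zero =>
    intro f Q n e hf
    have h1 : ∀ ρ, (sat S (f (fun _ => HF.bv 0) n) e ↔ Q ρ) := fun ρ =>
      hf _ ρ n e (fun k hk => absurd hk (Nat.not_lt_zero k))
    rw [allVars]
    constructor
    · intro h ρ
      exact (h1 ρ).1 h
    · intro h
      exact (h1 e).2 (h e)
  | succ N ih =>
    intro f Q n e hf
    rw [allVars, ih (Q := fun ρ => ∀ x, Q (Function.update ρ N x))]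
    · constructor
      · intro h ρ
        have := h ρ (ρ N)
        rwa [Function.update_eq_self] at this
      · intro h ρ x
        exact h _
    · intro X ρ m e' hX
      rw [sat_hall]
      refine forall_congr' fun x => ?_
      refine hf _ _ _ _ fun k hk => ?_
      by_cases hkN : k = N
      · subst hkN
        simp only [Function.update_self]
        exact VarAt.bv m e' x
      · simp only [Function.update_of_ne hkN]
        exact (hX k (by omega)).cons x

theorem lt_bdd {l : List ℕ} {k : ℕ} (h : k ∈ l) : k < bdd l := by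
  induction l with
  | nil => simp at h
  | cons a l ih =>
    rw [bdd, List.foldr_cons]
    rcases List.mem_cons.1 h with rfl | h
    · omega
    · have := ih h
      rw [bdd] at this
      omega

/-- Semantics of a clause. -/
theorem sat_clauseF {A : Type} (S : Str A) (c : Clause) (e : ℕ → A) :
    sat S (clauseF c) e ↔ ClauseHolds S c := by
  rw [clauseF, ClauseHolds, sat_allVars c.nv (Q := fun ρ =>
    (∀ b ∈ c.body, ∀ u, Val S ρ b u → S.rel 2 u u u) → ∀ u, Val S ρ c.head u → S.rel 2 u u u)]
  intro X ρ m e' hX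
  exact sat_clauseM c.head c.body fun k hk => hX k (lt_bdd hk)

theorem allVal_H (p : Pat) (X : ℕ → Var) :
    ∀ (f : Var → HF), (∀ u m, (f u m).H) → ∀ n, (allVal p X f n).H := by
  induction p with
  | var k => exact fun f hf n => hf _ _
  | nil => exact fun f hf n => ⟨by simp [HF.rl, Fm.H], hf _ _⟩
  | node p q ihp ihq =>
    intro f hf n
    refine ihp _ (fun u m => ihq _ (fun v k => ?_) _) _
    exact (show (Fm.rl 1 (u k.succ) (v k.succ) (HF.bv k k.succ)).H ∧ (f (HF.bv k) (k + 1)).H from
      ⟨by simp [Fm.H], hf _ _⟩)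

theorem allVars_H (N : ℕ) : ∀ (f : (ℕ → Var) → HF), (∀ X m, (f X m).H) →
    ∀ n, (allVars N f n).H := by
  induction N with
  | zero => exact fun f hf n => hf _ _
  | succ N ih =>
    intro f hf n
    exact ih (fun X => HF.all fun x => f (Function.update X N x)) (fun X m => hf _ _) n

theorem clauseM_H (X : ℕ → Var) (h : Pat) (l : List Pat) : ∀ n, (clauseM X h l n).H := by
  induction l with
  | nil => exact fun n => allVal_H _ _ _ (fun u m => by simp [HF.rl, Fm.H]) _
  | cons b l ih => exact fun n => ⟨allVal_H _ _ _ (fun u m => by simp [HF.rl, Fm.H]) _, ih n⟩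

theorem clauseF_H (c : Clause) : (clauseF c).H := allVars_H _ _ (fun X m => clauseM_H _ _ _ _) _

/-- Semantics of `piF`. -/
theorem sat_piF {A : Type} (S : Str A) (P : List Clause) (e : ℕ → A) :
    sat S (piF P) e ↔ (∃ x, S.rel 0 x x x) ∧ (∀ a b, ∃ c, S.rel 1 a b c) ∧
      ∀ c ∈ P, ClauseHolds S c := by
  rw [piF, sat_conjL]
  simp only [List.mem_cons, forall_eq_or_imp, List.mem_map, forall_exists_index, and_imp,
    forall_apply_eq_imp_iff₂, sat_clauseF, totNil, totNode, sat_ex, sat_all, sat_rl]
  exact Iff.rfl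

theorem conjL_H {l : List Fm} (h : ∀ a ∈ l, a.H) : (Fm.conjL l).H := by
  induction l with
  | nil => exact ⟨trivial, trivial⟩
  | cons a l ih =>
    have := ih fun b hb => h b (List.mem_cons_of_mem _ hb)
    exact ⟨⟨h a List.mem_cons_self, ⟨this, trivial⟩⟩, trivial⟩

theorem piF_H (P : List Clause) : (piF P).H := by
  refine conjL_H ?_
  simp only [List.mem_cons, forall_eq_or_imp, List.mem_map, forall_exists_index, and_imp,
    forall_apply_eq_imp_iff₂]
  exact ⟨by simp [totNil, Fm.H], by simp [totNode, Fm.H], fun c _ => clauseF_H c⟩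

/-- Existence of representatives. -/
theorem exists_Rp {A : Type} {S : Str A} (h0 : ∃ x, S.rel 0 x x x)
    (h1 : ∀ a b, ∃ c, S.rel 1 a b c) (g : Tr) : ∃ x, Rp S g x := by
  induction g with
  | nil => exact h0
  | node a b iha ihb =>
    obtain ⟨y, hy⟩ := iha
    obtain ⟨z, hz⟩ := ihb
    obtain ⟨x, hx⟩ := h1 y z
    exact ⟨x, y, z, hy, hz, hx⟩

/-- A value of a pattern at representatives represents the instance. -/
theorem Rp_of_Val {A : Type} {S : Str A} {ρ : ℕ → Tr} {x : ℕ → A} (p : Pat) :
    ∀ {u : A}, (∀ k ∈ p.vars, Rp S (ρ k) (x k)) → Val S x p u → Rp S (p.inst ρ) u := by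
  induction p with
  | var k =>
    intro u h hu
    rw [Val] at hu
    rw [hu]
    exact h k (by simp [Pat.vars])
  | nil => exact fun _ hu => hu
  | node p q ihp ihq =>
    rintro u h ⟨a, b, ha, hb, hu⟩
    exact ⟨a, b, ihp (fun k hk => h k (by simp [Pat.vars, hk])) ha,
      ihq (fun k hk => h k (by simp [Pat.vars, hk])) hb, hu⟩

theorem Val_congr {A : Type} {S : Str A} {x y : ℕ → A} (p : Pat) :
    ∀ {u : A}, (∀ k ∈ p.vars, x k = y k) → Val S x p u → Val S y p u := by
  induction p with
  | var k =>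
    intro u h hu
    rw [Val] at hu ⊢
    rw [hu]
    exact h k (by simp [Pat.vars])
  | nil => exact fun _ hu => hu
  | node p q ihp ihq =>
    rintro u h ⟨a, b, ha, hb, hu⟩
    exact ⟨a, b, ihp (fun k hk => h k (by simp [Pat.vars, hk])) ha,
      ihq (fun k hk => h k (by simp [Pat.vars, hk])) hb, hu⟩

/-- Decomposition of a representative along a linear pattern. -/
theorem exists_Val_of_Rp {A : Type} {S : Str A} {ρ : ℕ → Tr} (p : Pat) (hp : p.vars.Nodup)
    {u : A} (hu : Rp S (p.inst ρ) u) :
    ∃ x : ℕ → A, (∀ k ∈ p.vars, Rp S (ρ k) (x k)) ∧ Val S x p u := by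
  classical
  induction p generalizing u with
  | var k =>
    refine ⟨fun _ => u, fun j hj => ?_, rfl⟩
    rw [Pat.vars, List.mem_singleton] at hj
    rw [hj]
    exact hu
  | nil => exact ⟨fun _ => u, fun j hj => by simp [Pat.vars] at hj, hu⟩
  | node p q ihp ihq =>
    obtain ⟨a, b, ha, hb, hab⟩ := hu
    rw [Pat.vars, List.nodup_append] at hp
    obtain ⟨hp1, hp2, hp3⟩ := hp
    obtain ⟨x, hx, hxa⟩ := ihp hp1 ha
    obtain ⟨y, hy, hyb⟩ := ihq hp2 hb
    refine ⟨fun k => if k ∈ p.vars then x k else y k, fun k hk => ?_, a, b, ?_, ?_, hab⟩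
    · by_cases hkp : k ∈ p.vars
      · simpa only [if_pos hkp] using hx k hkp
      · rw [Pat.vars, List.mem_append] at hk
        simpa only [if_neg hkp] using hy k (hk.resolve_left hkp)
    · refine Val_congr p (fun k hk => ?_) hxa
      simp only [if_pos hk]
    · refine Val_congr q (fun k hk => ?_) hyb
      have : k ∉ p.vars := fun hkp => hp3 k hkp k hk rfl
      simp only [if_neg this]

/-- **Main lemma on Horn structures.** -/
theorem horn_main {A : Type} {S : Str A} {P : List Clause} (hlin : ∀ c ∈ P, c.head.vars.Nodup)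
    (h0 : ∃ x, S.rel 0 x x x) (h1 : ∀ a b, ∃ c, S.rel 1 a b c) (hP : ∀ c ∈ P, ClauseHolds S c)
    {g : Tr} (hg : Der P g) : ∀ x, Rp S g x → S.rel 2 x x x := by
  classical
  induction hg with
  | mk c hc ρ h ih =>
    intro x hx
    obtain ⟨y, hy, hyx⟩ := exists_Val_of_Rp c.head (hlin c hc) hx
    choose z hz using fun k => exists_Rp h0 h1 (ρ k)
    refine hP c hc (fun k => if k ∈ c.head.vars then y k else z k) (fun b hb u hu => ?_) x
      (Val_congr _ (fun k hk => by simp only [if_pos hk]) hyx)
    refine ih b hb u (Rp_of_Val b (fun k _ => ?_) hu)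
    by_cases hk : k ∈ c.head.vars
    · simpa only [if_pos hk] using hy k hk
    · simpa only [if_neg hk] using hz k

/-- The least Horn structure. -/
def LT (P : List Clause) : Str Tr where
  rel i a b c :=
    match i with
    | 0 => a = .nil
    | 1 => c = .node a b
    | _ => Der P a

theorem Rp_LT (P : List Clause) (g x : Tr) : Rp (LT P) g x ↔ x = g := by
  induction g generalizing x with
  | nil => exact Iff.rfl
  | node a b iha ihb =>
    simp only [Rp, iha, ihb]
    constructor
    · rintro ⟨y, z, rfl, rfl, h⟩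
      exact h
    · intro h
      exact ⟨a, b, rfl, rfl, h⟩

theorem Val_LT (P : List Clause) (ρ : ℕ → Tr) (p : Pat) (x : Tr) :
    Val (LT P) ρ p x ↔ x = p.inst ρ := by
  induction p generalizing x with
  | var k => exact Iff.rfl
  | nil => exact Iff.rfl
  | node p q ihp ihq =>
    simp only [Val, ihp, ihq]
    constructor
    · rintro ⟨y, z, rfl, rfl, h⟩
      exact h
    · intro h
      exact ⟨_, _, rfl, rfl, h⟩

/-- The least Horn structure is a model of the program. -/
theorem LT_piF (P : List Clause) (e : ℕ → Tr) : sat (LT P) (piF P) e := by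
  rw [sat_piF]
  refine ⟨⟨.nil, rfl⟩, fun a b => ⟨_, rfl⟩, fun c hc ρ h u hu => ?_⟩
  rw [Val_LT] at hu
  rw [hu]
  refine Der.mk c hc ρ fun b hb => ?_
  exact h b hb _ ((Val_LT P ρ b _).2 rfl)

end Pool.Agent.Lib.MP_d999cd_lc
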