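import Mathlib
import Pool.Agent.Lib.MP_d999cd_lc.Horn

/-!
# The Horn program

`gRef q Γ` : the list `Γ` of signed atoms is refuted in the calculus with parameter `q = ⟨i, p⟩`.
The atoms are `cl φ e` (`φ` code of a formula, `e` nonempty list of constants; the last constant is
repeated forever) and `at i a b c` (closed atomic formula with the constants `a, b, c`; constants
are trees).
-/

namespace Pool.Agent.Lib.MP_d999cd_lc

open BT

section generic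

variable {T : Type} [BT T]

/-- Numerals. -/
def gN : ℕ → T
  | 0 => nl
  | k + 1 => nd nl (gN k)

/-- Code of an implication. -/
def gImp (a b : T) : T := nd nl (nd a b)
/-- Code of a universal quantifier. -/
def gAll (a : T) : T := nd (nd nl nl) a
/-- Code of an atomic formula. -/
def gRl (i u v w : T) : T := nd (nd nl (nd nl nl)) (nd i (nd u (nd v w)))
/-- Code of an explicit substitution. -/
def gSb (a u v w : T) : T := nd (nd (nd nl nl) nl) (nd a (nd u (nd v w)))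

/-- Refutable list of literals. -/
def gRef (q Γ : T) : T := nd (gN 0) (nd q Γ)
/-- Membership in a list. -/
def gIn (l Γ : T) : T := nd (gN 1) (nd l Γ)
/-- Equality of trees. -/
def gSame (a b : T) : T := nd (gN 2) (nd a b)
/-- Lookup of the variable `v` in the list `e`. -/
def gLook (v e a : T) : T := nd (gN 3) (nd v (nd e a))
/-- `φ` is the code of `repF g`. -/
def gRep (g φ : T) : T := nd (gN 4) (nd g φ)
/-- `ψ` is the code of the translation of `φ` under `s`. -/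
def gTrans (s φ ψ : T) : T := nd (gN 5) (nd s (nd φ ψ))
/-- `j < i` for numerals. -/
def gLt (j i : T) : T := nd (gN 6) (nd j i)

/-- Positive literal. -/
def gPos (a : T) : T := nd (nd nl nl) a
/-- Negative literal. -/
def gNeg (a : T) : T := nd nl a
/-- The atom formula `φ` at the constants `e`. -/
def gCl (φ e : T) : T := nd nl (nd φ e)
/-- The atom relation `i` at the constants `a, b, c`. -/
def gAt (i a b c : T) : T := nd (nd nl nl) (nd i (nd a (nd b c)))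

end generic

/-- Formula templates (formulas with holes). -/
inductive Tm : Type
  | hole : ℕ → Tm
  | bot : Tm
  | imp : Tm → Tm → Tm
  | all : Tm → Tm
  | rl : ℕ → ℕ → ℕ → ℕ → Tm
  | sb : Tm → ℕ → ℕ → ℕ → Tm

namespace Tm

/-- Negation. -/
def neg (a : Tm) : Tm := .imp a .bot
/-- Existential quantifier. -/
def ex (a : Tm) : Tm := .neg (.all (.neg a))
/-- Conjunction. -/
def conj (a b : Tm) : Tm := .neg (.imp a (.neg b))

/-- Fill the holes by formulas. -/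
def fill (h : ℕ → Fm) : Tm → Fm
  | .hole k => h k
  | .bot => .bot
  | .imp a b => .imp (a.fill h) (b.fill h)
  | .all a => .all (a.fill h)
  | .rl i u v w => .rl i u v w
  | .sb a u v w => .sb (a.fill h) u v w

/-- Fill the holes on the level of codes. -/
def gen {T : Type} [BT T] (h : ℕ → T) : Tm → T
  | .hole k => h k
  | .bot => nl
  | .imp a b => gImp (a.gen h) (b.gen h)
  | .all a => gAll (a.gen h)
  | .rl i u v w => gRl (gN i) (gN u) (gN v) (gN w)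
  | .sb a u v w => gSb (a.gen h) (gN u) (gN v) (gN w)

/-- A formula as a template without holes. -/
def ofFm : Fm → Tm
  | .bot => .bot
  | .imp a b => .imp (ofFm a) (ofFm b)
  | .all a => .all (ofFm a)
  | .rl i u v w => .rl i u v w
  | .sb a u v w => .sb (ofFm a) u v w

end Tm

/-- Functions from lists. -/
def asg {T : Type} (d : T) : List T → ℕ → T
  | [], _ => d
  | a :: _, 0 => a
  | _ :: l, k + 1 => asg d l k

/-- `variable 0 = node y z` with the holes `0` for `y` and `1` for `z`. -/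
def tNode : Tm :=
  .ex (.ex (.conj (.sb (.hole 0) 1 1 1) (.conj (.sb (.hole 1) 0 0 0) (.rl 1 1 0 2))))

/-- The sentence `D`, with the holes `0` for the program and `1` for the representation of the
goal. -/
def tD : Tm :=
  .ex (.sb (.conj (.hole 0) (.all (.imp (.hole 1) (.neg (.rl 2 0 0 0))))) 0 0 0)

/-- The formula `∃ n x, n names num j ∧ x names ⟨r, a, b, c⟩ ∧ Q n x` in the variables
`0, 1, 2 = a, b, c`, with the hole `0` for `repF (num j)`. -/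
def tQ (r : ℕ) : Tm :=
  .ex (.conj (.sb (.hole 0) 0 0 0)
    (.ex (.conj (.sb (Tm.ofFm (repF (num r))) 0 0 0)
      (.ex (.conj (.rl 1 4 5 0)
        (.ex (.conj (.rl 1 4 1 0)
          (.ex (.conj (.rl 1 3 1 0) (.rl 4 4 0 0))))))))))

/-- The code of the translation `sigQ`. -/
def gSigQ {T : Type} [BT T] (ρ : T) : T :=
  nd (gRl (gN 3) nl nl nl) (nd ((tQ 0).gen fun _ => ρ) (nd ((tQ 1).gen fun _ => ρ)
    ((tQ 2).gen fun _ => ρ)))

/-- The goal. -/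
def gGoal {T : Type} [BT T] (i p : T) : T := gRef (nd i p) nl

/-- The program; `th` is the base sentence. -/
def prog (th : Fm) : List Clause :=
  let v := Pat.var
  let th' : Pat := (Tm.ofFm (.all (.sb th 0 0 0))).gen fun _ => nl
  let e0 : Pat := nd nl nl
  [ ⟨[gRef (v 0) (nd (gPos (v 2)) (v 1)), gRef (v 0) (nd (gNeg (v 2)) (v 1))],
      gRef (v 0) (v 1)⟩,
    ⟨[gIn (gPos (v 2)) (v 1), gIn (gNeg (v 2)) (v 1)], gRef (v 0) (v 1)⟩,
    ⟨[gIn (gPos (gCl nl (v 2))) (v 1)], gRef (v 0) (v 1)⟩,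
    ⟨[gIn (gPos (gCl (gImp (v 2) (v 3)) (v 4))) (v 1), gIn (gPos (gCl (v 2) (v 4))) (v 1),
      gIn (gNeg (gCl (v 3) (v 4))) (v 1)], gRef (v 0) (v 1)⟩,
    ⟨[gIn (gNeg (gCl (gImp (v 2) (v 3)) (v 4))) (v 1), gIn (gNeg (gCl (v 2) (v 4))) (v 1)],
      gRef (v 0) (v 1)⟩,
    ⟨[gIn (gNeg (gCl (gImp (v 2) (v 3)) (v 4))) (v 1), gIn (gPos (gCl (v 3) (v 4))) (v 1)],
      gRef (v 0) (v 1)⟩,
    ⟨[gIn (gPos (gCl (gAll (v 2)) (nd (v 3) (v 4)))) (v 1),
      gIn (gNeg (gCl (v 2) (nd (v 5) (nd (v 3) (v 4))))) (v 1)], gRef (v 0) (v 1)⟩,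
    ⟨[gIn (gNeg (gCl (gAll (v 2)) (nd (v 3) (v 4)))) (v 1),
      gIn (gPos (gCl (v 2) (nd (nd (v 2) (nd (v 3) (v 4))) (nd (v 3) (v 4))))) (v 1)],
      gRef (v 0) (v 1)⟩,
    ⟨[gIn (gPos (gCl (gRl (v 2) (v 3) (v 4) (v 5)) (v 6))) (v 1), gLook (v 3) (v 6) (v 7),
      gLook (v 4) (v 6) (v 8), gLook (v 5) (v 6) (v 9),
      gIn (gNeg (gAt (v 2) (v 7) (v 8) (v 9))) (v 1)], gRef (v 0) (v 1)⟩,
    ⟨[gIn (gNeg (gCl (gRl (v 2) (v 3) (v 4) (v 5)) (v 6))) (v 1), gLook (v 3) (v 6) (v 7),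
      gLook (v 4) (v 6) (v 8), gLook (v 5) (v 6) (v 9),
      gIn (gPos (gAt (v 2) (v 7) (v 8) (v 9))) (v 1)], gRef (v 0) (v 1)⟩,
    ⟨[gIn (gPos (gCl (gSb (v 2) (v 3) (v 4) (v 5)) (v 6))) (v 1), gLook (v 3) (v 6) (v 7),
      gLook (v 4) (v 6) (v 8), gLook (v 5) (v 6) (v 9),
      gIn (gNeg (gCl (v 2) (nd (v 7) (nd (v 8) (nd (v 9) nl))))) (v 1)], gRef (v 0) (v 1)⟩,
    ⟨[gIn (gNeg (gCl (gSb (v 2) (v 3) (v 4) (v 5)) (v 6))) (v 1), gLook (v 3) (v 6) (v 7),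
      gLook (v 4) (v 6) (v 8), gLook (v 5) (v 6) (v 9),
      gIn (gPos (gCl (v 2) (nd (v 7) (nd (v 8) (nd (v 9) nl))))) (v 1)], gRef (v 0) (v 1)⟩,
    ⟨[gIn (gNeg (gAt (gN 2) (v 2) (v 2) (v 3))) (v 1)], gRef (v 0) (v 1)⟩,
    ⟨[gIn (gPos (gAt (gN 2) (v 2) (v 3) (v 4))) (v 1), gIn (gPos (gAt (v 5) (v 2) (v 6) (v 7))) (v 1),
      gIn (gNeg (gAt (v 5) (v 3) (v 6) (v 7))) (v 1)], gRef (v 0) (v 1)⟩,
    ⟨[gIn (gPos (gAt (gN 2) (v 2) (v 3) (v 4))) (v 1), gIn (gPos (gAt (v 5) (v 6) (v 2) (v 7))) (v 1),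
      gIn (gNeg (gAt (v 5) (v 6) (v 3) (v 7))) (v 1)], gRef (v 0) (v 1)⟩,
    ⟨[gIn (gPos (gAt (gN 2) (v 2) (v 3) (v 4))) (v 1), gIn (gPos (gAt (v 5) (v 6) (v 7) (v 2))) (v 1),
      gIn (gNeg (gAt (v 5) (v 6) (v 7) (v 3))) (v 1)], gRef (v 0) (v 1)⟩,
    ⟨[gIn (gNeg (gCl th' e0)) (v 1)], gRef (v 0) (v 1)⟩,
    ⟨[gLt (v 3) (v 0), gRep (v 3) (v 4), gRep (gGoal (v 3) (v 2)) (v 5),
      gTrans (gSigQ (v 4)) (tD.gen (asg nl [v 2, v 5])) (v 6), gIn (gNeg (gCl (v 6) e0)) (v 1)],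
      gRef (nd (v 0) (v 2)) (v 1)⟩,
    ⟨[gRep (gGoal (v 0) (v 2)) (v 5), gTrans (v 3) (tD.gen (asg nl [v 2, v 5])) (v 6),
      gIn (gPos (gCl (v 6) e0)) (v 1)], gRef (nd (v 0) (v 2)) (v 1)⟩,
    ⟨[gSame (v 0) (v 1)], gIn (v 0) (nd (v 1) (v 2))⟩,
    ⟨[gIn (v 0) (v 2)], gIn (v 0) (nd (v 1) (v 2))⟩,
    ⟨[], gSame nl nl⟩,
    ⟨[gSame (v 0) (v 2), gSame (v 1) (v 3)], gSame (nd (v 0) (v 1)) (nd (v 2) (v 3))⟩,
    ⟨[gSame (v 0) (v 2)], gLook nl (nd (v 0) (v 1)) (v 2)⟩,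
    ⟨[gSame (v 0) (v 2)], gLook (nd (v 3) (v 4)) (nd (v 0) nl) (v 2)⟩,
    ⟨[gLook (v 4) (nd (v 1) (v 2)) (v 5)], gLook (nd (v 3) (v 4)) (nd (v 0) (nd (v 1) (v 2))) (v 5)⟩,
    ⟨[], gRep nl (gRl nl nl nl nl)⟩,
    ⟨[gRep (v 0) (v 2), gRep (v 1) (v 3)], gRep (nd (v 0) (v 1)) (tNode.gen (asg nl [v 2, v 3]))⟩,
    ⟨[], gTrans (v 0) nl nl⟩,
    ⟨[gTrans (v 0) (v 1) (v 3), gTrans (v 0) (v 2) (v 4)],
      gTrans (v 0) (gImp (v 1) (v 2)) (gImp (v 3) (v 4))⟩,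
    ⟨[gSame (v 0) (v 4), gTrans (nd (v 0) (v 1)) (v 2) (v 3)],
      gTrans (nd (v 0) (v 1)) (gAll (v 2)) (gAll (gImp (gSb (v 4) nl nl nl) (v 3)))⟩,
    ⟨[gSame (v 1) (v 11), gSame (v 4) (v 14), gSame (v 5) (v 15), gSame (v 6) (v 16)],
      gTrans (nd (v 0) (nd (v 1) (nd (v 2) (v 3)))) (gRl (gN 0) (v 4) (v 5) (v 6))
        (gSb (v 11) (v 14) (v 15) (v 16))⟩,
    ⟨[gSame (v 2) (v 11), gSame (v 4) (v 14), gSame (v 5) (v 15), gSame (v 6) (v 16)],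
      gTrans (nd (v 0) (nd (v 1) (nd (v 2) (v 3)))) (gRl (gN 1) (v 4) (v 5) (v 6))
        (gSb (v 11) (v 14) (v 15) (v 16))⟩,
    ⟨[gSame (v 3) (v 11), gSame (v 4) (v 14), gSame (v 5) (v 15), gSame (v 6) (v 16)],
      gTrans (nd (v 0) (nd (v 1) (nd (v 2) (v 3)))) (gRl (gN 2) (v 4) (v 5) (v 6))
        (gSb (v 11) (v 14) (v 15) (v 16))⟩,
    ⟨[gTrans (v 0) (v 1) (v 2), gSame (v 4) (v 14), gSame (v 5) (v 15), gSame (v 6) (v 16)],
      gTrans (v 0) (gSb (v 1) (v 4) (v 5) (v 6)) (gSb (v 2) (v 14) (v 15) (v 16))⟩,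
    ⟨[gSame (v 0) (v 2)], gLt (v 0) (nd (v 1) (v 2))⟩,
    ⟨[gLt (v 0) (v 2)], gLt (v 0) (nd (v 1) (v 2))⟩ ]

/-- The sentence of the program. -/
def Pi (th : Fm) : Fm := piF (prog th)

/-- The goal tree of level `m`. -/
def goal (th : Fm) (m : ℕ) : Tr := gGoal (num m) (cod (Pi th))

/-- The matrix of the sentence `D m`. -/
def D' (th : Fm) (m : ℕ) : Fm :=
  .conj (Pi th) (.all (.imp (repF (goal th m)) (.neg (.rl 2 0 0 0))))

/-- The sentence `D m`: the program holds in the structure and the goal of level `m` is not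
derivable. -/
def D (th : Fm) (m : ℕ) : Fm := .ex (.sb (D' th m) 0 0 0)

/-- The translation `sigQ j`: domain `Pure`, relations `Q (num j, ⟨r, a, b, c⟩)`. -/
def sigQ (j : ℕ) : Tln where
  dom := .rl 3 0 0 0
  q0 := (tQ 0).fill fun _ => repF (num j)
  q1 := (tQ 1).fill fun _ => repF (num j)
  q2 := (tQ 2).fill fun _ => repF (num j)

/-! ## Basic facts -/

theorem gN_eq (k : ℕ) : (gN k : Tr) = num k := by
  induction k with
  | zero => rfl
  | succ k ih => rw [gN, ih]; rfl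

theorem inst_gN (ρ : ℕ → Tr) (k : ℕ) : (gN k : Pat).inst ρ = gN k := by
  induction k with
  | zero => rfl
  | succ k ih =>
    rw [gN, gN, ← ih]
    rfl

theorem Tm.inst_gen (ρ : ℕ → Tr) (h : ℕ → Pat) (t : Tm) :
    (t.gen h).inst ρ = t.gen fun k => (h k).inst ρ := by
  induction t with
  | hole k => rfl
  | bot => rfl
  | imp a b iha ihb => rw [Tm.gen, Tm.gen, ← iha, ← ihb]; rfl
  | all a ih => rw [Tm.gen, Tm.gen, ← ih]; rfl
  | rl i u v w =>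
    rw [Tm.gen, Tm.gen, ← inst_gN ρ i, ← inst_gN ρ u, ← inst_gN ρ v, ← inst_gN ρ w]; rfl
  | sb a u v w ih =>
    rw [Tm.gen, Tm.gen, ← ih, ← inst_gN ρ u, ← inst_gN ρ v, ← inst_gN ρ w]; rfl

theorem Tm.dec_gen (h : ℕ → Tr) (t : Tm) : dec (t.gen h) = t.fill fun k => dec (h k) := by
  induction t with
  | hole k => rfl
  | bot => rfl
  | imp a b iha ihb => rw [Tm.fill, ← iha, ← ihb]; rfl
  | all a ih => rw [Tm.fill, ← ih]; rfl
  | rl i u v w =>
    rw [Tm.gen, gN_eq, gN_eq, gN_eq, gN_eq]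
    change dec (rlT (num i) (num u) (num v) (num w)) = _
    rw [dec_rl, len_num, len_num, len_num, len_num]
    rfl
  | sb a u v w ih =>
    rw [Tm.gen, gN_eq, gN_eq, gN_eq]
    change dec (sbT (a.gen h) (num u) (num v) (num w)) = _
    rw [dec_sb, len_num, len_num, len_num, ih]
    rfl

theorem Tm.cod_fill (h : ℕ → Fm) (t : Tm) : cod (t.fill h) = t.gen fun k => cod (h k) := by
  induction t with
  | hole k => rfl
  | bot => rfl
  | imp a b iha ihb => rw [Tm.gen, ← iha, ← ihb]; rfl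
  | all a ih => rw [Tm.gen, ← ih]; rfl
  | rl i u v w =>
    rw [Tm.gen, gN_eq, gN_eq, gN_eq, gN_eq]
    rfl
  | sb a u v w ih =>
    rw [Tm.gen, gN_eq, gN_eq, gN_eq, ← ih]
    rfl

@[simp] theorem Tm.fill_ofFm (h : ℕ → Fm) (a : Fm) : (Tm.ofFm a).fill h = a := by
  induction a with
  | bot => rfl
  | imp a b iha ihb => rw [Tm.ofFm, Tm.fill, iha, ihb]
  | all a ih => rw [Tm.ofFm, Tm.fill, ih]
  | rl i u v w => rfl
  | sb a u v w ih => rw [Tm.ofFm, Tm.fill, ih]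

theorem Tm.gen_ofFm (h : ℕ → Tr) (a : Fm) : (Tm.ofFm a).gen h = cod a := by
  induction a with
  | bot => rfl
  | imp a b iha ihb => rw [Tm.ofFm, Tm.gen, iha, ihb]; rfl
  | all a ih => rw [Tm.ofFm, Tm.gen, ih]; rfl
  | rl i u v w => rw [Tm.ofFm, Tm.gen, gN_eq, gN_eq, gN_eq, gN_eq]; rfl
  | sb a u v w ih => rw [Tm.ofFm, Tm.gen, ih, gN_eq, gN_eq, gN_eq]; rfl

theorem repF_node (a b : Tr) : repF (.node a b) = tNode.fill (asg .bot [repF a, repF b]) := rfl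

theorem D_eq (th : Fm) (m : ℕ) : D th m = tD.fill (asg .bot [Pi th, repF (goal th m)]) := rfl

end Pool.Agent.Lib.MP_d999cd_lc
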