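import Mathlib
import Pool.Agent.Lib.MP_d999cd_lc.Prog

/-!
# Soundness of the program
-/

namespace Pool.Agent.Lib.MP_d999cd_lc

/-- Lookup in a nonempty list of constants (the last constant is repeated). -/
def lookT : Tr → Tr → Tr
  | _, .nil => .nil
  | .nil, .node c _ => c
  | .node _ _, .node c .nil => c
  | .node _ v, .node _ (.node c1 e) => lookT v (.node c1 e)

/-- The environment coded by a list of constants. -/
def envI {A : Type} (I : Tr → A) : Tr → ℕ → A
  | .nil => fun _ => I .nil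
  | .node c .nil => fun _ => I c
  | .node c (.node c1 e) => cons (I c) (envI I (.node c1 e))

theorem envI_look {A : Type} (I : Tr → A) (v e : Tr) : envI I e (len v) = I (lookT v e) := by
  induction e generalizing v with
  | nil => cases v <;> rfl
  | node c e _ ih =>
    cases e with
    | nil => cases v <;> rfl
    | node c1 e =>
      cases v with
      | nil => rfl
      | node w v => exact ih v

theorem envI_tri {A : Type} (I : Tr → A) (x y z : Tr) :
    envI I (.node x (.node y (.node z .nil))) = tri (I x) (I y) (I z) := by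
  funext i
  rcases i with _ | _ | i <;> rfl

section

variable {A : Type} (S : Str A) (d : A)

open Classical in
/-- A counterexample of `a` at `ε`. -/
noncomputable def wit (a : Tr) (ε : ℕ → A) : A :=
  if h : ∃ x, ¬ sat S (dec a) (cons x ε) then h.choose else d

theorem wit_spec {a : Tr} {ε : ℕ → A} (h : ¬ ∀ x, sat S (dec a) (cons x ε)) :
    ¬ sat S (dec a) (cons (wit S d a ε) ε) := by
  have h' : ∃ x, ¬ sat S (dec a) (cons x ε) := by
    push Not at h
    exact h
  rw [wit, dif_pos h']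
  exact h'.choose_spec

/-- The interpretation of constants and of lists of constants. -/
noncomputable def J : Tr → A × (ℕ → A)
  | .nil => (d, fun _ => d)
  | .node a .nil => (wit S d a (J .nil).2, fun _ => (J a).1)
  | .node a (.node c e) => (wit S d a (J (.node c e)).2, cons (J a).1 (J (.node c e)).2)

/-- The interpretation of constants. -/
noncomputable def I (t : Tr) : A := (J S d t).1

theorem J_snd (e : Tr) : (J S d e).2 = envI (I S d) e := by
  induction e with
  | nil => simp [J, envI, I]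
  | node c e _ ih =>
    cases e with
    | nil => simp [J, envI, I]
    | node c1 e =>
      rw [J, envI, ih]
      rfl

theorem I_node (a c e : Tr) : I S d (.node a (.node c e)) = wit S d a (envI (I S d) (.node c e)) := by
  rw [I, J, J_snd]

/-- Truth of an atom. -/
def AtTrue : Tr → Prop
  | .node .nil (.node φ e) => sat S (dec φ) (envI (I S d) e)
  | .node (.node _ _) (.node i (.node a (.node b c))) =>
      S.rel (len i) (I S d a) (I S d b) (I S d c)
  | _ => False

/-- Truth of a literal. -/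
def LitTrue : Tr → Prop
  | .nil => True
  | .node .nil a => ¬ AtTrue S d a
  | .node (.node _ _) a => AtTrue S d a

/-- Head of a pair. -/
def hd : Tr → Tr
  | .nil => .nil
  | .node a _ => a

/-- Second component of a pair. -/
def tl : Tr → Tr
  | .nil => .nil
  | .node _ b => b

/-- Decoding of translations. -/
def decTln (s : Tr) : Tln where
  dom := dec (hd s)
  q0 := dec (hd (tl s))
  q1 := dec (hd (tl (tl s)))
  q2 := dec (tl (tl (tl s)))

/-- The meaning of a derivable tree. -/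
def SemN (q0 : Tr) : ℕ → Tr → Prop
  | 0, .node q Γ => q = q0 → ¬ ∀ l ∈ toL Γ, LitTrue S d l
  | 1, .node l Γ => l ∈ toL Γ
  | 2, .node a b => a = b
  | 3, .node v (.node e a) => a = lookT v e
  | 4, .node g φ => φ = cod (repF g)
  | 5, .node s (.node φ ψ) => dec ψ = tr (decTln s) (dec φ)
  | 6, .node j i => ∀ i', i = num i' → ∃ j' < i', j = num j'
  | _, _ => True

/-- The meaning of a derivable tree. -/
def Sem (q0 : Tr) : Tr → Prop
  | .nil => True
  | .node t x => SemN S d q0 (len t) x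

end

section inst

variable (ρ : ℕ → Tr)

theorem inst_nd (p q : Pat) : (BT.nd p q : Pat).inst ρ = BT.nd (p.inst ρ) (q.inst ρ) := rfl
theorem inst_nl : (BT.nl : Pat).inst ρ = BT.nl := rfl
theorem inst_var (k : ℕ) : (Pat.var k).inst ρ = ρ k := rfl
theorem inst_gImp (a b : Pat) : (gImp a b).inst ρ = gImp (a.inst ρ) (b.inst ρ) := rfl
theorem inst_gAll (a : Pat) : (gAll a).inst ρ = gAll (a.inst ρ) := rfl
theorem inst_gRl (a b c d : Pat) :
    (gRl a b c d).inst ρ = gRl (a.inst ρ) (b.inst ρ) (c.inst ρ) (d.inst ρ) := rfl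
theorem inst_gSb (a b c d : Pat) :
    (gSb a b c d).inst ρ = gSb (a.inst ρ) (b.inst ρ) (c.inst ρ) (d.inst ρ) := rfl
theorem inst_gRef (a b : Pat) : (gRef a b).inst ρ = gRef (a.inst ρ) (b.inst ρ) := rfl
theorem inst_gIn (a b : Pat) : (gIn a b).inst ρ = gIn (a.inst ρ) (b.inst ρ) := rfl
theorem inst_gSame (a b : Pat) : (gSame a b).inst ρ = gSame (a.inst ρ) (b.inst ρ) := rfl
theorem inst_gLook (a b c : Pat) :
    (gLook a b c).inst ρ = gLook (a.inst ρ) (b.inst ρ) (c.inst ρ) := rfl
theorem inst_gRep (a b : Pat) : (gRep a b).inst ρ = gRep (a.inst ρ) (b.inst ρ) := rfl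
theorem inst_gTrans (a b c : Pat) :
    (gTrans a b c).inst ρ = gTrans (a.inst ρ) (b.inst ρ) (c.inst ρ) := rfl
theorem inst_gLt (a b : Pat) : (gLt a b).inst ρ = gLt (a.inst ρ) (b.inst ρ) := rfl
theorem inst_gPos (a : Pat) : (gPos a).inst ρ = gPos (a.inst ρ) := rfl
theorem inst_gNeg (a : Pat) : (gNeg a).inst ρ = gNeg (a.inst ρ) := rfl
theorem inst_gCl (a b : Pat) : (gCl a b).inst ρ = gCl (a.inst ρ) (b.inst ρ) := rfl
theorem inst_gAt (a b c d : Pat) :
    (gAt a b c d).inst ρ = gAt (a.inst ρ) (b.inst ρ) (c.inst ρ) (d.inst ρ) := rfl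
theorem inst_gGoal (a b : Pat) : (gGoal a b).inst ρ = gGoal (a.inst ρ) (b.inst ρ) := rfl
theorem inst_gSigQ (a : Pat) : (gSigQ a).inst ρ = gSigQ (a.inst ρ) := by
  simp only [gSigQ, inst_nd, inst_nl, inst_gRl, Tm.inst_gen, inst_gN]

/-- All the rules for `Pat.inst`. -/
theorem inst_asg2 (a b : Pat) (t : Tm) :
    (t.gen (asg BT.nl [a, b])).inst ρ = t.gen (asg BT.nl [a.inst ρ, b.inst ρ]) := by
  rw [Tm.inst_gen]
  congr 1
  funext k
  rcases k with _ | _ | k <;> rfl

end inst

section sem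

variable {A : Type} (S : Str A) (d : A) (q0 : Tr)

theorem Sem_ref (q Γ : Tr) : Sem S d q0 (gRef q Γ) = (q = q0 → ¬ ∀ l ∈ toL Γ, LitTrue S d l) := rfl
theorem Sem_in (l Γ : Tr) : Sem S d q0 (gIn l Γ) = (l ∈ toL Γ) := rfl
theorem Sem_same (a b : Tr) : Sem S d q0 (gSame a b) = (a = b) := rfl
theorem Sem_look (v e a : Tr) : Sem S d q0 (gLook v e a) = (a = lookT v e) := rfl
theorem Sem_rep (g φ : Tr) : Sem S d q0 (gRep g φ) = (φ = cod (repF g)) := rfl
theorem Sem_trans (s φ ψ : Tr) :
    Sem S d q0 (gTrans s φ ψ) = (dec ψ = tr (decTln s) (dec φ)) := rfl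
theorem Sem_lt (j i : Tr) :
    Sem S d q0 (gLt j i) = (∀ i', i = num i' → ∃ j' < i', j = num j') := rfl

theorem Lit_pos (a : Tr) : LitTrue S d (gPos a) = AtTrue S d a := rfl
theorem Lit_neg (a : Tr) : LitTrue S d (gNeg a) = ¬ AtTrue S d a := rfl
theorem At_cl (φ e : Tr) : AtTrue S d (gCl φ e) = sat S (dec φ) (envI (I S d) e) := rfl
theorem At_at (i a b c : Tr) :
    AtTrue S d (gAt i a b c) = S.rel (len i) (I S d a) (I S d b) (I S d c) := rfl

theorem dec_gImp (a b : Tr) : dec (gImp a b) = .imp (dec a) (dec b) := rfl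
theorem dec_gAll (a : Tr) : dec (gAll a) = .all (dec a) := rfl
theorem dec_gRl (i u v w : Tr) : dec (gRl i u v w) = .rl (len i) (len u) (len v) (len w) := rfl
theorem dec_gSb (a u v w : Tr) : dec (gSb a u v w) = .sb (dec a) (len u) (len v) (len w) := rfl
theorem dec_nl : dec (BT.nl : Tr) = .bot := rfl
theorem toL_nd (a b : Tr) : toL (BT.nd a b) = a :: toL b := rfl
theorem toL_nl : toL (BT.nl : Tr) = [] := rfl
theorem len_nd (a b : Tr) : len (BT.nd a b) = len b + 1 := rfl
theorem len_nl : len (BT.nl : Tr) = 0 := rfl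

end sem

theorem decTln_sigQ (j : ℕ) : decTln (gSigQ (cod (repF (num j)))) = sigQ j := by
  have h : ∀ t : Tm, dec (t.gen fun _ => cod (repF (num j))) = t.fill fun _ => repF (num j) := by
    intro t
    rw [Tm.dec_gen]
    simp only [dec_cod]
  unfold decTln gSigQ sigQ
  congr 1
  · exact h _
  · exact h _
  · exact h _

theorem dec_D (th : Fm) (m : ℕ) :
    dec (tD.gen (asg BT.nl [cod (Pi th), cod (repF (goal th m))])) = D th m := by
  rw [Tm.dec_gen, D_eq]
  congr 1
  funext k
  rcases k with _ | _ | k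
  · exact dec_cod _
  · exact dec_cod _
  · rfl

theorem dec_th (th : Fm) (ρ : ℕ → Tr) :
    dec (((Tm.ofFm (.all (.sb th 0 0 0))).gen fun _ => (BT.nl : Pat)).inst ρ) =
      .all (.sb th 0 0 0) := by
  rw [Tm.inst_gen, Tm.gen_ofFm, dec_cod]

/-- **Soundness.** -/
theorem sound (th : Fm) {A : Type} (S : Str A) (d : A)
    (hEq : ∀ a b c, S.rel 2 a b c ↔ a = b) (hth : ∀ x, sat S th (tri x x x)) (m : ℕ)
    (hQ : ∀ j < m, ∀ e, sat S (tr (sigQ j) (D th j)) e)
    (hD : ∀ s e, ¬ sat S (tr s (D th m)) e) :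
    ∀ g, Der (prog th) g → Sem S d (.node (num m) (cod (Pi th))) g := by
  intro g hg
  induction hg with
  | mk c hc ρ h ih =>
    clear h
    simp only [prog, List.mem_cons, List.not_mem_nil, or_false] at hc
    rcases hc with rfl | rfl | rfl | rfl | rfl | rfl | rfl | rfl | rfl | rfl | rfl | rfl | rfl | rfl | rfl | rfl | rfl | rfl | rfl | rfl | rfl | rfl | rfl | rfl | rfl | rfl | rfl | rfl | rfl | rfl | rfl | rfl | rfl | rfl | rfl | rfl | rfl
    all_goals simp only [List.mem_cons, List.not_mem_nil, or_false, forall_eq_or_imp, forall_eq,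
      false_imp_iff, implies_true, inst_nd, inst_nl, inst_var, inst_gImp, inst_gAll, inst_gRl,
      inst_gSb, inst_gRef, inst_gIn, inst_gSame, inst_gLook, inst_gRep, inst_gTrans, inst_gLt,
      inst_gPos, inst_gNeg, inst_gCl, inst_gAt, inst_gGoal, inst_gSigQ, inst_asg2, inst_gN,
      Sem_ref, Sem_in, Sem_same, Sem_look, Sem_rep, Sem_trans, Sem_lt] at ih ⊢
    · -- case split
      rintro hq hΓ
      obtain ⟨h1, h2⟩ := ih
      by_cases ha : AtTrue S d (ρ 2)
      · refine h1 hq ?_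
        rw [toL_nd, List.forall_mem_cons]
        exact ⟨ha, hΓ⟩
      · refine h2 hq ?_
        rw [toL_nd, List.forall_mem_cons]
        exact ⟨ha, hΓ⟩
    · rintro - hΓ
      exact hΓ _ ih.2 (hΓ _ ih.1)
    · rintro - hΓ
      exact hΓ _ ih
    · rintro - hΓ
      have h1 := hΓ _ ih.1
      have h2 := hΓ _ ih.2.1
      have h3 := hΓ _ ih.2.2
      rw [Lit_pos, At_cl, dec_gImp, sat_imp] at h1
      exact h3 (h1 h2)
    · rintro - hΓ
      have h1 := hΓ _ ih.1
      have h2 := hΓ _ ih.2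
      rw [Lit_neg, At_cl, dec_gImp, sat_imp] at h1
      rw [Lit_neg, At_cl] at h2
      exact h1 fun h => absurd h h2
    · rintro - hΓ
      have h1 := hΓ _ ih.1
      have h2 := hΓ _ ih.2
      rw [Lit_neg, At_cl, dec_gImp, sat_imp] at h1
      exact h1 fun _ => h2
    · rintro - hΓ
      have h1 := hΓ _ ih.1
      have h2 := hΓ _ ih.2
      rw [Lit_pos, At_cl, dec_gAll, sat_all] at h1
      exact h2 (h1 _)
    · rintro - hΓ
      have h1 := hΓ _ ih.1
      have h2 := hΓ _ ih.2
      rw [Lit_neg, At_cl, dec_gAll, sat_all] at h1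
      refine wit_spec S d h1 ?_
      rw [Lit_pos, At_cl] at h2
      have e1 : envI (I S d) (Tr.node (Tr.node (ρ 2) (Tr.node (ρ 3) (ρ 4))) (Tr.node (ρ 3) (ρ 4))) =
          cons (wit S d (ρ 2) (envI (I S d) (Tr.node (ρ 3) (ρ 4))))
            (envI (I S d) (Tr.node (ρ 3) (ρ 4))) := by
        rw [← I_node S d (ρ 2) (ρ 3) (ρ 4)]
        rfl
      have h3 : sat S (dec (ρ 2)) (envI (I S d)
        (Tr.node (Tr.node (ρ 2) (Tr.node (ρ 3) (ρ 4))) (Tr.node (ρ 3) (ρ 4)))) := h2
      rw [e1] at h3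
      exact h3
    · rintro - hΓ
      obtain ⟨h1, h2, h3, h4, h5⟩ := ih
      have h1 := hΓ _ h1
      have h5 := hΓ _ h5
      rw [Lit_pos, At_cl, dec_gRl, sat_rl, envI_look, envI_look, envI_look, ← h2, ← h3, ← h4] at h1
      exact h5 h1
    · rintro - hΓ
      obtain ⟨h1, h2, h3, h4, h5⟩ := ih
      have h1 := hΓ _ h1
      have h5 := hΓ _ h5
      rw [Lit_neg, At_cl, dec_gRl, sat_rl, envI_look, envI_look, envI_look, ← h2, ← h3, ← h4] at h1
      exact h1 h5
    · rintro - hΓ
      obtain ⟨h1, h2, h3, h4, h5⟩ := ih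
      have h1 := hΓ _ h1
      have h5 := hΓ _ h5
      rw [Lit_pos, At_cl, dec_gSb, sat_sb, envI_look, envI_look, envI_look, ← h2, ← h3, ← h4,
        ← envI_tri] at h1
      exact h5 h1
    · rintro - hΓ
      obtain ⟨h1, h2, h3, h4, h5⟩ := ih
      have h1 := hΓ _ h1
      have h5 := hΓ _ h5
      rw [Lit_neg, At_cl, dec_gSb, sat_sb, envI_look, envI_look, envI_look, ← h2, ← h3, ← h4,
        ← envI_tri] at h1
      exact h1 h5
    · rintro - hΓ
      have h1 := hΓ _ ih
      rw [Lit_neg, At_at, gN_eq, len_num, hEq] at h1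
      exact h1 rfl
    · rintro - hΓ
      obtain ⟨h1, h2, h3⟩ := ih
      have h1 := hΓ _ h1
      have h2 := hΓ _ h2
      have h3 := hΓ _ h3
      rw [Lit_pos, At_at, gN_eq, len_num, hEq] at h1
      rw [Lit_pos, At_at, h1] at h2
      exact h3 h2
    · rintro - hΓ
      obtain ⟨h1, h2, h3⟩ := ih
      have h1 := hΓ _ h1
      have h2 := hΓ _ h2
      have h3 := hΓ _ h3
      rw [Lit_pos, At_at, gN_eq, len_num, hEq] at h1
      rw [Lit_pos, At_at, h1] at h2
      exact h3 h2
    · rintro - hΓ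
      obtain ⟨h1, h2, h3⟩ := ih
      have h1 := hΓ _ h1
      have h2 := hΓ _ h2
      have h3 := hΓ _ h3
      rw [Lit_pos, At_at, gN_eq, len_num, hEq] at h1
      rw [Lit_pos, At_at, h1] at h2
      exact h3 h2
    · rintro - hΓ
      have h1 := hΓ _ ih
      rw [Lit_neg, At_cl, dec_th, sat_all] at h1
      exact h1 fun x => hth x
    · rintro hq hΓ
      obtain ⟨h1, h2, h3, h4, h5⟩ := ih
      have h5 := hΓ _ h5
      have hq' : Tr.node (ρ 0) (ρ 2) = Tr.node (num m) (cod (Pi th)) := hq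
      rw [Tr.node.injEq] at hq'
      obtain ⟨hm, hp⟩ := hq'
      obtain ⟨j, hj, hj'⟩ := h1 m hm
      rw [hj'] at h2 h3
      rw [hp] at h3
      rw [h2, h3, hp, decTln_sigQ] at h4
      rw [show gGoal (num j) (cod (Pi th)) = goal th j from rfl, dec_D] at h4
      rw [Lit_neg, At_cl, h4] at h5
      exact h5 (hQ j hj _)
    · rintro hq hΓ
      obtain ⟨h2, h3, h5⟩ := ih
      have h5 := hΓ _ h5
      have hq' : Tr.node (ρ 0) (ρ 2) = Tr.node (num m) (cod (Pi th)) := hq
      rw [Tr.node.injEq] at hq'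
      obtain ⟨hm, hp⟩ := hq'
      rw [h2, hm, hp, show gGoal (num m) (cod (Pi th)) = goal th m from rfl, dec_D] at h3
      rw [Lit_pos, At_cl, h3] at h5
      exact hD _ _ h5
    · rw [toL_nd, ih]
      exact List.mem_cons_self
    · rw [toL_nd]
      exact List.mem_cons_of_mem _ ih
    · rw [ih.1, ih.2]
    · exact ih.symm
    · exact ih.symm
    · exact ih
    · rfl
    · rw [show repF (BT.nd (ρ 0) (ρ 1)) = _ from repF_node (ρ 0) (ρ 1), Tm.cod_fill, ih.1, ih.2]
      congr 1
      funext k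
      rcases k with _ | _ | k <;> rfl
    · rfl
    · rw [dec_gImp, dec_gImp, tr, ih.1, ih.2]
    · rw [dec_gAll, dec_gAll, tr, dec_gImp, dec_gSb, ih.2, ← ih.1]
      rfl
    · obtain ⟨h1, h2, h3, h4⟩ := ih
      rw [dec_gRl, dec_gSb, ← h1, ← h2, ← h3, ← h4]
      rfl
    · obtain ⟨h1, h2, h3, h4⟩ := ih
      rw [dec_gRl, dec_gSb, ← h1, ← h2, ← h3, ← h4]
      rfl
    · obtain ⟨h1, h2, h3, h4⟩ := ih
      rw [dec_gRl, dec_gSb, ← h1, ← h2, ← h3, ← h4]
      rfl
    · obtain ⟨h1, h2, h3, h4⟩ := ih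
      rw [dec_gSb, dec_gSb, tr, ← h1, ← h2, ← h3, ← h4]
    · intro i' hi'
      cases i' with
      | zero => exact absurd hi' (by intro h; cases h)
      | succ i' =>
        have h2 : Tr.node (ρ 1) (ρ 2) = Tr.node .nil (num i') := hi'
        rw [Tr.node.injEq] at h2
        exact ⟨i', Nat.lt_succ_self _, by rw [ih, h2.2]⟩
    · intro i' hi'
      cases i' with
      | zero => exact absurd hi' (by intro h; cases h)
      | succ i' =>
        have h2 : Tr.node (ρ 1) (ρ 2) = Tr.node .nil (num i') := hi'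
        rw [Tr.node.injEq] at h2
        obtain ⟨j', hj', hj''⟩ := ih i' h2.2
        exact ⟨j', Nat.lt_succ_of_lt hj', hj''⟩

/-- The goal is not derivable if a model exists. -/
theorem not_der_goal (th : Fm) {A : Type} (S : Str A) (d : A)
    (hEq : ∀ a b c, S.rel 2 a b c ↔ a = b) (hth : ∀ x, sat S th (tri x x x)) (m : ℕ)
    (hQ : ∀ j < m, ∀ e, sat S (tr (sigQ j) (D th j)) e)
    (hD : ∀ s e, ¬ sat S (tr s (D th m)) e) : ¬ Der (prog th) (goal th m) := by
  intro h
  exact sound th S d hEq hth m hQ hD _ h rfl fun l hl => absurd hl List.not_mem_nil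

end Pool.Agent.Lib.MP_d999cd_lc
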