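import Mathlib
import Pool.Agent.Lib.MP_d999cd_lc.Sound

/-!
# Completeness of the program
-/

namespace Pool.Agent.Lib.MP_d999cd_lc

set_option linter.unusedSimpArgs false

/-! ## Trees are countable -/

/-- A Gödel number. -/
def toN : Tr → ℕ
  | .nil => 0
  | .node a b => Nat.pair (toN a) (toN b) + 1

theorem toN_inj : Function.Injective toN := by
  intro a
  induction a with
  | nil =>
    intro b h
    cases b with
    | nil => rfl
    | node b c => simp [toN] at h
  | node a a' iha iha' =>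
    intro b h
    cases b with
    | nil => simp [toN] at h
    | node b c =>
      rw [toN, toN, Nat.add_right_cancel_iff, Nat.pair_eq_pair] at h
      rw [iha h.1, iha' h.2]

instance : Countable Tr := ⟨⟨toN, toN_inj⟩⟩

instance : Inhabited Tr := ⟨.nil⟩

/-! ## Derivable auxiliary facts -/

section facts

variable {th : Fm}

/-- Use of a clause: `asg` is the instance. -/
theorem Der.use {P : List Clause} (c : Clause) (hc : c ∈ P) (ρ : ℕ → Tr) {g : Tr}
    (hg : c.head.inst ρ = g) (h : ∀ b ∈ c.body, Der P (b.inst ρ)) : Der P g :=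
  hg ▸ Der.mk c hc ρ h

/-- Membership in the program by position. -/
theorem mem_prog {th : Fm} (k : ℕ) {c : Clause} (h : (prog th)[k]? = some c) : c ∈ prog th :=
  List.mem_of_getElem? h

theorem der_same (a : Tr) : Der (prog th) (gSame a a) := by
  induction a with
  | nil => exact Der.use _ (mem_prog 21 rfl) (asg .nil []) rfl (by simp)
  | node a b iha ihb =>
    refine Der.use _ (mem_prog 22 rfl) (asg .nil [a, b, a, b]) rfl ?_
    simp only [List.mem_cons, List.not_mem_nil, or_false, forall_eq_or_imp, forall_eq]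
    exact ⟨iha, ihb⟩

theorem der_in {l Γ : Tr} (h : l ∈ toL Γ) : Der (prog th) (gIn l Γ) := by
  induction Γ with
  | nil => exact absurd h List.not_mem_nil
  | node a Γ _ ih =>
    rcases List.mem_cons.1 h with rfl | h
    · refine Der.use _ (mem_prog 19 rfl) (asg .nil [l, l, Γ]) rfl ?_
      simp only [List.mem_cons, List.not_mem_nil, or_false, forall_eq_or_imp, forall_eq]
      exact der_same l
    · refine Der.use _ (mem_prog 20 rfl) (asg .nil [l, a, Γ]) rfl ?_
      simp only [List.mem_cons, List.not_mem_nil, or_false, forall_eq_or_imp, forall_eq]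
      exact ih h

theorem der_look (v : Tr) {e : Tr} (he : e ≠ .nil) : Der (prog th) (gLook v e (lookT v e)) := by
  induction e generalizing v with
  | nil => exact absurd rfl he
  | node c e _ ih =>
    cases v with
    | nil =>
      refine Der.use _ (mem_prog 23 rfl) (asg .nil [c, e, c]) ?_ ?_
      · cases e <;> rfl
      · simp only [List.mem_cons, List.not_mem_nil, or_false, forall_eq_or_imp, forall_eq]
        exact der_same c
    | node w v =>
      cases e with
      | nil =>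
        refine Der.use _ (mem_prog 24 rfl) (asg .nil [c, .nil, c, w, v]) rfl ?_
        simp only [List.mem_cons, List.not_mem_nil, or_false, forall_eq_or_imp, forall_eq]
        exact der_same c
      | node c1 e =>
        refine Der.use _ (mem_prog 25 rfl) (asg .nil [c, c1, e, w, v, lookT v (.node c1 e)]) rfl ?_
        simp only [List.mem_cons, List.not_mem_nil, or_false, forall_eq_or_imp, forall_eq]
        exact ih v (by simp)

theorem der_rep (g : Tr) : Der (prog th) (gRep g (cod (repF g))) := by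
  induction g with
  | nil => exact Der.use _ (mem_prog 26 rfl) (asg .nil []) rfl (by simp)
  | node a b iha ihb =>
    refine Der.use _ (mem_prog 27 rfl) (asg .nil [a, b, cod (repF a), cod (repF b)]) ?_ ?_
    · have h1 : (fun k => cod (asg Fm.bot [repF a, repF b] k)) =
          asg BT.nl [cod (repF a), cod (repF b)] := by
        funext k
        rcases k with _ | _ | k <;> rfl
      rw [repF_node, Tm.cod_fill, h1]
      rw [inst_gRep, inst_asg2]
      rfl
    · simp only [List.mem_cons, List.not_mem_nil, or_false, forall_eq_or_imp, forall_eq]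
      exact ⟨iha, ihb⟩

/-- The code of a translation. -/
def codTln (s : Tln) : Tr := .node (cod s.dom) (.node (cod s.q0) (.node (cod s.q1) (cod s.q2)))

theorem der_trans (s : Tln) {φ : Fm} (hφ : φ.H) :
    Der (prog th) (gTrans (codTln s) (cod φ) (cod (tr s φ))) := by
  induction φ with
  | bot => exact Der.use _ (mem_prog 28 rfl) (asg .nil [codTln s]) rfl (by simp)
  | imp a b iha ihb =>
    refine Der.use _ (mem_prog 29 rfl)
      (asg .nil [codTln s, cod a, cod b, cod (tr s a), cod (tr s b)]) rfl ?_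
    simp only [List.mem_cons, List.not_mem_nil, or_false, forall_eq_or_imp, forall_eq]
    exact ⟨iha hφ.1, ihb hφ.2⟩
  | all a ih =>
    refine Der.use _ (mem_prog 30 rfl) (asg .nil [cod s.dom, .node (cod s.q0) (.node (cod s.q1)
      (cod s.q2)), cod a, cod (tr s a), cod s.dom]) rfl ?_
    simp only [List.mem_cons, List.not_mem_nil, or_false, forall_eq_or_imp, forall_eq]
    exact ⟨der_same _, ih hφ⟩
  | rl i u v w =>
    have hi : i = 0 ∨ i = 1 ∨ i = 2 := by
      have : i ≤ 2 := hφ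
      omega
    rcases hi with rfl | rfl | rfl
    · refine Der.use _ (mem_prog 31 rfl) (asg .nil [cod s.dom, cod s.q0, cod s.q1, cod s.q2,
        num u, num v, num w, .nil, .nil, .nil, .nil, cod s.q0, .nil, .nil, num u, num v, num w])
        rfl ?_
      simp only [List.mem_cons, List.not_mem_nil, or_false, forall_eq_or_imp, forall_eq]
      exact ⟨der_same _, der_same _, der_same _, der_same _⟩
    · refine Der.use _ (mem_prog 32 rfl) (asg .nil [cod s.dom, cod s.q0, cod s.q1, cod s.q2,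
        num u, num v, num w, .nil, .nil, .nil, .nil, cod s.q1, .nil, .nil, num u, num v, num w])
        rfl ?_
      simp only [List.mem_cons, List.not_mem_nil, or_false, forall_eq_or_imp, forall_eq]
      exact ⟨der_same _, der_same _, der_same _, der_same _⟩
    · refine Der.use _ (mem_prog 33 rfl) (asg .nil [cod s.dom, cod s.q0, cod s.q1, cod s.q2,
        num u, num v, num w, .nil, .nil, .nil, .nil, cod s.q2, .nil, .nil, num u, num v, num w])
        rfl ?_
      simp only [List.mem_cons, List.not_mem_nil, or_false, forall_eq_or_imp, forall_eq]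
      exact ⟨der_same _, der_same _, der_same _, der_same _⟩
  | sb a u v w ih =>
    refine Der.use _ (mem_prog 34 rfl) (asg .nil [codTln s, cod a, cod (tr s a), .nil,
        num u, num v, num w, .nil, .nil, .nil, .nil, .nil, .nil, .nil, num u, num v, num w])
        rfl ?_
    simp only [List.mem_cons, List.not_mem_nil, or_false, forall_eq_or_imp, forall_eq]
    exact ⟨ih hφ, der_same _, der_same _, der_same _⟩

theorem der_lt {j i : ℕ} (h : j < i) : Der (prog th) (gLt (num j) (num i)) := by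
  induction i with
  | zero => exact absurd h (Nat.not_lt_zero _)
  | succ i ih =>
    rcases Nat.lt_succ_iff_lt_or_eq.1 h with h | rfl
    · refine Der.use _ (mem_prog 36 rfl) (asg .nil [num j, .nil, num i]) rfl ?_
      simp only [List.mem_cons, List.not_mem_nil, or_false, forall_eq_or_imp, forall_eq]
      exact ih h
    · refine Der.use _ (mem_prog 35 rfl) (asg .nil [num j, .nil, num j]) rfl ?_
      simp only [List.mem_cons, List.not_mem_nil, or_false, forall_eq_or_imp, forall_eq]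
      exact der_same _

end facts

theorem conj_H {a b : Fm} (ha : a.H) (hb : b.H) : (Fm.conj a b).H := ⟨⟨ha, hb, trivial⟩, trivial⟩

theorem exsb_H {a : Fm} (ha : a.H) : (Fm.ex (.sb a 0 0 0)).H := ⟨⟨ha, trivial⟩, trivial⟩

theorem D'_H (th : Fm) (m : ℕ) : (D' th m).H :=
  conj_H (piF_H _) ⟨repF_H _, (show (2 : ℕ) ≤ 2 from le_rfl), trivial⟩

theorem D_H (th : Fm) (m : ℕ) : (D th m).H := exsb_H (D'_H th m)

theorem cod_D (th : Fm) (m : ℕ) :
    cod (D th m) = tD.gen (asg BT.nl [cod (Pi th), cod (repF (goal th m))]) := by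
  rw [D_eq, Tm.cod_fill]
  congr 1
  funext k
  rcases k with _ | _ | k <;> rfl

theorem codTln_sigQ (j : ℕ) : codTln (sigQ j) = gSigQ (cod (repF (num j))) := by
  unfold codTln sigQ gSigQ
  simp only [Tm.cod_fill]
  rfl

/-! ## The valuation -/

section henkin

variable {th : Fm} {m : ℕ}

/-- The parameter. -/
def qq (th : Fm) (m : ℕ) : Tr := .node (num m) (cod (Pi th))

/-- Consistency of a list of literals. -/
def Cns (th : Fm) (m : ℕ) (Γ : Tr) : Prop := ¬ Der (prog th) (gRef (qq th m) Γ)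

theorem cns_split {Γ : Tr} (h : Cns th m Γ) (a : Tr) :
    Cns th m (.node (gPos a) Γ) ∨ Cns th m (.node (gNeg a) Γ) := by
  by_contra hcon
  rw [not_or, Cns, Cns, not_not, not_not] at hcon
  refine h (Der.use _ (mem_prog 0 rfl) (asg .nil [qq th m, Γ, a]) rfl ?_)
  simp only [List.mem_cons, List.not_mem_nil, or_false, forall_eq_or_imp, forall_eq]
  exact hcon

/-- A consistent complete chain: there is a valuation `v` all of whose finite parts are
consistent. -/
theorem exists_val (h : Cns th m .nil) : ∃ v : Tr → Prop, ∀ L : List Tr,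
    (∀ l ∈ L, (∃ a, l = gPos a ∧ v a) ∨ ∃ a, l = gNeg a ∧ ¬ v a) →
    ∃ Γ, Cns th m Γ ∧ ∀ l ∈ L, l ∈ toL Γ := by
  classical
  obtain ⟨f, hf⟩ := exists_surjective_nat Tr
  let G : ℕ → {Γ : Tr // Cns th m Γ} := fun n => Nat.rec ⟨.nil, h⟩ (fun k Γ =>
    if h1 : Cns th m (.node (gPos (f k)) Γ.1) then ⟨_, h1⟩
    else ⟨.node (gNeg (f k)) Γ.1, (cns_split Γ.2 (f k)).resolve_left h1⟩) n
  have hmono1 : ∀ n, ∀ l ∈ toL (G n).1, l ∈ toL (G (n + 1)).1 := by
    intro n l hl
    change l ∈ toL (if h1 : Cns th m (.node (gPos (f n)) (G n).1) then (⟨_, h1⟩ : {Γ // Cns th m Γ})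
      else ⟨.node (gNeg (f n)) (G n).1, (cns_split (G n).2 (f n)).resolve_left h1⟩).1
    split_ifs <;> exact List.mem_cons_of_mem _ hl
  have hmono : ∀ n k, n ≤ k → ∀ l ∈ toL (G n).1, l ∈ toL (G k).1 := by
    intro n k hnk
    induction hnk with
    | refl => exact fun l hl => hl
    | step _ ih => exact fun l hl => hmono1 _ _ (ih l hl)
  have hdec : ∀ a, ∃ n, gPos a ∈ toL (G n).1 ∨ gNeg a ∈ toL (G n).1 := by
    intro a
    obtain ⟨k, rfl⟩ := hf a
    refine ⟨k + 1, ?_⟩
    change gPos (f k) ∈ toL (if h1 : Cns th m (.node (gPos (f k)) (G k).1) then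
        (⟨_, h1⟩ : {Γ // Cns th m Γ})
      else ⟨.node (gNeg (f k)) (G k).1, (cns_split (G k).2 (f k)).resolve_left h1⟩).1 ∨
      gNeg (f k) ∈ toL (if h1 : Cns th m (.node (gPos (f k)) (G k).1) then
        (⟨_, h1⟩ : {Γ // Cns th m Γ})
      else ⟨.node (gNeg (f k)) (G k).1, (cns_split (G k).2 (f k)).resolve_left h1⟩).1
    split_ifs
    · exact Or.inl List.mem_cons_self
    · exact Or.inr List.mem_cons_self
  have hfin : ∀ L : List Tr, (∀ l ∈ L, ∃ n, l ∈ toL (G n).1) → ∃ n, ∀ l ∈ L, l ∈ toL (G n).1 := by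
    intro L
    induction L with
    | nil => exact fun _ => ⟨0, by simp⟩
    | cons l L ih =>
      intro hL
      obtain ⟨n, hn⟩ := ih fun l' hl' => hL l' (List.mem_cons_of_mem _ hl')
      obtain ⟨k, hk⟩ := hL l List.mem_cons_self
      refine ⟨max n k, fun l' hl' => ?_⟩
      rcases List.mem_cons.1 hl' with rfl | hl'
      · exact hmono _ _ (le_max_right _ _) _ hk
      · exact hmono _ _ (le_max_left _ _) _ (hn l' hl')
  refine ⟨fun a => ∃ n, gPos a ∈ toL (G n).1, fun L hL => ?_⟩
  obtain ⟨n, hn⟩ := hfin L fun l hl => by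
    rcases hL l hl with ⟨a, rfl, ha⟩ | ⟨a, rfl, ha⟩
    · exact ha
    · obtain ⟨k, hk | hk⟩ := hdec a
      · exact absurd ⟨k, hk⟩ ha
      · exact ⟨k, hk⟩
  exact ⟨(G n).1, (G n).2, hn⟩

variable {v : Tr → Prop} (hv : ∀ L : List Tr,
    (∀ l ∈ L, (∃ a, l = gPos a ∧ v a) ∨ ∃ a, l = gNeg a ∧ ¬ v a) →
    ∃ Γ, Cns th m Γ ∧ ∀ l ∈ L, l ∈ toL Γ)

include hv

theorem v_bot (e : Tr) : ¬ v (gCl .nil e) := by
  intro h
  obtain ⟨Γ, hΓ, hL⟩ := hv [gPos (gCl .nil e)] (by
    simp only [List.mem_cons, List.not_mem_nil, or_false, forall_eq_or_imp, forall_eq]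
    exact Or.inl ⟨_, rfl, h⟩)
  refine hΓ (Der.use _ (mem_prog 2 rfl) (asg .nil [qq th m, Γ, e]) rfl ?_)
  simp only [List.mem_cons, List.not_mem_nil, or_false, forall_eq_or_imp, forall_eq] at hL ⊢
  exact der_in hL

theorem v_imp (a b e : Tr) : v (gCl (gImp a b) e) ↔ (v (gCl a e) → v (gCl b e)) := by
  constructor
  · intro h h1
    by_contra h2
    obtain ⟨Γ, hΓ, hL⟩ := hv [gPos (gCl (gImp a b) e), gPos (gCl a e), gNeg (gCl b e)] (by
      simp only [List.mem_cons, List.not_mem_nil, or_false, forall_eq_or_imp, forall_eq]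
      exact ⟨Or.inl ⟨_, rfl, h⟩, Or.inl ⟨_, rfl, h1⟩, Or.inr ⟨_, rfl, h2⟩⟩)
    refine hΓ (Der.use _ (mem_prog 3 rfl) (asg .nil [qq th m, Γ, a, b, e]) rfl ?_)
    simp only [List.mem_cons, List.not_mem_nil, or_false, forall_eq_or_imp, forall_eq] at hL ⊢
    exact ⟨der_in hL.1, der_in hL.2.1, der_in hL.2.2⟩
  · intro h
    by_contra h1
    by_cases h2 : v (gCl a e)
    · have h3 := h h2
      obtain ⟨Γ, hΓ, hL⟩ := hv [gNeg (gCl (gImp a b) e), gPos (gCl b e)] (by
        simp only [List.mem_cons, List.not_mem_nil, or_false, forall_eq_or_imp, forall_eq]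
        exact ⟨Or.inr ⟨_, rfl, h1⟩, Or.inl ⟨_, rfl, h3⟩⟩)
      refine hΓ (Der.use _ (mem_prog 5 rfl) (asg .nil [qq th m, Γ, a, b, e]) rfl ?_)
      simp only [List.mem_cons, List.not_mem_nil, or_false, forall_eq_or_imp, forall_eq] at hL ⊢
      exact ⟨der_in hL.1, der_in hL.2⟩
    · obtain ⟨Γ, hΓ, hL⟩ := hv [gNeg (gCl (gImp a b) e), gNeg (gCl a e)] (by
        simp only [List.mem_cons, List.not_mem_nil, or_false, forall_eq_or_imp, forall_eq]
        exact ⟨Or.inr ⟨_, rfl, h1⟩, Or.inr ⟨_, rfl, h2⟩⟩)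
      refine hΓ (Der.use _ (mem_prog 4 rfl) (asg .nil [qq th m, Γ, a, b, e]) rfl ?_)
      simp only [List.mem_cons, List.not_mem_nil, or_false, forall_eq_or_imp, forall_eq] at hL ⊢
      exact ⟨der_in hL.1, der_in hL.2⟩

theorem v_all (a c e : Tr) : v (gCl (gAll a) (.node c e)) ↔
    ∀ x, v (gCl a (.node x (.node c e))) := by
  constructor
  · intro h x
    by_contra h1
    obtain ⟨Γ, hΓ, hL⟩ := hv [gPos (gCl (gAll a) (.node c e)),
        gNeg (gCl a (.node x (.node c e)))] (by
      simp only [List.mem_cons, List.not_mem_nil, or_false, forall_eq_or_imp, forall_eq]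
      exact ⟨Or.inl ⟨_, rfl, h⟩, Or.inr ⟨_, rfl, h1⟩⟩)
    refine hΓ (Der.use _ (mem_prog 6 rfl) (asg .nil [qq th m, Γ, a, c, e, x]) rfl ?_)
    simp only [List.mem_cons, List.not_mem_nil, or_false, forall_eq_or_imp, forall_eq] at hL ⊢
    exact ⟨der_in hL.1, der_in hL.2⟩
  · intro h
    by_contra h1
    have h2 := h (.node a (.node c e))
    obtain ⟨Γ, hΓ, hL⟩ := hv [gNeg (gCl (gAll a) (.node c e)),
        gPos (gCl a (.node (.node a (.node c e)) (.node c e)))] (by
      simp only [List.mem_cons, List.not_mem_nil, or_false, forall_eq_or_imp, forall_eq]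
      exact ⟨Or.inr ⟨_, rfl, h1⟩, Or.inl ⟨_, rfl, h2⟩⟩)
    refine hΓ (Der.use _ (mem_prog 7 rfl) (asg .nil [qq th m, Γ, a, c, e]) rfl ?_)
    simp only [List.mem_cons, List.not_mem_nil, or_false, forall_eq_or_imp, forall_eq] at hL ⊢
    exact ⟨der_in hL.1, der_in hL.2⟩

theorem v_rl (i a b c : Tr) {e : Tr} (he : e ≠ .nil) : v (gCl (gRl i a b c) e) ↔
    v (gAt i (lookT a e) (lookT b e) (lookT c e)) := by
  constructor
  · intro h
    by_contra h1
    obtain ⟨Γ, hΓ, hL⟩ := hv [gPos (gCl (gRl i a b c) e),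
        gNeg (gAt i (lookT a e) (lookT b e) (lookT c e))] (by
      simp only [List.mem_cons, List.not_mem_nil, or_false, forall_eq_or_imp, forall_eq]
      exact ⟨Or.inl ⟨_, rfl, h⟩, Or.inr ⟨_, rfl, h1⟩⟩)
    refine hΓ (Der.use _ (mem_prog 8 rfl) (asg .nil [qq th m, Γ, i, a, b, c, e,
      lookT a e, lookT b e, lookT c e]) rfl ?_)
    simp only [List.mem_cons, List.not_mem_nil, or_false, forall_eq_or_imp, forall_eq] at hL ⊢
    exact ⟨der_in hL.1, der_look a he, der_look b he, der_look c he, der_in hL.2⟩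
  · intro h
    by_contra h1
    obtain ⟨Γ, hΓ, hL⟩ := hv [gNeg (gCl (gRl i a b c) e),
        gPos (gAt i (lookT a e) (lookT b e) (lookT c e))] (by
      simp only [List.mem_cons, List.not_mem_nil, or_false, forall_eq_or_imp, forall_eq]
      exact ⟨Or.inr ⟨_, rfl, h1⟩, Or.inl ⟨_, rfl, h⟩⟩)
    refine hΓ (Der.use _ (mem_prog 9 rfl) (asg .nil [qq th m, Γ, i, a, b, c, e,
      lookT a e, lookT b e, lookT c e]) rfl ?_)
    simp only [List.mem_cons, List.not_mem_nil, or_false, forall_eq_or_imp, forall_eq] at hL ⊢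
    exact ⟨der_in hL.1, der_look a he, der_look b he, der_look c he, der_in hL.2⟩

theorem v_sb (i a b c : Tr) {e : Tr} (he : e ≠ .nil) : v (gCl (gSb i a b c) e) ↔
    v (gCl i (.node (lookT a e) (.node (lookT b e) (.node (lookT c e) .nil)))) := by
  constructor
  · intro h
    by_contra h1
    obtain ⟨Γ, hΓ, hL⟩ := hv [gPos (gCl (gSb i a b c) e),
        gNeg (gCl i (.node (lookT a e) (.node (lookT b e) (.node (lookT c e) .nil))))] (by
      simp only [List.mem_cons, List.not_mem_nil, or_false, forall_eq_or_imp, forall_eq]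
      exact ⟨Or.inl ⟨_, rfl, h⟩, Or.inr ⟨_, rfl, h1⟩⟩)
    refine hΓ (Der.use _ (mem_prog 10 rfl) (asg .nil [qq th m, Γ, i, a, b, c, e,
      lookT a e, lookT b e, lookT c e]) rfl ?_)
    simp only [List.mem_cons, List.not_mem_nil, or_false, forall_eq_or_imp, forall_eq] at hL ⊢
    exact ⟨der_in hL.1, der_look a he, der_look b he, der_look c he, der_in hL.2⟩
  · intro h
    by_contra h1
    obtain ⟨Γ, hΓ, hL⟩ := hv [gNeg (gCl (gSb i a b c) e),
        gPos (gCl i (.node (lookT a e) (.node (lookT b e) (.node (lookT c e) .nil))))] (by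
      simp only [List.mem_cons, List.not_mem_nil, or_false, forall_eq_or_imp, forall_eq]
      exact ⟨Or.inr ⟨_, rfl, h1⟩, Or.inl ⟨_, rfl, h⟩⟩)
    refine hΓ (Der.use _ (mem_prog 11 rfl) (asg .nil [qq th m, Γ, i, a, b, c, e,
      lookT a e, lookT b e, lookT c e]) rfl ?_)
    simp only [List.mem_cons, List.not_mem_nil, or_false, forall_eq_or_imp, forall_eq] at hL ⊢
    exact ⟨der_in hL.1, der_look a he, der_look b he, der_look c he, der_in hL.2⟩

theorem v_refl (a c : Tr) : v (gAt (num 2) a a c) := by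
  by_contra h1
  obtain ⟨Γ, hΓ, hL⟩ := hv [gNeg (gAt (num 2) a a c)] (by
    simp only [List.mem_cons, List.not_mem_nil, or_false, forall_eq_or_imp, forall_eq]
    exact Or.inr ⟨_, rfl, h1⟩)
  refine hΓ (Der.use _ (mem_prog 12 rfl) (asg .nil [qq th m, Γ, a, c]) rfl ?_)
  simp only [List.mem_cons, List.not_mem_nil, or_false, forall_eq_or_imp, forall_eq] at hL ⊢
  exact der_in hL

theorem v_repl1 {a b c i x y : Tr} (h : v (gAt (num 2) a b c)) (h1 : v (gAt i a x y)) :
    v (gAt i b x y) := by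
  by_contra h2
  obtain ⟨Γ, hΓ, hL⟩ := hv [gPos (gAt (num 2) a b c), gPos (gAt i a x y), gNeg (gAt i b x y)] (by
    simp only [List.mem_cons, List.not_mem_nil, or_false, forall_eq_or_imp, forall_eq]
    exact ⟨Or.inl ⟨_, rfl, h⟩, Or.inl ⟨_, rfl, h1⟩, Or.inr ⟨_, rfl, h2⟩⟩)
  refine hΓ (Der.use _ (mem_prog 13 rfl) (asg .nil [qq th m, Γ, a, b, c, i, x, y]) rfl ?_)
  simp only [List.mem_cons, List.not_mem_nil, or_false, forall_eq_or_imp, forall_eq] at hL ⊢
  exact ⟨der_in hL.1, der_in hL.2.1, der_in hL.2.2⟩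

theorem v_repl2 {a b c i x y : Tr} (h : v (gAt (num 2) a b c)) (h1 : v (gAt i x a y)) :
    v (gAt i x b y) := by
  by_contra h2
  obtain ⟨Γ, hΓ, hL⟩ := hv [gPos (gAt (num 2) a b c), gPos (gAt i x a y), gNeg (gAt i x b y)] (by
    simp only [List.mem_cons, List.not_mem_nil, or_false, forall_eq_or_imp, forall_eq]
    exact ⟨Or.inl ⟨_, rfl, h⟩, Or.inl ⟨_, rfl, h1⟩, Or.inr ⟨_, rfl, h2⟩⟩)
  refine hΓ (Der.use _ (mem_prog 14 rfl) (asg .nil [qq th m, Γ, a, b, c, i, x, y]) rfl ?_)
  simp only [List.mem_cons, List.not_mem_nil, or_false, forall_eq_or_imp, forall_eq] at hL ⊢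
  exact ⟨der_in hL.1, der_in hL.2.1, der_in hL.2.2⟩

theorem v_repl3 {a b c i x y : Tr} (h : v (gAt (num 2) a b c)) (h1 : v (gAt i x y a)) :
    v (gAt i x y b) := by
  by_contra h2
  obtain ⟨Γ, hΓ, hL⟩ := hv [gPos (gAt (num 2) a b c), gPos (gAt i x y a), gNeg (gAt i x y b)] (by
    simp only [List.mem_cons, List.not_mem_nil, or_false, forall_eq_or_imp, forall_eq]
    exact ⟨Or.inl ⟨_, rfl, h⟩, Or.inl ⟨_, rfl, h1⟩, Or.inr ⟨_, rfl, h2⟩⟩)
  refine hΓ (Der.use _ (mem_prog 15 rfl) (asg .nil [qq th m, Γ, a, b, c, i, x, y]) rfl ?_)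
  simp only [List.mem_cons, List.not_mem_nil, or_false, forall_eq_or_imp, forall_eq] at hL ⊢
  exact ⟨der_in hL.1, der_in hL.2.1, der_in hL.2.2⟩

theorem v_th : v (gCl (cod (.all (.sb th 0 0 0))) (.node .nil .nil)) := by
  by_contra h1
  obtain ⟨Γ, hΓ, hL⟩ := hv [gNeg (gCl (cod (.all (.sb th 0 0 0))) (.node .nil .nil))] (by
    simp only [List.mem_cons, List.not_mem_nil, or_false, forall_eq_or_imp, forall_eq]
    exact Or.inr ⟨_, rfl, h1⟩)
  refine hΓ (Der.use _ (mem_prog 16 rfl) (asg .nil [qq th m, Γ]) rfl ?_)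
  simp only [List.mem_cons, List.not_mem_nil, or_false, forall_eq_or_imp, forall_eq] at hL ⊢
  rw [inst_gIn, inst_gNeg, inst_gCl, Tm.inst_gen, Tm.gen_ofFm]
  exact der_in hL

theorem v_Q {j : ℕ} (hj : j < m) : v (gCl (cod (tr (sigQ j) (D th j))) (.node .nil .nil)) := by
  by_contra h1
  obtain ⟨Γ, hΓ, hL⟩ := hv [gNeg (gCl (cod (tr (sigQ j) (D th j))) (.node .nil .nil))] (by
    simp only [List.mem_cons, List.not_mem_nil, or_false, forall_eq_or_imp, forall_eq]
    exact Or.inr ⟨_, rfl, h1⟩)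
  refine hΓ (Der.use _ (mem_prog 17 rfl) (asg .nil [num m, Γ, cod (Pi th), num j,
    cod (repF (num j)), cod (repF (goal th j)), cod (tr (sigQ j) (D th j))]) rfl ?_)
  simp only [List.mem_cons, List.not_mem_nil, or_false, forall_eq_or_imp, forall_eq] at hL ⊢
  refine ⟨der_lt hj, der_rep _, der_rep (goal th j), ?_, der_in hL⟩
  rw [inst_gTrans, inst_asg2, inst_gSigQ]
  have := der_trans (th := th) (sigQ j) (D_H th j)
  rw [cod_D, codTln_sigQ] at this
  exact this

theorem v_D (s : Tln) : ¬ v (gCl (cod (tr s (D th m))) (.node .nil .nil)) := by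
  intro h1
  obtain ⟨Γ, hΓ, hL⟩ := hv [gPos (gCl (cod (tr s (D th m))) (.node .nil .nil))] (by
    simp only [List.mem_cons, List.not_mem_nil, or_false, forall_eq_or_imp, forall_eq]
    exact Or.inl ⟨_, rfl, h1⟩)
  refine hΓ (Der.use _ (mem_prog 18 rfl) (asg .nil [num m, Γ, cod (Pi th), codTln s,
    .nil, cod (repF (goal th m)), cod (tr s (D th m))]) rfl ?_)
  simp only [List.mem_cons, List.not_mem_nil, or_false, forall_eq_or_imp, forall_eq] at hL ⊢
  refine ⟨der_rep (goal th m), ?_, der_in hL⟩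
  rw [inst_gTrans, inst_asg2]
  have := der_trans (th := th) s (D_H th m)
  rw [cod_D] at this
  exact this

/-- The Henkin structure. -/
def hs (v : Tr → Prop) : Str Tr where
  rel i a b c := v (gAt (num i) a b c)

theorem truth (φ : Fm) : ∀ {e : Tr}, e ≠ .nil →
    (v (gCl (cod φ) e) ↔ sat (hs v) φ (envI id e)) := by
  induction φ with
  | bot => exact fun {e} _ => iff_of_false (v_bot hv e) (fun h => h)
  | imp a b iha ihb =>
    intro e he
    rw [sat_imp, ← iha he, ← ihb he]
    exact v_imp hv _ _ _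
  | all a ih =>
    intro e he
    cases e with
    | nil => exact absurd rfl he
    | node c e =>
      rw [sat_all]
      refine (v_all hv _ _ _).trans (forall_congr' fun x => ?_)
      rw [ih (by simp)]
      rfl
  | rl i a b c =>
    intro e he
    rw [sat_rl]
    refine (v_rl hv _ _ _ _ he).trans ?_
    have h := fun k => envI_look (id : Tr → Tr) (num k) e
    simp only [len_num, id] at h
    change _ ↔ v (gAt (num i) (envI id e a) (envI id e b) (envI id e c))
    rw [h, h, h]
  | sb a x y z ih =>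
    intro e he
    rw [sat_sb]
    refine (v_sb hv _ _ _ _ he).trans ?_
    have h := fun k => envI_look (id : Tr → Tr) (num k) e
    simp only [len_num, id] at h
    rw [ih (by simp), envI_tri]
    simp only [id, h]

end henkin

/-- Surjective strict homomorphisms preserve truth. -/
theorem sat_map {A B : Type} {S : Str A} {T : Str B} (f : A → B) (hf : Function.Surjective f)
    (hrel : ∀ i x y z, S.rel i x y z ↔ T.rel i (f x) (f y) (f z)) (φ : Fm) :
    ∀ (e : ℕ → A), sat S φ e ↔ sat T φ fun i => f (e i) := by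
  induction φ with
  | bot => exact fun _ => Iff.rfl
  | imp a b iha ihb => exact fun e => imp_congr (iha e) (ihb e)
  | all a ih =>
    intro e
    rw [sat_all, sat_all, hf.forall]
    refine forall_congr' fun x => ?_
    rw [ih]
    have : (fun i => f (cons x e i)) = cons (f x) fun i => f (e i) := by
      funext i
      cases i <;> rfl
    rw [this]
  | rl i u v w => exact fun e => hrel _ _ _ _
  | sb a u v w ih =>
    intro e
    rw [sat_sb, sat_sb, ih]
    have : (fun i => f (tri (e u) (e v) (e w) i)) = tri (f (e u)) (f (e v)) (f (e w)) := by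
      funext i
      rcases i with _ | _ | i <;> rfl
    rw [this]

theorem sat_exsb {A : Type} (S : Str A) (a : Fm) (e : ℕ → A) :
    sat S (.ex (.sb a 0 0 0)) e ↔ ∃ x, sat S a (tri x x x) := by
  rw [sat_ex]
  exact Iff.rfl

theorem sat_tr_exsb {A : Type} (S : Str A) (s : Tln) (a : Fm) (e : ℕ → A) :
    sat S (tr s (.ex (.sb a 0 0 0))) e ↔
      ∃ x, sat S s.dom (tri x x x) ∧ sat S (tr s a) (tri x x x) := by
  change (¬ ∀ x, sat S s.dom (tri x x x) → (sat S (tr s a) (tri x x x) → False)) ↔ _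
  constructor
  · intro h
    by_contra hcon
    exact h fun x hx hx' => hcon ⟨x, hx, hx'⟩
  · rintro ⟨x, hx, hx'⟩ h
    exact h x hx hx'

theorem sat_D {A : Type} (S : Str A) (th : Fm) (m : ℕ) (e : ℕ → A) :
    sat S (D th m) e ↔ ∃ x, sat S (D' th m) (tri x x x) := sat_exsb S _ e

theorem sat_tr_D {A : Type} (S : Str A) (s : Tln) (th : Fm) (m : ℕ) (e : ℕ → A) :
    sat S (tr s (D th m)) e ↔
      ∃ x, sat S s.dom (tri x x x) ∧ sat S (tr s (D' th m)) (tri x x x) := sat_tr_exsb S s _ e

/-- **Completeness.** -/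
theorem complete {th : Fm} {m : ℕ} (h : ¬ Der (prog th) (goal th m)) :
    ∃ (Z : Type) (T : Str Z), Nonempty Z ∧ (∀ a b c, T.rel 2 a b c ↔ a = b) ∧
      (∀ x, sat T th (tri x x x)) ∧ (∀ j < m, ∀ e, sat T (tr (sigQ j) (D th j)) e) ∧
      ∀ s e, ¬ sat T (tr s (D th m)) e := by
  obtain ⟨v, hv⟩ := exists_val (th := th) (m := m) h
  let E : Setoid Tr :=
    { r := fun a b => v (gAt (num 2) a b .nil)
      iseqv := ⟨fun a => v_refl hv a _, fun {a b} hab => v_repl1 hv hab (v_refl hv a _),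
        fun {a b c} hab hbc => v_repl2 hv hbc hab⟩ }
  have hmk : ∀ a b, (Quotient.mk E a = Quotient.mk E b) ↔ v (gAt (num 2) a b .nil) :=
    fun a b => Quotient.eq
  let T : Str (Quotient E) := ⟨fun i x y z => ∃ a b c, Quotient.mk E a = x ∧ Quotient.mk E b = y ∧
    Quotient.mk E c = z ∧ v (gAt (num i) a b c)⟩
  have hrel : ∀ i x y z, (hs v).rel i x y z ↔
      T.rel i (Quotient.mk E x) (Quotient.mk E y) (Quotient.mk E z) := by
    intro i x y z
    constructor
    · exact fun h => ⟨x, y, z, rfl, rfl, rfl, h⟩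
    · rintro ⟨a, b, c, ha, hb, hc, h⟩
      exact v_repl3 hv ((hmk _ _).1 hc) (v_repl2 hv ((hmk _ _).1 hb) (v_repl1 hv ((hmk _ _).1 ha) h))
  have hsurj : Function.Surjective (Quotient.mk E) := Quotient.mk_surjective
  have hsat := sat_map (S := hs v) (T := T) (Quotient.mk E) hsurj hrel
  have htri : ∀ x y z : Tr, (fun i => Quotient.mk E (tri x y z i)) =
      tri (Quotient.mk E x) (Quotient.mk E y) (Quotient.mk E z) := by
    intro x y z
    funext i
    rcases i with _ | _ | i <;> rfl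
  refine ⟨Quotient E, T, ⟨Quotient.mk E .nil⟩, ?_, ?_, ?_, ?_⟩
  · intro a b c
    obtain ⟨a, rfl⟩ := hsurj a
    obtain ⟨b, rfl⟩ := hsurj b
    obtain ⟨c, rfl⟩ := hsurj c
    rw [← hrel, hmk]
    exact ⟨fun h => v_repl2 hv h (v_refl hv a _), fun h => v_repl2 hv h (v_refl hv a _)⟩
  · intro x
    obtain ⟨x, rfl⟩ := hsurj x
    rw [← htri, ← hsat]
    exact ((truth hv (.all (.sb th 0 0 0)) (by simp)).1 (v_th hv)) x
  · intro j hj e
    have h1 := (truth hv (tr (sigQ j) (D th j)) (by simp)).1 (v_Q hv hj)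
    rw [hsat, sat_tr_D] at h1
    rw [sat_tr_D]
    exact h1
  · intro s e h1
    refine v_D hv s ((truth hv (tr s (D th m)) (by simp)).2 ?_)
    rw [hsat, sat_tr_D]
    rw [sat_tr_D] at h1
    exact h1

end Pool.Agent.Lib.MP_d999cd_lc
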