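import Mathlib
import Pool.Agent.Lib.MP_d999cd_lc.Henkin

/-!
# Lemma G
-/

namespace Pool.Agent.Lib.MP_d999cd_lc

/-- All heads of the program are linear. -/
theorem prog_linear (th : Fm) : ∀ c ∈ prog th, c.head.vars.Nodup := by
  intro c hc
  simp only [prog, List.mem_cons, List.not_mem_nil, or_false] at hc
  rcases hc with rfl | rfl | rfl | rfl | rfl | rfl | rfl | rfl | rfl | rfl | rfl | rfl | rfl | rfl | rfl | rfl | rfl | rfl | rfl | rfl | rfl | rfl | rfl | rfl | rfl | rfl | rfl | rfl | rfl | rfl | rfl | rfl | rfl | rfl | rfl | rfl | rfl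
  all_goals dsimp only
  all_goals decide

/-- If the goal of level `m` is derivable, then `D m` has no model. -/
theorem not_sat_D {th : Fm} {m : ℕ} (h : Der (prog th) (goal th m)) {A : Type} (S : Str A)
    (e : ℕ → A) : ¬ sat S (D th m) e := by
  rw [sat_D]
  rintro ⟨x, hx⟩
  rw [D', sat_conj, Pi, sat_piF] at hx
  obtain ⟨⟨h0, h1, hP⟩, h2⟩ := hx
  obtain ⟨y, hy⟩ := exists_Rp h0 h1 (goal th m)
  refine h2 y ((sat_repF _ _ _).2 hy) ?_
  exact horn_main (prog_linear th) h0 h1 hP h y hy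

/-- The least Horn structure satisfies `D m` if the goal is not derivable. -/
theorem LT_D {th : Fm} {m : ℕ} (h : ¬ Der (prog th) (goal th m)) (e : ℕ → Tr) :
    sat (LT (prog th)) (D th m) e := by
  rw [sat_D]
  refine ⟨.nil, ?_⟩
  rw [D', sat_conj]
  refine ⟨LT_piF _ _, fun x hx => ?_⟩
  rw [sat_repF, Rp_LT] at hx
  rw [cons_zero] at hx
  rw [hx, sat_neg, sat_rl]
  exact h

attribute [local irreducible] D' Pi goal prog

/-- **Lemma G.** -/
theorem lemmaG (th : Fm) {A : Type} [Nonempty A] (S : Str A)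
    (hEq : ∀ a b c, S.rel 2 a b c ↔ a = b) (hth : ∀ x, sat S th (tri x x x))
    (hQ : ∀ j, ∃ F : A → Tr → Prop, (∀ x, S.rel 3 x x x ↔ ∃ g, F x g) ∧ (∀ g, ∃ x, F x g) ∧
      ∀ i ≤ 2, ∀ x y z a b c, F x a → F y b → F z c →
        (sat S ((sigQ j).q i) (tri x y z) ↔ (LT (prog th)).rel i a b c)) :
    (∀ m e, sat (LT (prog th)) (D th m) e) ∧
    ∀ m, ∃ (Z : Type) (T : Str Z), Nonempty Z ∧ (∀ a b c, T.rel 2 a b c ↔ a = b) ∧
      (∀ x, sat T th (tri x x x)) ∧ (∀ j < m, ∀ e, sat T (tr (sigQ j) (D th j)) e) ∧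
      ∀ (s : Tln) (B : Type) (U : Str B) (F : Z → B → Prop),
        (∀ x, sat T s.dom (tri x x x) ↔ ∃ b, F x b) → (∀ b, ∃ x, F x b) →
        (∀ i ≤ 2, ∀ x y z a b c, F x a → F y b → F z c →
          (sat T (s.q i) (tri x y z) ↔ U.rel i a b c)) →
        ∀ e', ¬ sat U (D th m) e' := by
  have hall : ∀ m, ¬ Der (prog th) (goal th m) := by
    intro m
    induction m using Nat.strong_induction_on with
    | _ m ih =>
      intro hm
      obtain ⟨d⟩ := ‹Nonempty A›
      refine not_der_goal th S d hEq hth m (fun j hj e => ?_) (fun s e => ?_) hm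
      · obtain ⟨F, h1, h2, h3⟩ := hQ j
        rw [sat_tr_D]
        have h4 := (sat_D _ _ _ _).1 (LT_D (ih j hj) fun _ => .nil)
        obtain ⟨b, hb⟩ := h4
        obtain ⟨x, hx⟩ := h2 b
        refine ⟨x, (h1 x).2 ⟨b, hx⟩, ?_⟩
        refine (sat_tr (T := LT (prog th)) F (fun y => ?_) h2 h3 (D'_H th j) _ _ ?_).2 hb
        · exact h1 y
        · rintro (_ | _ | i) <;> exact hx
      · rw [sat_tr_D]
        rintro ⟨x, hx, h⟩
        let X : {x : A // sat S s.dom (tri x x x)} := ⟨x, hx⟩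
        have h2 := (sat_tr_str (S := S) (s := s) (D'_H th m) (tri X X X)).1 (by
          have : (fun i => ((tri X X X i : {x : A // sat S s.dom (tri x x x)}) : A)) =
              tri x x x := by
            funext i
            rcases i with _ | _ | i <;> rfl
          rw [this]
          exact h)
        exact not_sat_D hm (s.str S) (tri X X X) ((sat_D _ _ _ _).2 ⟨X, h2⟩)
  refine ⟨fun m e => LT_D (hall m) e, fun m => ?_⟩
  obtain ⟨Z, T, hne, hE, hth', hQ', hD⟩ := complete (hall m)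
  refine ⟨Z, T, hne, hE, hth', hQ', fun s B U F h1 h2 h3 e' h => ?_⟩
  obtain ⟨b, hb⟩ := (sat_D _ _ _ _).1 h
  obtain ⟨x, hx⟩ := h2 b
  refine hD s (fun _ => x) ((sat_tr_D _ _ _ _ _).2 ⟨x, (h1 x).2 ⟨b, hx⟩, ?_⟩)
  refine (sat_tr F h1 h2 h3 (D'_H th m) _ _ ?_).2 hb
  rintro (_ | _ | i) <;> exact hx

end Pool.Agent.Lib.MP_d999cd_lc
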