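import Pool.Agent.Lib.MP_d999cd_lc.EF

/-!
# Multi-dimensional translations
-/

set_option autoImplicit false

namespace Pool.Agent.Lib.MP_d999cd_lc

/-- A `d`-dimensional translation of structures with ternary relations. The variables of `q i` are
the `3 * d` entries of the concatenation of three tuples. -/
structure Tld where
  d : ℕ
  dm : Fm
  q : ℕ → Fm
  d_pos : 0 < d
  dm_Vf : dm.Vf d
  q_Vf : ∀ i, (q i).Vf (3 * d)

/-- The tuples of the domain. -/
def Tld.Dom (τ : Tld) {M : Type} (S : Str M) (x0 : M) (t : List M) : Prop :=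
  t.length = τ.d ∧ sat S τ.dm (lst x0 t)

/-- `T` is the structure that `τ` defines in `S`; `F` sends a tuple to the element it represents. -/
structure Tld.Ind (τ : Tld) {M N : Type} (S : Str M) (x0 : M) (T : Str N) (F : List M → N) : Prop where
  surj : ∀ y, ∃ t, τ.Dom S x0 t ∧ F t = y
  rel : ∀ i t1 t2 t3, τ.Dom S x0 t1 → τ.Dom S x0 t2 → τ.Dom S x0 t3 →
    (T.rel i (F t1) (F t2) (F t3) ↔ sat S (τ.q i) (lst x0 (t1 ++ t2 ++ t3)))

/-- `T` is one-dimensionally definable in `S`: every `y` is represented by some `z` in the definable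
set `Dm`, `π z` is the element that `z` represents. -/
structure RepZ {Z N : Type} (S : Str Z) (T : Str N) (Dm : Z → Prop) (π : Z → N) : Prop where
  surj : ∀ y, ∃ z, Dm z ∧ π z = y
  dfD : ∃ δ : Fm, ∀ z, sat S δ (tri z z z) ↔ Dm z
  dfR : ∀ i, ∃ φ : Fm, ∀ x y z, Dm x → Dm y → Dm z →
    (sat S φ (tri x y z) ↔ T.rel i (π x) (π y) (π z))

end Pool.Agent.Lib.MP_d999cd_lc
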