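import Pool.Agent.Lib.MP_d999cd_lc.ZM

/-!
# Specification: the base theory and its standard model
-/

set_option autoImplicit false

namespace Pool.Agent.Lib.MP_d999cd_lc

/-- Models of the first-order form are presentations of `ZM` structures. -/
def Spec_ZM_of_ZAx : Prop := ∀ (Z : Type) (S : Str Z), (∀ x y z, S.rel 2 x y z ↔ x = y) → ZAx S →
  ∃ B : ZM Z, B.Fits S

def Spec_ZAx_of_ZM : Prop := ∀ (Z : Type) (B : ZM Z), ZAx B.str

/-- The first-order form is given by one formula. -/
def Spec_theta0 : Prop := ∃ θ : Fm, ∀ (Z : Type) (S : Str Z) (e : ℕ → Z), sat S θ e ↔ ZAx S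

/-- The standard model; `H` is the structure that is put at every level. -/
def Spec_zstd : Prop := ∀ H : Str Tr, ∃ (Z : Type) (B : ZM Z), (∀ x, B.Pu x ↔ ∃ t, x = B.el t) ∧
  ∀ j r a b c, B.Q (B.el (num j)) (B.cd r (B.el a) (B.el b) (B.el c)) ↔ H.rel r a b c

end Pool.Agent.Lib.MP_d999cd_lc
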