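import Pool.Agent.Lib.MP_d999cd_lc.ULogic
import Pool.Agent.Lib.MP_d999cd_lc.LemmaG
import Pool.Agent.Lib.MP_d999cd_lc.ZSpec
import Pool.Agent.Lib.MP_d999cd_lc.Rep

/-!
# The structures `Z` and the models `M_P`
-/

set_option autoImplicit false

open FirstOrder FirstOrder.Language

namespace Pool.Agent.Lib.MP_d999cd_lc

attribute [local irreducible] D' Pi goal prog

/-- `Z` (presented by `S`) defines no model of the sentence `φ`. -/
def NoModel {Z : Type} (S : Str Z) (φ : Fm) : Prop :=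
  ∀ (s : Tln) (Y : Type) (V : Str Y) (G : Z → Y → Prop),
    (∀ x, sat S s.dom (tri x x x) ↔ ∃ b, G x b) → (∀ b, ∃ x, G x b) →
    (∀ i ≤ 2, ∀ x y z a b c, G x a → G y b → G z c →
      (sat S (s.q i) (tri x y z) ↔ V.rel i a b c)) → ∀ e', ¬ sat V φ e'

theorem exists_Z (h1 : Spec_ZM_of_ZAx) (h2 : Spec_ZAx_of_ZM) (h3 : Spec_theta0)
    (h4 : Spec_zstd) : ∃ th : Fm, ∀ m : ℕ, ∃ (Z : Type) (B : ZM Z) (S : Str Z) (P : Z → Z → Prop),
      B.Fits S ∧ B.Agr m P B.Q ∧ UMod th (B.MStr P) ∧ NoModel S (D th m) := by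
  obtain ⟨th, hth⟩ := h3
  obtain ⟨Zs, Bs, hPu, hQ⟩ := h4 (LT (prog th))
  have hne : Nonempty Zs := ⟨Bs.lf⟩
  obtain ⟨hD, hG⟩ := lemmaG th Bs.str (fun _ _ _ => Iff.rfl)
    (fun x => (hth Zs Bs.str _).2 (h2 Zs Bs)) (by
      intro j
      refine ⟨fun x t => x = Bs.el t, fun x => hPu x, fun g => ⟨_, rfl⟩, ?_⟩
      rintro i hi x y z a b c rfl rfl rfl
      rw [ZM.sat_sigQ Bs.fits_str j hi]
      exact hQ j i a b c)
  refine ⟨th, fun m => ?_⟩
  obtain ⟨Z, S, hZ, hE, hax, hQD, hno⟩ := hG m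
  obtain ⟨z0⟩ := hZ
  obtain ⟨B, hF⟩ := h1 Z S hE ((hth Z S _).1 (hax z0))
  classical
  -- a surjection from the pure objects onto the trees
  let f : Z → Tr := fun x => if h : ∃ t, x = B.el t then h.choose else .nil
  have hf : ∀ t, f (B.el t) = t := by
    intro t
    have h : ∃ t', B.el t = B.el t' := ⟨t, rfl⟩
    have : f (B.el t) = h.choose := dif_pos h
    rw [this]
    exact (B.el_inj h.choose_spec).symm
  -- the predicate `P`
  let P : Z → Z → Prop := fun n x => ((∃ k < m, n = B.el (num k)) ∧ B.Q n x) ∨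
    ((∃ k, m ≤ k ∧ n = B.el (num k)) ∧
      ∃ r a b c, r ≤ 2 ∧ x = B.cd r a b c ∧ (LT (prog th)).rel r (f a) (f b) (f c))
  have hnum : ∀ k k', B.el (num k) = B.el (num k') → k = k' := fun k k' h =>
    num_inj.1 (B.el_inj h)
  have hP1 : ∀ k < m, ∀ x, P (B.el (num k)) x ↔ B.Q (B.el (num k)) x := by
    intro k hk x
    constructor
    · rintro (⟨_, h⟩ | ⟨⟨k', hk', h⟩, _⟩)
      · exact h
      · have := hnum _ _ h
        omega
    · intro h
      exact Or.inl ⟨⟨k, hk, rfl⟩, h⟩
  have hcd : ∀ r r' a b c a' b' c', B.cd r a b c = B.cd r' a' b' c' →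
      r = r' ∧ a = a' ∧ b = b' ∧ c = c' := by
    intro r r' a b c a' b' c' h
    obtain ⟨e1, e2⟩ := B.nd_inj _ _ _ _ h
    obtain ⟨e3, e4⟩ := B.nd_inj _ _ _ _ e2
    obtain ⟨e5, e6⟩ := B.nd_inj _ _ _ _ e4
    exact ⟨hnum _ _ e1, e3, e5, e6⟩
  have hP2 : ∀ k, m ≤ k → ∀ r ≤ 2, ∀ a b c, P (B.el (num k)) (B.cd r a b c) ↔
      (LT (prog th)).rel r (f a) (f b) (f c) := by
    intro k hk r hr a b c
    constructor
    · rintro (⟨⟨k', hk', h⟩, _⟩ | ⟨_, r', a', b', c', _, h, h'⟩)
      · have := hnum _ _ h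
        omega
      · obtain ⟨rfl, rfl, rfl, rfl⟩ := hcd _ _ _ _ _ _ _ _ h
        exact h'
    · intro h
      exact Or.inr ⟨⟨k, hk, rfl⟩, r, a, b, c, hr, rfl, h⟩
  refine ⟨Z, B, S, P, hF, fun k hk x => hP1 k hk x, ⟨fun x => ?_, fun x => ?_, fun j x => ?_⟩, hno⟩
  · exact B.MP_as1 P _
  · exact B.MP_as2 P _
  · -- the structure on the pure objects
    let T : Str {x : Z // B.Pu x} := ⟨fun r a b c => P (B.el (num j)) (B.cd r a.1 b.1 c.1)⟩
    refine B.MP_hid P j (D' th j) (D'_H th j) T (fun r _ a b c => Iff.rfl) ?_ _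
    intro e
    change sat T (D th j) e
    rcases Nat.lt_or_ge j m with hj | hj
    · -- `Z` satisfies the translated sentence
      have h5 := (sat_tr_D S (sigQ j) th j fun _ => z0).1 (hQD j hj fun _ => z0)
      obtain ⟨x, hx, h6⟩ := h5
      have hx' : B.Pu x := (hF.f3 x).1 hx
      rw [sat_D]
      refine ⟨⟨x, hx'⟩, ?_⟩
      refine (sat_tr (S := S) (T := T) (s := sigQ j) (fun y b => y = b.1) (fun y => ?_)
        (fun b => ⟨b.1, rfl⟩) ?_ (D'_H th j) (tri x x x) _ ?_).1 h6
      · constructor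
        · intro h
          exact ⟨⟨y, (hF.f3 y).1 h⟩, rfl⟩
        · rintro ⟨b, rfl⟩
          exact (hF.f3 _).2 b.2
      · rintro i hi _ _ _ a b c rfl rfl rfl
        rw [ZM.sat_sigQ hF j hi]
        exact (hP1 j hj _).symm
      · rintro (_ | _ | i) <;> rfl
    · -- pull back the least structure
      have h5 := (sat_D _ _ _ _).1 (hD j fun _ => .nil)
      obtain ⟨t, ht⟩ := h5
      rw [sat_D]
      refine ⟨⟨B.el t, B.pu_el t⟩, ?_⟩
      let s : Tln := ⟨.top, .rl 0 0 1 2, .rl 1 0 1 2, .rl 2 0 1 2⟩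
      -- a surjection that preserves the relations
      have key : ∀ (φ : Fm), φ.H → ∀ (e : ℕ → {x : Z // B.Pu x}),
          sat T φ e ↔ sat (LT (prog th)) φ (fun i => f (e i).1) := by
        intro φ
        induction φ with
        | bot => exact fun _ _ => Iff.rfl
        | imp a b iha ihb => exact fun h e => imp_congr (iha h.1 e) (ihb h.2 e)
        | all a ih =>
          intro h e
          have hc : ∀ x, (fun i => f (cons x e i).1) = cons (f x.1) (fun i => f (e i).1) := by
            intro x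
            funext i
            rcases i with _ | i <;> rfl
          constructor
          · intro H y
            have := (ih h _).1 (H ⟨B.el y, B.pu_el y⟩)
            rw [hc, hf] at this
            exact this
          · intro H x
            refine (ih h _).2 ?_
            rw [hc]
            exact H _
        | rl i u v w =>
          intro h e
          exact hP2 j hj i h _ _ _
        | sb a u v w ih =>
          intro h e
          refine (ih h _).trans ?_
          have : (fun i => f (tri (e u) (e v) (e w) i).1) =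
              tri (f (e u).1) (f (e v).1) (f (e w).1) := by
            funext i
            rcases i with _ | _ | i <;> rfl
          rw [this]
          exact Iff.rfl
      rw [key _ (D'_H th j)]
      have : (fun i => f ((tri ⟨B.el t, B.pu_el t⟩ ⟨B.el t, B.pu_el t⟩ ⟨B.el t, B.pu_el t⟩ i :
          {x : Z // B.Pu x}) : Z)) = tri t t t := by
        funext i
        rcases i with _ | _ | i <;> exact hf t
      rw [this]
      exact ht

end Pool.Agent.Lib.MP_d999cd_lc
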