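import Mathlib
import Pool.Agent.Lib.MP_d999cd_lc.Stmt

/-!
# In every model of an extension of `S^1_2` the relation `≤` is total and antisymmetric
-/

open FirstOrder FirstOrder.Language

namespace Pool.Agent.Lib.MP_d999cd_lc

open BA

/-- The relation symbol `≤`. -/
def leSym : buss.Relations 2 := BRel.le

theorem finite_buss : Finite (Σ n, buss.Functions n) ∧ Finite (Σ n, buss.Relations n) := by
  constructor
  · have h : Function.Surjective (fun i : Fin 7 => (match i with
        | 0 => ⟨0, BFun.zero⟩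
        | 1 => ⟨1, BFun.succ⟩
        | 2 => ⟨1, BFun.half⟩
        | 3 => ⟨1, BFun.len⟩
        | 4 => ⟨2, BFun.add⟩
        | 5 => ⟨2, BFun.mul⟩
        | 6 => ⟨2, BFun.smash⟩ : Σ n, buss.Functions n)) := by
      rintro ⟨_, f⟩
      rcases (f : BFun _) with _ | _ | _ | _ | _ | _ | _
      · exact ⟨0, rfl⟩
      · exact ⟨1, rfl⟩
      · exact ⟨2, rfl⟩
      · exact ⟨3, rfl⟩
      · exact ⟨4, rfl⟩
      · exact ⟨5, rfl⟩
      · exact ⟨6, rfl⟩
    exact Finite.of_surjective _ h
  · have h : Function.Surjective (fun _ : Unit => (⟨2, leSym⟩ : Σ n, buss.Relations n)) := by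
      rintro ⟨_, R⟩
      obtain ⟨⟩ := (R : BRel _)
      exact ⟨(), rfl⟩
    exact Finite.of_surjective _ h

theorem realize_basic {T : buss.Theory} (hT : ExtendsS12 T) (N : Type) [buss.Structure N]
    [Nonempty N] (hN : N ⊨ T) {φ : buss.BoundedFormula Empty 5} (hφ : φ ∈ basicList)
    (xs : Fin 5 → N) : φ.Realize default xs := by
  have h : T ⊨ᵇ φ.alls := hT _ (Or.inl ⟨φ, hφ, rfl⟩)
  have h2 : N ⊨ φ.alls := h.realize_sentence N
  exact BoundedFormula.realize_alls.1 h2 xs

theorem realize_fLe {N : Type} [buss.Structure N] {n : ℕ} (s t : buss.Term (Empty ⊕ Fin n))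
    (v : Empty → N) (xs : Fin n → N) : (fLe s t).Realize v xs ↔
      Structure.RelMap leSym ![s.realize (Sum.elim v xs), t.realize (Sum.elim v xs)] := by
  show Structure.RelMap leSym (fun j => (![s, t] j).realize _) ↔ _
  rw [iff_eq_eq]
  congr 1
  funext j
  fin_cases j <;> rfl

theorem le_total_of_extends {T : buss.Theory} (hT : ExtendsS12 T) (N : Type) [buss.Structure N]
    [Nonempty N] (hN : N ⊨ T) (a b : N) :
    Structure.RelMap leSym ![a, b] ∨ Structure.RelMap leSym ![b, a] := by
  have h := realize_basic hT N hN (φ := basic6) (by simp [basicList]) ![b, a, a, a, a]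
  have h2 : (fLe vy vx).Realize default ![b, a, a, a, a] ∨
      (fLe vx vy).Realize default ![b, a, a, a, a] := BoundedFormula.realize_sup.1 h
  rw [realize_fLe, realize_fLe] at h2
  exact h2

theorem le_antisymm_of_extends {T : buss.Theory} (hT : ExtendsS12 T) (N : Type) [buss.Structure N]
    [Nonempty N] (hN : N ⊨ T) (a b : N) (hab : Structure.RelMap leSym ![a, b])
    (hba : Structure.RelMap leSym ![b, a]) : a = b := by
  have h := realize_basic hT N hN (φ := basic7) (by simp [basicList]) ![a, b, a, a, a]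
  have h2 : (fAnd (fLe vx vy) (fLe vy vx)).Realize default ![a, b, a, a, a] →
      (fEq vx vy).Realize default ![a, b, a, a, a] := h
  refine h2 (BoundedFormula.realize_inf.2 ⟨?_, ?_⟩)
  · rw [realize_fLe]
    exact hab
  · rw [realize_fLe]
    exact hba

end Pool.Agent.Lib.MP_d999cd_lc
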