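import Pool.Agent.Lib.MP_d999cd_lc.ZM
import Pool.Agent.Lib.MP_d999cd_lc.Horn

/-!
# The axioms of `U`
-/

set_option autoImplicit false

namespace Pool.Agent.Lib.MP_d999cd_lc

/-- `W_0` is false, `W_{k+1}(v)` says that some child of `v` does not satisfy `W_k`. -/
def WF : ℕ → Fm
  | 0 => .bot
  | k + 1 => .ex (.conj (.rl 9 1 0 0) (.neg (.sb (WF k) 0 0 0)))

/-- The relation number `r` of the hidden structure number `j` (variables `0, 1, 2 = a, b, c`):
there are `n, r', u, x', x, v` such that `n` names `num j`, `r'` names `num r`, `u = ⟨b, c⟩`,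
`x' = ⟨a, u⟩`, `x = ⟨r', x'⟩`, `Top n x v` and not `W_j v`. -/
def hq (j r : ℕ) : Fm :=
  .ex (.ex (.ex (.ex (.ex (.ex (.conj (.sb (repF (num j)) 5 5 5) (.conj (.sb (repF (num r)) 4 4 4)
    (.conj (.rl 1 7 8 3) (.conj (.rl 1 6 3 2) (.conj (.rl 1 4 2 1) (.conj (.rl 10 5 1 0)
      (.neg (.sb (WF j) 0 0 0)))))))))))))

/-- The hidden structure number `j`: domain `Pure`. -/
def hid (j : ℕ) : Tln where
  dom := .rl 3 0 0 0
  q0 := hq j 0
  q1 := hq j 1
  q2 := hq j 2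

/-- The two axioms of adjunctive set theory. -/
def as1 : Fm := .ex (.all (.neg (.rl 5 0 1 1)))
def as2 : Fm := .all (.all (.ex (.all (.equ (.rl 5 0 1 1) (.disj (.rl 5 0 3 3) (.rl 2 0 2 2))))))

end Pool.Agent.Lib.MP_d999cd_lc
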