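import Pool.Agent.Lib.MP_d999cd_lc.MU

set_option autoImplicit false

namespace Pool.Agent.Lib.MP_d999cd_lc

namespace ZM
variable {Z : Type} (B : ZM Z)

theorem MStr_rel {P : Z → Z → Prop} {i : ℕ} (hi : i ∈ LUs) (x y z : B.MP P) :
    (B.MStr P).rel i x y z ↔ B.rl i x.1 y.1 z.1 :=
  ⟨fun h => h.2, fun h => ⟨hi, h⟩⟩

theorem MStr_0 {P : Z → Z → Prop} (x y z : B.MP P) :
    (B.MStr P).rel 0 x y z ↔ x.1 = B.lf := B.MStr_rel (by decide) x y z

theorem MStr_1 {P : Z → Z → Prop} (x y z : B.MP P) :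
    (B.MStr P).rel 1 x y z ↔ z.1 = B.nd x.1 y.1 := B.MStr_rel (by decide) x y z

theorem MStr_2 {P : Z → Z → Prop} (x y z : B.MP P) :
    (B.MStr P).rel 2 x y z ↔ x.1 = y.1 := B.MStr_rel (by decide) x y z

theorem MStr_3 {P : Z → Z → Prop} (x y z : B.MP P) :
    (B.MStr P).rel 3 x y z ↔ B.Pu x.1 := B.MStr_rel (by decide) x y z

theorem MStr_5 {P : Z → Z → Prop} (x y z : B.MP P) :
    (B.MStr P).rel 5 x y z ↔ B.Mem x.1 y.1 := B.MStr_rel (by decide) x y z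

theorem MStr_9 {P : Z → Z → Prop} (x y z : B.MP P) :
    (B.MStr P).rel 9 x y z ↔ B.Par x.1 y.1 := B.MStr_rel (by decide) x y z

theorem MStr_10 {P : Z → Z → Prop} (x y z : B.MP P) :
    (B.MStr P).rel 10 x y z ↔ B.Top x.1 y.1 z.1 := B.MStr_rel (by decide) x y z

theorem MP_Rp (P : Z → Z → Prop) (t : Tr) (x : B.MP P) :
    Rp (B.MStr P) t x ↔ x.1 = B.el t := by
  induction t generalizing x with
  | nil => exact B.MStr_0 x x x
  | node a b iha ihb =>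
    rw [Rp]
    constructor
    · rintro ⟨y, z, hy, hz, h⟩
      rw [MStr_1, (iha y).1 hy, (ihb z).1 hz] at h
      exact h
    · intro h
      exact ⟨⟨B.el a, B.inM_pu (B.pu_el a)⟩, ⟨B.el b, B.inM_pu (B.pu_el b)⟩, (iha _).2 rfl,
        (ihb _).2 rfl, (B.MStr_1 _ _ _).2 h⟩

theorem MP_rep (P : Z → Z → Prop) (t : Tr) (e : ℕ → B.MP P) :
    sat (B.MStr P) (repF t) e ↔ (e 0).1 = B.el t := by
  rw [sat_repF, MP_Rp]

theorem MP_W (P : Z → Z → Prop) (k : ℕ) (e : ℕ → B.MP P) (h : B.Oc (e 0).1 (e 0).1)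
    (hl : B.lev (e 0).1 = B.el (num k)) : sat (B.MStr P) (WF k) e ↔ ¬ B.A (e 0).1 := by
  induction k generalizing e with
  | zero =>
    have hA : B.A (e 0).1 := ((e 0).2 _ h).2.1 hl
    rw [WF, sat_bot]
    exact ⟨fun h => h.elim, fun h => h hA⟩
  | succ k ih =>
    have hl' : B.lev (e 0).1 = B.nd B.lf (B.el (num k)) := hl
    have key : ∀ c : B.MP P, sat (B.MStr P) (.conj (.rl 9 1 0 0) (.neg (.sb (WF k) 0 0 0)))
        (cons c e) ↔ B.Par (e 0).1 c.1 ∧ ¬ sat (B.MStr P) (WF k) (tri c c c) := fun c => by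
      rw [sat_conj, sat_neg, sat_sb, sat_rl, MStr_9]
      rfl
    rw [WF, sat_ex]
    constructor
    · rintro ⟨c, hcW⟩
      obtain ⟨hc, hW⟩ := (key c).1 hcW
      have hoc : B.Oc c.1 c.1 := B.par_oc _ _ hc
      have hL := c.2 _ hoc
      have h1 := hL.2.2 _ hc
      rw [hl'] at h1
      have h2 : B.lev c.1 = B.el (num k) := (B.nd_inj _ _ _ _ h1).2.symm
      rw [ih (tri c c c) hoc h2, not_not] at hW
      exact (hL.1 hW).1 _ hc
    · intro hA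
      obtain ⟨w, hw1, hw2, hw3, hw4⟩ := B.chA _ _ h hl'
      have hoc : B.Oc w w := B.par_oc _ _ hw1
      have hin : B.InM P w := by
        intro u hu
        rcases hw4 u hu with rfl | hu
        · refine ⟨fun _ => ⟨fun v hv => ?_, fun n x hx => absurd hx (B.par_top _ _ _ _ hw1)⟩,
            fun _ => hw2, fun v hv => ?_⟩
          · rw [B.par_uniq _ _ _ hv hw1]
            exact hA
          · rw [B.par_uniq _ _ _ hv hw1, hl', hw3]
        · exact (e 0).2 u hu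
      refine ⟨⟨w, hin⟩, (key _).2 ⟨hw1, ?_⟩⟩
      rw [ih (tri ⟨w, hin⟩ ⟨w, hin⟩ ⟨w, hin⟩) hoc hw3, not_not]
      exact hw2

theorem MP_as1 (P : Z → Z → Prop) (e : ℕ → B.MP P) : sat (B.MStr P) as1 e := by
  rw [as1, sat_ex]
  refine ⟨B.lfM P, ?_⟩
  rw [sat_all]
  intro x
  rw [sat_neg, sat_rl, MStr_5]
  exact B.mem_lf _

theorem MP_as2 (P : Z → Z → Prop) (e : ℕ → B.MP P) : sat (B.MStr P) as2 e := by
  rw [as2, sat_all]
  intro x
  rw [sat_all]
  intro y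
  rw [sat_ex]
  refine ⟨⟨B.nd y.1 x.1, B.inM_nd.2 ⟨y.2, x.2⟩⟩, ?_⟩
  rw [sat_all]
  intro w
  rw [sat_equ, sat_disj, sat_rl, sat_rl, sat_rl, MStr_5, MStr_5, MStr_2]
  exact (B.mem_nd _ _ _).trans or_comm

end ZM

end Pool.Agent.Lib.MP_d999cd_lc
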