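import Pool.Agent.Lib.MP_d999cd_lc.MU1

set_option autoImplicit false

namespace Pool.Agent.Lib.MP_d999cd_lc

namespace ZM
variable {Z : Type} (B : ZM Z)

theorem MP_hq (P : Z → Z → Prop) (j r : ℕ) (a b c : B.MP P) (ha : B.Pu a.1) (hb : B.Pu b.1)
    (hc : B.Pu c.1) :
    sat (B.MStr P) (hq j r) (tri a b c) ↔ P (B.el (num j)) (B.cd r a.1 b.1 c.1) := by
  have h1 : (1 : ℕ) ∈ LUs := by decide
  have h10 : (10 : ℕ) ∈ LUs := by decide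
  have key : sat (B.MStr P) (hq j r) (tri a b c) ↔ ∃ n r' u x' x v : B.MP P,
      n.1 = B.el (num j) ∧ r'.1 = B.el (num r) ∧ (1 ∈ LUs ∧ u.1 = B.nd b.1 c.1) ∧
      (1 ∈ LUs ∧ x'.1 = B.nd a.1 u.1) ∧ (1 ∈ LUs ∧ x.1 = B.nd r'.1 x'.1) ∧
      (10 ∈ LUs ∧ B.Top n.1 x.1 v.1) ∧ ¬ sat (B.MStr P) (WF j) (tri v v v) := by
    rw [hq, sat_ex]
    refine exists_congr fun n => ?_
    rw [sat_ex]
    refine exists_congr fun r' => ?_
    rw [sat_ex]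
    refine exists_congr fun u => ?_
    rw [sat_ex]
    refine exists_congr fun x' => ?_
    rw [sat_ex]
    refine exists_congr fun x => ?_
    rw [sat_ex]
    refine exists_congr fun v => ?_
    rw [sat_conj, sat_conj, sat_conj, sat_conj, sat_conj, sat_conj, sat_sb, sat_sb, B.MP_rep,
      B.MP_rep]
    exact Iff.rfl
  rw [key]
  have hx : B.Pu (B.cd r a.1 b.1 c.1) :=
    (B.pu_nd _ _).2 ⟨B.pu_el _, (B.pu_nd _ _).2 ⟨ha, (B.pu_nd _ _).2 ⟨hb, hc⟩⟩⟩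
  constructor
  · rintro ⟨n, r', u, x', x, v, hn, hr, hu, hx', hx1, hT, hW⟩
    have hn' : n.1 = B.el (num j) := hn
    have hr' : r'.1 = B.el (num r) := hr
    have hu' : u.1 = B.nd b.1 c.1 := hu.2
    have hx'' : x'.1 = B.nd a.1 u.1 := hx'.2
    have hx1' : x.1 = B.nd r'.1 x'.1 := hx1.2
    have hT' : B.Top n.1 x.1 v.1 := hT.2
    have hoc : B.Oc v.1 v.1 := B.top_oc _ _ _ hT'
    have hlev : B.lev v.1 = B.el (num j) := by rw [B.top_lev _ _ _ hT', hn']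
    have hA : B.A v.1 := by
      by_contra hA
      exact hW ((B.MP_W P j (tri v v v) hoc hlev).2 hA)
    have hP := ((v.2 v.1 hoc).1 hA).2 _ _ hT'
    rw [hn', hx1', hr', hx'', hu'] at hP
    exact hP
  · intro hP
    obtain ⟨w, hT, hA, hw⟩ := B.topA _ _ (B.pu_el (num j)) hx
    have hM : B.InM P w := by
      intro u hu
      rw [hw u hu]
      refine ⟨fun _ => ⟨fun v hv => absurd hT (B.par_top _ _ _ _ hv), fun n x hnx => ?_⟩,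
        fun _ => hA, fun v hv => absurd hT (B.par_top _ _ _ _ hv)⟩
      rw [← B.top_lev _ _ _ hnx, B.top_lev _ _ _ hT, B.top_uniq _ _ _ _ _ hnx hT]
      exact hP
    have pbc : B.Pu (B.nd b.1 c.1) := (B.pu_nd _ _).2 ⟨hb, hc⟩
    have pabc : B.Pu (B.nd a.1 (B.nd b.1 c.1)) := (B.pu_nd _ _).2 ⟨ha, pbc⟩
    refine ⟨⟨B.el (num j), B.inM_pu (B.pu_el _)⟩, ⟨B.el (num r), B.inM_pu (B.pu_el _)⟩,
      ⟨B.nd b.1 c.1, B.inM_pu pbc⟩, ⟨B.nd a.1 (B.nd b.1 c.1), B.inM_pu pabc⟩,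
      ⟨B.cd r a.1 b.1 c.1, B.inM_pu hx⟩, ⟨w, hM⟩, rfl, rfl, ⟨h1, rfl⟩, ⟨h1, rfl⟩, ⟨h1, rfl⟩,
      ⟨h10, hT⟩, ?_⟩
    intro hW
    exact (B.MP_W P j (tri (⟨w, hM⟩ : B.MP P) ⟨w, hM⟩ ⟨w, hM⟩) (B.top_oc _ _ _ hT)
      (B.top_lev _ _ _ hT)).1 hW hA

/-- If the structure on the pure objects given by `P` at level `j` satisfies `D`, then the hidden
structure number `j` of `M_P` satisfies `D`. -/
theorem MP_hid (P : Z → Z → Prop) (j : ℕ) (D : Fm) (hD : D.H) (T : Str {x : Z // B.Pu x})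
    (hT : ∀ r ≤ 2, ∀ a b c, T.rel r a b c ↔ P (B.el (num j)) (B.cd r a.1 b.1 c.1))
    (h : ∀ e, sat T (.ex (.sb D 0 0 0)) e) (e : ℕ → B.MP P) :
    sat (B.MStr P) (tr (hid j) (.ex (.sb D 0 0 0))) e := by
  have h3 : (3 : ℕ) ∈ LUs := by decide
  have hdom : ∀ x : B.MP P, sat (B.MStr P) (hid j).dom (tri x x x) ↔ B.Pu x.1 := fun x =>
    ⟨fun h => h.2, fun h => ⟨h3, h⟩⟩
  obtain ⟨b, hb⟩ := (sat_ex _ _ _).1 (h fun _ => ⟨B.lf, B.pu_lf⟩)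
  rw [sat_sb] at hb
  let x : B.MP P := ⟨b.1, B.inM_pu b.2⟩
  have key : sat (B.MStr P) (tr (hid j) D) (tri x x x) ↔ sat T D (tri b b b) := by
    refine sat_tr (F := fun (x : B.MP P) (b : {x : Z // B.Pu x}) => x.1 = b.1) ?_ ?_ ?_ hD _ _ ?_
    · intro x
      rw [hdom]
      exact ⟨fun h => ⟨⟨x.1, h⟩, rfl⟩, fun ⟨b, hb⟩ => hb ▸ b.2⟩
    · intro b
      exact ⟨⟨b.1, B.inM_pu b.2⟩, rfl⟩
    · intro i hi x y z a b c hx hy hz
      have hx : x.1 = a.1 := hx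
      have hy : y.1 = b.1 := hy
      have hz : z.1 = c.1 := hz
      have hq' : (hid j).q i = hq j i := by
        interval_cases i <;> rfl
      rw [hq', B.MP_hq P j i x y z (hx ▸ a.2) (hy ▸ b.2) (hz ▸ c.2), hT i hi, hx, hy, hz]
    · intro i
      rcases i with _ | _ | i <;> rfl
  intro hall
  exact hall x ((hdom x).2 b.2) (key.2 hb)

end ZM

end Pool.Agent.Lib.MP_d999cd_lc
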