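import Pool.Agent.Lib.MP_d999cd_lc.Rep
import Pool.Agent.Lib.MP_d999cd_lc.ULang
import Pool.Agent.Lib.MP_d999cd_lc.Lin

/-!
# Mathlib translations as translations of structures with ternary relations
-/

set_option autoImplicit false

open FirstOrder FirstOrder.Language

namespace Pool.Agent.Lib.MP_d999cd_lc

/-- The numbered ternary relations of a structure for the language of bounded arithmetic:
the graphs of the functions, equality (number `2`) and `≤` (number `5`). -/
def strT (N : Type) [buss.Structure N] : Str N where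
  rel i x y z :=
    match i with
    | 0 => (Structure.funMap (L := buss) (BFun.zero : buss.Functions 0) ![] : N) = x
    | 1 => Structure.funMap (L := buss) (BFun.succ : buss.Functions 1) ![x] = y
    | 2 => x = y
    | 3 => Structure.funMap (L := buss) (BFun.len : buss.Functions 1) ![x] = y
    | 4 => Structure.funMap (L := buss) (BFun.half : buss.Functions 1) ![x] = y
    | 5 => Structure.RelMap (L := buss) (BRel.le : buss.Relations 2) ![x, y]
    | 6 => Structure.funMap (L := buss) (BFun.add : buss.Functions 2) ![x, y] = z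
    | 7 => Structure.funMap (L := buss) (BFun.mul : buss.Functions 2) ![x, y] = z
    | 8 => Structure.funMap (L := buss) (BFun.smash : buss.Functions 2) ![x, y] = z
    | _ => False

/-- All structures for the language of bounded arithmetic. -/
abbrev BussI : Type 1 := Σ N : Type, buss.Structure N

/-- The family of the structures `strT N`. -/
def sT (i : BussI) : Str i.1 := @strT i.1 i.2

/-- Value of a function symbol. -/
def fv (i : BussI) {l : ℕ} (f : buss.Functions l) (a : Fin l → i.1) : i.1 :=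
  @Structure.funMap buss i.1 i.2 l f a

/-- Truth of a relation symbol. -/
def rv (i : BussI) {l : ℕ} (R : buss.Relations l) (a : Fin l → i.1) : Prop :=
  @Structure.RelMap buss i.1 i.2 l R a

/-- Value of a term. -/
def tv (i : BussI) {β : Type} (t : buss.Term β) (a : β → i.1) : i.1 :=
  @Term.realize buss i.1 i.2 β a t

theorem df_fun {l : ℕ} (f : buss.Functions l) :
    Df sT (fun i v => v 0 = fv i f fun k : Fin l => v (k + 1)) := by
  obtain _ | _ | _ | _ | _ | _ | _ := (f : BFun l)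
  · refine (Df.rel 0 0 0 0).congr fun i v => ?_
    rw [show (fun k : Fin 0 => v (k + 1)) = ![] from funext fun k => k.elim0]
    exact eq_comm
  · refine (Df.rel 1 1 0 0).congr fun i v => ?_
    rw [show (fun k : Fin 1 => v (k + 1)) = ![v 1] from funext fun k => by fin_cases k; rfl]
    exact eq_comm
  · refine (Df.rel 4 1 0 0).congr fun i v => ?_
    rw [show (fun k : Fin 1 => v (k + 1)) = ![v 1] from funext fun k => by fin_cases k; rfl]
    exact eq_comm
  · refine (Df.rel 3 1 0 0).congr fun i v => ?_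
    rw [show (fun k : Fin 1 => v (k + 1)) = ![v 1] from funext fun k => by fin_cases k; rfl]
    exact eq_comm
  · refine (Df.rel 6 1 2 0).congr fun i v => ?_
    rw [show (fun k : Fin 2 => v (k + 1)) = ![v 1, v 2] from funext fun k => by
      fin_cases k <;> rfl]
    exact eq_comm
  · refine (Df.rel 7 1 2 0).congr fun i v => ?_
    rw [show (fun k : Fin 2 => v (k + 1)) = ![v 1, v 2] from funext fun k => by
      fin_cases k <;> rfl]
    exact eq_comm
  · refine (Df.rel 8 1 2 0).congr fun i v => ?_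
    rw [show (fun k : Fin 2 => v (k + 1)) = ![v 1, v 2] from funext fun k => by
      fin_cases k <;> rfl]
    exact eq_comm

theorem df_rel {l : ℕ} (R : buss.Relations l) : Df sT (fun i v => rv i R fun k : Fin l => v k) := by
  obtain ⟨⟩ := (R : BRel l)
  refine (Df.rel 5 0 1 1).congr fun i v => ?_
  rw [show (fun k : Fin 2 => v k) = ![v 0, v 1] from funext fun k => by fin_cases k <;> rfl]
  exact Iff.rfl

theorem df_term {β : Type} (t : buss.Term β) :
    ∀ σ : β → ℕ, Df sT (fun i v => v 0 = tv i t fun b => v (σ b + 1)) := by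
  induction t with
  | var b => exact fun σ => Df.rel 2 0 (σ b + 1) 0
  | @func l f ts ih =>
    intro σ
    have h := Df.substN (l + 1) (S := sT) (A := fun i w => w 0 = fv i f fun k : Fin l => w (k + 1))
      (fun i v v' h => by
        rw [h 0 (by omega), show (fun k : Fin l => v (k + 1)) = fun k : Fin l => v' (k + 1) from
          funext fun k => h _ (by have := k.isLt; omega)])
      (df_fun f)
      (f := fun j i v => match j with
        | 0 => v 0
        | k + 1 => if h : k < l then tv i (ts ⟨k, h⟩) fun b => v (σ b + 1) else v 0)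
      (fun j hj => by
        rcases j with _ | k
        · exact Df.rel 2 0 1 1
        · have hk : k < l := by omega
          simp only [hk, dif_pos]
          exact ih ⟨k, hk⟩ fun b => σ b + 1)
    refine h.congr fun i v => ?_
    have : (fun k : Fin l => (if h : (k : ℕ) < l then tv i (ts ⟨k, h⟩) fun b => v (σ b + 1)
        else v 0)) = fun k => tv i (ts k) fun b => v (σ b + 1) := by
      funext k
      rw [dif_pos k.isLt]
    show v 0 = fv i f (fun k : Fin l => (if h : (k : ℕ) < l then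
      tv i (ts ⟨k, h⟩) fun b => v (σ b + 1) else v 0)) ↔ _
    rw [this]
    exact Iff.rfl

/-- Truth of a formula. -/
def bv (i : BussI) {α : Type} {n : ℕ} (φ : buss.BoundedFormula α n) (a : α → i.1)
    (b : Fin n → i.1) : Prop :=
  @BoundedFormula.Realize buss i.1 i.2 α n φ a b

theorem df_form {α : Type} {n : ℕ} (φ : buss.BoundedFormula α n) : ∀ ρ : α ⊕ Fin n → ℕ,
    Df sT (fun i v => bv i φ (fun a => v (ρ (.inl a))) fun k => v (ρ (.inr k))) := by
  have key : ∀ {i : BussI} {n : ℕ} (v : ℕ → i.1) (ρ : α ⊕ Fin n → ℕ),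
      (Sum.elim (fun a => v (ρ (.inl a))) fun k => v (ρ (.inr k))) = fun b => v (ρ b) := by
    intro i n v ρ
    funext b
    rcases b with b | b <;> rfl
  induction φ with
  | falsum => exact fun _ => Df.fal
  | @equal n s t =>
    intro ρ
    have h := Df.subst (S := sT) (A := fun i v x => x = tv i t fun b => v (ρ b))
      (f := fun i v => tv i s fun b => v (ρ b)) (df_term s ρ) (df_term t ρ)
    refine h.congr fun i v => ?_
    show _ ↔ tv i s (Sum.elim _ _) = tv i t (Sum.elim _ _)
    rw [key]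
  | @rel n l R ts =>
    intro ρ
    have h := Df.substN l (S := sT) (A := fun i w => rv i R fun k : Fin l => w k)
      (fun i v v' h => by
        rw [show (fun k : Fin l => v k) = fun k : Fin l => v' k from
          funext fun k => h _ k.isLt])
      (df_rel R)
      (f := fun j i v => if h : j < l then tv i (ts ⟨j, h⟩) fun b => v (ρ b) else v 0)
      (fun j hj => by
        simp only [hj, dif_pos]
        exact df_term (ts ⟨j, hj⟩) ρ)
    refine h.congr fun i v => ?_
    have : (fun k : Fin l => (if h : (k : ℕ) < l then tv i (ts ⟨k, h⟩) fun b => v (ρ b)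
        else v 0)) = fun k => tv i (ts k) fun b => v (ρ b) := by
      funext k
      rw [dif_pos k.isLt]
    rw [this]
    show _ ↔ rv i R (fun k => tv i (ts k) (Sum.elim _ _))
    rw [key]
  | imp φ ψ ihφ ihψ => exact fun ρ => Df.imp (ihφ ρ) (ihψ ρ)
  | @all n φ ih =>
    intro ρ
    have h := ih (Sum.elim (fun a => ρ (.inl a) + 1)
      (Fin.lastCases (motive := fun _ => ℕ) 0 fun i : Fin n => ρ (.inr i) + 1))
    have h2 := Df.all (S := sT) (A := fun i v x => bv i φ (fun a => v (ρ (.inl a)))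
      (Fin.snoc (fun k => v (ρ (.inr k))) x)) (h.congr fun i v => by
        have : (fun k : Fin (n + 1) => v ((Sum.elim (fun a => ρ (.inl a) + 1)
            (Fin.lastCases (motive := fun _ => ℕ) 0 fun i : Fin n => ρ (.inr i) + 1) :
              α ⊕ Fin (n + 1) → ℕ) (.inr k))) =
            Fin.snoc (fun k => v (ρ (.inr k) + 1)) (v 0) := by
          funext k
          refine Fin.lastCases ?_ (fun k => ?_) k
          · simp
          · simp
        rw [this]
        exact Iff.rfl)
    exact h2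

/-- Every formula of the language of bounded arithmetic is given by a formula `ψ : Fm`. -/
theorem source_T {α : Type} (φ : buss.Formula α) (ρ : α → ℕ) :
    ∃ ψ : Fm, ∀ (N : Type) [buss.Structure N] (v : ℕ → N),
      sat (strT N) ψ v ↔ φ.Realize (fun a => v (ρ a)) := by
  obtain ⟨ψ, hψ⟩ := df_form φ (Sum.elim ρ Fin.elim0)
  refine ⟨ψ, fun N _ v => ?_⟩
  refine (hψ ⟨N, inferInstance⟩ v).trans ?_
  show BoundedFormula.Realize φ _ _ ↔ BoundedFormula.Realize φ _ _
  rw [Subsingleton.elim (fun k : Fin 0 => v _) default]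
  exact Iff.rfl

theorem source_U {α : Type} (φ : LU.Formula α) (ρ : α → ℕ) :
    ∃ ψ : Fm, ∀ (N : Type) [LU.Structure N] (v : ℕ → N),
      sat (toStr N) ψ v ↔ φ.Realize (fun a => v (ρ a)) := by
  refine ⟨fromML φ (Sum.elim ρ Fin.elim0), fun N _ v => ?_⟩
  rw [sat_fromML]
  show BoundedFormula.Realize φ _ _ ↔ BoundedFormula.Realize φ _ _
  rw [Subsingleton.elim (fun k : Fin 0 => v _) default]
  exact Iff.rfl

/-- Clamped formulas. -/
theorem exists_clamp {L' : FirstOrder.Language.{0, 0}} (S : ∀ (N : Type) [L'.Structure N], Str N)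
    (hS : ∀ {α : Type} (φ : L'.Formula α) (ρ : α → ℕ), ∃ ψ : Fm, ∀ (N : Type) [L'.Structure N]
      (v : ℕ → N), sat (S N) ψ v ↔ φ.Realize (fun a => v (ρ a))) {m d : ℕ} (k : ℕ) (hmk : m ≤ k)
    (hk : 0 < k) (hd : 0 < d) (φ : L'.Formula (Fin m × Fin d)) :
    ∃ ψ : Fm, ψ.Vf (k * d) ∧ ∀ (N : Type) [L'.Structure N] (v : ℕ → N),
      sat (S N) ψ v ↔ φ.Realize (fun p => v (p.1 * d + p.2)) := by
  obtain ⟨ψ, hψ⟩ := hS φ (fun p => p.1 * d + p.2)
  have hkd : k * d - 1 + 1 = k * d := Nat.succ_pred_eq_of_pos (Nat.mul_pos hk hd)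
  refine ⟨ψ.clamp (k * d - 1), hkd ▸ Vf_clamp _ _, fun N _ v => ?_⟩
  rw [sat_clamp, hψ]
  intro v v' h
  rw [hψ, hψ]
  have : (fun p : Fin m × Fin d => v (p.1 * d + p.2)) = fun p => v' (p.1 * d + p.2) := by
    funext p
    refine h _ ?_
    rw [hkd]
    have h1 := p.1.isLt
    have h2 := p.2.isLt
    calc (p.1 : ℕ) * d + p.2 < p.1 * d + d := by omega
      _ = (p.1 + 1) * d := by ring
      _ ≤ k * d := Nat.mul_le_mul_right d (by omega)
  rw [this]

theorem exists_clamp_dom {L' : FirstOrder.Language.{0, 0}}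
    (S : ∀ (N : Type) [L'.Structure N], Str N)
    (hS : ∀ {α : Type} (φ : L'.Formula α) (ρ : α → ℕ), ∃ ψ : Fm, ∀ (N : Type) [L'.Structure N]
      (v : ℕ → N), sat (S N) ψ v ↔ φ.Realize (fun a => v (ρ a))) {d : ℕ}
    (hd : 0 < d) (φ : L'.Formula (Fin d)) :
    ∃ ψ : Fm, ψ.Vf d ∧ ∀ (N : Type) [L'.Structure N] (v : ℕ → N),
      sat (S N) ψ v ↔ φ.Realize (fun p => v p) := by
  obtain ⟨ψ, hψ⟩ := hS φ (fun p => p)
  have hkd : d - 1 + 1 = d := Nat.succ_pred_eq_of_pos hd
  refine ⟨ψ.clamp (d - 1), ?_, fun N _ v => ?_⟩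
  · have := Vf_clamp (d - 1) ψ
    rwa [hkd] at this
  rw [sat_clamp, hψ]
  intro v v' h
  rw [hψ, hψ]
  have : (fun p : Fin d => v p) = fun p : Fin d => v' p := by
    funext p
    refine h _ ?_
    rw [hkd]
    exact p.isLt
  rw [this]

/-- Assembly of `Tld.Ind`. -/
theorem ind_of {L L' : FirstOrder.Language.{0, 0}} (K : Translation L L') {M N : Type}
    [L'.Structure M] [L.Structure N] [Nonempty N] (S : Str M) (T : Str N) (τ : Tld)
    (hτ : τ.d = K.dim) (x0 : M) {π : {a : Fin K.dim → M // K.dom.Realize a} → N}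
    (hK : K.Presents π) (hdm : ∀ v, sat S τ.dm v ↔ K.dom.Realize fun k : Fin K.dim => v k)
    (hq : ∀ (i : ℕ) (a1 a2 a3 : {a : Fin K.dim → M // K.dom.Realize a}) (v : ℕ → M),
      (∀ k : Fin K.dim, v k = a1.1 k ∧ v (K.dim + k) = a2.1 k ∧ v (2 * K.dim + k) = a3.1 k) →
      (T.rel i (π a1) (π a2) (π a3) ↔ sat S (τ.q i) v)) :
    ∃ F : List M → N, τ.Ind S x0 T F := by
  classical
  obtain ⟨n0⟩ := (inferInstance : Nonempty N)
  let F : List M → N := fun t =>
    if h : K.dom.Realize fun k : Fin K.dim => lst x0 t k then π ⟨_, h⟩ else n0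
  have hF : ∀ (t : List M) (h : K.dom.Realize fun k : Fin K.dim => lst x0 t k),
      F t = π ⟨_, h⟩ := fun t h => dif_pos h
  refine ⟨F, ?_, ?_⟩
  · intro y
    obtain ⟨a, rfl⟩ := hK.surj y
    have h1 : (fun k : Fin K.dim => lst x0 (List.ofFn a.1) k) = a.1 := by
      funext k
      simp [lst]
    have h2 : K.dom.Realize fun k : Fin K.dim => lst x0 (List.ofFn a.1) k := by
      rw [h1]
      exact a.2
    refine ⟨List.ofFn a.1, ⟨by rw [List.length_ofFn, hτ], (hdm _).2 h2⟩, ?_⟩
    rw [hF _ h2]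
    congr 1
    exact Subtype.ext h1
  · rintro i t1 t2 t3 ⟨l1, h1⟩ ⟨l2, h2⟩ ⟨l3, h3⟩
    rw [hdm] at h1 h2 h3
    rw [hτ] at l1 l2 l3
    rw [hF _ h1, hF _ h2, hF _ h3]
    refine hq i _ _ _ _ fun k => ?_
    have hk := k.isLt
    refine ⟨?_, ?_, ?_⟩
    · show (t1 ++ t2 ++ t3).getD k x0 = t1.getD k x0
      rw [List.append_assoc, List.getD_append _ _ _ _ (by omega)]
    · show (t1 ++ t2 ++ t3).getD (K.dim + k) x0 = t2.getD k x0
      rw [List.append_assoc, List.getD_append_right _ _ _ _ (by omega),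
        List.getD_append _ _ _ _ (by omega), l1]
      congr 1
      omega
    · show (t1 ++ t2 ++ t3).getD (2 * K.dim + k) x0 = t3.getD k x0
      rw [List.getD_append_right _ _ _ _ (by rw [List.length_append]; omega), List.length_append,
        l1, l2]
      congr 1
      omega

theorem vals3 {M : Type} {d : ℕ} {P : (Fin d → M) → Prop} {a1 a2 a3 : {a : Fin d → M // P a}}
    {v : ℕ → M} (h : ∀ k : Fin d, v k = a1.1 k ∧ v (d + k) = a2.1 k ∧ v (2 * d + k) = a3.1 k)
    {m : ℕ} (hm : m ≤ 3) : (fun p : Fin m × Fin d => v (p.1 * d + p.2)) =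
      fun p => ((![a1, a2, a3] : Fin 3 → {a : Fin d → M // P a}) (Fin.castLE hm p.1)).1 p.2 := by
  funext p
  have key : ∀ (j : Fin 3) (k : Fin d), v (j * d + k) =
      ((![a1, a2, a3] : Fin 3 → {a : Fin d → M // P a}) j).1 k := by
    intro j k
    fin_cases j
    · show v (0 * d + k) = a1.1 k
      rw [zero_mul, zero_add]
      exact (h k).1
    · show v (1 * d + k) = a2.1 k
      rw [one_mul]
      exact (h k).2.1
    · exact (h k).2.2
  exact key (Fin.castLE hm p.1) p.2

section

variable {L L' : FirstOrder.Language.{0, 0}} (K : Translation L L') {M N : Type}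
    [L'.Structure M] [L.Structure N] {π : {a : Fin K.dim → M // K.dom.Realize a} → N}
    (hK : K.Presents π) {a1 a2 a3 : {a : Fin K.dim → M // K.dom.Realize a}} {v : ℕ → M}
    (h : ∀ k : Fin K.dim, v k = a1.1 k ∧ v (K.dim + k) = a2.1 k ∧ v (2 * K.dim + k) = a3.1 k)

include hK h

theorem pres_eq : π a1 = π a2 ↔ K.eqf.Realize fun p => v (p.1 * K.dim + p.2) := by
  rw [vals3 h (by omega)]
  exact hK.eq_iff fun i => (![a1, a2, a3] : Fin 3 → _) (Fin.castLE (by omega) i)

theorem pres_fn0 (f : L.Functions 0) : (Structure.funMap f ![] : N) = π a1 ↔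
    (K.fn 0 f).Realize fun p => v (p.1 * K.dim + p.2) := by
  rw [vals3 h (by omega)]
  refine Iff.trans ?_ (hK.fn_iff 0 f fun i => (![a1, a2, a3] : Fin 3 → _) (Fin.castLE (by omega) i))
  rw [show (fun i : Fin 0 => π ((![a1, a2, a3] : Fin 3 → _) (Fin.castLE (by omega) i.castSucc))) =
    ![] from funext fun k => k.elim0]
  exact Iff.rfl

theorem pres_fn1 (f : L.Functions 1) : (Structure.funMap f ![π a1] : N) = π a2 ↔
    (K.fn 1 f).Realize fun p => v (p.1 * K.dim + p.2) := by
  rw [vals3 h (by omega)]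
  refine Iff.trans ?_ (hK.fn_iff 1 f fun i => (![a1, a2, a3] : Fin 3 → _) (Fin.castLE (by omega) i))
  rw [show (fun i : Fin 1 => π ((![a1, a2, a3] : Fin 3 → _) (Fin.castLE (by omega) i.castSucc))) =
    ![π a1] from funext fun k => by fin_cases k; rfl]
  exact Iff.rfl

theorem pres_fn2 (f : L.Functions 2) : (Structure.funMap f ![π a1, π a2] : N) = π a3 ↔
    (K.fn 2 f).Realize fun p => v (p.1 * K.dim + p.2) := by
  rw [vals3 h (by omega)]
  refine Iff.trans ?_ (hK.fn_iff 2 f fun i => (![a1, a2, a3] : Fin 3 → _) (Fin.castLE (by omega) i))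
  rw [show (fun i : Fin 2 => π ((![a1, a2, a3] : Fin 3 → _) (Fin.castLE (by omega) i.castSucc))) =
    ![π a1, π a2] from funext fun k => by fin_cases k <;> rfl]
  exact Iff.rfl

theorem pres_rel2 (R : L.Relations 2) : (Structure.RelMap R ![π a1, π a2]) ↔
    (K.rel 2 R).Realize fun p => v (p.1 * K.dim + p.2) := by
  rw [vals3 h (by omega)]
  refine Iff.trans ?_ (hK.rel_iff 2 R fun i => (![a1, a2, a3] : Fin 3 → _) (Fin.castLE (by omega) i))
  rw [show (fun i : Fin 2 => π ((![a1, a2, a3] : Fin 3 → _) (Fin.castLE (by omega) i))) =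
    ![π a1, π a2] from funext fun k => by fin_cases k <;> rfl]

theorem pres_rel3 (R : L.Relations 3) : (Structure.RelMap R ![π a1, π a2, π a3]) ↔
    (K.rel 3 R).Realize fun p => v (p.1 * K.dim + p.2) := by
  rw [vals3 h (by omega)]
  refine Iff.trans ?_ (hK.rel_iff 3 R fun i => (![a1, a2, a3] : Fin 3 → _) (Fin.castLE (by omega) i))
  rw [show (fun i : Fin 3 => π ((![a1, a2, a3] : Fin 3 → _) (Fin.castLE (by omega) i))) =
    ![π a1, π a2, π a3] from funext fun k => by fin_cases k <;> rfl]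

end

/-- The formula of a symbol of bounded arithmetic. -/
theorem symT (K : Translation buss LU) (hd : 0 < K.dim) (i : ℕ) : ∃ ψ : Fm, ψ.Vf (3 * K.dim) ∧
    ∀ (M : Type) [LU.Structure M] (N : Type) [buss.Structure N]
      (π : {a : Fin K.dim → M // K.dom.Realize a} → N), K.Presents π →
      ∀ (a1 a2 a3 : {a : Fin K.dim → M // K.dom.Realize a}) (v : ℕ → M),
      (∀ k : Fin K.dim, v k = a1.1 k ∧ v (K.dim + k) = a2.1 k ∧ v (2 * K.dim + k) = a3.1 k) →
      ((strT N).rel i (π a1) (π a2) (π a3) ↔ sat (toStr M) ψ v) := by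
  have cl : ∀ {m : ℕ} (_ : m ≤ 3) (φ : LU.Formula (Fin m × Fin K.dim)),
      ∃ ψ : Fm, ψ.Vf (3 * K.dim) ∧ ∀ (N : Type) [LU.Structure N] (v : ℕ → N),
        sat (toStr N) ψ v ↔ φ.Realize (fun p => v (p.1 * K.dim + p.2)) := fun hm φ =>
    exists_clamp (fun N _ => toStr N) source_U 3 hm (by omega) hd φ
  match i with
  | 0 =>
    obtain ⟨ψ, h1, h2⟩ := cl (by omega) (K.fn 0 (BFun.zero : buss.Functions 0))
    exact ⟨ψ, h1, fun M _ N _ π hK a1 a2 a3 v h => (pres_fn0 K hK h _).trans (h2 M v).symm⟩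
  | 1 =>
    obtain ⟨ψ, h1, h2⟩ := cl (by omega) (K.fn 1 (BFun.succ : buss.Functions 1))
    exact ⟨ψ, h1, fun M _ N _ π hK a1 a2 a3 v h => (pres_fn1 K hK h _).trans (h2 M v).symm⟩
  | 2 =>
    obtain ⟨ψ, h1, h2⟩ := cl (by omega) K.eqf
    exact ⟨ψ, h1, fun M _ N _ π hK a1 a2 a3 v h => (pres_eq K hK h).trans (h2 M v).symm⟩
  | 3 =>
    obtain ⟨ψ, h1, h2⟩ := cl (by omega) (K.fn 1 (BFun.len : buss.Functions 1))
    exact ⟨ψ, h1, fun M _ N _ π hK a1 a2 a3 v h => (pres_fn1 K hK h _).trans (h2 M v).symm⟩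
  | 4 =>
    obtain ⟨ψ, h1, h2⟩ := cl (by omega) (K.fn 1 (BFun.half : buss.Functions 1))
    exact ⟨ψ, h1, fun M _ N _ π hK a1 a2 a3 v h => (pres_fn1 K hK h _).trans (h2 M v).symm⟩
  | 5 =>
    obtain ⟨ψ, h1, h2⟩ := cl (by omega) (K.rel 2 (BRel.le : buss.Relations 2))
    exact ⟨ψ, h1, fun M _ N _ π hK a1 a2 a3 v h => (pres_rel2 K hK h _).trans (h2 M v).symm⟩
  | 6 =>
    obtain ⟨ψ, h1, h2⟩ := cl (by omega) (K.fn 2 (BFun.add : buss.Functions 2))
    exact ⟨ψ, h1, fun M _ N _ π hK a1 a2 a3 v h => (pres_fn2 K hK h _).trans (h2 M v).symm⟩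
  | 7 =>
    obtain ⟨ψ, h1, h2⟩ := cl (by omega) (K.fn 2 (BFun.mul : buss.Functions 2))
    exact ⟨ψ, h1, fun M _ N _ π hK a1 a2 a3 v h => (pres_fn2 K hK h _).trans (h2 M v).symm⟩
  | 8 =>
    obtain ⟨ψ, h1, h2⟩ := cl (by omega) (K.fn 2 (BFun.smash : buss.Functions 2))
    exact ⟨ψ, h1, fun M _ N _ π hK a1 a2 a3 v h => (pres_fn2 K hK h _).trans (h2 M v).symm⟩
  | n + 9 => exact ⟨.bot, trivial, fun M _ N _ π hK a1 a2 a3 v h => Iff.rfl⟩

/-- The formula of a symbol of the language of `U`. -/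
theorem symU (K : Translation LU buss) (hd : 0 < K.dim) (i : ℕ) : ∃ ψ : Fm, ψ.Vf (3 * K.dim) ∧
    ∀ (N : Type) [buss.Structure N] (W : Type) [LU.Structure W]
      (π : {a : Fin K.dim → N // K.dom.Realize a} → W), K.Presents π →
      ∀ (a1 a2 a3 : {a : Fin K.dim → N // K.dom.Realize a}) (v : ℕ → N),
      (∀ k : Fin K.dim, v k = a1.1 k ∧ v (K.dim + k) = a2.1 k ∧ v (2 * K.dim + k) = a3.1 k) →
      ((toStr W).rel i (π a1) (π a2) (π a3) ↔ sat (strT N) ψ v) := by
  have cl : ∀ {m : ℕ} (_ : m ≤ 3) (φ : buss.Formula (Fin m × Fin K.dim)),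
      ∃ ψ : Fm, ψ.Vf (3 * K.dim) ∧ ∀ (N : Type) [buss.Structure N] (v : ℕ → N),
        sat (strT N) ψ v ↔ φ.Realize (fun p => v (p.1 * K.dim + p.2)) := fun hm φ =>
    exists_clamp (fun N _ => strT N) source_T 3 hm (by omega) hd φ
  by_cases h2' : i = 2
  · subst h2'
    obtain ⟨ψ, h1, h2⟩ := cl (by omega) K.eqf
    exact ⟨ψ, h1, fun M _ N _ π hK a1 a2 a3 v h => (pres_eq K hK h).trans (h2 M v).symm⟩
  · cases h : USym.of i with
    | none =>
      exact ⟨.bot, trivial, fun M _ N _ π hK a1 a2 a3 v _ =>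
        iff_of_false (toStr_none h2' h _ _ _) id⟩
    | some s =>
      obtain rfl := USym.of_eq_some h
      obtain ⟨ψ, h1, h2⟩ := cl (by omega) (K.rel 3 s.rel)
      exact ⟨ψ, h1, fun M _ N _ π hK a1 a2 a3 v h =>
        (toStr_sym s _ _ _).trans ((pres_rel3 K hK h _).trans (h2 M v).symm)⟩

/-- A translation of the language of bounded arithmetic into the language of `U`. -/
theorem tldT (K : Translation buss LU) (hd : 0 < K.dim) : ∃ (τ : Tld) (j : ℕ), τ.dm.qd ≤ j ∧
    (∀ i, (τ.q i).qd ≤ j) ∧ ∀ (M : Type) [LU.Structure M] (N : Type) [buss.Structure N]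
      (π : {a : Fin K.dim → M // K.dom.Realize a} → N), K.Presents π →
      ∀ x0 : M, ∃ F : List M → N, τ.Ind (toStr M) x0 (strT N) F := by
  obtain ⟨δ, hδ1, hδ2⟩ := exists_clamp_dom (fun N _ => toStr N) source_U hd K.dom
  choose q hq1 hq2 using symT K hd
  let τ : Tld :=
    { d := K.dim
      dm := δ
      q := fun i => if i < 9 then q i else .bot
      d_pos := hd
      dm_Vf := hδ1
      q_Vf := fun i => by
        split
        · exact hq1 i
        · trivial }
  refine ⟨τ, δ.qd + ∑ i ∈ Finset.range 9, (q i).qd, Nat.le_add_right _ _, fun i => ?_, ?_⟩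
  · show (if i < 9 then q i else .bot : Fm).qd ≤ _
    split
    · rename_i hi
      have := Finset.single_le_sum (f := fun i => (q i).qd) (fun _ _ => Nat.zero_le _)
        (Finset.mem_range.2 hi)
      exact this.trans (Nat.le_add_left _ _)
    · exact Nat.zero_le _
  · intro M _ N _ π hK x0
    have : Nonempty N := ⟨Structure.funMap (L := buss) (BFun.zero : buss.Functions 0) ![]⟩
    refine ind_of K (toStr M) (strT N) τ rfl x0 hK (fun v => hδ2 M v) ?_
    intro i a1 a2 a3 v h
    show _ ↔ sat (toStr M) (if i < 9 then q i else .bot) v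
    split
    · exact hq2 i M N π hK a1 a2 a3 v h
    · rename_i hi
      obtain ⟨n, rfl⟩ : ∃ n, i = n + 9 := ⟨i - 9, by omega⟩
      exact Iff.rfl

/-- A translation of the language of `U` into the language of bounded arithmetic. -/
theorem tldU (K : Translation LU buss) (hd : 0 < K.dim) : ∃ τ : Tld,
    ∀ (N : Type) [buss.Structure N] (W : Type) [LU.Structure W] [Nonempty W]
      (π : {a : Fin K.dim → N // K.dom.Realize a} → W), K.Presents π →
      ∀ x0 : N, ∃ F : List N → W, τ.Ind (strT N) x0 (toStr W) F := by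
  obtain ⟨δ, hδ1, hδ2⟩ := exists_clamp_dom (fun N _ => strT N) source_T hd K.dom
  choose q hq1 hq2 using symU K hd
  let τ : Tld :=
    { d := K.dim
      dm := δ
      q := q
      d_pos := hd
      dm_Vf := hδ1
      q_Vf := hq1 }
  refine ⟨τ, ?_⟩
  intro N _ W _ _ π hK x0
  exact ind_of K (strT N) (toStr W) τ rfl x0 hK (fun v => hδ2 N v)
    fun i a1 a2 a3 v h => hq2 i N W π hK a1 a2 a3 v h

theorem dim_pos {L L' : FirstOrder.Language.{0, 0}} (K : Translation L L') {M N : Type}
    [L'.Structure M] [L.Structure N] {π : {a : Fin K.dim → M // K.dom.Realize a} → N}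
    (hK : K.Presents π) (h : ∃ x y : N, x ≠ y) : 0 < K.dim := by
  by_contra hd
  obtain ⟨x, y, hxy⟩ := h
  obtain ⟨a, rfl⟩ := hK.surj x
  obtain ⟨b, rfl⟩ := hK.surj y
  have hd0 : K.dim = 0 := by omega
  refine hxy (congrArg π (Subtype.ext (funext fun k => ?_)))
  exact absurd k.isLt (by omega)

/-- In models of extensions of `S12` the order is total and antisymmetric, and there are two
elements. -/
theorem S12_order {T : buss.Theory} (hT : ExtendsS12 T) (N : Type) [buss.Structure N] [Nonempty N]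
    (h : N ⊨ T) : (∀ x y : N, (strT N).rel 5 x y y ∨ (strT N).rel 5 y x x) ∧
      (∀ x y : N, (strT N).rel 5 x y y → (strT N).rel 5 y x x → x = y) ∧ ∃ x y : N, x ≠ y := by
  refine ⟨fun x y => le_total_of_extends hT N h x y,
    fun x y h1 h2 => le_antisymm_of_extends hT N h x y h1 h2, ?_⟩
  obtain ⟨x⟩ := (inferInstance : Nonempty N)
  refine ⟨x, Structure.funMap (L := buss) (BFun.succ : buss.Functions 1) ![x], ?_⟩
  have h1 := realize_basic hT N h (φ := BA.basic2) (by simp [BA.basicList]) ![x, x, x, x, x]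
  have h2 : ¬ (BA.fEq BA.vx (BA.tS BA.vx)).Realize default ![x, x, x, x, x] := h1
  intro hx
  refine h2 ?_
  show x = Structure.funMap _ _
  refine hx.trans ?_
  congr 1
  funext j
  fin_cases j
  rfl

end Pool.Agent.Lib.MP_d999cd_lc
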