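import Pool.Agent.Lib.MP_d999cd_lc.MU2
import Pool.Agent.Lib.MP_d999cd_lc.Prog
import Pool.Agent.Lib.MP_d999cd_lc.ULang

/-!
# The theory `U` and the semantics of `sigQ`
-/

set_option autoImplicit false

open FirstOrder FirstOrder.Language

namespace Pool.Agent.Lib.MP_d999cd_lc

/-- The theory `U`: adjunctive set theory, and for every `j` the hidden structure number `j`
satisfies `D j`. -/
def UTh (th : Fm) : LU.Theory :=
  {σ | σ = sent as1 ∨ σ = sent as2 ∨ ∃ j, σ = sent (tr (hid j) (D th j))}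

/-- Semantic form of the axioms. -/
structure UMod (th : Fm) {M : Type} (S : Str M) : Prop where
  a1 : ∀ x, sat S as1 (fun _ => x)
  a2 : ∀ x, sat S as2 (fun _ => x)
  d : ∀ j x, sat S (tr (hid j) (D th j)) (fun _ => x)

theorem models_UTh (th : Fm) {M : Type} [LU.Structure M] : M ⊨ UTh th ↔ UMod th (toStr M) := by
  rw [Theory.model_iff]
  constructor
  · intro h
    refine ⟨?_, ?_, fun j => ?_⟩
    · exact (realize_sent as1).1 (h _ (Or.inl rfl))
    · exact (realize_sent as2).1 (h _ (Or.inr (Or.inl rfl)))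
    · exact (realize_sent _).1 (h _ (Or.inr (Or.inr ⟨j, rfl⟩)))
  · rintro h σ (rfl | rfl | ⟨j, rfl⟩)
    · exact (realize_sent as1).2 h.a1
    · exact (realize_sent as2).2 h.a2
    · exact (realize_sent _).2 (h.d j)

theorem sat_as1 {M : Type} {S : Str M} (e : ℕ → M) : sat S as1 e ↔ ∃ x, ∀ y, ¬ S.rel 5 y x x := by
  rw [as1, sat_ex]
  simp only [sat_all, sat_neg, sat_rl]
  rfl

theorem sat_as2 {M : Type} {S : Str M} (h2 : ∀ x y z, S.rel 2 x y z ↔ x = y) (e : ℕ → M) :
    sat S as2 e ↔ ∀ x y, ∃ z, ∀ w, S.rel 5 w z z ↔ (S.rel 5 w x x ∨ w = y) := by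
  rw [as2]
  simp only [sat_all, sat_ex, sat_equ, sat_disj, sat_rl, h2]
  rfl

theorem rel_mem {M : Type} [LU.Structure M] (x y : M) :
    (toStr M).rel 5 x y y ↔ Structure.RelMap (L := LU) USym.mem.rel ![x, y, y] :=
  toStr_sym USym.mem x y y

/-- `U` is sequential. -/
theorem sequential_UTh (th : Fm) : Sequential (UTh th) := by
  refine ⟨(Relations.formula (L := LU) USym.mem.rel ![.var 0, .var 1, .var 1]), ?_⟩
  intro M _ hne hM
  have hU := (models_UTh th).1 hM
  have key : ∀ x y : M, (Relations.formula (L := LU) USym.mem.rel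
      ![.var (0 : Fin 2), .var 1, .var 1]).Realize ![x, y] ↔ (toStr M).rel 5 x y y := by
    intro x y
    rw [rel_mem, Formula.realize_rel]
    have : (fun i => (![.var (0 : Fin 2), .var 1, .var 1] i : LU.Term (Fin 2)).realize ![x, y]) =
        ![x, y, y] := by
      funext i
      fin_cases i <;> rfl
    rw [this]
  obtain ⟨x0⟩ := hne
  constructor
  · obtain ⟨x, hx⟩ := (sat_as1 _).1 (hU.a1 x0)
    exact ⟨x, fun y => by rw [key]; exact hx y⟩
  · intro x y
    obtain ⟨z, hz⟩ := (sat_as2 toStr_eq _).1 (hU.a2 x0) x y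
    exact ⟨z, fun w => by rw [key, key]; exact hz w⟩

/-- Models of `U` have two elements. -/
theorem UMod.two {th : Fm} {M : Type} [LU.Structure M] [Nonempty M] (h : UMod th (toStr M)) :
    ∃ x y : M, x ≠ y := by
  obtain ⟨x0⟩ := ‹Nonempty M›
  obtain ⟨x, hx⟩ := (sat_as1 _).1 (h.a1 x0)
  obtain ⟨z, hz⟩ := (sat_as2 toStr_eq _).1 (h.a2 x0) x x
  refine ⟨x, z, fun e => hx x ?_⟩
  have := (hz x).2 (Or.inr rfl)
  rwa [← e] at this

theorem toStr_ofStr_eq {A : Type} (S : Str A) (hS : ∀ x y z, S.rel 2 x y z ↔ x = y)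
    (h : ∀ i x y z, S.rel i x y z → i = 2 ∨ (USym.of i).isSome) : @toStr A (ofStr S) = S := by
  have e : ∀ i x y z, (@toStr A (ofStr S)).rel i x y z ↔ S.rel i x y z := by
    intro i x y z
    by_cases hi : i = 2 ∨ (USym.of i).isSome
    · exact toStr_ofStr_rel S hS i hi x y z
    · refine ⟨fun h' => absurd h' ?_, fun h' => absurd (h i x y z h') hi⟩
      refine @toStr_none A (ofStr S) i (fun h2 => hi (Or.inl h2)) ?_ x y z
      rw [not_or] at hi
      simpa using hi.2
  have h' : (@toStr A (ofStr S)).rel = S.rel := by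
    funext i x y z
    exact propext (e i x y z)
  have : ∀ a b : Str A, a.rel = b.rel → a = b := by
    rintro ⟨a⟩ ⟨b⟩ rfl
    rfl
  exact this _ _ h'

namespace ZM
variable {Z : Type} (B : ZM Z)

theorem toStr_MStr (P : Z → Z → Prop) : @toStr (B.MP P) (ofStr (B.MStr P)) = B.MStr P := by
  apply toStr_ofStr_eq
  · intro x y z
    simp only [MStr, rl, LUs]
    constructor
    · rintro ⟨_, h⟩; exact Subtype.ext h
    · rintro rfl; exact ⟨by decide, rfl⟩
  · rintro i x y z ⟨hi, _⟩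
    simp only [LUs, List.mem_cons, List.not_mem_nil, or_false] at hi
    rcases hi with rfl | rfl | rfl | rfl | rfl | rfl | rfl <;> simp [USym.of]

variable {B}

theorem Rp_iff {S : Str Z} (hF : B.Fits S) (t : Tr) (x : Z) : Rp S t x ↔ x = B.el t := by
  induction t generalizing x with
  | nil => exact hF.f0 x
  | node a b iha ihb =>
    simp only [Rp, iha, ihb, hF.f1, el]
    constructor
    · rintro ⟨y, z, rfl, rfl, h⟩; exact h
    · intro h; exact ⟨_, _, rfl, rfl, h⟩

theorem sat_tQ {S : Str Z} (hF : B.Fits S) (j r : ℕ) (a b c : Z) :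
    sat S ((tQ r).fill fun _ => repF (num j)) (tri a b c) ↔
      B.Q (B.el (num j)) (B.cd r a b c) := by
  have e1 : (tQ r).fill (fun _ => repF (num j)) = (Fm.ex (.conj (.sb (repF (num j)) 0 0 0)
      (.ex (.conj (.sb (repF (num r)) 0 0 0)
        (.ex (.conj (.rl 1 4 5 0)
          (.ex (.conj (.rl 1 4 1 0)
            (.ex (.conj (.rl 1 3 1 0) (.rl 4 4 0 0)))))))))) : Fm) := by
    simp only [tQ, Tm.fill, Tm.ex, Tm.conj, Tm.neg, Tm.fill_ofFm]
  rw [e1]
  simp only [sat_ex, sat_conj, sat_sb, sat_rl, sat_repF, Rp_iff hF, hF.f1, hF.f4]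
  simp only [cons_zero, cons_succ, tri_zero]
  constructor
  · rintro ⟨n, rfl, r', rfl, u, hu, x', hx', x, hx, h⟩
    change u = B.nd b c at hu
    change x' = B.nd a u at hx'
    change x = B.nd (B.el (num r)) x' at hx
    subst hx hx' hu
    exact h
  · intro h
    exact ⟨_, rfl, _, rfl, B.nd b c, rfl, B.nd a (B.nd b c), rfl, _, rfl, h⟩

theorem sat_sigQ {S : Str Z} (hF : B.Fits S) (j : ℕ) {r : ℕ} (hr : r ≤ 2) (a b c : Z) :
    sat S ((sigQ j).q r) (tri a b c) ↔ B.Q (B.el (num j)) (B.cd r a b c) := by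
  interval_cases r
  · exact sat_tQ hF j 0 a b c
  · exact sat_tQ hF j 1 a b c
  · exact sat_tQ hF j 2 a b c

end ZM

end Pool.Agent.Lib.MP_d999cd_lc
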