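import Pool.Agent.Lib.MP_d999cd_lc.RecD
import Pool.Agent.Lib.MP_d999cd_lc.ULogic

/-!
# `U` is recursively enumerable
-/

set_option autoImplicit false

namespace Pool.Agent.Lib.MP_d999cd_lc

attribute [local irreducible] D' Pi goal prog

theorem cmp_WF : Cmp fun j => WF j := by
  have h : Cmp₂ fun _ j => WF j := by
    refine Cmp₂.ofAround (z := fun _ => .bot) (tri 0 0 0) (Cmp.const _) (fun i => rfl)
      fun ρ => ?_
    have key : Around (fun _ j => WF j) (tri 0 0 0)
        (fun _ j => Fm.sb (WF j) 0 0 0) (cons 0 fun i => ρ i + 1) := Around.sb Around.hole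
    exact Around.ex (Around.conjR (Around.neg key) (Cmp.const _))
  exact h.diag Computable.id Computable.id

theorem cmp_hq (r : ℕ) : Cmp fun j => hq j r := by
  refine Cmp.ex (Cmp.ex (Cmp.ex (Cmp.ex (Cmp.ex (Cmp.ex (Cmp.conj (Cmp.sb cmp_repF_num 5 5 5)
    (Cmp.conj (Cmp.const _) (Cmp.conj (Cmp.const _) (Cmp.conj (Cmp.const _)
      (Cmp.conj (Cmp.const _) (Cmp.conj (Cmp.const _) (Cmp.neg (Cmp.sb cmp_WF 0 0 0)))))))))))))

theorem cmpTln_hid : CmpTln hid := ⟨Cmp.const _, cmp_hq 0, cmp_hq 1, cmp_hq 2⟩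

/-- The sequence of the axioms of `U`. -/
def axU (th : Fm) (i : ℕ) : Fm :=
  Nat.casesOn (motive := fun _ => Fm) i as1 fun j =>
    Nat.casesOn (motive := fun _ => Fm) j as2 fun k => tr (hid k) (D th k)

theorem cmp_axU (th : Fm) : Cmp (axU th) :=
  Cmp.cases (a := as1) (b := fun j => Nat.casesOn (motive := fun _ => Fm) j as2
      fun k => tr (hid k) (D th k))
    (Cmp.cases (a := as2) (b := fun k => tr (hid k) (D th k)) (cmpTln_hid.tr_D th))

theorem range_axU (th : Fm) : Set.range (fun i => sent (axU th i)) = UTh th := by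
  ext σ
  constructor
  · rintro ⟨i, rfl⟩
    rcases i with _ | _ | k
    · exact Or.inl rfl
    · exact Or.inr (Or.inl rfl)
    · exact Or.inr (Or.inr ⟨k, rfl⟩)
  · rintro (rfl | rfl | ⟨k, rfl⟩)
    · exact ⟨0, rfl⟩
    · exact ⟨1, rfl⟩
    · exact ⟨k + 2, rfl⟩

theorem recEnum_UTh (th : Fm) : RecEnum (UTh th) := by
  rw [← range_axU th]
  exact recEnum_range (axU th) (cmp_axU th _)

end Pool.Agent.Lib.MP_d999cd_lc
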