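import Pool.Agent.Lib.MP_d999cd_lc.Rep

set_option autoImplicit false

namespace Pool.Agent.Lib.MP_d999cd_lc

namespace ZM

variable {Z : Type} (B : ZM Z)

/-- The graph of the retraction of `Z` onto the objects all of whose nodes are legal. -/
def ClG (x x' : Z) : Prop := (B.InM B.Q x ∧ x' = x) ∨ (¬ B.InM B.Q x ∧ x' = B.lf)

open Classical in
/-- The retraction of `Z` onto the objects all of whose nodes are legal. -/
noncomputable def cl (x : Z) : B.MP B.Q := if h : B.InM B.Q x then ⟨x, h⟩ else B.lfM B.Q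

theorem clG_iff (x x' : Z) : B.ClG x x' ↔ x' = (B.cl x).1 := by
  by_cases h : B.InM B.Q x
  · simp [ClG, cl, h]
  · simp [ClG, cl, h, lfM]

theorem cl_val (b : B.MP B.Q) : B.cl b.1 = b := by
  have h : B.InM B.Q b.1 := b.2
  simp [cl, h]

section

variable {B} {S : Str Z}

/-- Definability over the single structure `S`. -/
abbrev Df1 (S : Str Z) (P : (ℕ → Z) → Prop) : Prop :=
  Df (I := Unit) (M := fun _ => Z) (fun _ => S) (fun _ v => P v)

theorem df_lf (hF : B.Fits S) (a : ℕ) : Df1 S (fun v => v a = B.lf) :=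
  (Df.rel 0 a a a).congr fun _ _ => hF.f0 _

theorem df_nd (hF : B.Fits S) (a b c : ℕ) : Df1 S (fun v => v c = B.nd (v a) (v b)) :=
  (Df.rel 1 a b c).congr fun _ _ => hF.f1 _ _ _

theorem df_eq (hF : B.Fits S) (a b : ℕ) : Df1 S (fun v => v a = v b) :=
  (Df.rel 2 a b b).congr fun _ _ => hF.f2 _ _ _

theorem df_pu (hF : B.Fits S) (a : ℕ) : Df1 S (fun v => B.Pu (v a)) :=
  (Df.rel 3 a a a).congr fun _ _ => hF.f3 _

theorem df_Q (hF : B.Fits S) (a b : ℕ) : Df1 S (fun v => B.Q (v a) (v b)) :=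
  (Df.rel 4 a b b).congr fun _ _ => hF.f4 _ _

theorem df_mem (hF : B.Fits S) (a b : ℕ) : Df1 S (fun v => B.Mem (v a) (v b)) :=
  (Df.rel 5 a b b).congr fun _ _ => hF.f5 _ _

theorem df_oc (hF : B.Fits S) (a b : ℕ) : Df1 S (fun v => B.Oc (v a) (v b)) :=
  (Df.rel 6 a b b).congr fun _ _ => hF.f6 _ _

theorem df_A (hF : B.Fits S) (a : ℕ) : Df1 S (fun v => B.A (v a)) :=
  (Df.rel 7 a a a).congr fun _ _ => hF.f7 _

theorem df_lev (hF : B.Fits S) (a b : ℕ) : Df1 S (fun v => B.lev (v a) = v b) :=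
  (Df.rel 8 a b b).congr fun _ _ => hF.f8 _ _

theorem df_par (hF : B.Fits S) (a b : ℕ) : Df1 S (fun v => B.Par (v a) (v b)) :=
  (Df.rel 9 a b b).congr fun _ _ => hF.f9 _ _

theorem df_top (hF : B.Fits S) (a b c : ℕ) : Df1 S (fun v => B.Top (v a) (v b) (v c)) :=
  (Df.rel 10 a b c).congr fun _ _ => hF.f10 _ _ _

/-- The relations of `B` at canonical arguments. -/
theorem df_rl (hF : B.Fits S) (i : ℕ) (hi : i ∈ LUs) (a b c : ℕ) :
    Df1 S (fun v => B.rl i (v a) (v b) (v c)) := by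
  simp only [LUs, List.mem_cons, List.not_mem_nil, or_false] at hi
  rcases hi with rfl | rfl | rfl | rfl | rfl | rfl | rfl
  · exact df_lf hF a
  · exact df_nd hF a b c
  · exact df_eq hF a b
  · exact df_pu hF a
  · exact df_mem hF a b
  · exact df_par hF a b
  · exact df_top hF a b c

/-- Legal nodes are definable. -/
theorem df_leg (hF : B.Fits S) : Df1 S (fun v => B.Leg B.Q (v 0)) := by
  have h1 : Df1 S (fun v => ∀ u, B.Par u (v 0) → ¬ B.A u) :=
    Df.all (A := fun _ v u => B.Par u (v 0) → ¬ B.A u)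
      (Df.imp (df_par hF 0 1) (Df.not (df_A hF 0)))
  have h2 : Df1 S (fun v => ∀ n x, B.Top n x (v 0) → B.Q n x) :=
    Df.all (A := fun _ v n => ∀ x, B.Top n x (v 0) → B.Q n x)
      (Df.all (A := fun _ v x => B.Top (v 0) x (v 1) → B.Q (v 0) x)
        (Df.imp (df_top hF 1 0 2) (df_Q hF 1 0)))
  have h3 : Df1 S (fun v => B.lev (v 0) = B.lf) :=
    (Df.ex (A := fun _ v l => B.lev (v 0) = l ∧ l = B.lf)
      (Df.and (df_lev hF 1 0) (df_lf hF 0))).congr fun _ v => by simp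
  have h4 : Df1 S (fun v => ∀ u, B.Par u (v 0) → B.lev u = B.nd B.lf (B.lev (v 0))) := by
    have h5 : Df1 S (fun v => ∀ u l m z, B.lev (v 0) = l → B.lev u = m → z = B.lf →
        B.Par u (v 0) → m = B.nd z l) :=
      Df.all (A := fun _ v u => ∀ l m z, B.lev (v 0) = l → B.lev u = m → z = B.lf →
          B.Par u (v 0) → m = B.nd z l)
        (Df.all (A := fun _ v l => ∀ m z, B.lev (v 1) = l → B.lev (v 0) = m → z = B.lf →
          B.Par (v 0) (v 1) → m = B.nd z l)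
          (Df.all (A := fun _ v m => ∀ z, B.lev (v 2) = v 0 → B.lev (v 1) = m → z = B.lf →
            B.Par (v 1) (v 2) → m = B.nd z (v 0))
            (Df.all (A := fun _ v z => B.lev (v 3) = v 1 → B.lev (v 2) = v 0 → z = B.lf →
              B.Par (v 2) (v 3) → v 0 = B.nd z (v 1))
              (Df.imp (df_lev hF 4 2) (Df.imp (df_lev hF 3 1) (Df.imp (df_lf hF 0)
                (Df.imp (df_par hF 3 4) (df_nd hF 0 2 1))))))))
    refine h5.congr fun _ v => ?_
    constructor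
    · intro h u hu
      exact h u _ _ _ rfl rfl rfl hu
    · rintro h u l m z rfl rfl rfl hu
      exact h u hu
  exact Df.and (Df.imp (df_A hF 0) (Df.and h1 h2)) (Df.and (Df.imp h3 (df_A hF 0)) h4)

/-- The objects all of whose nodes are legal form a definable set. -/
theorem df_inM (hF : B.Fits S) (a : ℕ) : Df1 S (fun v => B.InM B.Q (v a)) := by
  have h : Df1 S (fun v => B.InM B.Q (v 0)) :=
    Df.all (A := fun _ v w => B.Oc w (v 0) → B.Leg B.Q w)
      (Df.imp (df_oc hF 0 1) (df_leg hF))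
  exact Df.sub1 (A := fun _ x => B.InM B.Q x) h a

theorem df_clG (hF : B.Fits S) (a b : ℕ) : Df1 S (fun v => B.ClG (v a) (v b)) :=
  Df.or (Df.and (df_inM hF a) (df_eq hF b a)) (Df.and (Df.not (df_inM hF a)) (df_lf hF b))

end

end ZM

/-- `M_Q` is definable in `Z`, by a total surjection. -/
theorem RepZ.base {Z : Type} (B : ZM Z) {S : Str Z} (hF : B.Fits S) :
    ∃ π : Z → B.MP B.Q, RepZ S (B.MStr B.Q) (fun _ => True) π := by
  refine ⟨B.cl, fun b => ⟨b.1, trivial, B.cl_val b⟩, ⟨.top, fun z => by rw [sat_top]⟩, fun i => ?_⟩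
  by_cases hi : i ∈ ZM.LUs
  · have h : ZM.Df1 S (fun v => ∃ x y z, (B.ClG (v 0) x ∧ B.ClG (v 1) y ∧ B.ClG (v 2) z) ∧
        B.rl i x y z) :=
      Df.ex (A := fun _ v x => ∃ y z, (B.ClG (v 0) x ∧ B.ClG (v 1) y ∧ B.ClG (v 2) z) ∧
          B.rl i x y z)
        (Df.ex (A := fun _ v y => ∃ z, (B.ClG (v 1) (v 0) ∧ B.ClG (v 2) y ∧ B.ClG (v 3) z) ∧
            B.rl i (v 0) y z)
          (Df.ex (A := fun _ v z => (B.ClG (v 2) (v 1) ∧ B.ClG (v 3) (v 0) ∧ B.ClG (v 4) z) ∧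
              B.rl i (v 1) (v 0) z)
            (Df.and (Df.and (ZM.df_clG hF 3 2) (Df.and (ZM.df_clG hF 4 1) (ZM.df_clG hF 5 0)))
              (ZM.df_rl hF i hi 2 1 0))))
    obtain ⟨φ, hφ⟩ := h
    refine ⟨φ, fun x y z _ _ _ => (hφ () (tri x y z)).trans ?_⟩
    simp only [tri_zero, tri_one, tri_two, ZM.clG_iff]
    constructor
    · rintro ⟨x', y', z', ⟨rfl, rfl, rfl⟩, h⟩
      exact ⟨hi, h⟩
    · rintro ⟨_, h⟩
      exact ⟨_, _, _, ⟨rfl, rfl, rfl⟩, h⟩
  · exact ⟨.bot, fun x y z _ _ _ => ⟨fun h => h.elim, fun h => hi h.1⟩⟩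

end Pool.Agent.Lib.MP_d999cd_lc
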