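import Pool.Agent.Lib.MP_d999cd_lc.RZForm

set_option autoImplicit false

namespace Pool.Agent.Lib.MP_d999cd_lc

namespace ZM
variable {Z : Type} (B : ZM Z)

open Classical in
/-- First component of a pair (and `lf` for other objects). -/
noncomputable def hdZ (x : Z) : Z := if h : ∃ a b, x = B.nd a b then h.choose else B.lf

open Classical in
/-- Second component of a pair (and `lf` for other objects). -/
noncomputable def tlZ (x : Z) : Z :=
  if h : ∃ b a, x = B.nd a b then h.choose else B.lf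

/-- The `k`-th component of a list. -/
noncomputable def compZ (k : ℕ) (x : Z) : Z := B.hdZ (B.tlZ^[k] x)

theorem hdZ_nd (a b : Z) : B.hdZ (B.nd a b) = a := by
  have h : ∃ a' b', B.nd a b = B.nd a' b' := ⟨a, b, rfl⟩
  rw [hdZ, dif_pos h]
  obtain ⟨b', hb'⟩ := h.choose_spec
  exact (B.nd_inj _ _ _ _ hb').1.symm

theorem tlZ_nd (a b : Z) : B.tlZ (B.nd a b) = b := by
  have h : ∃ b' a', B.nd a b = B.nd a' b' := ⟨b, a, rfl⟩
  rw [tlZ, dif_pos h]
  obtain ⟨b', hb'⟩ := h.choose_spec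
  exact (B.nd_inj _ _ _ _ hb').2.symm

theorem hdZ_of_not {x : Z} (h : ¬ ∃ a b, x = B.nd a b) : B.hdZ x = B.lf := by
  rw [hdZ, dif_neg h]

theorem tlZ_of_not {x : Z} (h : ¬ ∃ a b, x = B.nd a b) : B.tlZ x = B.lf := by
  rw [tlZ, dif_neg]
  rintro ⟨b, a, e⟩
  exact h ⟨a, b, e⟩

theorem not_nd_lf : ¬ ∃ a b, B.lf = B.nd a b := by
  rintro ⟨a, b, e⟩
  exact B.nd_ne a b e.symm

theorem tlZ_iter_lf (k : ℕ) : B.tlZ^[k] B.lf = B.lf := by
  induction k with
  | zero => rfl
  | succ k ih => rw [Function.iterate_succ_apply, B.tlZ_of_not B.not_nd_lf, ih]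

theorem compZ_mkZ (l : List Z) (k : ℕ) : B.compZ k (B.mkZ l) = l.getD k B.lf := by
  induction l generalizing k with
  | nil =>
    change B.hdZ (B.tlZ^[k] B.lf) = _
    rw [B.tlZ_iter_lf, B.hdZ_of_not B.not_nd_lf]
    simp
  | cons a l ih =>
    cases k with
    | zero =>
      change B.hdZ (B.nd a (B.mkZ l)) = _
      rw [B.hdZ_nd]
      simp
    | succ k =>
      change B.hdZ (B.tlZ^[k + 1] (B.nd a (B.mkZ l))) = _
      rw [Function.iterate_succ_apply, B.tlZ_nd]
      refine (ih k).trans ?_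
      simp

theorem hdZ_graph {S : Str Z} (hF : B.Fits S) (y x : Z) : y = B.hdZ x ↔
    ((∃ b, S.rel 1 y b x) ∨ ((¬ ∃ a b, S.rel 1 a b x) ∧ S.rel 0 y y y)) := by
  simp only [hF.f1, hF.f0]
  by_cases h : ∃ a b, x = B.nd a b
  · obtain ⟨a, b, rfl⟩ := h
    rw [B.hdZ_nd]
    constructor
    · rintro rfl
      exact Or.inl ⟨b, rfl⟩
    · rintro (⟨b', e⟩ | ⟨h1, -⟩)
      · exact (B.nd_inj _ _ _ _ e).1.symm
      · exact absurd ⟨a, b, rfl⟩ h1
  · rw [B.hdZ_of_not h]
    constructor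
    · intro e
      exact Or.inr ⟨h, e⟩
    · rintro (⟨b', e⟩ | ⟨-, h1⟩)
      · exact absurd ⟨y, b', e⟩ h
      · exact h1

theorem tlZ_graph {S : Str Z} (hF : B.Fits S) (y x : Z) : y = B.tlZ x ↔
    ((∃ a, S.rel 1 a y x) ∨ ((¬ ∃ a b, S.rel 1 a b x) ∧ S.rel 0 y y y)) := by
  simp only [hF.f1, hF.f0]
  by_cases h : ∃ a b, x = B.nd a b
  · obtain ⟨a, b, rfl⟩ := h
    rw [B.tlZ_nd]
    constructor
    · rintro rfl
      exact Or.inl ⟨a, rfl⟩
    · rintro (⟨a', e⟩ | ⟨h1, -⟩)
      · exact (B.nd_inj _ _ _ _ e).2.symm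
      · exact absurd ⟨a, b, rfl⟩ h1
  · rw [B.tlZ_of_not h]
    constructor
    · intro e
      exact Or.inr ⟨h, e⟩
    · rintro (⟨a', e⟩ | ⟨-, h1⟩)
      · exact absurd ⟨a', y, e⟩ h
      · exact h1

section

variable {S : Str Z}

/-- Definable functions of the environment (one structure). -/
def DfFn (S : Str Z) (f : (ℕ → Z) → Z) : Prop :=
  Df (fun _ : Unit => S) (fun _ v => v 0 = f (fun k => v (k + 1)))

theorem dfFn_proj {S : Str Z} (B : ZM Z) (hF : B.Fits S) (j : ℕ) : DfFn S (fun v => v j) :=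
  (Df.rel (S := fun _ : Unit => S) 2 0 (j + 1) 0).congr fun _ v => hF.f2 _ _ _

theorem dfFn_comp {S : Str Z} {f : (ℕ → Z) → Z} {g : Z → Z}
    (hg : Df (fun _ : Unit => S) (fun _ v => v 0 = g (v 1))) (hf : DfFn S f) :
    DfFn S (fun v => g (f v)) := by
  refine Df.subst (S := fun _ : Unit => S) (A := fun _ v x => v 0 = g x)
    (f := fun _ v => f (fun k => v (k + 1))) ?_ ?_
  · exact Df.sub (A := fun _ v => v 0 = f (fun k => v (k + 1)))
      (MP_d999cd_lc.cons 0 (fun k => k + 2)) hf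
  · exact Df.sub2 (A := fun _ x y => x = g y) hg 1 0

theorem df_hdZ {S : Str Z} (hF : B.Fits S) :
    Df (fun _ : Unit => S) (fun _ v => v 0 = B.hdZ (v 1)) := by
  have h1 : Df (fun _ : Unit => S) (fun _ v => ∃ b, S.rel 1 (v 0) b (v 1)) :=
    Df.ex (A := fun _ v b => S.rel 1 (v 0) b (v 1)) (Df.rel (S := fun _ : Unit => S) 1 1 0 2)
  have h2 : Df (fun _ : Unit => S) (fun _ v => ∃ a b, S.rel 1 a b (v 1)) :=
    Df.ex (A := fun _ v a => ∃ b, S.rel 1 a b (v 1))
      (Df.ex (A := fun _ v b => S.rel 1 (v 0) b (v 2)) (Df.rel (S := fun _ : Unit => S) 1 1 0 3))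
  have h3 : Df (fun _ : Unit => S) (fun _ v => S.rel 0 (v 0) (v 0) (v 0)) :=
    Df.rel (S := fun _ : Unit => S) 0 0 0 0
  exact (Df.or h1 (Df.and (Df.not h2) h3)).congr fun _ v => (B.hdZ_graph hF _ _).symm

theorem df_tlZ {S : Str Z} (hF : B.Fits S) :
    Df (fun _ : Unit => S) (fun _ v => v 0 = B.tlZ (v 1)) := by
  have h1 : Df (fun _ : Unit => S) (fun _ v => ∃ a, S.rel 1 a (v 0) (v 1)) :=
    Df.ex (A := fun _ v a => S.rel 1 a (v 0) (v 1)) (Df.rel (S := fun _ : Unit => S) 1 0 1 2)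
  have h2 : Df (fun _ : Unit => S) (fun _ v => ∃ a b, S.rel 1 a b (v 1)) :=
    Df.ex (A := fun _ v a => ∃ b, S.rel 1 a b (v 1))
      (Df.ex (A := fun _ v b => S.rel 1 (v 0) b (v 2)) (Df.rel (S := fun _ : Unit => S) 1 1 0 3))
  have h3 : Df (fun _ : Unit => S) (fun _ v => S.rel 0 (v 0) (v 0) (v 0)) :=
    Df.rel (S := fun _ : Unit => S) 0 0 0 0
  exact (Df.or h1 (Df.and (Df.not h2) h3)).congr fun _ v => (B.tlZ_graph hF _ _).symm

theorem dfFn_compZ {S : Str Z} (hF : B.Fits S) (k j : ℕ) :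
    DfFn S (fun v => B.compZ k (v j)) := by
  refine dfFn_comp (g := B.hdZ) (f := fun v => B.tlZ^[k] (v j)) (B.df_hdZ hF) ?_
  induction k with
  | zero => exact dfFn_proj B hF j
  | succ k ih =>
    have := dfFn_comp (g := B.tlZ) (B.df_tlZ hF) ih
    simpa only [Function.iterate_succ_apply'] using this

end

end ZM

theorem lst_map_range {M : Type} (x0 : M) (d : ℕ) (f : ℕ → M) (l : List M) (k : ℕ) :
    lst x0 ((List.range d).map f ++ l) k = if k < d then f k else lst x0 l (k - d) := by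
  unfold lst
  split_ifs with h
  · rw [List.getD_append _ _ _ _ (by simpa using h)]
    rw [List.getD_eq_getElem _ _ (by simpa using h)]
    simp
  · rw [List.getD_append_right _ _ _ _ (by simpa using h)]
    simp

/-- Composition with a multi-dimensional translation (tuples are coded by lists). -/
theorem RepZ.comp {Z N N' : Type} (B : ZM Z) {S : Str Z} (hF : B.Fits S) {T : Str N} {Dm : Z → Prop}
    {π : Z → N} (h : RepZ S T Dm π) {τ : Tld} {T' : Str N'} {x0 : N} {F : List N → N'}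
    (hI : τ.Ind T x0 T' F) : ∃ (Dm' : Z → Prop) (π' : Z → N'), RepZ S T' Dm' π' := by
  have hd0 := τ.d_pos
  set d := τ.d with hd
  let lz : Z → List N := fun z => (List.range d).map (fun k => π (B.compZ k z))
  have hlen : ∀ z, (lz z).length = d := fun z => by simp [lz]
  have lst1 : ∀ z k, k < d → lst x0 (lz z) k = π (B.compZ k z) := by
    intro z k hk
    have := lst_map_range x0 d (fun k => π (B.compZ k z)) [] k
    rw [List.append_nil, if_pos hk] at this
    exact this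
  obtain ⟨ψ, hψ, hψ2⟩ := h.formula τ.dm τ.dm_Vf
  have hdm : ∀ z, (∀ k < d, Dm (B.compZ k z)) →
      (sat S ψ (fun k => B.compZ k z) ↔ sat T τ.dm (lst x0 (lz z))) := by
    intro z hz
    have e1 : sat S ψ (fun k => B.compZ k z) ↔ sat S ψ (fun k => B.compZ (k % d) z) :=
      sat_congr S hψ fun k hk => by rw [Nat.mod_eq_of_lt hk]
    have e2 : sat T τ.dm (fun k => π (B.compZ (k % d) z)) ↔ sat T τ.dm (lst x0 (lz z)) :=
      sat_congr T τ.dm_Vf fun k hk => by rw [lst1 z k hk, Nat.mod_eq_of_lt hk]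
    rw [e1, ← e2]
    exact hψ2 _ fun k => hz _ (Nat.mod_lt _ hd0)
  have dfDm : Df (fun _ : Unit => S) (fun _ v => Dm (v 0)) := by
    obtain ⟨δ, hδ⟩ := h.dfD
    exact ⟨.sb δ 0 0 0, fun _ v => hδ (v 0)⟩
  have dfDm' : Df (fun _ : Unit => S)
      (fun _ v => (∀ k < d, Dm (B.compZ k (v 0))) ∧ sat T τ.dm (lst x0 (lz (v 0)))) := by
    have h1 : Df (fun _ : Unit => S) (fun _ v => ∀ k < d, Dm (B.compZ k (v 0))) := by
      refine Df.allFin d (A := fun k _ v => Dm (B.compZ k (v 0))) fun k _ => ?_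
      exact Df.subst (S := fun _ : Unit => S) (A := fun _ _ x => Dm x)
        (f := fun _ v => B.compZ k (v 0)) (B.dfFn_compZ hF k 0) dfDm
    have h2 : Df (fun _ : Unit => S) (fun _ v => sat S ψ (fun k => B.compZ k (v 0))) :=
      Df.substN (S := fun _ : Unit => S) d (A := fun _ v => sat S ψ v)
        (fun _ v v' e => sat_congr S hψ e) ⟨ψ, fun _ _ => Iff.rfl⟩
        (f := fun k _ v => B.compZ k (v 0)) fun k _ => B.dfFn_compZ hF k 0
    refine (Df.and h1 h2).congr fun _ v => ?_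
    exact and_congr_right fun hz => hdm _ hz
  refine ⟨fun z => (∀ k < d, Dm (B.compZ k z)) ∧ sat T τ.dm (lst x0 (lz z)),
    fun z => F (lz z), ?_, ?_, ?_⟩
  · intro y
    obtain ⟨t, ⟨ht1, ht2⟩, rfl⟩ := hI.surj y
    choose zf hzf1 hzf2 using h.surj
    have hcomp : ∀ k (hk : k < t.length), B.compZ k (B.mkZ (t.map zf)) = zf t[k] := by
      intro k hk
      rw [B.compZ_mkZ, List.getD_eq_getElem _ _ (by simpa using hk), List.getElem_map]
    have hl : lz (B.mkZ (t.map zf)) = t := by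
      refine List.ext_getElem ?_ fun k hk1 hk2 => ?_
      · rw [hlen]; exact ht1.symm
      · simp only [lz, List.getElem_map, List.getElem_range]
        rw [hcomp k hk2, hzf2]
    refine ⟨B.mkZ (t.map zf), ⟨fun k hk => ?_, ?_⟩, ?_⟩
    · rw [hcomp k (by rw [ht1]; exact hk)]
      exact hzf1 _
    · rw [hl]; exact ht2
    · change F (lz (B.mkZ (t.map zf))) = F t
      rw [hl]
  · obtain ⟨δ, hδ⟩ := dfDm'
    exact ⟨δ, fun z => hδ () (tri z z z)⟩
  · intro i
    obtain ⟨χ, hχ, hχ2⟩ := h.formula (τ.q i) (τ.q_Vf i)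
    have hdf : Df (fun _ : Unit => S)
        (fun _ v => sat S χ (fun k => B.compZ (k % d) (v (k / d)))) :=
      Df.substN (S := fun _ : Unit => S) (3 * d) (A := fun _ v => sat S χ v)
        (fun _ v v' e => sat_congr S hχ e) ⟨χ, fun _ _ => Iff.rfl⟩
        (f := fun k _ v => B.compZ (k % d) (v (k / d))) fun k _ => B.dfFn_compZ hF _ _
    obtain ⟨φ, hφ⟩ := hdf
    refine ⟨φ, fun x y z hx hy hz => ?_⟩
    rw [hφ () (tri x y z), hI.rel i (lz x) (lz y) (lz z) ⟨hlen x, hx.2⟩ ⟨hlen y, hy.2⟩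
      ⟨hlen z, hz.2⟩]
    refine (hχ2 (fun k => B.compZ (k % d) (tri x y z (k / d))) (fun k => ?_)).trans ?_
    · have hkd : k % d < d := Nat.mod_lt _ hd0
      have htri : ∀ m, (∀ j < d, Dm (B.compZ j (tri x y z m))) := by
        intro m
        rcases m with _ | _ | m
        · exact hx.1
        · exact hy.1
        · exact hz.1
      exact htri _ _ hkd
    · refine sat_congr T (τ.q_Vf i) fun k hk => ?_
      have hk' : k < 3 * d := hk
      rw [List.append_assoc, lst_map_range]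
      split_ifs with h1
      · rw [Nat.div_eq_of_lt h1, Nat.mod_eq_of_lt h1]
        rfl
      · rw [lst_map_range]
        split_ifs with h2
        · have e1 : k / d = 1 := by
            rw [Nat.div_eq_of_lt_le] <;> omega
          have e2 : k % d = k - d := by
            rw [Nat.mod_eq_sub_mod (by omega), Nat.mod_eq_of_lt h2]
          rw [e1, e2]
          rfl
        · have e1 : k / d = 2 := by
            rw [Nat.div_eq_of_lt_le] <;> omega
          have e2 : k % d = k - d - d := by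
            rw [Nat.mod_eq_sub_mod (by omega), Nat.mod_eq_sub_mod (by omega),
              Nat.mod_eq_of_lt (by omega)]
          rw [lst1 z _ (by omega), e1, e2]
          rfl

end Pool.Agent.Lib.MP_d999cd_lc
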