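import Pool.Agent.Lib.MP_d999cd_lc.Value

/-!
# The representation lemma
-/

set_option autoImplicit false

namespace Pool.Agent.Lib.MP_d999cd_lc

namespace ZM
variable {Z : Type} (B : ZM Z)

theorem agr_symm_repL {j : ℕ} {P P' : Z → Z → Prop} (h : B.Agr j P P') : B.Agr j P' P :=
  fun k hk x => (h k hk x).symm

theorem agr_mono_repL {j j' : ℕ} (hj : j ≤ j') {P P' : Z → Z → Prop} (h : B.Agr j' P P') :
    B.Agr j P P' :=
  fun k hk x => h k (lt_of_lt_of_le hk hj) x

theorem act_mkZ_repL (g : Z) (l : List Z) : B.act g (B.mkZ l) = B.mkZ (l.map (B.act g)) := by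
  induction l with
  | nil => exact B.act_pu g _ B.pu_lf
  | cons a l ih =>
    change B.act g (B.nd a (B.mkZ l)) = B.nd (B.act g a) (B.mkZ (l.map (B.act g)))
    rw [B.act_nd, ih]

theorem inM_mkZ_repL {P : Z → Z → Prop} (l : List Z) :
    B.InM P (B.mkZ l) ↔ ∀ x ∈ l, B.InM P x := by
  induction l with
  | nil => simp [mkZ, B.inM_lf P]
  | cons a l ih =>
    change B.InM P (B.nd a (B.mkZ l)) ↔ _
    rw [B.inM_nd, ih]
    simp

/-- Transfer of a list of objects of `M_P` to `M_P'`. -/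
theorem transfer_repL {P P' : Z → Z → Prop} {j : ℕ} (hP : B.Agr (j + 1) P P')
    (L : List (B.MP P)) : ∃ (L' : List (B.MP P')) (g : Z), B.Good (B.zl j) g ∧
      L'.map Subtype.val = L.map (fun x => B.act g x.1) := by
  obtain ⟨i, hi⟩ := B.act_id
  have hg : B.Good (B.zl (j + 1)) i := fun w _ _ => by rw [hi]
  have ha : B.InM P' (B.act i B.lf) := by rw [hi]; exact B.inM_lf P'
  have hc : B.InM P (B.mkZ (L.map Subtype.val)) := by
    rw [inM_mkZ_repL]
    intro x hx
    obtain ⟨y, _, rfl⟩ := List.mem_map.1 hx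
    exact y.2
  obtain ⟨g, hg1, -, hg3, -⟩ := B.ext_aux hP B.lf hg ha hc
  rw [act_mkZ_repL, inM_mkZ_repL, List.map_map] at hg3
  refine ⟨L.pmap (fun x hx => ⟨B.act g x.1, hx⟩)
    (fun x hx => hg3 _ (List.mem_map.2 ⟨x, hx, rfl⟩)), g, hg1, ?_⟩
  rw [List.map_pmap]
  exact List.pmap_eq_map _

theorem dom_repL {P P' : Z → Z → Prop} {j : ℕ} (hP : B.Agr j P P') {g : Z}
    (hg : B.Good (B.zl j) g) {τ : Tld} (h1 : τ.dm.qd ≤ j) (l : List (B.MP P))
    (l' : List (B.MP P')) (h : l'.map Subtype.val = l.map (fun x => B.act g x.1)) :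
    τ.Dom (B.MStr P) (B.lfM P) l ↔ τ.Dom (B.MStr P') (B.lfM P') l' := by
  have hlen : l'.length = l.length := by
    have := congrArg List.length h
    rwa [List.length_map, List.length_map] at this
  unfold Tld.Dom
  rw [hlen, B.EF_list hP hg τ.dm h1 l l' h]

/-- If `t2` is the image of `t'` under `g2` and `t1` is the image of `t'` under `g1` then `t2` is
the image of `t1` under the composition of `g2` and the inverse of `g1`. -/
theorem comp_repL {P P' P'' : Z → Z → Prop} {z g1 g2 : Z} (hg1 : B.Good z g1)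
    (hg2 : B.Good z g2) {t' : List (B.MP P')} {t1 : List (B.MP P)} {t2 : List (B.MP P'')}
    (h1 : t1.map Subtype.val = t'.map (fun x => B.act g1 x.1))
    (h2 : t2.map Subtype.val = t'.map (fun x => B.act g2 x.1)) :
    ∃ k, B.Good z k ∧ t2.map Subtype.val = t1.map (fun x => B.act k x.1) := by
  obtain ⟨h, ha, hb⟩ := B.act_inv g1
  obtain ⟨k, hk⟩ := B.act_comp g2 h
  refine ⟨k, B.good_comp hg2 (B.good_inv hg1 hb) hk, ?_⟩
  have e : t1.map (fun x => B.act k x.1) = (t1.map Subtype.val).map (B.act k) := by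
    rw [List.map_map]; rfl
  rw [e, h1, List.map_map, h2]
  refine List.map_congr_left fun x _ => ?_
  change B.act g2 x.1 = B.act k (B.act g1 x.1)
  rw [hk, ha]

/-- Representation lemma: the structure `T` defined by `τ` in `M_P` is also defined by `τ` in
`M_P'` when `P` and `P'` agree on the levels `≤ j`. -/
theorem rep {P P' : Z → Z → Prop} {j : ℕ} (hP : B.Agr (j + 1) P P') {τ : Tld} {N : Type} {T : Str N}
    {F : List (B.MP P) → N} (hI : τ.Ind (B.MStr P) (B.lfM P) T F) {s : ℕ}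
    (htot : ∀ x y, T.rel s x y y ∨ T.rel s y x x)
    (hanti : ∀ x y, T.rel s x y y → T.rel s y x x → x = y) (h1 : τ.dm.qd ≤ j)
    (h2 : ∀ i, (τ.q i).qd ≤ j) :
    ∃ F' : List (B.MP P') → N, τ.Ind (B.MStr P') (B.lfM P') T F' := by
  have hPj : B.Agr j P P' := B.agr_mono_repL (Nat.le_succ j) hP
  have hPj' : B.Agr j P' P := B.agr_symm_repL hPj
  choose C G hG hCG using B.transfer_repL (B.agr_symm_repL hP)
  have key : ∀ (t' : List (B.MP P')) (t : List (B.MP P)) (g : Z), B.Good (B.zl j) g →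
      t.map Subtype.val = t'.map (fun x => B.act g x.1) →
      τ.Dom (B.MStr P') (B.lfM P') t' → F t = F (C t') := by
    intro t' t g hg ht hd
    obtain ⟨k, hk, hk2⟩ := B.comp_repL (hG t') hg (hCG t') ht
    have hd0 : τ.Dom (B.MStr P) (B.lfM P) (C t') :=
      (B.dom_repL hPj' (hG t') h1 t' (C t') (hCG t')).1 hd
    exact (B.value hI htot hanti h1 (h2 s) hk hk2 hd0).symm
  refine ⟨fun t' => F (C t'), ?_, ?_⟩
  · intro y
    obtain ⟨t, hd, hy⟩ := hI.surj y
    obtain ⟨t', g, hg, ht'⟩ := B.transfer_repL hP t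
    have hd' : τ.Dom (B.MStr P') (B.lfM P') t' := (B.dom_repL hPj hg h1 t t' ht').1 hd
    refine ⟨t', hd', ?_⟩
    obtain ⟨i, hi⟩ := B.act_id
    have hid : B.Good (B.zl j) i := fun w _ _ => by rw [hi]
    have ht : t.map Subtype.val = t.map (fun x => B.act i x.1) :=
      List.map_congr_left fun x _ => (hi x.1).symm
    obtain ⟨k, hk, hk2⟩ := B.comp_repL hg hid ht' ht
    rw [← hy]
    exact (key t' t k hk hk2 hd').symm
  · intro i t1' t2' t3' hd1 hd2 hd3
    obtain ⟨L, g, hg, hL⟩ := B.transfer_repL (B.agr_symm_repL hP) (t1' ++ t2' ++ t3')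
    have hL0 := hL
    rw [List.map_append, List.map_append, List.map_eq_append_iff] at hL
    obtain ⟨l12, t3, rfl, h12, h3⟩ := hL
    rw [List.map_eq_append_iff] at h12
    obtain ⟨t1, t2, rfl, e1, e2⟩ := h12
    have D1 := (B.dom_repL hPj' hg h1 t1' t1 e1).1 hd1
    have D2 := (B.dom_repL hPj' hg h1 t2' t2 e2).1 hd2
    have D3 := (B.dom_repL hPj' hg h1 t3' t3 h3).1 hd3
    have := hI.rel i t1 t2 t3 D1 D2 D3
    rw [key t1' t1 g hg e1 hd1, key t2' t2 g hg e2 hd2, key t3' t3 g hg h3 hd3] at this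
    rw [this]
    exact (B.EF_list hPj' hg (τ.q i) (h2 i) _ _ hL0).symm

end ZM

end Pool.Agent.Lib.MP_d999cd_lc
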