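import Pool.Agent.Lib.MP_d999cd_lc.ZSpec

/-!
# Models of the first-order form of the base theory are `ZM` structures
-/

set_option autoImplicit false

namespace Pool.Agent.Lib.MP_d999cd_lc

theorem ZM_of_ZAx : Spec_ZM_of_ZAx := by
  intro Z S hE hS
  obtain ⟨c1, c2, c3, c4, c5, c6, c7, c8, c9, c10, c11, c12, c13, c14, c15, c16, c17, c18, c19, c20,
    c21, c22, c23, c24, c25, c26, c27, c28, c29, c30, c31, c32, c33, c34, c35, c36, c37, c38, c39,
    c40⟩ := hS
  simp only [hE] at c2 c4 c5 c8 c16 c21 c23 c25 c38 c39 c40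
  obtain ⟨lf, hlf⟩ := c1
  choose nd hnd using c3
  choose lev hlev using c22
  choose act hact using c24
  have f0 : ∀ x, S.rel 0 x x x ↔ x = lf := fun x => ⟨fun h => c2 x lf h hlf, fun h => h ▸ hlf⟩
  have f1 : ∀ x y z, S.rel 1 x y z ↔ z = nd x y := fun x y z =>
    ⟨fun h => c4 x y z _ h (hnd x y), fun h => h ▸ hnd x y⟩
  have f8 : ∀ x y, S.rel 8 x y y ↔ lev x = y := fun x y =>
    ⟨fun h => c23 x _ _ (hlev x) h, fun h => h ▸ hlev x⟩
  have f11 : ∀ x y z, S.rel 11 x y z ↔ act x y = z := fun x y z =>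
    ⟨fun h => c25 x y _ _ (hact x y) h, fun h => h ▸ hact x y⟩
  refine ⟨{
    lf := lf
    nd := nd
    Pu := fun x => S.rel 3 x x x
    Q := fun x y => S.rel 4 x y y
    Mem := fun x y => S.rel 5 x y y
    Oc := fun x y => S.rel 6 x y y
    A := fun x => S.rel 7 x x x
    lev := lev
    Par := fun x y => S.rel 9 x y y
    Top := fun x y z => S.rel 10 x y z
    act := act
    nd_inj := fun a b c d e => c5 a b c d (nd a b) (hnd a b) ((f1 c d _).2 e)
    nd_ne := fun a b e => c6 a b _ (hnd a b) ((f0 _).2 e)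
    mem_lf := fun x => c7 x lf hlf
    mem_nd := fun x a b => c8 x a b _ (hnd a b)
    pu_lf := c9 lf hlf
    pu_nd := fun a b => c10 a b _ (hnd a b)
    oc_nd := fun w a b => c11 w a b _ (hnd a b)
    oc_pu := c12
    oc_self := c13
    oc_par := c14
    par_oc := c15
    par_uniq := c16
    par_top := c17
    top_oc := c18
    top_pu := c19
    top_lev := fun n x w h => (f8 _ _).1 (c20 n x w h)
    top_uniq := c21
    act_nd := fun g a b => (f1 _ _ _).1
      (c26 g a b _ _ _ _ (hnd a b) (hact g a) (hact g b) (hact g _))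
    act_pu := fun g x h => (f11 _ _ _).1 (c27 g x h)
    act_mem := fun g x y => c28 g x y _ _ (hact g x) (hact g y)
    act_oc := fun g x y => c29 g x y _ _ (hact g x) (hact g y)
    act_par := fun g x y => c30 g x y _ _ (hact g x) (hact g y)
    act_top := fun g n x w => c31 g n x w _ (hact g w)
    act_lev := fun g w => (f8 _ _).1 (c32 g w _ _ (hact g w) (hlev w))
    act_inv := fun g => ?_
    act_comp := fun g h => ?_
    act_id := ?_
    act_fix := fun g b w e ho => (f11 _ _ _).1 (c36 g b w ((f11 _ _ _).2 e) ho)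
    ext := fun z b c d => ?_
    exch := fun g b hd => ?_
    topA := c39
    chA := fun v l ho hl => ?_ }, ⟨f0, f1, hE, fun _ => Iff.rfl, fun _ _ => Iff.rfl,
      fun _ _ => Iff.rfl, fun _ _ => Iff.rfl, fun _ => Iff.rfl, f8, fun _ _ => Iff.rfl,
      fun _ _ _ => Iff.rfl, f11⟩⟩
  · obtain ⟨h, hh⟩ := c33 g
    exact ⟨h, fun x => (f11 _ _ _).1 ((hh x _).1 (hact g x)),
      fun x => (f11 _ _ _).1 ((hh _ _).2 (hact h x))⟩
  · obtain ⟨k, hk⟩ := c34 g h
    exact ⟨k, fun x => (f11 _ _ _).1 (hk x _ _ (hact h x) (hact g _))⟩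
  · obtain ⟨g, hg⟩ := c35
    exact ⟨g, fun x => (f11 _ _ _).1 (hg x)⟩
  · obtain ⟨k, h1, h2, h3⟩ := c37 z b c d
    refine ⟨k, fun w hm => h1 w _ _ (hact k w) (hlev w) hm, (f11 _ _ _).1 h2, fun w ho => ?_⟩
    rcases h3 _ w (hact k c) ho with h | ⟨h, h'⟩
    · exact Or.inl h
    · refine Or.inr ⟨?_, h'⟩
      rcases h with ⟨l, hl, hm⟩ | h
      · left
        rw [(f8 _ _).1 hl]
        exact hm
      · exact Or.inr h
  · obtain ⟨h, h1, h2, h3⟩ := c38 g b _ (hact g b) hd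
    refine ⟨h, (f11 _ _ _).1 h1, (f11 _ _ _).1 h2, fun w ho => ?_⟩
    rcases h3 w _ ho (hact h w) with h | h | h
    · exact Or.inl ((f11 _ _ _).1 h).symm
    · exact Or.inr (Or.inl ((f11 _ _ _).1 h))
    · exact Or.inr (Or.inr h)
  · obtain ⟨w, h1, h2, h3, h4⟩ := c40 v l (lev v) lf ho (hlev v) hlf ((f1 _ _ _).2 hl)
    exact ⟨w, h1, h2, (f8 _ _).1 h3, h4⟩

end Pool.Agent.Lib.MP_d999cd_lc
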