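import Pool.Agent.Lib.MP_d999cd_lc.ZSpec

/-!
# The first-order form of the base theory
-/

set_option autoImplicit false

namespace Pool.Agent.Lib.MP_d999cd_lc

theorem ZAx_of_ZM : Spec_ZAx_of_ZM := by
  intro Z B
  simp only [ZAx, ZM.str, ZM.rl]
  refine ⟨⟨B.lf, rfl⟩, ?_, ?_, ?_, ?_, ?_, ?_, ?_, ?_, ?_, ?_, ?_, ?_, ?_, ?_, ?_, ?_, ?_, ?_, ?_,
    ?_, ?_, ?_, ?_, ?_, ?_, ?_, ?_, ?_, ?_, ?_, ?_, ?_, ?_, ?_, ?_, ?_, ?_, ?_, ?_⟩
  · rintro x y rfl rfl; rfl
  · exact fun a b => ⟨_, rfl⟩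
  · rintro a b z z' rfl rfl; rfl
  · rintro a b c d z rfl h; exact B.nd_inj _ _ _ _ h
  · rintro a b z rfl; exact B.nd_ne _ _
  · rintro x y rfl; exact B.mem_lf x
  · rintro x a b z rfl; exact B.mem_nd x a b
  · rintro x rfl; exact B.pu_lf
  · rintro a b z rfl; exact B.pu_nd a b
  · rintro w a b z rfl; exact B.oc_nd w a b
  · exact B.oc_pu
  · exact B.oc_self
  · exact B.oc_par
  · exact B.par_oc
  · exact B.par_uniq
  · exact B.par_top
  · exact B.top_oc
  · exact B.top_pu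
  · exact B.top_lev
  · exact B.top_uniq
  · exact fun w => ⟨_, rfl⟩
  · rintro w l l' rfl rfl; rfl
  · exact fun g x => ⟨_, rfl⟩
  · rintro g x y y' rfl rfl; rfl
  · rintro g a b z a' b' z' rfl rfl rfl rfl; exact B.act_nd g a b
  · exact B.act_pu
  · rintro g x y x' y' rfl rfl; exact B.act_mem g x y
  · rintro g x y x' y' rfl rfl; exact B.act_oc g x y
  · rintro g x y x' y' rfl rfl; exact B.act_par g x y
  · rintro g n x w w' rfl; exact B.act_top g n x w
  · rintro g w w' l rfl rfl; exact B.act_lev g w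
  · intro g
    obtain ⟨h, h1, h2⟩ := B.act_inv g
    refine ⟨h, fun x y => ⟨?_, ?_⟩⟩
    · rintro rfl; exact h1 x
    · rintro rfl; exact h2 y
  · intro g h
    obtain ⟨k, hk⟩ := B.act_comp g h
    refine ⟨k, ?_⟩
    rintro x y z rfl rfl; exact hk x
  · exact B.act_id
  · exact B.act_fix
  · intro z b c d
    obtain ⟨k, h1, h2, h3⟩ := B.ext z b c d
    refine ⟨k, ?_, h2, ?_⟩
    · rintro w w' l rfl rfl h; exact h1 w h
    · rintro c' w rfl h
      rcases h3 w h with h4 | ⟨h4 | h4, h5⟩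
      · exact Or.inl h4
      · exact Or.inr ⟨Or.inl ⟨_, rfl, h4⟩, h5⟩
      · exact Or.inr ⟨Or.inr h4, h5⟩
  · rintro g b b' rfl hb
    obtain ⟨h, h1, h2, h3⟩ := B.exch g b hb
    refine ⟨h, h1, h2, ?_⟩
    rintro w w' hw rfl
    rcases h3 w hw with h4 | h4 | h4
    · exact Or.inl h4.symm
    · exact Or.inr (Or.inl h4)
    · exact Or.inr (Or.inr h4)
  · exact B.topA
  · rintro v l m z hv rfl rfl hm
    exact B.chA v l hv hm

theorem theta0 : Spec_theta0 := by
  have key : Df (I := Σ Z : Type, Str Z) (M := fun i => i.1) (fun i => i.2)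
      (fun i _ => ZAx i.2) := by
    unfold ZAx
    repeat' first
      | exact Df.rel _ _ _ _
      | apply Df.not
      | apply Df.and
      | apply Df.iff
      | apply Df.or
      | apply Df.ex
      | apply Df.all
      | apply Df.imp
  obtain ⟨θ, h⟩ := key
  exact ⟨θ, fun Z S e => h ⟨Z, S⟩ e⟩

end Pool.Agent.Lib.MP_d999cd_lc
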