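import Pool.Agent.Lib.MP_d999cd_lc.ZStdDef

/-!
# The standard model: the extension property
-/

set_option autoImplicit false

namespace Pool.Agent.Lib.MP_d999cd_lc

namespace Std

/-- A swapping involution. -/
theorem exists_swap {α : Type} (p : α → Prop) (φ : α → α)
    (hinj : ∀ x y, p x → p y → φ x = φ y → x = y) (hdisj : ∀ x, p x → ¬ p (φ x)) :
    ∃ σ : Equiv.Perm α, (∀ x, p x → σ x = φ x) ∧ (∀ x, p x → σ (φ x) = x) ∧
      ∀ x, ¬ p x → (∀ y, p y → φ y ≠ x) → σ x = x := by
  classical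
  let f : α → α := fun x => if p x then φ x else if h : ∃ y, p y ∧ φ y = x then h.choose else x
  have h1 : ∀ x, p x → f x = φ x := fun x hx => by simp only [f, if_pos hx]
  have h2 : ∀ x, p x → f (φ x) = x := by
    intro x hx
    have h : ∃ y, p y ∧ φ y = φ x := ⟨x, hx, rfl⟩
    simp only [f, if_neg (hdisj x hx), dif_pos h]
    exact hinj _ _ h.choose_spec.1 hx h.choose_spec.2
  have h3 : ∀ x, ¬ p x → (∀ y, p y → φ y ≠ x) → f x = x := by
    intro x hx hy
    have h : ¬ ∃ y, p y ∧ φ y = x := fun ⟨y, hpy, h⟩ => hy y hpy h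
    simp only [f, if_neg hx, dif_neg h]
  have hinv : Function.Involutive f := by
    intro x
    by_cases hx : p x
    · rw [h1 x hx, h2 x hx]
    · by_cases h : ∃ y, p y ∧ φ y = x
      · obtain ⟨y, hy, rfl⟩ := h
        rw [h2 y hy, h1 y hy]
      · push Not at h
        rw [h3 x hx h, h3 x hx h]
  exact ⟨hinv.toPerm, h1, h2, h3⟩

/-- Map of the forest given by permutations of the top nodes and of the children. -/
def mf (lt : Tr → Tr → Equiv.Perm (ℕ × Bool)) (lc : Nd → Equiv.Perm (ℕ × Bool)) : Nd → Nd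
  | .top n x i s => .top n x (lt n x (i, s)).1 (lt n x (i, s)).2
  | .ch v i s => .ch (mf lt lc v) (lc v (i, s)).1 (lc v (i, s)).2

/-- The inverse map. -/
def mg (lt : Tr → Tr → Equiv.Perm (ℕ × Bool)) (lc : Nd → Equiv.Perm (ℕ × Bool)) : Nd → Nd
  | .top n x i s => .top n x ((lt n x).symm (i, s)).1 ((lt n x).symm (i, s)).2
  | .ch v i s => .ch (mg lt lc v) ((lc (mg lt lc v)).symm (i, s)).1
      ((lc (mg lt lc v)).symm (i, s)).2

/-- The automorphism given by permutations of the top nodes and of the children. -/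
def mkTM (lt : Tr → Tr → Equiv.Perm (ℕ × Bool)) (lc : Nd → Equiv.Perm (ℕ × Bool)) : TM where
  f := mf lt lc
  g := mg lt lc
  hf := ⟨fun _ _ _ _ => ⟨_, _, rfl⟩, fun _ _ _ => ⟨_, _, rfl⟩⟩
  hg := ⟨fun _ _ _ _ => ⟨_, _, rfl⟩, fun _ _ _ => ⟨_, _, rfl⟩⟩
  fg v := by
    induction v with
    | top n x i s => simp [mg, mf]
    | ch v i s ih => simp [mg, mf, ih]
  gf v := by
    induction v with
    | top n x i s => simp [mg, mf]
    | ch v i s ih => simp [mg, mf, ih]

/-- Index of a node. -/
def Nd.idx : Nd → ℕ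
  | .top _ _ i _ => i
  | .ch _ i _ => i

theorem anc_refl (v : Nd) : v.anc v := by
  cases v with
  | top n x i s => rfl
  | ch v i s => exact Or.inl rfl

theorem anc_trans {u v w : Nd} (h1 : u.anc v) (h2 : v.anc w) : u.anc w := by
  induction w with
  | top n x i s =>
    rw [show v = _ from h2] at h1
    exact h1
  | ch w i s ih =>
    rcases h2 with h2 | h2
    · rw [h2] at h1
      exact h1
    · exact Or.inr (ih h2)

theorem anc_par (v : Nd) (i : ℕ) (s : Bool) : v.anc (.ch v i s) := Or.inr (anc_refl v)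

theorem oc_anc {u v : Nd} {b : Ob} (h1 : u.anc v) (h2 : b.oc v) : b.oc u := by
  induction b with
  | lf => exact h2
  | nd a b iha ihb => exact h2.imp iha ihb
  | node w => exact anc_trans h1 h2
  | map t => exact h2

theorem anc_bound (v : Nd) : ∃ N, ∀ u : Nd, u.anc v → u.idx < N := by
  induction v with
  | top n x i s =>
    refine ⟨i + 1, fun u hu => ?_⟩
    rw [show u = _ from hu]
    exact Nat.lt_succ_self i
  | ch v i s ih =>
    obtain ⟨N, hN⟩ := ih
    refine ⟨max N (i + 1), fun u hu => ?_⟩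
    rcases hu with rfl | hu
    · exact lt_of_lt_of_le (Nat.lt_succ_self i) (le_max_right _ _)
    · exact lt_of_lt_of_le (hN u hu) (le_max_left _ _)

theorem oc_bound (b : Ob) : ∃ N, ∀ u, b.oc u → u.idx < N := by
  induction b with
  | lf => exact ⟨0, fun u hu => hu.elim⟩
  | nd a b iha ihb =>
    obtain ⟨N, hN⟩ := iha
    obtain ⟨M, hM⟩ := ihb
    refine ⟨max N M, fun u hu => ?_⟩
    rcases hu with hu | hu
    · exact lt_of_lt_of_le (hN u hu) (le_max_left _ _)
    · exact lt_of_lt_of_le (hM u hu) (le_max_right _ _)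
  | node v => exact anc_bound v
  | map t => exact ⟨0, fun u hu => hu.elim⟩

theorem anc_map {t : TM} {u v : Nd} : u.anc (t.f v) ↔ ∃ u', u'.anc v ∧ u = t.f u' := by
  induction v generalizing u with
  | top n x i s =>
    obtain ⟨i', s', h⟩ := t.hf.1 n x i s
    constructor
    · intro hu
      refine ⟨_, rfl, ?_⟩
      rw [h] at hu ⊢
      exact hu
    · rintro ⟨u', hu', rfl⟩
      rw [show u' = _ from hu', h]
      rfl
  | ch v i s ih =>
    obtain ⟨i', s', h⟩ := t.hf.2 v i s
    constructor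
    · intro hu
      rw [h] at hu
      rcases hu with hu | hu
      · exact ⟨_, Or.inl rfl, by rw [h, hu]⟩
      · obtain ⟨u', h1, h2⟩ := ih.1 hu
        exact ⟨u', Or.inr h1, h2⟩
    · rintro ⟨u', hu', rfl⟩
      rcases hu' with rfl | hu'
      · exact anc_refl _
      · rw [h]
        exact Or.inr (ih.2 ⟨u', hu', rfl⟩)

theorem oc_map {t : TM} {u : Nd} {b : Ob} : (b.app t.f).oc u ↔ ∃ u', b.oc u' ∧ u = t.f u' := by
  induction b with
  | lf => exact ⟨fun h => h.elim, fun ⟨_, h, _⟩ => h.elim⟩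
  | nd a b iha ihb =>
    constructor
    · rintro (h | h)
      · obtain ⟨u', h1, h2⟩ := iha.1 h
        exact ⟨u', Or.inl h1, h2⟩
      · obtain ⟨u', h1, h2⟩ := ihb.1 h
        exact ⟨u', Or.inr h1, h2⟩
    · rintro ⟨u', h1 | h1, h2⟩
      · exact Or.inl (iha.2 ⟨u', h1, h2⟩)
      · exact Or.inr (ihb.2 ⟨u', h1, h2⟩)
  | node v => exact anc_map
  | map s => exact ⟨fun h => h.elim, fun ⟨_, h, _⟩ => h.elim⟩

theorem lev_map (t : TM) (v : Nd) : (t.f v).lev = v.lev := by
  induction v with
  | top n x i s =>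
    obtain ⟨i', s', h⟩ := t.hf.1 n x i s
    rw [h]
    rfl
  | ch v i s ih =>
    obtain ⟨i', s', h⟩ := t.hf.2 v i s
    rw [h, Nd.lev, ih]
    rfl

theorem app_eq_self {f : Nd → Nd} {b : Ob} (h : ∀ v, b.oc v → f v = v) : b.app f = b := by
  induction b with
  | lf => rfl
  | nd a b iha ihb =>
    rw [Ob.app, iha fun v hv => h v (Or.inl hv), ihb fun v hv => h v (Or.inr hv)]
  | node v => rw [Ob.app, h v (anc_refl v)]
  | map t => rfl

/-- The local permutations: `p` is the set of the pairs `(i, s)` that are moved, `L` says whether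
the types have to be preserved. -/
theorem exists_loc (N : ℕ) (L : Prop) (p : ℕ × Bool → Prop) (hp : ∀ x, p x → x.1 < N) :
    ∃ σ : Equiv.Perm (ℕ × Bool), (∀ x, p x → N ≤ (σ x).1) ∧ (∀ x, p x → L ∨ (σ x).2 = false) ∧
      (∀ x, x.1 < N → ¬ p x → σ x = x) ∧ (L → ∀ x, (σ x).2 = x.2) := by
  by_cases hL : L
  · obtain ⟨σ, h1, h2, h3⟩ := exists_swap p (fun x => (x.1 + N, x.2)) (fun x y _ _ h => by
      simp only [Prod.mk.injEq, add_left_inj] at h
      exact Prod.ext h.1 h.2) (fun x _ h => by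
      have := hp _ h
      simp only at this
      omega)
    refine ⟨σ, fun x hx => ?_, fun x _ => Or.inl hL, fun x hx hpx => h3 x hpx fun y _ h => ?_,
      fun _ x => ?_⟩
    · rw [h1 x hx]
      exact Nat.le_add_left _ _
    · rw [← h] at hx
      simp only at hx
      omega
    · by_cases hx : p x
      · rw [h1 x hx]
      · by_cases hy : ∃ y, p y ∧ (y.1 + N, y.2) = x
        · obtain ⟨y, hy, rfl⟩ := hy
          rw [h2 y hy]
        · rw [h3 x hx fun y hpy h => hy ⟨y, hpy, h⟩]
  · obtain ⟨σ, h1, h2, h3⟩ := exists_swap p (fun x => (2 * x.1 + x.2.toNat + N, false))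
      (fun x y _ _ h => by
      simp only [Prod.mk.injEq, add_left_inj, and_true] at h
      obtain ⟨x1, x2⟩ := x
      obtain ⟨y1, y2⟩ := y
      cases x2 <;> cases y2 <;> simp only [Bool.toNat_false, Bool.toNat_true] at h <;>
        simp only [Prod.mk.injEq, and_true, Bool.false_eq_true, Bool.true_eq_false, and_false] <;>
        omega) (fun x _ h => by
      have := hp _ h
      simp only at this
      omega)
    refine ⟨σ, fun x hx => ?_, fun x hx => Or.inr ?_, fun x hx hpx => h3 x hpx fun y _ h => ?_,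
      fun h => absurd h hL⟩
    · rw [h1 x hx]
      exact Nat.le_add_left _ _
    · rw [h1 x hx]
    · rw [← h] at hx
      simp only at hx
      omega

/-- The extension property. -/
theorem std_ext : Spec_ext := by
  intro L b c d
  obtain ⟨N1, hN1⟩ := oc_bound b
  obtain ⟨N2, hN2⟩ := oc_bound c
  obtain ⟨N3, hN3⟩ := oc_bound d
  let N := max N1 (max N2 N3)
  have hb : ∀ u, b.oc u → u.idx < N := fun u hu => lt_of_lt_of_le (hN1 u hu) (le_max_left _ _)
  have hc : ∀ u, c.oc u → u.idx < N := fun u hu =>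
    lt_of_lt_of_le (hN2 u hu) ((le_max_left _ _).trans (le_max_right _ _))
  have hd : ∀ u, d.oc u → u.idx < N := fun u hu =>
    lt_of_lt_of_le (hN3 u hu) ((le_max_right _ _).trans (le_max_right _ _))
  choose lt hlt using fun n x : Tr => exists_loc N (L n)
    (fun y => c.oc (.top n x y.1 y.2) ∧ ¬ b.oc (.top n x y.1 y.2)) fun y hy => hc _ hy.1
  choose lc hlc using fun v : Nd => exists_loc N (L (predT v.lev))
    (fun y => c.oc (.ch v y.1 y.2) ∧ ¬ b.oc (.ch v y.1 y.2)) fun y hy => hc _ hy.1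
  let t := mkTM lt lc
  have hfb : ∀ u, b.oc u → t.f u = u := by
    intro u
    induction u with
    | top n x i s =>
      intro hu
      have := (hlt n x).2.2.1 (i, s) (hb _ hu) fun h => h.2 hu
      change Nd.top n x (lt n x (i, s)).1 (lt n x (i, s)).2 = _
      rw [this]
    | ch v i s ih =>
      intro hu
      have h1 := ih (oc_anc (anc_par v i s) hu)
      have := (hlc v).2.2.1 (i, s) (hb _ hu) fun h => h.2 hu
      change Nd.ch (t.f v) (lc v (i, s)).1 (lc v (i, s)).2 = _
      rw [this, h1]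
  refine ⟨t, fun v hv => ?_, app_eq_self hfb, fun u hu => ?_⟩
  · cases v with
    | top n x i s => exact (hlt n x).2.2.2 hv (i, s)
    | ch v i s => exact (hlc v).2.2.2 hv (i, s)
  · obtain ⟨u', hu', rfl⟩ := oc_map.1 hu
    by_cases hub : b.oc u'
    · left
      rw [hfb u' hub]
      exact hub
    · right
      rw [lev_map]
      cases u' with
      | top n x i s =>
        refine ⟨(hlt n x).2.1 (i, s) ⟨hu', hub⟩, fun h => ?_⟩
        exact absurd (hd _ h) (not_lt.2 ((hlt n x).1 (i, s) ⟨hu', hub⟩))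
      | ch v i s =>
        refine ⟨(hlc v).2.1 (i, s) ⟨hu', hub⟩, fun h => ?_⟩
        exact absurd (hd _ h) (not_lt.2 ((hlc v).1 (i, s) ⟨hu', hub⟩))

end Std

end Pool.Agent.Lib.MP_d999cd_lc
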