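import Pool.Agent.Lib.MP_d999cd_lc.ZStdDef

/-!
# The standard model of the base theory: exchange and assembly
-/

set_option autoImplicit false

namespace Pool.Agent.Lib.MP_d999cd_lc

namespace Std

theorem Nd.anc_refl (u : Nd) : u.anc u := by
  cases u with
  | top n x i s => exact rfl
  | ch v i s => exact Or.inl rfl

theorem Nd.anc_par {u : Nd} {i : ℕ} {s : Bool} {v : Nd} (h : (Nd.ch u i s).anc v) : u.anc v := by
  induction v with
  | top n x j s' => exact absurd h (by rintro ⟨⟩)
  | ch v j s' ih =>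
    rcases h with h | h
    · injection h with h1 h2 h3
      subst h1
      exact Or.inr (Nd.anc_refl u)
    · exact Or.inr (ih h)

theorem Ob.oc_par {u : Nd} {i : ℕ} {s : Bool} {b : Ob} (h : Ob.oc (.ch u i s) b) : Ob.oc u b := by
  induction b with
  | lf => exact h
  | nd a b iha ihb => exact h.imp iha ihb
  | node v => exact Nd.anc_par h
  | map t => exact h

/-- The top ancestor. -/
def Nd.tp : Nd → Nd
  | .top n x i s => .top n x i s
  | .ch v _ _ => v.tp

theorem Nd.tp_anc (v : Nd) : v.tp.anc v := by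
  induction v with
  | top n x i s => exact rfl
  | ch v i s ih => exact Or.inr ih

theorem Nd.anc_tp {u v : Nd} (h : u.anc v) : v.tp = u.tp := by
  induction v with
  | top n x i s => rw [show u = _ from h]
  | ch v i s ih =>
    rcases h with h | h
    · rw [h]
    · exact ih h

theorem Ob.oc_tp {u : Nd} {b : Ob} (h : Ob.oc u b) : Ob.oc u.tp b := by
  induction b with
  | lf => exact h
  | nd a b iha ihb => exact h.imp iha ihb
  | node v =>
    have h1 : u.anc v := h
    show u.tp.anc v
    rw [← Nd.anc_tp h1]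
    exact Nd.tp_anc v
  | map t => exact h

theorem TM.inj (t : TM) {u v : Nd} (h : t.f u = t.f v) : u = v := by
  rw [← t.gf u, h, t.gf]

theorem tp_f {f : Nd → Nd} (hf : IsH f) (v : Nd) : (f v).tp = f v.tp := by
  induction v with
  | top n x i s =>
    obtain ⟨i', s', h⟩ := hf.1 n x i s
    show (f (.top n x i s)).tp = f (.top n x i s)
    rw [h]; rfl
  | ch v i s ih =>
    obtain ⟨i', s', h⟩ := hf.2 v i s
    show (f (.ch v i s)).tp = f v.tp
    rw [h]
    exact ih

theorem anc_f (t : TM) (u v : Nd) : (t.f u).anc (t.f v) ↔ u.anc v := by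
  induction v with
  | top n x i s =>
    obtain ⟨i', s', h⟩ := t.hf.1 n x i s
    rw [h]
    show t.f u = _ ↔ u = _
    rw [← h]
    exact ⟨fun h => t.inj h, fun h => by rw [h]⟩
  | ch v i s ih =>
    obtain ⟨i', s', h⟩ := t.hf.2 v i s
    rw [h]
    show (t.f u = _ ∨ (t.f u).anc (t.f v)) ↔ (u = _ ∨ u.anc v)
    rw [← h, ih]
    exact or_congr ⟨fun h => t.inj h, fun h => by rw [h]⟩ Iff.rfl

theorem oc_f (t : TM) (u : Nd) (b : Ob) : Ob.oc (t.f u) (b.app t.f) ↔ Ob.oc u b := by
  induction b with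
  | lf => exact Iff.rfl
  | nd a b iha ihb => exact or_congr iha ihb
  | node v => exact anc_f t u v
  | map s => exact Iff.rfl

theorem app_congr {f g : Nd → Nd} {b : Ob} (h : ∀ u, Ob.oc u b → f u = g u) :
    b.app f = b.app g := by
  induction b with
  | lf => rfl
  | nd a b iha ihb =>
    show Ob.nd _ _ = Ob.nd _ _
    rw [iha fun u hu => h u (Or.inl hu), ihb fun u hu => h u (Or.inr hu)]
  | node v =>
    show Ob.node _ = Ob.node _
    rw [h v (Nd.anc_refl v)]
  | map t => rfl

theorem app_app (f g : Nd → Nd) (b : Ob) : (b.app f).app g = b.app (fun v => g (f v)) := by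
  induction b with
  | lf => rfl
  | nd a b iha ihb =>
    show Ob.nd _ _ = Ob.nd _ _
    rw [iha, ihb]
  | node v => rfl
  | map t => rfl

theorem app_id (b : Ob) : b.app (fun v => v) = b := by
  induction b with
  | lf => rfl
  | nd a b iha ihb =>
    show Ob.nd _ _ = Ob.nd _ _
    rw [iha, ihb]
  | node v => rfl
  | map t => rfl

theorem app_gf (t : TM) (b : Ob) : (b.app t.f).app t.g = b := by
  rw [app_app]
  conv_rhs => rw [← app_id b]
  exact app_congr fun u _ => t.gf u

theorem app_fg (t : TM) (b : Ob) : (b.app t.g).app t.f = b := by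
  rw [app_app]
  conv_rhs => rw [← app_id b]
  exact app_congr fun u _ => t.fg u

theorem std_exch : Spec_exch := by
  classical
  intro t b hb
  -- the two disjoint sets of trees
  have hP : ∀ v, Ob.oc v.tp b ↔ Ob.oc (t.f v).tp (b.app t.f) := by
    intro v
    rw [tp_f t.hf, oc_f]
  have hP' : ∀ v, Ob.oc v.tp (b.app t.f) ↔ Ob.oc (t.g v).tp b := by
    intro v
    rw [hP (t.g v), t.fg]
  let h : Nd → Nd := fun v => if Ob.oc v.tp b then t.f v else
    if Ob.oc v.tp (b.app t.f) then t.g v else v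
  have h1 : ∀ v, Ob.oc v.tp b → h v = t.f v := fun v hv => if_pos hv
  have h2 : ∀ v, Ob.oc v.tp (b.app t.f) → h v = t.g v := by
    intro v hv
    have hn : ¬ Ob.oc v.tp b := fun h' => hb _ h' hv
    show (if Ob.oc v.tp b then t.f v else
      if Ob.oc v.tp (b.app t.f) then t.g v else v) = _
    rw [if_neg hn, if_pos hv]
  have h3 : ∀ v, ¬ Ob.oc v.tp b → ¬ Ob.oc v.tp (b.app t.f) → h v = v := by
    intro v hv hv'
    show (if Ob.oc v.tp b then t.f v else
      if Ob.oc v.tp (b.app t.f) then t.g v else v) = _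
    rw [if_neg hv, if_neg hv']
  have hh : ∀ v, h (h v) = v := by
    intro v
    by_cases c1 : Ob.oc v.tp b
    · rw [h1 v c1, h2 _ ((hP v).1 c1), t.gf]
    · by_cases c2 : Ob.oc v.tp (b.app t.f)
      · rw [h2 v c2, h1 _ ((hP' v).1 c2), t.fg]
      · rw [h3 v c1 c2, h3 v c1 c2]
  have hH : IsH h := by
    constructor
    · intro n x i s
      by_cases c1 : Ob.oc (Nd.top n x i s).tp b
      · rw [h1 _ c1]; exact t.hf.1 n x i s
      · by_cases c2 : Ob.oc (Nd.top n x i s).tp (b.app t.f)
        · rw [h2 _ c2]; exact t.hg.1 n x i s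
        · rw [h3 _ c1 c2]; exact ⟨i, s, rfl⟩
    · intro v i s
      by_cases c1 : Ob.oc v.tp b
      · rw [h1 v c1, h1 (.ch v i s) c1]; exact t.hf.2 v i s
      · by_cases c2 : Ob.oc v.tp (b.app t.f)
        · rw [h2 v c2, h2 (.ch v i s) c2]; exact t.hg.2 v i s
        · rw [h3 v c1 c2, h3 (.ch v i s) c1 c2]; exact ⟨i, s, rfl⟩
  refine ⟨⟨h, h, hH, hH, hh, hh⟩, ?_, ?_, ?_⟩
  · exact app_congr fun u hu => h1 u (Ob.oc_tp hu)
  · have e : (b.app t.f).app h = (b.app t.f).app t.g :=
      app_congr fun u hu => h2 u (Ob.oc_tp hu)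
    exact e.trans (app_gf t b)
  · intro v
    show h v = t.f v ∨ t.f (h v) = v ∨ h v = v
    by_cases c1 : Ob.oc v.tp b
    · exact Or.inl (h1 v c1)
    · by_cases c2 : Ob.oc v.tp (b.app t.f)
      · right; left; rw [h2 v c2, t.fg]
      · right; right; exact h3 v c1 c2

theorem emb_inj {s t : Tr} (h : emb s = emb t) : s = t := by
  induction s generalizing t with
  | nil =>
    cases t with
    | nil => rfl
    | node a b => exact absurd h (by rintro ⟨⟩)
  | node a b iha ihb =>
    cases t with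
    | nil => exact absurd h (by rintro ⟨⟩)
    | node c d =>
      have h' : Ob.nd (emb a) (emb b) = Ob.nd (emb c) (emb d) := h
      injection h' with h1 h2
      rw [iha h1, ihb h2]

theorem num_injS {j k : ℕ} (h : num j = num k) : j = k := by
  induction j generalizing k with
  | zero =>
    cases k with
    | zero => rfl
    | succ k => exact absurd h (by rintro ⟨⟩)
  | succ j ih =>
    cases k with
    | zero => exact absurd h (by rintro ⟨⟩)
    | succ k =>
      have h' : Tr.node .nil (num j) = Tr.node .nil (num k) := h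
      injection h' with h1 h2
      rw [ih h2]

theorem oc_emb (u : Nd) (t : Tr) : ¬ Ob.oc u (emb t) := by
  induction t with
  | nil => exact fun h => h
  | node a b iha ihb => exact fun h => h.elim iha ihb

theorem app_emb (f : Nd → Nd) (t : Tr) : (emb t).app f = emb t := by
  induction t with
  | nil => rfl
  | node a b iha ihb =>
    show Ob.nd _ _ = Ob.nd _ _
    rw [iha, ihb]

theorem app_inj (t : TM) {a b : Ob} (h : a.app t.f = b.app t.f) : a = b := by
  rw [← app_gf t a, h, app_gf]

theorem lev_f {f : Nd → Nd} (hf : IsH f) (v : Nd) : (f v).lev = v.lev := by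
  induction v with
  | top n x i s =>
    obtain ⟨i', s', h⟩ := hf.1 n x i s
    rw [h]; rfl
  | ch v i s ih =>
    obtain ⟨i', s', h⟩ := hf.2 v i s
    rw [h]
    show predT _ = predT _
    rw [ih]

theorem mem_f (t : TM) (x y : Ob) : MemO (x.app t.f) (y.app t.f) ↔ MemO x y := by
  induction y with
  | lf => exact Iff.rfl
  | nd a b iha ihb =>
    show (x.app t.f = a.app t.f ∨ MemO (x.app t.f) (b.app t.f)) ↔ (x = a ∨ MemO x b)
    rw [ihb]
    exact or_congr ⟨fun h => app_inj t h, fun h => by rw [h]⟩ Iff.rfl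
  | node v => exact Iff.rfl
  | map s => exact Iff.rfl

/-- The inverse automorphism. -/
def TM.inv (t : TM) : TM := ⟨t.g, t.f, t.hg, t.hf, t.gf, t.fg⟩

theorem IsH.comp {f g : Nd → Nd} (hf : IsH f) (hg : IsH g) : IsH (fun v => f (g v)) := by
  constructor
  · intro n x i s
    obtain ⟨i', s', h⟩ := hg.1 n x i s
    obtain ⟨i'', s'', h'⟩ := hf.1 n x i' s'
    exact ⟨i'', s'', by show f (g _) = _; rw [h, h']⟩
  · intro v i s
    obtain ⟨i', s', h⟩ := hg.2 v i s
    obtain ⟨i'', s'', h'⟩ := hf.2 (g v) i' s'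
    exact ⟨i'', s'', by show f (g _) = _; rw [h, h']⟩

/-- Composition of automorphisms. -/
def TM.comp (s t : TM) : TM where
  f := fun v => s.f (t.f v)
  g := fun v => t.g (s.g v)
  hf := s.hf.comp t.hf
  hg := t.hg.comp s.hg
  fg v := by
    show s.f (t.f (t.g (s.g v))) = v
    rw [t.fg, s.fg]
  gf v := by
    show t.g (s.g (s.f (t.f v))) = v
    rw [s.gf, t.gf]

theorem fix_anc (t : TM) {u v : Nd} (h : t.f v = v) (hu : u.anc v) : t.f u = u := by
  induction v with
  | top n x i s => rw [show u = _ from hu]; exact h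
  | ch v i s ih =>
    rcases hu with hu | hu
    · rw [hu]; exact h
    · obtain ⟨i', s', h'⟩ := t.hf.2 v i s
      rw [h'] at h
      injection h with h1 h2 h3
      exact ih h1 hu

theorem fix_oc (t : TM) {u : Nd} {b : Ob} (h : b.app t.f = b) (hu : Ob.oc u b) : t.f u = u := by
  induction b with
  | lf => exact absurd hu (fun h => h)
  | nd a b iha ihb =>
    have h' : Ob.nd (a.app t.f) (b.app t.f) = Ob.nd a b := h
    injection h' with h1 h2
    exact hu.elim (iha h1) (ihb h2)
  | node v =>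
    have h' : Ob.node (t.f v) = Ob.node v := h
    injection h' with h1
    exact fix_anc t h1 hu
  | map s => exact absurd hu (fun h => h)

/-- A non-map acts as the identity. -/
theorem act_cases (g : Ob) : (∃ t, g = .map t) ∨ ∀ x, actO g x = x := by
  cases g with
  | lf => exact Or.inr fun _ => rfl
  | nd a b => exact Or.inr fun _ => rfl
  | node v => exact Or.inr fun _ => rfl
  | map t => exact Or.inl ⟨t, rfl⟩

theorem app_eq_node {f : Nd → Nd} {x : Ob} {u : Nd} (h : x.app f = .node u) :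
    ∃ v, x = .node v ∧ f v = u := by
  cases x with
  | lf => exact absurd h (by rintro ⟨⟩)
  | nd a b => exact absurd h (by rintro ⟨⟩)
  | node v =>
    have h' : Ob.node (f v) = Ob.node u := h
    injection h' with h1
    exact ⟨v, rfl, h1⟩
  | map t => exact absurd h (by rintro ⟨⟩)

theorem ocO_f (t : TM) (x y : Ob) : OcO (x.app t.f) (y.app t.f) ↔ OcO x y := by
  constructor
  · rintro ⟨u, hu, ho⟩
    obtain ⟨v, rfl, hv⟩ := app_eq_node hu
    subst hv
    exact ⟨v, rfl, (oc_f t v y).1 ho⟩
  · rintro ⟨u, rfl, ho⟩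
    exact ⟨t.f u, rfl, (oc_f t u y).2 ho⟩

theorem parO_f (t : TM) (x y : Ob) : ParO (x.app t.f) (y.app t.f) ↔ ParO x y := by
  constructor
  · rintro ⟨u, i, s, hu, ho⟩
    obtain ⟨v, rfl, hv⟩ := app_eq_node hu
    obtain ⟨w, rfl, hw⟩ := app_eq_node ho
    subst hv
    cases w with
    | top n x j s' =>
      obtain ⟨i', s'', h⟩ := t.hf.1 n x j s'
      rw [h] at hw
      exact absurd hw (by rintro ⟨⟩)
    | ch w j s' =>
      obtain ⟨i', s'', h⟩ := t.hf.2 w j s'
      rw [h] at hw
      injection hw with h1 h2 h3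
      exact ⟨v, j, s', rfl, by rw [t.inj h1]⟩
  · rintro ⟨u, i, s, rfl, rfl⟩
    obtain ⟨i', s', h⟩ := t.hf.2 u i s
    exact ⟨t.f u, i', s', rfl, by show Ob.node _ = _; rw [h]⟩

theorem topO_f (t : TM) (n x y : Ob) : TopO n x (y.app t.f) ↔ TopO n x y := by
  constructor
  · rintro ⟨n', x', i, s, rfl, rfl, hu⟩
    obtain ⟨v, rfl, hv⟩ := app_eq_node hu
    cases v with
    | top m z j s' =>
      obtain ⟨i', s'', h⟩ := t.hf.1 m z j s'
      rw [h] at hv
      injection hv with h1 h2 h3 h4
      subst h1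
      subst h2
      exact ⟨m, z, j, s', rfl, rfl, rfl⟩
    | ch w j s' =>
      obtain ⟨i', s'', h⟩ := t.hf.2 w j s'
      rw [h] at hv
      exact absurd hv (by rintro ⟨⟩)
  · rintro ⟨n', x', i, s, rfl, rfl, rfl⟩
    obtain ⟨i', s', h⟩ := t.hf.1 n' x' i s
    exact ⟨n', x', i', s', rfl, rfl, by show Ob.node _ = _; rw [h]⟩

theorem levO_f (t : TM) (x : Ob) : levO (x.app t.f) = levO x := by
  cases x with
  | lf => rfl
  | nd a b => rfl
  | node v =>
    show emb _ = emb _
    rw [lev_f t.hf]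
  | map s => rfl

/-- The standard model. -/
def ZO (H : Str Tr) (hext : Spec_ext) (hexch : Spec_exch) : ZM Ob where
  lf := .lf
  nd := .nd
  Pu := PuO
  Q := QO H
  Mem := MemO
  Oc := OcO
  A := AO
  lev := levO
  Par := ParO
  Top := TopO
  act := actO
  nd_inj a b c d h := by injection h with h1 h2; exact ⟨h1, h2⟩
  nd_ne a b h := by injection h
  mem_lf x h := h
  mem_nd x a b := Iff.rfl
  pu_lf := ⟨.nil, rfl⟩
  pu_nd a b := by
    constructor
    · rintro ⟨t, ht⟩
      cases t with
      | nil => exact absurd ht (by rintro ⟨⟩)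
      | node c d =>
        have h' : Ob.nd a b = Ob.nd (emb c) (emb d) := ht
        injection h' with h1 h2
        exact ⟨⟨c, h1⟩, ⟨d, h2⟩⟩
    · rintro ⟨⟨c, rfl⟩, ⟨d, rfl⟩⟩
      exact ⟨.node c d, rfl⟩
  oc_nd w a b := by
    constructor
    · rintro ⟨u, rfl, h⟩
      exact h.imp (fun h => ⟨u, rfl, h⟩) (fun h => ⟨u, rfl, h⟩)
    · rintro (⟨u, rfl, h⟩ | ⟨u, rfl, h⟩)
      · exact ⟨u, rfl, Or.inl h⟩
      · exact ⟨u, rfl, Or.inr h⟩
  oc_pu w x := by
    rintro ⟨t, rfl⟩ ⟨u, rfl, h⟩
    exact oc_emb u t h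
  oc_self w b := by
    rintro ⟨u, rfl, h⟩
    exact ⟨u, rfl, Nd.anc_refl u⟩
  oc_par v w b := by
    rintro ⟨u, rfl, h⟩ ⟨u', i, s, rfl, hu⟩
    injection hu with hu
    subst hu
    exact ⟨u', rfl, Ob.oc_par h⟩
  par_oc v w := by
    rintro ⟨u', i, s, rfl, rfl⟩
    exact ⟨_, rfl, Nd.anc_refl _⟩
  par_uniq v v' w := by
    rintro ⟨u, i, s, rfl, rfl⟩ ⟨u', i', s', rfl, h⟩
    injection h with h
    injection h with h1 h2 h3
    rw [h1]
  par_top v w n x := by
    rintro ⟨u, i, s, rfl, rfl⟩ ⟨n', x', i', s', rfl, rfl, h⟩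
    injection h with h
    injection h
  top_oc n x w := by
    rintro ⟨n', x', i', s', rfl, rfl, rfl⟩
    exact ⟨_, rfl, Nd.anc_refl _⟩
  top_pu n x w := by
    rintro ⟨n', x', i', s', rfl, rfl, rfl⟩
    exact ⟨⟨n', rfl⟩, ⟨x', rfl⟩⟩
  top_lev n x w := by
    rintro ⟨n', x', i', s', rfl, rfl, rfl⟩
    rfl
  top_uniq n x n' x' w := by
    rintro ⟨m, y, i, s, rfl, rfl, rfl⟩ ⟨m', y', i', s', rfl, rfl, h⟩
    injection h with h
    injection h with h1 h2 h3 h4
    rw [h2]
  act_nd g a b := by
    cases g <;> rfl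
  act_pu g x := by
    rintro ⟨t, rfl⟩
    rcases act_cases g with ⟨s, rfl⟩ | hg
    · exact app_emb _ _
    · exact hg _
  act_mem g x y := by
    rcases act_cases g with ⟨s, rfl⟩ | hg
    · exact mem_f s x y
    · rw [hg, hg]
  act_oc g x y := by
    rcases act_cases g with ⟨s, rfl⟩ | hg
    · exact ocO_f s x y
    · rw [hg, hg]
  act_par g x y := by
    rcases act_cases g with ⟨s, rfl⟩ | hg
    · exact parO_f s x y
    · rw [hg, hg]
  act_top g n x w := by
    rcases act_cases g with ⟨s, rfl⟩ | hg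
    · exact topO_f s n x w
    · rw [hg]
  act_lev g w := by
    rcases act_cases g with ⟨s, rfl⟩ | hg
    · exact levO_f s w
    · rw [hg]
  act_inv g := by
    rcases act_cases g with ⟨s, rfl⟩ | hg
    · exact ⟨.map s.inv, app_gf s, app_fg s⟩
    · exact ⟨g, fun x => by rw [hg, hg], fun x => by rw [hg, hg]⟩
  act_comp g h := by
    rcases act_cases g with ⟨s, rfl⟩ | hg
    · rcases act_cases h with ⟨t, rfl⟩ | hh
      · exact ⟨.map (s.comp t), fun x => (app_app t.f s.f x).symm⟩
      · exact ⟨.map s, fun x => by rw [hh]⟩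
    · exact ⟨h, fun x => by rw [hg]⟩
  act_id := ⟨.lf, fun _ => rfl⟩
  act_fix g b w := by
    rintro hb ⟨u, rfl, h⟩
    rcases act_cases g with ⟨s, rfl⟩ | hg
    · show Ob.node _ = _
      rw [fix_oc s hb h]
    · exact hg _
  ext z b c d := by
    obtain ⟨t, h1, h2, h3⟩ := hext (fun l => MemO (emb l) z) b c d
    refine ⟨.map t, ?_, h2, ?_⟩
    · intro w hw
      cases w with
      | lf => exact Iff.rfl
      | nd a b =>
        constructor
        · rintro ⟨v, hv, _⟩; exact absurd hv (by rintro ⟨⟩)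
        · rintro ⟨v, hv, _⟩; exact absurd hv (by rintro ⟨⟩)
      | node v =>
        have hv := h1 v hw
        constructor
        · rintro ⟨v', hv', h⟩
          have hv'' : Ob.node (t.f v) = Ob.node v' := hv'
          injection hv'' with e
          exact ⟨v, rfl, by rw [← hv, e]; exact h⟩
        · rintro ⟨v', hv', h⟩
          injection hv' with e
          subst e
          exact ⟨t.f v, rfl, by rw [hv]; exact h⟩
      | map s => exact Iff.rfl
    · rintro w ⟨u, rfl, hu⟩
      rcases h3 u hu with h | ⟨h4, h5⟩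
      · exact Or.inl ⟨u, rfl, h⟩
      · refine Or.inr ⟨h4.imp id ?_, ?_⟩
        · rintro h ⟨v, hv, h'⟩
          injection hv with e
          subst e
          rw [h] at h'
          exact absurd h' (by simp)
        · rintro ⟨v, hv, h'⟩
          injection hv with e
          subst e
          exact h5 h'
  exch g b hb := by
    rcases act_cases g with ⟨s, rfl⟩ | hg
    · obtain ⟨h, h1, h2, h3⟩ := hexch s b fun u hu hu' => hb (.node u) ⟨u, rfl, hu⟩ ⟨u, rfl, hu'⟩
      refine ⟨.map h, h1, h2, ?_⟩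
      rintro w ⟨u, rfl, hu⟩
      rcases h3 u with h' | h' | h'
      · left; show Ob.node _ = Ob.node _; rw [h']
      · right; left; show Ob.node _ = Ob.node _; rw [h']
      · right; right; show Ob.node _ = Ob.node _; rw [h']
    · exact ⟨g, rfl, by rw [hg, hg], fun w _ => Or.inl rfl⟩
  topA l x := by
    rintro ⟨n, rfl⟩ ⟨y, rfl⟩
    refine ⟨.node (.top n y 0 true), ⟨n, y, 0, true, rfl, rfl, rfl⟩, ⟨_, rfl, rfl⟩, ?_⟩
    rintro u ⟨v, rfl, hv⟩
    rw [show v = _ from hv]
  chA v l := by
    rintro ⟨u, rfl, hu⟩ hl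
    have hl' : emb u.lev = Ob.nd .lf l := hl
    cases hL : u.lev with
    | nil => rw [hL] at hl'; exact absurd hl' (by rintro ⟨⟩)
    | node a b =>
      rw [hL] at hl'
      have h' : Ob.nd (emb a) (emb b) = Ob.nd .lf l := hl'
      injection h' with h1 h2
      have ha : a = .nil := emb_inj (t := .nil) h1
      subst ha
      refine ⟨.node (.ch u 0 true), ⟨u, 0, true, rfl, rfl⟩, ⟨_, rfl, rfl⟩, ?_, ?_⟩
      · show emb (predT u.lev) = l
        rw [hL]
        exact h2
      · rintro w ⟨w', rfl, hw⟩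
        rcases hw with hw | hw
        · left; rw [hw]
        · right; exact ⟨w', rfl, hw⟩

theorem ZO_el (H : Str Tr) (hext : Spec_ext) (hexch : Spec_exch) (t : Tr) :
    (ZO H hext hexch).el t = emb t := by
  induction t with
  | nil => rfl
  | node a b iha ihb =>
    show Ob.nd ((ZO H hext hexch).el a) ((ZO H hext hexch).el b) = Ob.nd _ _
    rw [iha, ihb]

theorem std_asm : Spec_asm := by
  intro hext hexch H
  refine ⟨Ob, ZO H hext hexch, ?_, ?_⟩
  · intro x
    simp only [ZO_el]
    exact Iff.rfl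
  · intro j r a b c
    show QO H _ _ ↔ _
    rw [ZM.cd]
    simp only [ZO_el]
    constructor
    · rintro ⟨j', r', a', b', c', h1, h2, h3⟩
      have h2' : emb (.node (num r) (.node a (.node b c))) =
        emb (.node (num r') (.node a' (.node b' c'))) := h2
      have h4 := emb_inj h2'
      injection h4 with e1 e2
      injection e2 with e3 e4
      injection e4 with e5 e6
      rw [num_injS e1, e3, e5, e6]
      exact h3
    · intro h
      exact ⟨j, r, a, b, c, rfl, rfl, h⟩

end Std

end Pool.Agent.Lib.MP_d999cd_lc
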