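import Pool.Agent.Lib.MP_d999cd_lc.ExZ
import Pool.Agent.Lib.MP_d999cd_lc.RepL
import Pool.Agent.Lib.MP_d999cd_lc.RZBase
import Pool.Agent.Lib.MP_d999cd_lc.RZComp
import Pool.Agent.Lib.MP_d999cd_lc.Pres
import Pool.Agent.Lib.MP_d999cd_lc.RE
import Pool.Agent.Lib.MP_d999cd_lc.ZAx1
import Pool.Agent.Lib.MP_d999cd_lc.ZAx2
import Pool.Agent.Lib.MP_d999cd_lc.ZStd1
import Pool.Agent.Lib.MP_d999cd_lc.ZStd2

/-!
# Assembly
-/

set_option autoImplicit false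

open FirstOrder FirstOrder.Language

namespace Pool.Agent.Lib.MP_d999cd_lc

attribute [local irreducible] D' Pi goal prog

/-- No extension of `S^1_2` is mutually interpretable with `U`. -/
theorem not_mutual {th : Fm} (hZ : ∀ m : ℕ, ∃ (Z : Type) (B : ZM Z) (S : Str Z) (P : Z → Z → Prop),
    B.Fits S ∧ B.Agr m P B.Q ∧ UMod th (B.MStr P) ∧ NoModel S (D th m))
    (T : buss.Theory) (hT : ExtendsS12 T) : ¬ MutuallyInterpretable T (UTh th) := by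
  rintro ⟨⟨K, hK⟩, ⟨K', hK'⟩⟩
  -- models of `U`
  have hmod : ∀ {Z : Type} (B : ZM Z) (P : Z → Z → Prop), UMod th (B.MStr P) →
      @Theory.Model LU (B.MP P) (ofStr (B.MStr P)) (UTh th) := by
    intro Z B P h
    refine (@models_UTh th (B.MP P) (ofStr (B.MStr P))).2 ?_
    rw [B.toStr_MStr]
    exact h
  -- the dimensions are positive
  have hdims : 0 < K.dim ∧ 0 < K'.dim := by
    obtain ⟨Z, B, S, P, hF, hA, hU, hno⟩ := hZ 0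
    let _ := ofStr (B.MStr P)
    have : Nonempty (B.MP P) := ⟨B.lfM P⟩
    obtain ⟨N, instN, π, hNe, hπ, hN⟩ := hK (B.MP P) (hmod B P hU)
    have h2 := (S12_order hT N hN).2.2
    obtain ⟨W, instW, π', hWe, hπ', hW⟩ := hK' N hN
    exact ⟨dim_pos K hπ h2, dim_pos K' hπ' ((models_UTh th).1 hW).two⟩
  obtain ⟨τ, j, hj1, hj2, hτ⟩ := tldT K hdims.1
  obtain ⟨τ', hτ'⟩ := tldU K' hdims.2
  obtain ⟨Z, B, S, P, hF, hA, hU, hno⟩ := hZ (j + 1)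
  let _ := ofStr (B.MStr P)
  have : Nonempty (B.MP P) := ⟨B.lfM P⟩
  obtain ⟨N, instN, π, hNe, hπ, hN⟩ := hK (B.MP P) (hmod B P hU)
  obtain ⟨htot, hanti, _⟩ := S12_order hT N hN
  obtain ⟨F, hI⟩ := hτ (B.MP P) N π hπ (B.lfM P)
  rw [B.toStr_MStr] at hI
  obtain ⟨F', hI'⟩ := B.rep hA hI htot hanti hj1 hj2
  obtain ⟨π0, hR0⟩ := RepZ.base B hF
  obtain ⟨Dm1, π1, hR1⟩ := RepZ.comp B hF hR0 hI'
  obtain ⟨W, instW, π', hWe, hπ', hW⟩ := hK' N hN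
  obtain ⟨n0⟩ := hNe
  obtain ⟨F2, hI2⟩ := hτ' N W π' hπ' n0
  obtain ⟨Dm2, π2, hR2⟩ := RepZ.comp B hF hR1 hI2
  obtain ⟨s, G, hd, hs, hr⟩ := RepZ.tln hR2 (hid (j + 1))
  have hWU := (models_UTh th).1 hW
  obtain ⟨w0⟩ := hWe
  obtain ⟨y, hy, _⟩ := (sat_tr_D _ _ _ _ _).1 (hWU.d (j + 1) w0)
  exact hno s _ ((hid (j + 1)).str (toStr W)) G hd hs hr (fun _ => ⟨y, hy⟩)
    ((sat_tr_str (D_H th (j + 1)) fun _ => ⟨y, hy⟩).1 (hWU.d (j + 1) y))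

/-- **Main theorem.** -/
theorem negative : NegativeAnswer := by
  obtain ⟨th, hth⟩ := exists_Z ZM_of_ZAx ZAx_of_ZM theta0 (Std.std_asm Std.std_ext Std.std_exch)
  exact ⟨LU, UTh th, finite_LU, recEnum_UTh th, sequential_UTh th, fun T hT => not_mutual hth T hT⟩

end Pool.Agent.Lib.MP_d999cd_lc
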