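import Pool.Agent.Lib.MP_d999cd_lc.Rep

set_option autoImplicit false

namespace Pool.Agent.Lib.MP_d999cd_lc

/-- Formulas of `T` are definable in `S`. -/
theorem RepZ.formula {Z N : Type} {S : Str Z} {T : Str N} {Dm : Z → Prop} {π : Z → N}
    (h : RepZ S T Dm π) (φ : Fm) {n : ℕ} (hn : φ.Vf n) : ∃ ψ : Fm, ψ.Vf n ∧
      ∀ e : ℕ → Z, (∀ k, Dm (e k)) → (sat S ψ e ↔ sat T φ (fun k => π (e k))) := by
  obtain ⟨δ, hδ⟩ := h.dfD
  choose q hq using h.dfR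
  refine ⟨trG δ q φ, Vf_trG δ q hn, fun e he => ?_⟩
  refine sat_trG (fun x b => Dm x ∧ π x = b) ?_ h.surj ?_ φ e _ fun k => ⟨he k, rfl⟩
  · intro x
    rw [hδ]
    exact ⟨fun hx => ⟨π x, hx, rfl⟩, fun ⟨_, hx, _⟩ => hx⟩
  · rintro i x y z a b c ⟨hx, rfl⟩ ⟨hy, rfl⟩ ⟨hz, rfl⟩
    exact hq i x y z hx hy hz

/-- Every formula has finitely many variables. -/
theorem Fm.Vf.mono {φ : Fm} {m n : ℕ} (h : φ.Vf m) (hmn : m ≤ n) : φ.Vf n := by
  induction φ generalizing m n with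
  | bot => trivial
  | imp a b iha ihb => exact ⟨iha h.1 hmn, ihb h.2 hmn⟩
  | all a ih => exact ih (m := m + 1) (n := n + 1) h (by omega)
  | rl i u v w => exact ⟨h.1.trans_le hmn, h.2.1.trans_le hmn, h.2.2.trans_le hmn⟩
  | sb a u v w ih => exact ⟨h.1.trans_le hmn, h.2.1.trans_le hmn, h.2.2.trans_le hmn⟩

theorem Fm.exists_Vf (φ : Fm) : ∃ n, φ.Vf n := by
  induction φ with
  | bot => exact ⟨0, trivial⟩
  | imp a b iha ihb =>
    obtain ⟨m, hm⟩ := iha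
    obtain ⟨n, hn⟩ := ihb
    exact ⟨max m n, hm.mono (le_max_left _ _), hn.mono (le_max_right _ _)⟩
  | all a ih =>
    obtain ⟨m, hm⟩ := ih
    exact ⟨m, hm.mono (Nat.le_succ m)⟩
  | rl i u v w => exact ⟨u + v + w + 1, by omega, by omega, by omega⟩
  | sb a u v w ih => exact ⟨u + v + w + 1, by omega, by omega, by omega⟩

/-- Formulas of `T` are definable in `S`, at three variables. -/
theorem RepZ.formula3 {Z N : Type} {S : Str Z} {T : Str N} {Dm : Z → Prop} {π : Z → N}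
    (h : RepZ S T Dm π) (φ : Fm) : ∃ ψ : Fm, ∀ x y z : Z, Dm x → Dm y → Dm z →
      (sat S ψ (tri x y z) ↔ sat T φ (tri (π x) (π y) (π z))) := by
  obtain ⟨n, hn⟩ := φ.exists_Vf
  obtain ⟨ψ, -, hψ⟩ := h.formula φ hn
  refine ⟨ψ, fun x y z hx hy hz => ?_⟩
  rw [hψ (tri x y z)]
  · have : (fun k => π (tri x y z k)) = tri (π x) (π y) (π z) :=
      funext fun k => tri_comp π x y z k
    rw [this]
  · intro k
    rcases k with _ | _ | k
    · exact hx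
    · exact hy
    · exact hz

/-- One-dimensional translations in `T` come from one-dimensional translations in `Z`. -/
theorem RepZ.tln {Z N : Type} {S : Str Z} {T : Str N} {Dm : Z → Prop} {π : Z → N}
    (h : RepZ S T Dm π) (s' : Tln) :
    ∃ (s : Tln) (G : Z → {x : N // sat T s'.dom (tri x x x)} → Prop),
      (∀ x, sat S s.dom (tri x x x) ↔ ∃ b, G x b) ∧ (∀ b, ∃ x, G x b) ∧
      ∀ i ≤ 2, ∀ x y z a b c, G x a → G y b → G z c →
        (sat S (s.q i) (tri x y z) ↔ (s'.str T).rel i a b c) := by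
  obtain ⟨δ, hδ⟩ := h.dfD
  obtain ⟨ψ, hψ⟩ := h.formula3 s'.dom
  obtain ⟨ψ0, hψ0⟩ := h.formula3 s'.q0
  obtain ⟨ψ1, hψ1⟩ := h.formula3 s'.q1
  obtain ⟨ψ2, hψ2⟩ := h.formula3 s'.q2
  refine ⟨⟨δ.conj ψ, ψ0, ψ1, ψ2⟩, fun x b => Dm x ∧ π x = b.1, ?_, ?_, ?_⟩
  · intro x
    rw [sat_conj, hδ]
    constructor
    · rintro ⟨hx, hs⟩
      exact ⟨⟨π x, (hψ x x x hx hx hx).1 hs⟩, hx, rfl⟩
    · rintro ⟨b, hx, hb⟩
      refine ⟨hx, (hψ x x x hx hx hx).2 ?_⟩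
      rw [hb]
      exact b.2
  · intro b
    obtain ⟨z, hz, hb⟩ := h.surj b.1
    exact ⟨z, hz, hb⟩
  · rintro i hi x y z a b c ⟨hx, ha⟩ ⟨hy, hb⟩ ⟨hz, hc⟩
    change _ ↔ sat T (s'.q i) (tri a.1 b.1 c.1)
    rw [← ha, ← hb, ← hc]
    rcases i with _ | _ | i
    · exact hψ0 x y z hx hy hz
    · exact hψ1 x y z hx hy hz
    · exact hψ2 x y z hx hy hz

end Pool.Agent.Lib.MP_d999cd_lc
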