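import Mathlib
import Pool.Agent.Lib.MP_d999cd_lc.Comp
import Pool.Agent.Lib.MP_d999cd_lc.Prog

/-!
# Computability of `m ↦ tr (s m) (D th m)`
-/

namespace Pool.Agent.Lib.MP_d999cd_lc

/-- The code of `F i j` at `ρ` is a computable context around the code of `B i j` at `ρ₀`. -/
def Around (B : ℕ → ℕ → Fm) (ρ₀ : ℕ → ℕ) (F : ℕ → ℕ → Fm) (ρ : ℕ → ℕ) : Prop :=
  ∃ pre post : ℕ → List ℕ, Computable pre ∧ Computable post ∧
    ∀ i j, tok (F i j) ρ = pre i ++ tok (B i j) ρ₀ ++ post i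

namespace Around

variable {B : ℕ → ℕ → Fm} {ρ₀ : ℕ → ℕ}

theorem hole : Around B ρ₀ B ρ₀ :=
  ⟨fun _ => [], fun _ => [], Computable.const _, Computable.const _, fun i j => by simp⟩

theorem impL {F : ℕ → ℕ → Fm} {G : ℕ → Fm} {ρ : ℕ → ℕ} (h : Around B ρ₀ F ρ) (hG : Cmp G) :
    Around B ρ₀ (fun i j => .imp (F i j) (G i)) ρ := by
  obtain ⟨pre, post, h1, h2, h3⟩ := h
  refine ⟨fun i => [5] ++ pre i, fun i => post i ++ tok (G i) ρ,
    computable_append2 (Computable.const _) h1, computable_append2 h2 (hG ρ), fun i j => ?_⟩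
  rw [tok, h3]
  simp [List.append_assoc]

theorem impR {F : ℕ → ℕ → Fm} {G : ℕ → Fm} {ρ : ℕ → ℕ} (h : Around B ρ₀ F ρ) (hG : Cmp G) :
    Around B ρ₀ (fun i j => .imp (G i) (F i j)) ρ := by
  obtain ⟨pre, post, h1, h2, h3⟩ := h
  refine ⟨fun i => [5] ++ tok (G i) ρ ++ pre i, post,
    computable_append3 (Computable.const _) (hG ρ) h1, h2, fun i j => ?_⟩
  rw [tok, h3]
  simp [List.append_assoc]

theorem all {F : ℕ → ℕ → Fm} {ρ : ℕ → ℕ} (h : Around B ρ₀ F (cons 0 fun i => ρ i + 1)) :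
    Around B ρ₀ (fun i j => .all (F i j)) ρ := by
  obtain ⟨pre, post, h1, h2, h3⟩ := h
  refine ⟨fun i => [6] ++ pre i, post, computable_append2 (Computable.const _) h1, h2,
    fun i j => ?_⟩
  rw [tok, h3]
  simp [List.append_assoc]

theorem sb {F : ℕ → ℕ → Fm} {ρ : ℕ → ℕ} {u v w : ℕ}
    (h : Around B ρ₀ F (tri (ρ u) (ρ v) (ρ w))) :
    Around B ρ₀ (fun i j => .sb (F i j) u v w) ρ := by
  obtain ⟨pre, post, h1, h2, h3⟩ := h
  exact ⟨pre, post, h1, h2, fun i j => by rw [tok, h3]⟩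

theorem neg {F : ℕ → ℕ → Fm} {ρ : ℕ → ℕ} (h : Around B ρ₀ F ρ) :
    Around B ρ₀ (fun i j => (F i j).neg) ρ := impL h (Cmp.const _)

theorem ex {F : ℕ → ℕ → Fm} {ρ : ℕ → ℕ} (h : Around B ρ₀ F (cons 0 fun i => ρ i + 1)) :
    Around B ρ₀ (fun i j => (F i j).ex) ρ := neg (all (neg h))

theorem conjL {F : ℕ → ℕ → Fm} {G : ℕ → Fm} {ρ : ℕ → ℕ} (h : Around B ρ₀ F ρ) (hG : Cmp G) :
    Around B ρ₀ (fun i j => (F i j).conj (G i)) ρ := neg (impL h (Cmp.neg hG))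

theorem conjR {F : ℕ → ℕ → Fm} {G : ℕ → Fm} {ρ : ℕ → ℕ} (h : Around B ρ₀ F ρ) (hG : Cmp G) :
    Around B ρ₀ (fun i j => (G i).conj (F i j)) ρ := neg (impR (neg h) hG)

end Around

/-- Formulas defined by recursion on the second index. -/
theorem Cmp₂.ofAround {B : ℕ → ℕ → Fm} {z : ℕ → Fm} (ρ₀ : ℕ → ℕ) (hz : Cmp z)
    (h0 : ∀ i, B i 0 = z i) (h : ∀ ρ, Around B ρ₀ (fun i j => B i (j + 1)) ρ) : Cmp₂ B := by
  choose pre post h1 h2 h3 using h
  exact Cmp₂.rec ρ₀ h1 h2 hz h0 h3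

/-- The data of a computable family of translations. -/
structure CmpTln (s : ℕ → Tln) : Prop where
  dom : Cmp fun i => (s i).dom
  q0 : Cmp fun i => (s i).q0
  q1 : Cmp fun i => (s i).q1
  q2 : Cmp fun i => (s i).q2

namespace CmpTln

variable {s : ℕ → Tln} (hs : CmpTln s)

include hs

theorem tr (φ : Fm) : Cmp fun i => Pool.Agent.Lib.MP_d999cd_lc.tr (s i) φ :=
  Cmp.tr hs.dom hs.q0 hs.q1 hs.q2 φ

/-- `tr` of a representation formula, where `0` and `num j` are the two kinds of leaves. -/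
theorem tr_node {a b : ℕ → Fm} (ha : Cmp fun i => Pool.Agent.Lib.MP_d999cd_lc.tr (s i) (a i))
    (hb : Cmp fun i => Pool.Agent.Lib.MP_d999cd_lc.tr (s i) (b i)) :
    Cmp fun i => Pool.Agent.Lib.MP_d999cd_lc.tr (s i)
      (.ex (.ex (.conj (.sb (a i) 1 1 1) (.conj (.sb (b i) 0 0 0) (.rl 1 1 0 2))))) := by
  have hd : Cmp fun i => Fm.sb (s i).dom 0 0 0 := Cmp.sb hs.dom 0 0 0
  have h1 : Cmp fun i => Fm.sb ((s i).q 1) 1 0 2 := Cmp.sb hs.q1 1 0 2
  have h2 := Cmp.conj (Cmp.sb ha 1 1 1) (Cmp.conj (Cmp.sb hb 0 0 0) h1)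
  exact Cmp.neg (Cmp.all (Cmp.imp hd (Cmp.neg (Cmp.neg (Cmp.all (Cmp.imp hd (Cmp.neg h2)))))))

theorem tr_num : Cmp₂ fun i j => Pool.Agent.Lib.MP_d999cd_lc.tr (s i) (repF (num j)) := by
  refine Cmp₂.ofAround (z := fun i => Pool.Agent.Lib.MP_d999cd_lc.tr (s i) (.rl 0 0 0 0))
    (tri 0 0 0) (hs.tr _) (fun i => rfl) fun ρ => ?_
  have hd : Cmp fun i => Fm.sb (s i).dom 0 0 0 := Cmp.sb hs.dom 0 0 0
  have h1 : Cmp fun i => Fm.sb ((s i).q 1) 1 0 2 := Cmp.sb hs.q1 1 0 2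
  have h0 : Cmp fun i => Fm.sb (Pool.Agent.Lib.MP_d999cd_lc.tr (s i) (.rl 0 0 0 0)) 1 1 1 :=
    Cmp.sb (hs.tr _) 1 1 1
  have key : Around (fun i j => Pool.Agent.Lib.MP_d999cd_lc.tr (s i) (repF (num j))) (tri 0 0 0)
      (fun i j => Fm.sb (Pool.Agent.Lib.MP_d999cd_lc.tr (s i) (repF (num j))) 0 0 0)
      (cons 0 fun i => (cons 0 fun i => ρ i + 1) i + 1) := Around.sb Around.hole
  have h2 := Around.conjR (Around.conjL key h1) h0
  exact Around.neg (Around.all (Around.impR (Around.neg (Around.neg (Around.all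
    (Around.impR (Around.neg h2) hd)))) hd))

theorem tr_rep_num {f : ℕ → ℕ} (hf : Computable f) :
    Cmp fun i => Pool.Agent.Lib.MP_d999cd_lc.tr (s i) (repF (num (f i))) :=
  hs.tr_num.diag Computable.id hf

theorem tr_rep_node {a b : ℕ → Tr}
    (ha : Cmp fun i => Pool.Agent.Lib.MP_d999cd_lc.tr (s i) (repF (a i)))
    (hb : Cmp fun i => Pool.Agent.Lib.MP_d999cd_lc.tr (s i) (repF (b i))) :
    Cmp fun i => Pool.Agent.Lib.MP_d999cd_lc.tr (s i) (repF (.node (a i) (b i))) :=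
  hs.tr_node ha hb

theorem tr_goal (th : Fm) :
    Cmp fun m => Pool.Agent.Lib.MP_d999cd_lc.tr (s m) (repF (goal th m)) :=
  hs.tr_rep_node (hs.tr _) (hs.tr_rep_node (hs.tr_rep_node (hs.tr_rep_num Computable.id)
    (hs.tr _)) (hs.tr _))

theorem tr_D (th : Fm) : Cmp fun m => Pool.Agent.Lib.MP_d999cd_lc.tr (s m) (D th m) := by
  have hd : Cmp fun i => Fm.sb (s i).dom 0 0 0 := Cmp.sb hs.dom 0 0 0
  have hr : Cmp fun i => Fm.sb ((s i).q 2) 0 0 0 := Cmp.sb hs.q2 0 0 0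
  have h1 := Cmp.conj (hs.tr (Pi th)) (Cmp.all (Cmp.imp hd (Cmp.imp (hs.tr_goal th)
    (Cmp.neg hr))))
  exact Cmp.neg (Cmp.all (Cmp.imp hd (Cmp.neg (Cmp.sb h1 0 0 0))))

end CmpTln

/-- Representation formulas of numerals, without translation. -/
theorem cmp_repF_num : Cmp fun j => repF (num j) := by
  have h : Cmp₂ fun _ j => repF (num j) := by
    refine Cmp₂.ofAround (z := fun _ => .rl 0 0 0 0) (tri 0 0 0) (Cmp.const _) (fun i => rfl)
      fun ρ => ?_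
    have key : Around (fun _ j => repF (num j)) (tri 0 0 0)
        (fun _ j => Fm.sb (repF (num j)) 0 0 0)
        (cons 0 fun i => (cons 0 fun i => ρ i + 1) i + 1) := Around.sb Around.hole
    exact Around.ex (Around.ex (Around.conjR (Around.conjL key (Cmp.const _)) (Cmp.const _)))
  exact h.diag Computable.id Computable.id

/-- The template filled with computable families of formulas. -/
theorem cmp_fill (t : Tm) {h : ℕ → ℕ → Fm} (hh : ∀ k, Cmp fun i => h i k) :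
    Cmp fun i => t.fill (h i) := by
  induction t with
  | hole k => exact hh k
  | bot => exact Cmp.const _
  | imp a b iha ihb => exact Cmp.imp iha ihb
  | all a ih => exact Cmp.all ih
  | rl i u v w => exact Cmp.const _
  | sb a u v w ih => exact Cmp.sb ih u v w

end Pool.Agent.Lib.MP_d999cd_lc
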