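import Mathlib
import Pool.Agent.Lib.MP_d999cd_lc.Stmt

/-!
# Sanity check: the standard model satisfies `S^1_2`
-/

set_option autoImplicit false

open FirstOrder FirstOrder.Language

namespace Pool.Agent.Lib.MP_d999cd_lc

namespace BA

/-- The standard model. -/
@[reducible] def stdB : buss.Structure ℕ where
  funMap {n} f := match n, (f : BFun n) with
    | _, .zero => fun _ => 0
    | _, .succ => fun v => v 0 + 1
    | _, .half => fun v => v 0 / 2
    | _, .len => fun v => Nat.size (v 0)
    | _, .add => fun v => v 0 + v 1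
    | _, .mul => fun v => v 0 * v 1
    | _, .smash => fun v => 2 ^ (Nat.size (v 0) * Nat.size (v 1))
  RelMap {n} R := match n, (R : BRel n) with
    | _, .le => fun v => v 0 ≤ v 1

attribute [local instance] stdB

section
variable {α : Type} (a : α → ℕ) (s t : buss.Term α)

@[simp] theorem val_tO : (tO : buss.Term α).realize a = 0 := rfl
@[simp] theorem val_tS : (tS t).realize a = t.realize a + 1 := rfl
@[simp] theorem val_tH : (tH t).realize a = t.realize a / 2 := rfl
@[simp] theorem val_tL : (tL t).realize a = Nat.size (t.realize a) := rfl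
@[simp] theorem val_tA : (tA s t).realize a = s.realize a + t.realize a := rfl
@[simp] theorem val_tM : (tM s t).realize a = s.realize a * t.realize a := rfl
@[simp] theorem val_tP :
    (tP s t).realize a = 2 ^ (Nat.size (s.realize a) * Nat.size (t.realize a)) := rfl
@[simp] theorem val_tD : (tD t).realize a = 2 * t.realize a := rfl

end

section
variable {n : ℕ} (s t : buss.Term (Empty ⊕ Fin n)) (φ ψ : buss.BoundedFormula Empty n)
  (v : Empty → ℕ) (xs : Fin n → ℕ)

@[simp] theorem val_fLe : (fLe s t).Realize v xs ↔
    s.realize (Sum.elim v xs) ≤ t.realize (Sum.elim v xs) := Iff.rfl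
@[simp] theorem val_fEq : (fEq s t).Realize v xs ↔
    s.realize (Sum.elim v xs) = t.realize (Sum.elim v xs) := Iff.rfl
@[simp] theorem val_fNe : (fNe s t).Realize v xs ↔
    s.realize (Sum.elim v xs) ≠ t.realize (Sum.elim v xs) := Iff.rfl
@[simp] theorem val_fAnd : (fAnd φ ψ).Realize v xs ↔ (φ.Realize v xs ∧ ψ.Realize v xs) :=
  BoundedFormula.realize_inf
@[simp] theorem val_fOr : (fOr φ ψ).Realize v xs ↔ (φ.Realize v xs ∨ ψ.Realize v xs) :=
  BoundedFormula.realize_sup
@[simp] theorem val_fImp : (fImp φ ψ).Realize v xs ↔ (φ.Realize v xs → ψ.Realize v xs) :=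
  Iff.rfl
@[simp] theorem val_fIff : (fIff φ ψ).Realize v xs ↔ (φ.Realize v xs ↔ ψ.Realize v xs) :=
  BoundedFormula.realize_iff

end

section
variable (v : Empty → ℕ) (xs : Fin 5 → ℕ)
@[simp] theorem val_vx : vx.realize (Sum.elim v xs) = xs 0 := rfl
@[simp] theorem val_vy : vy.realize (Sum.elim v xs) = xs 1 := rfl
@[simp] theorem val_vz : vz.realize (Sum.elim v xs) = xs 2 := rfl
@[simp] theorem val_vu : vu.realize (Sum.elim v xs) = xs 3 := rfl
@[simp] theorem val_vv : vv.realize (Sum.elim v xs) = xs 4 := rfl
end

theorem size_double {x : ℕ} (h : x ≠ 0) : Nat.size (2 * x) = Nat.size x + 1 := by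
  have := Nat.size_bit (b := false) (n := x) (by simpa [Nat.bit] using h)
  simpa [Nat.bit] using this

theorem size_double_succ (x : ℕ) : Nat.size (2 * x + 1) = Nat.size x + 1 := by
  have := Nat.size_bit (b := true) (n := x) (by simp [Nat.bit])
  simpa [Nat.bit] using this

theorem size_half {x : ℕ} (h : x ≠ 0) : Nat.size x = Nat.size (x / 2) + 1 := by
  rcases Nat.even_or_odd' x with ⟨k, rfl | rfl⟩
  · rw [size_double (by omega)]
    congr 2
    omega
  · rw [size_double_succ]
    congr 2
    omega

theorem std_basic {φ : buss.BoundedFormula Empty 5} (h : φ ∈ basicList) (v : Empty → ℕ)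
    (xs : Fin 5 → ℕ) : φ.Realize v xs := by
  simp only [basicList, List.mem_cons, List.not_mem_nil, or_false] at h
  rcases h with rfl | rfl | rfl | rfl | rfl | rfl | rfl | rfl | rfl | rfl | rfl | rfl | rfl |
    rfl | rfl | rfl | rfl | rfl | rfl | rfl | rfl | rfl | rfl | rfl | rfl | rfl | rfl | rfl |
    rfl | rfl | rfl | rfl
  · simp [basic1]; omega
  · simp [basic2]
  · simp [basic3]
  · simp [basic4]; omega
  · simp [basic5]
  · simp [basic6]; omega
  · simp [basic7]; omega
  · simp [basic8]; omega
  · simp [basic9]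
  · simp only [basic10, val_fImp, val_fNe, val_fAnd, val_fEq, val_tL, val_tD, val_tS, val_vx,
      val_tO]
    intro h
    exact ⟨size_double h, size_double_succ _⟩
  · simp [basic11]
  · simp only [basic12, val_fImp, val_fLe, val_tL, val_vx, val_vy]
    exact fun h => Nat.size_le_size h
  · simp only [basic13, val_fEq, val_tL, val_tP, val_tS, val_tM, val_vx, val_vy]
    exact Nat.size_pow
  · simp [basic14]
  · simp only [basic15, val_fImp, val_fNe, val_fAnd, val_fEq, val_tP, val_tD, val_tS, val_vx,
      val_tO]
    intro h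
    rw [size_double h, size_double_succ]
    simp only [zero_add, Nat.size_one, one_mul, pow_succ]
    constructor <;> ring
  · simp [basic16, mul_comm]
  · simp only [basic17, val_fImp, val_fEq, val_tL, val_tP, val_vx, val_vy, val_vz]
    intro h
    rw [h]
  · simp only [basic18, val_fImp, val_fEq, val_tL, val_tA, val_tP, val_tM, val_vx, val_vy, val_vu,
      val_vv]
    intro h
    rw [h, add_mul, pow_add]
  · simp [basic19]
  · simp [basic20]; omega
  · simp [basic21, add_comm]
  · simp [basic22]
  · simp [basic23, add_assoc]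
  · simp [basic24, add_assoc]
  · simp [basic25]
  · simp [basic26]
  · simp [basic27, mul_add]
  · simp [basic28, mul_comm]
  · simp [basic29, mul_add]
  · simp only [basic30, val_fImp, val_fLe, val_fIff, val_tS, val_tO, val_tM, val_vx, val_vy,
      val_vz]
    intro h
    exact Nat.mul_le_mul_left_iff (by omega)
  · simp only [basic31, val_fImp, val_fNe, val_fEq, val_tL, val_tS, val_tH, val_vx, val_tO]
    exact fun h => size_half h
  · simp only [basic32, val_fIff, val_fEq, val_tH, val_fOr, val_tD, val_tS, val_vx, val_vy]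
    omega

theorem std_pind {n : ℕ} (φ : buss.Formula (Fin (n + 1))) : ℕ ⊨ pind φ := by
  have hb : ∀ (ψ : buss.Formula (Fin (n + 1))) (v : Empty → ℕ) (xs : Fin (n + 1) → ℕ),
      (bd ψ).Realize v xs ↔ ψ.Realize xs := fun ψ v xs =>
    Formula.realize_relabel_sumInr ψ
  have hs : ∀ (t : buss.Term (Fin (n + 1))) (xs : Fin (n + 1) → ℕ),
      (substLast φ t).Realize xs ↔
        φ.Realize (fun i => if i = Fin.last n then t.realize xs else xs i) := by
    intro t xs
    show BoundedFormula.Realize _ _ _ ↔ BoundedFormula.Realize _ _ _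
    rw [substLast, BoundedFormula.realize_subst]
    rw [iff_eq_eq]
    congr 1
    funext i
    split <;> simp_all
  refine BoundedFormula.realize_alls.2 fun p => ?_
  intro h0 h1 x
  rw [hb]
  induction x using Nat.strong_induction_on with
  | _ x ih =>
    by_cases hx : x = 0
    · have := h0 0
      rw [hb, hs] at this
      convert this using 1
      funext i
      refine Fin.lastCases ?_ (fun i => ?_) i
      · simp [hx]
      · simp [(Fin.castSucc_lt_last i).ne]
    · have h2 := h1 x
      have h3 := (hb _ _ _).1 (h2 ((hb _ _ _).2 ?_))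
      · exact h3
      · rw [hs]
        have h4 := ih (x / 2) (by omega)
        convert h4 using 1
        funext i
        refine Fin.lastCases ?_ (fun i => ?_) i
        · simp
        · simp [(Fin.castSucc_lt_last i).ne]

/-- The standard model satisfies `S^1_2`. -/
theorem std_S12 : ℕ ⊨ S12 := by
  refine ⟨fun σ hσ => ?_⟩
  rcases hσ with ⟨φ, hφ, rfl⟩ | ⟨n, φ, -, rfl⟩
  · exact BoundedFormula.realize_alls.2 fun xs => std_basic hφ _ xs
  · exact std_pind φ

end BA

end Pool.Agent.Lib.MP_d999cd_lc
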