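import Pool.Agent.Lib.MP_d999cd_lc.Df

/-!
# General translations
-/

set_option autoImplicit false

namespace Pool.Agent.Lib.MP_d999cd_lc

/-- General one-dimensional translation: relativize to `δ`, replace the symbol `i` by `q i`. -/
def trG (δ : Fm) (q : ℕ → Fm) : Fm → Fm
  | .bot => .bot
  | .imp a b => .imp (trG δ q a) (trG δ q b)
  | .all a => .all (.imp (.sb δ 0 0 0) (trG δ q a))
  | .rl i u v w => .sb (q i) u v w
  | .sb a u v w => .sb (trG δ q a) u v w

theorem Vf_trG (δ : Fm) (q : ℕ → Fm) {φ : Fm} {n : ℕ} (h : φ.Vf n) : (trG δ q φ).Vf n := by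
  induction φ generalizing n with
  | bot => trivial
  | imp a b iha ihb => exact ⟨iha h.1, ihb h.2⟩
  | all a ih => exact ⟨⟨by omega, by omega, by omega⟩, ih h⟩
  | rl i u v w => exact h
  | sb a u v w ih => exact h

theorem sat_trG {A B : Type} {S : Str A} {T : Str B} {δ : Fm} {q : ℕ → Fm} (F : A → B → Prop)
    (hdom : ∀ x, sat S δ (tri x x x) ↔ ∃ b, F x b) (hsurj : ∀ b, ∃ x, F x b)
    (hrel : ∀ i x y z a b c, F x a → F y b → F z c →
      (sat S (q i) (tri x y z) ↔ T.rel i a b c)) (φ : Fm) :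
    ∀ (e : ℕ → A) (e' : ℕ → B), (∀ i, F (e i) (e' i)) → (sat S (trG δ q φ) e ↔ sat T φ e') := by
  have htri : ∀ {x y z : A} {a b c : B}, F x a → F y b → F z c → ∀ i, F (tri x y z i) (tri a b c i) := by
    intro x y z a b c hx hy hz i
    rcases i with _ | _ | i
    · exact hx
    · exact hy
    · exact hz
  induction φ with
  | bot => exact fun _ _ _ => Iff.rfl
  | imp a b iha ihb => exact fun e e' h => imp_congr (iha e e' h) (ihb e e' h)
  | all a ih =>
    intro e e' h
    rw [trG, sat_all, sat_all]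
    simp only [sat_imp, sat_sb, cons_zero, hdom]
    constructor
    · intro H b
      obtain ⟨x, hx⟩ := hsurj b
      refine (ih _ _ fun i => ?_).1 (H x ⟨b, hx⟩)
      rcases i with _ | i
      · exact hx
      · exact h i
    · rintro H x ⟨b, hx⟩
      refine (ih _ _ fun i => ?_).2 (H b)
      rcases i with _ | i
      · exact hx
      · exact h i
  | rl i u v w =>
    intro e e' h
    rw [trG, sat_sb, sat_rl]
    exact hrel i _ _ _ _ _ _ (h u) (h v) (h w)
  | sb a u v w ih =>
    intro e e' h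
    rw [trG, sat_sb, sat_sb]
    exact ih _ _ (htri (h u) (h v) (h w))

/-- Clamping of the variables. -/
def Fm.clamp (n : ℕ) (φ : Fm) : Fm := φ.ren (fun k => min k n)

theorem Vf_ren {φ : Fm} {f : ℕ → ℕ} {m : ℕ} (hf : ∀ k, f k < m) : (φ.ren f).Vf m := by
  induction φ generalizing m f with
  | bot => trivial
  | imp a b iha ihb => exact ⟨iha hf, ihb hf⟩
  | all a ih =>
    refine ih (m := m + 1) ?_
    intro k
    cases k with
    | zero => simp [liftR]
    | succ k => simp only [liftR]; have := hf k; omega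
  | rl i u v w => exact ⟨hf u, hf v, hf w⟩
  | sb a u v w ih => exact ⟨hf u, hf v, hf w⟩

theorem Vf_clamp (n : ℕ) (φ : Fm) : (φ.clamp n).Vf (n + 1) := Vf_ren fun k => by omega

theorem sat_clamp {M : Type} (S : Str M) (φ : Fm) (n : ℕ) (v : ℕ → M)
    (h : ∀ v v' : ℕ → M, (∀ k < n + 1, v k = v' k) → (sat S φ v ↔ sat S φ v')) :
    sat S (φ.clamp n) v ↔ sat S φ v := by
  rw [Fm.clamp, sat_ren]
  refine h _ _ fun k hk => ?_
  rw [show min k n = k by omega]

end Pool.Agent.Lib.MP_d999cd_lc
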