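import Pool.Agent.Lib.MP_d999cd_lc.Rep

/-!
# The value lemma
-/

set_option autoImplicit false

namespace Pool.Agent.Lib.MP_d999cd_lc

namespace ZM
variable {Z : Type} (B : ZM Z)

/-! ## Lists of objects as objects -/

theorem act_mkZ2 (g : Z) (l : List Z) : B.act g (B.mkZ l) = B.mkZ (l.map (B.act g)) := by
  induction l with
  | nil => exact B.act_pu g _ B.pu_lf
  | cons x l ih => rw [List.map_cons, mkZ, mkZ, B.act_nd, ih]

theorem mkZ_inj {l l' : List Z} (h : B.mkZ l = B.mkZ l') : l = l' := by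
  induction l generalizing l' with
  | nil =>
    cases l' with
    | nil => rfl
    | cons y l' => exact absurd h.symm (B.nd_ne _ _)
  | cons x l ih =>
    cases l' with
    | nil => exact absurd h (B.nd_ne _ _)
    | cons y l' =>
      obtain ⟨h1, h2⟩ := B.nd_inj _ _ _ _ h
      rw [h1, ih h2]

theorem inM_mkZiff {P : Z → Z → Prop} {l : List Z} : B.InM P (B.mkZ l) ↔ ∀ x ∈ l, B.InM P x := by
  induction l with
  | nil =>
    refine ⟨fun _ x hx => by simp at hx, fun _ => B.inM_lf P⟩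
  | cons x l ih =>
    rw [mkZ, B.inM_nd, ih]
    simp

theorem lift_list {P : Z → Z → Prop} (l : List Z) (h : ∀ x ∈ l, B.InM P x) :
    ∃ t : List (B.MP P), t.map Subtype.val = l := by
  induction l with
  | nil => exact ⟨[], rfl⟩
  | cons x l ih =>
    obtain ⟨t, ht⟩ := ih fun y hy => h y (List.mem_cons_of_mem _ hy)
    exact ⟨⟨x, h x (List.mem_cons_self ..)⟩ :: t, by rw [List.map_cons, ht]⟩

theorem inM_list {P : Z → Z → Prop} (t : List (B.MP P)) : B.InM P (B.mkZ (t.map Subtype.val)) := by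
  rw [inM_mkZiff]
  intro x hx
  obtain ⟨y, _, rfl⟩ := List.mem_map.1 hx
  exact y.2

theorem agr_refl (j : ℕ) (P : Z → Z → Prop) : B.Agr j P P := fun _ _ _ => Iff.rfl

/-- A map that exchanges `b` and `act g b` exists and preserves the same types as `g`. -/
theorem exists_swap {z g b : Z} (hg : B.Good z g) (hd : ∀ w, B.Oc w b → ¬ B.Oc w (B.act g b)) :
    ∃ h, B.Good z h ∧ B.act h b = B.act g b ∧ B.act h (B.act g b) = b := by
  obtain ⟨h, h1, h2, h3⟩ := B.exch g b hd
  refine ⟨h, fun w hw hz => ?_, h1, h2⟩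
  rcases h3 w hw with h4 | h4 | h4
  · rw [h4]; exact hg w hw hz
  · have := hg (B.act h w) ((B.act_oc h w w).2 hw) (by rwa [B.act_lev])
    rw [h4] at this
    exact this.symm
  · rw [h4]

/-- Tuples of the domain are mapped to tuples of the domain. -/
theorem dom_act {P : Z → Z → Prop} {τ : Tld} {j : ℕ} (h1 : τ.dm.qd ≤ j) {g : Z}
    (hg : B.Good (B.zl j) g) {t t' : List (B.MP P)}
    (ht : t'.map Subtype.val = t.map (fun x => B.act g x.1))
    (hd : τ.Dom (B.MStr P) (B.lfM P) t) : τ.Dom (B.MStr P) (B.lfM P) t' := by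
  refine ⟨?_, (B.EF_list (B.agr_refl j P) hg τ.dm h1 t t' ht).1 hd.2⟩
  have := congrArg List.length ht
  rw [List.length_map, List.length_map] at this
  rw [this, hd.1]

/-- The value lemma for tuples without common nodes. -/
theorem value_disj {P : Z → Z → Prop} {τ : Tld} {N : Type} {T : Str N} {F : List (B.MP P) → N}
    (hI : τ.Ind (B.MStr P) (B.lfM P) T F) {s : ℕ} (htot : ∀ x y, T.rel s x y y ∨ T.rel s y x x)
    (hanti : ∀ x y, T.rel s x y y → T.rel s y x x → x = y) {j : ℕ} (h1 : τ.dm.qd ≤ j)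
    (h2 : (τ.q s).qd ≤ j) {g : Z} (hg : B.Good (B.zl j) g) {t t' : List (B.MP P)}
    (ht : t'.map Subtype.val = t.map (fun x => B.act g x.1))
    (hd : τ.Dom (B.MStr P) (B.lfM P) t)
    (hdis : ∀ w, B.Oc w (B.mkZ (t.map Subtype.val)) → ¬ B.Oc w (B.mkZ (t'.map Subtype.val))) :
    F t = F t' := by
  have hd' := B.dom_act h1 hg ht hd
  have e0 : B.act g (B.mkZ (t.map Subtype.val)) = B.mkZ (t'.map Subtype.val) := by
    rw [act_mkZ2, ht, List.map_map]; rfl
  obtain ⟨h, hh, e1, e2⟩ := B.exists_swap (b := B.mkZ (t.map Subtype.val)) hg (by rwa [e0])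
  rw [e0] at e1 e2
  rw [act_mkZ2] at e1 e2
  have e3 := (B.mkZ_inj e1).symm
  have e4 := (B.mkZ_inj e2).symm
  rw [List.map_map] at e3 e4
  have e5 := B.EF_list (B.agr_refl j P) hh (τ.q s) h2 (t ++ t' ++ t') (t' ++ t ++ t) (by
    simp only [List.map_append]
    rw [e3, e4]
    rfl)
  rw [← hI.rel s t t' t' hd hd' hd', ← hI.rel s t' t t hd' hd hd] at e5
  rcases htot (F t) (F t') with h6 | h6
  · exact hanti _ _ h6 (e5.1 h6)
  · exact hanti _ _ (e5.2 h6) h6

/-- Value lemma: if the relation `s` of `T` is total and antisymmetric, then tuples of `M_P` that are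
related by a map that preserves the types at the levels `≤ j` represent the same element. -/
theorem value {P : Z → Z → Prop} {τ : Tld} {N : Type} {T : Str N} {F : List (B.MP P) → N}
    (hI : τ.Ind (B.MStr P) (B.lfM P) T F) {s : ℕ} (htot : ∀ x y, T.rel s x y y ∨ T.rel s y x x)
    (hanti : ∀ x y, T.rel s x y y → T.rel s y x x → x = y) {j : ℕ} (h1 : τ.dm.qd ≤ j)
    (h2 : (τ.q s).qd ≤ j) {g : Z} (hg : B.Good (B.zl j) g) {t t' : List (B.MP P)}
    (ht : t'.map Subtype.val = t.map (fun x => B.act g x.1))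
    (hd : τ.Dom (B.MStr P) (B.lfM P) t) : F t = F t' := by
  obtain ⟨i, hi⟩ := B.act_id
  have hii : B.Good (B.zl (j + 1)) i := fun w _ _ => by rw [hi]
  obtain ⟨k, hk, _, hkM, hkd⟩ := B.ext_aux (P := P) (P' := P) (B.agr_refl (j + 1) P) (a := B.lf)
    (c := B.mkZ (t.map Subtype.val))
    (B.nd (B.mkZ (t.map Subtype.val)) (B.mkZ (t'.map Subtype.val))) hii
    (by rw [hi]; exact B.inM_lf P) (B.inM_list t)
  rw [act_mkZ2, inM_mkZiff] at hkM
  obtain ⟨t'', ht''⟩ := B.lift_list _ hkM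
  rw [List.map_map] at ht''
  have ekt : B.act k (B.mkZ (t.map Subtype.val)) = B.mkZ (t''.map Subtype.val) := by
    rw [act_mkZ2, ht'', List.map_map]
  have hdis : ∀ w, B.Oc w (B.mkZ (t''.map Subtype.val)) → ¬ (B.Oc w (B.mkZ (t.map Subtype.val)) ∨
      B.Oc w (B.mkZ (t'.map Subtype.val))) := by
    intro w hw hw'
    refine hkd w (by rwa [ekt]) ?_ ((B.oc_nd _ _ _).2 hw')
    rw [hi]
    exact B.oc_pu _ _ B.pu_lf
  have e1 : F t = F t'' := B.value_disj hI htot hanti h1 h2 hk ht'' hd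
    (fun w hw hw' => hdis w hw' (Or.inl hw))
  obtain ⟨gi, hgi1, hgi2⟩ := B.act_inv g
  obtain ⟨m, hm⟩ := B.act_comp k gi
  have hmG : B.Good (B.zl j) m := B.good_comp hk (B.good_inv hg hgi2) hm
  have hd' := B.dom_act h1 hg ht hd
  have e2 : F t' = F t'' := by
    refine B.value_disj hI htot hanti h1 h2 hmG ?_ hd' (fun w hw hw' => hdis w hw' (Or.inr hw))
    have : t'.map (fun x => B.act m x.1) = (t'.map Subtype.val).map (B.act m) := by
      rw [List.map_map]; rfl
    rw [this, ht, ht'', List.map_map]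
    refine List.map_congr_left fun x _ => ?_
    simp only [Function.comp, hm, hgi1]
  rw [e1, e2]

end ZM

end Pool.Agent.Lib.MP_d999cd_lc
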