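import Pool.Agent.Lib.MP_d999cd_lc.TrG

/-!
# The base theory

`ZM Z`: models of the base theory (functional presentation).  Objects are built from `lf`, `nd`
(pairs, lists, numerals), nodes and maps.  Every node `w` has a level `lev w` (a numeral), a type
(`A w` or not), and is either a top node (`Top n x w`, `n` is its level, `x` its label) or a child
(`Par v w`) of a node.  `act g` is the total bijection coded by `g`.  `Oc w b`: the node `w` occurs in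
`b` or is an ancestor of a node that occurs in `b`.
-/

set_option autoImplicit false

namespace Pool.Agent.Lib.MP_d999cd_lc

structure ZM (Z : Type) where
  lf : Z
  nd : Z → Z → Z
  Pu : Z → Prop
  Q : Z → Z → Prop
  Mem : Z → Z → Prop
  Oc : Z → Z → Prop
  A : Z → Prop
  lev : Z → Z
  Par : Z → Z → Prop
  Top : Z → Z → Z → Prop
  act : Z → Z → Z
  nd_inj : ∀ a b c d, nd a b = nd c d → a = c ∧ b = d
  nd_ne : ∀ a b, nd a b ≠ lf
  mem_lf : ∀ x, ¬ Mem x lf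
  mem_nd : ∀ x a b, Mem x (nd a b) ↔ x = a ∨ Mem x b
  pu_lf : Pu lf
  pu_nd : ∀ a b, Pu (nd a b) ↔ Pu a ∧ Pu b
  oc_nd : ∀ w a b, Oc w (nd a b) ↔ Oc w a ∨ Oc w b
  oc_pu : ∀ w x, Pu x → ¬ Oc w x
  oc_self : ∀ w b, Oc w b → Oc w w
  oc_par : ∀ v w b, Oc w b → Par v w → Oc v b
  par_oc : ∀ v w, Par v w → Oc w w
  par_uniq : ∀ v v' w, Par v w → Par v' w → v = v'
  par_top : ∀ v w n x, Par v w → ¬ Top n x w
  top_oc : ∀ n x w, Top n x w → Oc w w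
  top_pu : ∀ n x w, Top n x w → Pu n ∧ Pu x
  top_lev : ∀ n x w, Top n x w → lev w = n
  top_uniq : ∀ n x n' x' w, Top n x w → Top n' x' w → x = x'
  act_nd : ∀ g a b, act g (nd a b) = nd (act g a) (act g b)
  act_pu : ∀ g x, Pu x → act g x = x
  act_mem : ∀ g x y, Mem (act g x) (act g y) ↔ Mem x y
  act_oc : ∀ g x y, Oc (act g x) (act g y) ↔ Oc x y
  act_par : ∀ g x y, Par (act g x) (act g y) ↔ Par x y
  act_top : ∀ g n x w, Top n x (act g w) ↔ Top n x w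
  act_lev : ∀ g w, lev (act g w) = lev w
  act_inv : ∀ g, ∃ h, (∀ x, act h (act g x) = x) ∧ ∀ x, act g (act h x) = x
  act_comp : ∀ g h, ∃ k, ∀ x, act k x = act g (act h x)
  act_id : ∃ g, ∀ x, act g x = x
  act_fix : ∀ g b w, act g b = b → Oc w b → act g w = w
  ext : ∀ z b c d, ∃ k, (∀ w, Mem (lev w) z → (A (act k w) ↔ A w)) ∧ act k b = b ∧
    ∀ w, Oc w (act k c) → Oc w b ∨ ((Mem (lev w) z ∨ ¬ A w) ∧ ¬ Oc w d)
  exch : ∀ g b, (∀ w, Oc w b → ¬ Oc w (act g b)) → ∃ h, act h b = act g b ∧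
    act h (act g b) = b ∧ ∀ w, Oc w w → act h w = act g w ∨ act g (act h w) = w ∨ act h w = w
  topA : ∀ l x, Pu l → Pu x → ∃ w, Top l x w ∧ A w ∧ ∀ u, Oc u w → u = w
  chA : ∀ v l, Oc v v → lev v = nd lf l →
    ∃ w, Par v w ∧ A w ∧ lev w = l ∧ ∀ u, Oc u w → u = w ∨ Oc u v

/-- The base theory, first-order form.  Symbols: 0 Nil, 1 Cons, 2 Eq, 3 Pure, 4 Q, 5 Mem, 6 Oc, 7 A,
8 lev, 9 Par, 10 Top, 11 act. -/
def ZAx {Z : Type} (S : Str Z) : Prop :=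
  (∃ x, S.rel 0 x x x) ∧
  (∀ x y, S.rel 0 x x x → S.rel 0 y y y → S.rel 2 x y y) ∧
  (∀ a b, ∃ z, S.rel 1 a b z) ∧
  (∀ a b z z', S.rel 1 a b z → S.rel 1 a b z' → S.rel 2 z z' z') ∧
  (∀ a b c d z, S.rel 1 a b z → S.rel 1 c d z → S.rel 2 a c c ∧ S.rel 2 b d d) ∧
  (∀ a b z, S.rel 1 a b z → ¬ S.rel 0 z z z) ∧
  (∀ x y, S.rel 0 y y y → ¬ S.rel 5 x y y) ∧
  (∀ x a b z, S.rel 1 a b z → (S.rel 5 x z z ↔ S.rel 2 x a a ∨ S.rel 5 x b b)) ∧
  (∀ x, S.rel 0 x x x → S.rel 3 x x x) ∧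
  (∀ a b z, S.rel 1 a b z → (S.rel 3 z z z ↔ S.rel 3 a a a ∧ S.rel 3 b b b)) ∧
  (∀ w a b z, S.rel 1 a b z → (S.rel 6 w z z ↔ S.rel 6 w a a ∨ S.rel 6 w b b)) ∧
  (∀ w x, S.rel 3 x x x → ¬ S.rel 6 w x x) ∧
  (∀ w b, S.rel 6 w b b → S.rel 6 w w w) ∧
  (∀ v w b, S.rel 6 w b b → S.rel 9 v w w → S.rel 6 v b b) ∧
  (∀ v w, S.rel 9 v w w → S.rel 6 w w w) ∧
  (∀ v v' w, S.rel 9 v w w → S.rel 9 v' w w → S.rel 2 v v' v') ∧
  (∀ v w n x, S.rel 9 v w w → ¬ S.rel 10 n x w) ∧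
  (∀ n x w, S.rel 10 n x w → S.rel 6 w w w) ∧
  (∀ n x w, S.rel 10 n x w → S.rel 3 n n n ∧ S.rel 3 x x x) ∧
  (∀ n x w, S.rel 10 n x w → S.rel 8 w n n) ∧
  (∀ n x n' x' w, S.rel 10 n x w → S.rel 10 n' x' w → S.rel 2 x x' x') ∧
  (∀ w, ∃ l, S.rel 8 w l l) ∧
  (∀ w l l', S.rel 8 w l l → S.rel 8 w l' l' → S.rel 2 l l' l') ∧
  (∀ g x, ∃ y, S.rel 11 g x y) ∧
  (∀ g x y y', S.rel 11 g x y → S.rel 11 g x y' → S.rel 2 y y' y') ∧
  (∀ g a b z a' b' z', S.rel 1 a b z → S.rel 11 g a a' → S.rel 11 g b b' → S.rel 11 g z z' →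
    S.rel 1 a' b' z') ∧
  (∀ g x, S.rel 3 x x x → S.rel 11 g x x) ∧
  (∀ g x y x' y', S.rel 11 g x x' → S.rel 11 g y y' → (S.rel 5 x' y' y' ↔ S.rel 5 x y y)) ∧
  (∀ g x y x' y', S.rel 11 g x x' → S.rel 11 g y y' → (S.rel 6 x' y' y' ↔ S.rel 6 x y y)) ∧
  (∀ g x y x' y', S.rel 11 g x x' → S.rel 11 g y y' → (S.rel 9 x' y' y' ↔ S.rel 9 x y y)) ∧
  (∀ g n x w w', S.rel 11 g w w' → (S.rel 10 n x w' ↔ S.rel 10 n x w)) ∧
  (∀ g w w' l, S.rel 11 g w w' → S.rel 8 w l l → S.rel 8 w' l l) ∧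
  (∀ g, ∃ h, ∀ x y, S.rel 11 g x y ↔ S.rel 11 h y x) ∧
  (∀ g h, ∃ k, ∀ x y z, S.rel 11 h x y → S.rel 11 g y z → S.rel 11 k x z) ∧
  (∃ g, ∀ x, S.rel 11 g x x) ∧
  (∀ g b w, S.rel 11 g b b → S.rel 6 w b b → S.rel 11 g w w) ∧
  (∀ z b c d, ∃ k, (∀ w w' l, S.rel 11 k w w' → S.rel 8 w l l → S.rel 5 l z z →
      (S.rel 7 w' w' w' ↔ S.rel 7 w w w)) ∧ S.rel 11 k b b ∧
    ∀ c' w, S.rel 11 k c c' → S.rel 6 w c' c' → S.rel 6 w b b ∨
      (((∃ l, S.rel 8 w l l ∧ S.rel 5 l z z) ∨ ¬ S.rel 7 w w w) ∧ ¬ S.rel 6 w d d)) ∧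
  (∀ g b b', S.rel 11 g b b' → (∀ w, S.rel 6 w b b → ¬ S.rel 6 w b' b') → ∃ h, S.rel 11 h b b' ∧
    S.rel 11 h b' b ∧ ∀ w w', S.rel 6 w w w → S.rel 11 h w w' →
      S.rel 11 g w w' ∨ S.rel 11 g w' w ∨ S.rel 2 w' w w) ∧
  (∀ l x, S.rel 3 l l l → S.rel 3 x x x → ∃ w, S.rel 10 l x w ∧ S.rel 7 w w w ∧
    ∀ u, S.rel 6 u w w → S.rel 2 u w w) ∧
  (∀ v l m z, S.rel 6 v v v → S.rel 8 v m m → S.rel 0 z z z → S.rel 1 z l m →
    ∃ w, S.rel 9 v w w ∧ S.rel 7 w w w ∧ S.rel 8 w l l ∧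
      ∀ u, S.rel 6 u w w → S.rel 2 u w w ∨ S.rel 6 u v v)

namespace ZM
variable {Z : Type} (B : ZM Z)

/-- The structure `S` is the presentation of `B` (canonical argument patterns). -/
structure Fits (S : Str Z) : Prop where
  f0 : ∀ x, S.rel 0 x x x ↔ x = B.lf
  f1 : ∀ x y z, S.rel 1 x y z ↔ z = B.nd x y
  f2 : ∀ x y z, S.rel 2 x y z ↔ x = y
  f3 : ∀ x, S.rel 3 x x x ↔ B.Pu x
  f4 : ∀ x y, S.rel 4 x y y ↔ B.Q x y
  f5 : ∀ x y, S.rel 5 x y y ↔ B.Mem x y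
  f6 : ∀ x y, S.rel 6 x y y ↔ B.Oc x y
  f7 : ∀ x, S.rel 7 x x x ↔ B.A x
  f8 : ∀ x y, S.rel 8 x y y ↔ B.lev x = y
  f9 : ∀ x y, S.rel 9 x y y ↔ B.Par x y
  f10 : ∀ x y z, S.rel 10 x y z ↔ B.Top x y z
  f11 : ∀ x y z, S.rel 11 x y z ↔ B.act x y = z

/-- The relations of the base theory. -/
def rl (i : ℕ) (x y z : Z) : Prop :=
  match i with
  | 0 => x = B.lf
  | 1 => z = B.nd x y
  | 2 => x = y
  | 3 => B.Pu x
  | 4 => B.Q x y
  | 5 => B.Mem x y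
  | 6 => B.Oc x y
  | 7 => B.A x
  | 8 => B.lev x = y
  | 9 => B.Par x y
  | 10 => B.Top x y z
  | 11 => B.act x y = z
  | _ => False

def str : Str Z where rel := B.rl

theorem fits_str : B.Fits B.str where
  f0 _ := Iff.rfl
  f1 _ _ _ := Iff.rfl
  f2 _ _ _ := Iff.rfl
  f3 _ := Iff.rfl
  f4 _ _ := Iff.rfl
  f5 _ _ := Iff.rfl
  f6 _ _ := Iff.rfl
  f7 _ := Iff.rfl
  f8 _ _ := Iff.rfl
  f9 _ _ := Iff.rfl
  f10 _ _ _ := Iff.rfl
  f11 _ _ _ := Iff.rfl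

/-- Names of standard trees. -/
def el : Tr → Z
  | .nil => B.lf
  | .node a b => B.nd (el a) (el b)

/-- Codes `⟨r, a, b, c⟩`. -/
def cd (r : ℕ) (a b c : Z) : Z := B.nd (B.el (num r)) (B.nd a (B.nd b c))

/-- The tree of the list `[j, ..., 1, 0]`. -/
def zlT : ℕ → Tr
  | 0 => .node (num 0) .nil
  | j + 1 => .node (num (j + 1)) (zlT j)

/-- The list of the levels `0, ..., j`. -/
def zl (j : ℕ) : Z := B.el (zlT j)

theorem el_inj {s t : Tr} (h : B.el s = B.el t) : s = t := by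
  induction s generalizing t with
  | nil =>
    cases t with
    | nil => rfl
    | node a b => exact absurd h.symm (B.nd_ne _ _)
  | node a b iha ihb =>
    cases t with
    | nil => exact absurd h (B.nd_ne _ _)
    | node c d =>
      obtain ⟨h1, h2⟩ := B.nd_inj _ _ _ _ h
      rw [iha h1, ihb h2]

theorem pu_el (t : Tr) : B.Pu (B.el t) := by
  induction t with
  | nil => exact B.pu_lf
  | node a b iha ihb => exact (B.pu_nd _ _).2 ⟨iha, ihb⟩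

theorem mem_zl (j : ℕ) (x : Z) : B.Mem x (B.zl j) ↔ ∃ k ≤ j, x = B.el (num k) := by
  induction j with
  | zero =>
    simp only [zl, zlT, el, B.mem_nd, B.mem_lf, or_false]
    constructor
    · intro h; exact ⟨0, le_rfl, h⟩
    · rintro ⟨k, hk, h⟩
      rw [Nat.le_zero.1 hk] at h
      exact h
  | succ j ih =>
    simp only [zl, zlT, el, B.mem_nd] at ih ⊢
    rw [ih]
    constructor
    · rintro (h | ⟨k, hk, h⟩)
      · exact ⟨j + 1, le_rfl, h⟩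
      · exact ⟨k, by omega, h⟩
    · rintro ⟨k, hk, h⟩
      rcases Nat.lt_or_ge j k with h1 | h1
      · left; rw [h, show k = j + 1 by omega]
      · exact Or.inr ⟨k, h1, h⟩

/-- The map `g` preserves the types of the nodes whose level is in the list `z`. -/
def Good (z g : Z) : Prop := ∀ w, B.Oc w w → B.Mem (B.lev w) z → (B.A (B.act g w) ↔ B.A w)

/-- Legal nodes. -/
def Leg (P : Z → Z → Prop) (w : Z) : Prop :=
  (B.A w → (∀ v, B.Par v w → ¬ B.A v) ∧ ∀ n x, B.Top n x w → P n x) ∧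
  (B.lev w = B.lf → B.A w) ∧ (∀ v, B.Par v w → B.lev v = B.nd B.lf (B.lev w))

/-- Objects all of whose nodes are legal. -/
def InM (P : Z → Z → Prop) (b : Z) : Prop := ∀ w, B.Oc w b → B.Leg P w

/-- The universe of `M_P`. -/
abbrev MP (P : Z → Z → Prop) : Type := {b : Z // B.InM P b}

/-- Agreement on the levels below `j`. -/
def Agr (j : ℕ) (P P' : Z → Z → Prop) : Prop := ∀ k < j, ∀ x, P (B.el (num k)) x ↔ P' (B.el (num k)) x

theorem inM_lf (P : Z → Z → Prop) : B.InM P B.lf := fun w h => absurd h (B.oc_pu w _ B.pu_lf)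

theorem inM_pu {P : Z → Z → Prop} {x : Z} (h : B.Pu x) : B.InM P x := fun w hw => absurd hw (B.oc_pu w _ h)

theorem inM_nd {P : Z → Z → Prop} {a b : Z} : B.InM P (B.nd a b) ↔ B.InM P a ∧ B.InM P b := by
  simp only [InM, B.oc_nd]
  exact ⟨fun h => ⟨fun w hw => h w (Or.inl hw), fun w hw => h w (Or.inr hw)⟩,
    fun h w hw => hw.elim (h.1 w) (h.2 w)⟩

/-- The default element of `M_P`. -/
def lfM (P : Z → Z → Prop) : B.MP P := ⟨B.lf, B.inM_lf P⟩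

/-- The relation symbols of the language of `U`. -/
def LUs : List ℕ := [0, 1, 2, 3, 5, 9, 10]

/-- The structure `M_P`. -/
def MStr (P : Z → Z → Prop) : Str (B.MP P) where
  rel i x y z := i ∈ LUs ∧ B.rl i x.1 y.1 z.1

/-- Lists of objects as objects. -/
def mkZ : List Z → Z
  | [] => B.lf
  | x :: l => B.nd x (mkZ l)

end ZM

/-- The environment of a list, with default `x0`. -/
def lst {M : Type} (x0 : M) (l : List M) : ℕ → M := fun k => l.getD k x0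

end Pool.Agent.Lib.MP_d999cd_lc
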