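import Pool.Agent.Lib.MP_d999cd_lc.ZSpec

/-!
# The standard model of the base theory: definitions
-/

set_option autoImplicit false

namespace Pool.Agent.Lib.MP_d999cd_lc

namespace Std

/-- Raw nodes: top nodes with label `(n, x)`, index `i`, type `s` (`true` = type A); children. -/
inductive Nd : Type
  | top : Tr → Tr → ℕ → Bool → Nd
  | ch : Nd → ℕ → Bool → Nd

/-- Predecessor of a numeral. -/
def predT : Tr → Tr
  | .node .nil l => l
  | _ => .nil

/-- Level. -/
def Nd.lev : Nd → Tr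
  | .top n _ _ _ => n
  | .ch v _ _ => predT v.lev

/-- Type; `true` is type A. -/
def Nd.ty : Nd → Bool
  | .top _ _ _ s => s
  | .ch _ _ s => s

/-- `u.anc v`: `u` is `v` or an ancestor of `v`. -/
def Nd.anc (u : Nd) : Nd → Prop
  | .top n x i s => u = .top n x i s
  | .ch v i s => u = .ch v i s ∨ Nd.anc u v

/-- Homomorphisms of the forest of raw nodes. -/
def IsH (f : Nd → Nd) : Prop :=
  (∀ n x i s, ∃ i' s', f (.top n x i s) = .top n x i' s') ∧
  ∀ v i s, ∃ i' s', f (.ch v i s) = .ch (f v) i' s'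

/-- Automorphisms of the forest of raw nodes (types are not preserved). -/
structure TM : Type where
  f : Nd → Nd
  g : Nd → Nd
  hf : IsH f
  hg : IsH g
  fg : ∀ v, f (g v) = v
  gf : ∀ v, g (f v) = v

/-- Objects. -/
inductive Ob : Type
  | lf : Ob
  | nd : Ob → Ob → Ob
  | node : Nd → Ob
  | map : TM → Ob

/-- Apply a map of nodes to an object. -/
def Ob.app (f : Nd → Nd) : Ob → Ob
  | .lf => .lf
  | .nd a b => .nd (a.app f) (b.app f)
  | .node v => .node (f v)
  | .map t => .map t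

/-- Action. -/
def actO : Ob → Ob → Ob
  | .map t, x => x.app t.f
  | _, x => x

/-- The node `u` occurs in the object. -/
def Ob.oc (u : Nd) : Ob → Prop
  | .lf => False
  | .nd a b => Ob.oc u a ∨ Ob.oc u b
  | .node v => u.anc v
  | .map _ => False

/-- Standard trees as objects. -/
def emb : Tr → Ob
  | .nil => .lf
  | .node a b => .nd (emb a) (emb b)

def MemO (x : Ob) : Ob → Prop
  | .nd a b => x = a ∨ MemO x b
  | _ => False

def OcO (w b : Ob) : Prop := ∃ u, w = .node u ∧ b.oc u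
def AO (w : Ob) : Prop := ∃ v : Nd, w = .node v ∧ v.ty = true
def levO : Ob → Ob
  | .node v => emb v.lev
  | _ => .lf
def ParO (v w : Ob) : Prop := ∃ u i s, v = .node u ∧ w = .node (.ch u i s)
def TopO (n x w : Ob) : Prop := ∃ n' x' i s, n = emb n' ∧ x = emb x' ∧ w = .node (.top n' x' i s)
def PuO (x : Ob) : Prop := ∃ t, x = emb t
def QO (H : Str Tr) (n x : Ob) : Prop := ∃ j r a b c, n = emb (num j) ∧
  x = emb (.node (num r) (.node a (.node b c))) ∧ H.rel r a b c

/-- Extension property of the raw forest. -/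
def Spec_ext : Prop := ∀ (L : Tr → Prop) (b c d : Ob), ∃ t : TM,
  (∀ v : Nd, L v.lev → (t.f v).ty = v.ty) ∧ b.app t.f = b ∧
  ∀ u : Nd, Ob.oc u (c.app t.f) → Ob.oc u b ∨ ((L u.lev ∨ u.ty = false) ∧ ¬ Ob.oc u d)

/-- Exchange property of the raw forest. -/
def Spec_exch : Prop := ∀ (t : TM) (b : Ob), (∀ u, Ob.oc u b → ¬ Ob.oc u (b.app t.f)) →
  ∃ h : TM, b.app h.f = b.app t.f ∧ (b.app t.f).app h.f = b ∧
    ∀ v, h.f v = t.f v ∨ t.f (h.f v) = v ∨ h.f v = v

/-- Assembly. -/
def Spec_asm : Prop := Spec_ext → Spec_exch → Spec_zstd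

end Std

end Pool.Agent.Lib.MP_d999cd_lc
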